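import Mathlib
import Pool.Agent.Helper436.SN.StmtG

set_option autoImplicit false
set_option linter.unusedSectionVars false

open MeasureTheory
open scoped ComplexConjugate InnerProductSpace

noncomputable section

namespace Pool.Agent.H710R2.FF

/-! ## Matrices and the Haar measure of the unitary group -/

/-- complex `N × N` matrices -/
abbrev Mt (N : ℕ) : Type := Matrix (Fin N) (Fin N) ℂ

/-- the unitary group `U(N)` -/
abbrev UN (N : ℕ) : Type := Matrix.unitaryGroup (Fin N) ℂ

instance measUN (N : ℕ) : MeasurableSpace (UN N) := borel _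

instance borelUN (N : ℕ) : BorelSpace (UN N) := ⟨rfl⟩

instance compactUN (N : ℕ) : CompactSpace (UN N) := by
  have hcl : IsClosed ((Matrix.unitaryGroup (Fin N) ℂ : Set (Matrix (Fin N) (Fin N) ℂ))) := by
    have : (Matrix.unitaryGroup (Fin N) ℂ : Set (Matrix (Fin N) (Fin N) ℂ)) =
        {A | A * star A = 1} := by
      ext A
      exact Matrix.mem_unitaryGroup_iff
    rw [this]
    exact isClosed_eq (continuous_id.mul continuous_star) continuous_const
  have hsub : (Matrix.unitaryGroup (Fin N) ℂ : Set (Matrix (Fin N) (Fin N) ℂ)) ⊆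
      Set.pi Set.univ (fun _ : Fin N => Set.pi Set.univ
        (fun _ : Fin N => Metric.closedBall (0 : ℂ) 1)) := by
    intro A hA i _ j _
    rw [mem_closedBall_zero_iff]
    exact entry_norm_bound_of_unitary hA i j
  have hc : IsCompact (Set.pi Set.univ
      (fun _ : Fin N => Set.pi Set.univ (fun _ : Fin N => Metric.closedBall (0 : ℂ) 1))) :=
    isCompact_univ_pi fun _ => isCompact_univ_pi fun _ => isCompact_closedBall _ _
  exact isCompact_iff_compactSpace.mp (hc.of_isClosed_subset hcl hsub)

/-- The Haar probability measure of `U(N)`. -/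
def mu (N : ℕ) : Measure (UN N) := Measure.haarMeasure ⊤

instance probMu (N : ℕ) : IsProbabilityMeasure (mu N) := by
  refine ⟨?_⟩
  have := Measure.haarMeasure_self (K₀ := (⊤ : TopologicalSpace.PositiveCompacts (UN N)))
  simpa [mu] using this

instance haarMu (N : ℕ) : (mu N).IsHaarMeasure := by
  unfold mu
  infer_instance

instance rightInvMu (N : ℕ) : (mu N).IsMulRightInvariant := ⟨fun g => by
  have : IsProbabilityMeasure (Measure.map (· * g) (mu N)) :=
    Measure.isProbabilityMeasure_map (continuous_mul_const g).aemeasurable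
  exact Measure.isHaarMeasure_eq_of_isProbabilityMeasure _ _⟩

instance invInvMu (N : ℕ) : (mu N).IsInvInvariant := ⟨by
  have h2 : IsProbabilityMeasure (mu N).inv :=
    Measure.isProbabilityMeasure_map continuous_inv.aemeasurable
  have h3 := Measure.isMulInvariant_eq_smul_of_compactSpace (mu N).inv (mu N)
  have h4 : (mu N).inv Set.univ =
      (Measure.haarScalarFactor (mu N).inv (mu N) • mu N) Set.univ := by rw [← h3]
  rw [Measure.smul_apply, measure_univ, measure_univ, ENNReal.smul_def, smul_eq_mul, mul_one] at h4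
  have h5 : Measure.haarScalarFactor (mu N).inv (mu N) = 1 := by exact_mod_cast h4.symm
  rw [h3, h5, one_smul]⟩

/-- the product Haar measure on `U(N)^ι` -/
abbrev PP (ι : Type) [Fintype ι] (N : ℕ) : Measure (ι → UN N) := Measure.pi fun _ : ι => mu N

/-- normalised trace -/
def ntr {N : ℕ} (X : Mt N) : ℂ := (N : ℂ)⁻¹ * X.trace

/-- normalised squared Hilbert–Schmidt norm -/
def hs2 {N : ℕ} (X : Mt N) : ℝ := (N : ℝ)⁻¹ * ∑ i, ∑ j, ‖X i j‖ ^ 2

open scoped Matrix.Norms.L2Operator in
/-- operator norm -/
def opn {N : ℕ} (X : Mt N) : ℝ := ‖X‖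

/-! ## Words in unitary matrices and constant matrices -/

/-- A letter `(i, e, D)` stands for `U_i D` (if `e`) or `U_i^* D` (otherwise). -/
abbrev Lt (ι : Type) (N : ℕ) : Type := ι × Bool × Mt N

section words

variable {ι : Type} {N : ℕ}

/-- `U_i` or its adjoint -/
def lit (U : ι → UN N) (i : ι) (e : Bool) : Mt N := if e then (U i : Mt N) else star (U i : Mt N)

/-- evaluation of a word -/
def ev (U : ι → UN N) (w : List (Lt ι N)) : Mt N := (w.map fun l => lit U l.1 l.2.1 * l.2.2).prod

/-- normalised trace of a word -/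
def T (U : ι → UN N) (w : List (Lt ι N)) : ℂ := ntr (ev U w)

/-- product of the normalised traces of a list of words -/
def TR (U : ι → UN N) (R : List (List (Lt ι N))) : ℂ := (R.map (T U)).prod

/-- product of the operator norms of the constant matrices of a word -/
def wt (w : List (Lt ι N)) : ℝ := (w.map fun l => opn l.2.2).prod

def wtR (R : List (List (Lt ι N))) : ℝ := (R.map wt).prod

/-- total number of letters -/
def lenR (R : List (List (Lt ι N))) : ℕ := (R.map List.length).sum

/-- whenever two consecutive letters would cancel, the matrix between them has trace zero -/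
def Good (w : List (Lt ι N)) : Prop :=
  w.IsChain fun l l' => l.1 = l'.1 → l.2.1 ≠ l'.2.1 → ntr l.2.2 = 0

end words

/-! ## Noncommutative polynomials -/

/-- the complex group algebra of the free group on `m` generators -/
abbrev FA (m : ℕ) : Type := MonoidAlgebra ℂ (FreeGroup (Fin m))

/-- evaluation of an element of the group algebra at a tuple of unitary matrices -/
def evV {m N : ℕ} (V : Fin m → UN N) : FA m →ₐ[ℂ] Mt N :=
  MonoidAlgebra.lift ℂ (Mt N) (FreeGroup (Fin m))
    ((Matrix.unitaryGroup (Fin N) ℂ).subtype.comp (FreeGroup.lift V))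

/-- the adjoint in the group algebra -/
def fst' {m : ℕ} (b : FA m) : FA m := b.coeff.sum fun g c => MonoidAlgebra.single g⁻¹ (conj c)

/-- the canonical trace of the group algebra -/
def tau {m : ℕ} (b : FA m) : ℂ := b.coeff 1

/-- word in `b_i` (for `(i, true)`) and `b_i^*` (for `(i, false)`) -/
def wordF {m n : ℕ} (b : Fin n → FA m) (f : List (Fin n × Bool)) : FA m :=
  (f.map fun x => if x.2 then b x.1 else fst' (b x.1)).prod

section noise

variable {m n N : ℕ}

/-- the first group of unitaries -/
def Vp (U : Fin m ⊕ Fin n → UN N) : Fin m → UN N := fun j => U (Sum.inl j)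

/-- the noise `Z_i D_i Z_i^*` or its adjoint -/
def noise (D : Fin n → UN N) (U : Fin m ⊕ Fin n → UN N) (i : Fin n) (e : Bool) : Mt N :=
  (U (Sum.inr i) : Mt N) * (if e then (D i : Mt N) else star (D i : Mt N)) *
    star (U (Sum.inr i) : Mt N)

/-- `ntr D_i` or its conjugate -/
def nph (D : Fin n → UN N) (i : Fin n) (e : Bool) : ℂ :=
  if e then ntr (D i : Mt N) else conj (ntr (D i : Mt N))

/-- the centred noise -/
def cnoise (D : Fin n → UN N) (U : Fin m ⊕ Fin n → UN N) (i : Fin n) (e : Bool) : Mt N :=
  noise D U i e - nph D i e • (1 : Mt N)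

/-- one noisy letter: `b_i(V) W_i` or `W_i^* b_i(V)^*` -/
def tok (b : Fin n → FA m) (D : Fin n → UN N) (U : Fin m ⊕ Fin n → UN N)
    (x : Fin n × Bool) : Mt N :=
  if x.2 then evV (Vp U) (b x.1) * noise D U x.1 true
  else noise D U x.1 false * evV (Vp U) (fst' (b x.1))

/-- product of noisy letters -/
def tokP (b : Fin n → FA m) (D : Fin n → UN N) (U : Fin m ⊕ Fin n → UN N)
    (f : List (Fin n × Bool)) : Mt N := (f.map (tok b D U)).prod

/-- product of the scalars `ntr D_i` along a word -/
def phP (D : Fin n → UN N) (f : List (Fin n × Bool)) : ℂ := (f.map fun x => nph D x.1 x.2).prod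

end noise

/-- noise level: `D` is unitary, within `r` of `1` in the normalised Hilbert–Schmidt norm and its
normalised trace has imaginary part at most `1 / N` -/
def Qr (N : ℕ) (r : ℝ) : Set (UN N) :=
  {D | hs2 ((D : Mt N) - 1) ≤ r ^ 2 ∧ |(ntr (D : Mt N)).im| ≤ (N : ℝ)⁻¹}

/-- Cayley transform `(1 + i x)(1 - i x)⁻¹` -/
def cay {A : Type} [Ring A] [Module ℂ A] (x : A) : A :=
  (1 + Complex.I • x) * Ring.inverse (1 - Complex.I • x)

/-! ## The operator side -/

open Pool.Agent.Helper278 Pool.Agent.Helper436.SN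

/-- right translations on `ℓ²(G)`: `(ρ_g f)(h) = f(h g)` -/
def rightReg (G : Type) [Group G] (g : G) : EllTwo G →L[ℂ] EllTwo G := permOp (Equiv.mulRight g)

/-- the commutant of the right translations -/
def RC (G : Type) [Group G] : Set (EllTwo G →L[ℂ] EllTwo G) :=
  {x | ∀ g, x * rightReg G g = rightReg G g * x}

/-- the 2-norm `‖x δ_e‖` -/
def n2 {G : Type} [Group G] (x : EllTwo G →L[ℂ] EllTwo G) : ℝ := ‖x (dirac G)‖

/-- the trace `⟨δ_e, x δ_e⟩` -/
def tr {G : Type} [Group G] (x : EllTwo G →L[ℂ] EllTwo G) : ℂ := ⟪dirac G, x (dirac G)⟫_ℂ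

/-- the left regular representation extended to the group algebra -/
def lamA (m : ℕ) : FA m →ₐ[ℂ] (EllTwo (FreeGroup (Fin m)) →L[ℂ] EllTwo (FreeGroup (Fin m))) :=
  MonoidAlgebra.lift ℂ _ (FreeGroup (Fin m))
    { toFun := fun g => leftReg (FreeGroup (Fin m)) g
      map_one' := by
        ext f h
        show f ((1 : FreeGroup (Fin m))⁻¹ * h) = f h
        rw [inv_one, one_mul]
      map_mul' := fun g g' => by
        ext f h
        show f ((g * g')⁻¹ * h) = f (g'⁻¹ * (g⁻¹ * h))
        rw [mul_inv_rev, mul_assoc] }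

/-- word in the operators `a_i` and their adjoints -/
def wordO {H : Type} [NormedAddCommGroup H] [InnerProductSpace ℂ H] [CompleteSpace H] {n : ℕ}
    (a : Fin n → H →L[ℂ] H) (f : List (Fin n × Bool)) : H →L[ℂ] H :=
  (f.map fun x => if x.2 then a x.1 else star (a x.1)).prod

end Pool.Agent.H710R2.FF
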