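import Mathlib
import Pool.Agent.H710R2.FF.Defs

set_option autoImplicit false
set_option linter.unusedSectionVars false

open MeasureTheory
open scoped ComplexConjugate InnerProductSpace

noncomputable section

namespace Pool.Agent.H710R2.FF

/-! ### BAS: basic facts -/
section BAS
variable {N : ℕ}

theorem ntr_add (X Y : Mt N) : ntr (X + Y) = ntr X + ntr Y := by
  simp only [ntr, Matrix.trace_add, mul_add]

theorem ntr_sub (X Y : Mt N) : ntr (X - Y) = ntr X - ntr Y := by
  simp only [ntr, Matrix.trace_sub, mul_sub]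

theorem ntr_smul (c : ℂ) (X : Mt N) : ntr (c • X) = c * ntr X := by
  simp only [ntr, Matrix.trace_smul, smul_eq_mul]
  ring

theorem ntr_mul_comm (X Y : Mt N) : ntr (X * Y) = ntr (Y * X) := by
  simp only [ntr, Matrix.trace_mul_comm X Y]

theorem ntr_one (hN : 0 < N) : ntr (1 : Mt N) = 1 := by
  have : (N : ℂ) ≠ 0 := by exact_mod_cast hN.ne'
  simp only [ntr, Matrix.trace_one, Fintype.card_fin]
  exact inv_mul_cancel₀ this

theorem ntr_star (X : Mt N) : ntr (star X) = conj (ntr X) := by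
  simp only [ntr, Matrix.star_eq_conjTranspose, Matrix.trace_conjTranspose, map_mul, map_inv₀,
    Complex.conj_natCast]
  rfl

section opnorm
open scoped Matrix.Norms.L2Operator

theorem opn_nonneg (X : Mt N) : 0 ≤ opn X := norm_nonneg _

theorem opn_add (X Y : Mt N) : opn (X + Y) ≤ opn X + opn Y := norm_add_le X Y

theorem opn_sub (X Y : Mt N) : opn (X - Y) ≤ opn X + opn Y := norm_sub_le X Y

theorem opn_mul (X Y : Mt N) : opn (X * Y) ≤ opn X * opn Y := norm_mul_le X Y

theorem opn_smul (c : ℂ) (X : Mt N) : opn (c • X) = ‖c‖ * opn X := norm_smul c X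

theorem opn_star (X : Mt N) : opn (star X) = opn X := norm_star X

theorem opn_one : opn (1 : Mt N) ≤ 1 := by
  unfold opn
  rcases Nat.eq_zero_or_pos N with rfl | hN
  · have : (1 : Mt 0) = 0 := Subsingleton.elim _ _
    rw [this, norm_zero]
    exact zero_le_one
  · have : Nonempty (Fin N) := ⟨⟨0, hN⟩⟩
    rw [CStarRing.norm_one]

theorem opn_unitary (U : UN N) : opn (U : Mt N) ≤ 1 := by
  have h1 : star (U : Mt N) * (U : Mt N) = 1 := Unitary.coe_star_mul_self U
  have h2 : opn (U : Mt N) * opn (U : Mt N) ≤ 1 := by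
    have h3 : ‖star (U : Mt N) * (U : Mt N)‖ = ‖(U : Mt N)‖ * ‖(U : Mt N)‖ :=
      CStarRing.norm_star_mul_self
    rw [h1] at h3
    have h4 : ‖(1 : Mt N)‖ ≤ 1 := opn_one
    rw [h3] at h4
    exact h4
  have h0 := opn_nonneg (U : Mt N)
  nlinarith

theorem col_le (A : Mt N) (x : Fin N → ℂ) :
    ∑ i, ‖(A.mulVec x) i‖ ^ 2 ≤ opn A ^ 2 * ∑ i, ‖x i‖ ^ 2 := by
  have h := Matrix.l2_opNorm_mulVec A (WithLp.toLp 2 x)
  have h2 : ‖(EuclideanSpace.equiv (Fin N) ℂ).symm (A.mulVec x)‖ ≤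
      opn A * ‖(WithLp.toLp 2 x : EuclideanSpace ℂ (Fin N))‖ := h
  have h3 := pow_le_pow_left₀ (norm_nonneg _) h2 2
  rw [mul_pow, EuclideanSpace.norm_sq_eq, EuclideanSpace.norm_sq_eq] at h3
  exact h3

theorem continuous_opn : Continuous (opn : Mt N → ℝ) := by
  unfold opn
  exact continuous_norm

end opnorm

theorem hs2_nonneg (X : Mt N) : 0 ≤ hs2 X := by
  unfold hs2
  positivity

theorem hs2_zero : hs2 (0 : Mt N) = 0 := by
  simp [hs2]

theorem hs2_smul (c : ℂ) (X : Mt N) : hs2 (c • X) = ‖c‖ ^ 2 * hs2 X := by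
  simp only [hs2, Matrix.smul_apply, smul_eq_mul, norm_mul, mul_pow, ← Finset.mul_sum]
  ring

theorem hs2_star (X : Mt N) : hs2 (star X) = hs2 X := by
  simp only [hs2, Matrix.star_apply, norm_star]
  rw [Finset.sum_comm]

theorem hs2_mul_left (A X : Mt N) : hs2 (A * X) ≤ opn A ^ 2 * hs2 X := by
  unfold hs2
  have h : ∑ i, ∑ j, ‖(A * X) i j‖ ^ 2 ≤ opn A ^ 2 * ∑ i, ∑ j, ‖X i j‖ ^ 2 := by
    rw [Finset.sum_comm, Finset.sum_comm (f := fun i j => ‖X i j‖ ^ 2), Finset.mul_sum]
    apply Finset.sum_le_sum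
    intro j _
    have := col_le A (fun i => X i j)
    exact this
  have hN : (0 : ℝ) ≤ (N : ℝ)⁻¹ := by positivity
  calc (N : ℝ)⁻¹ * ∑ i, ∑ j, ‖(A * X) i j‖ ^ 2
      ≤ (N : ℝ)⁻¹ * (opn A ^ 2 * ∑ i, ∑ j, ‖X i j‖ ^ 2) := mul_le_mul_of_nonneg_left h hN
    _ = opn A ^ 2 * ((N : ℝ)⁻¹ * ∑ i, ∑ j, ‖X i j‖ ^ 2) := by ring

theorem hs2_mul_right (X A : Mt N) : hs2 (X * A) ≤ opn A ^ 2 * hs2 X := by
  rw [← hs2_star (X * A), star_mul]
  have h := hs2_mul_left (star A) (star X)
  rw [opn_star, hs2_star X] at h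
  exact h

theorem hs2_unitary_mul (U : UN N) (X : Mt N) : hs2 ((U : Mt N) * X) = hs2 X := by
  apply le_antisymm
  · have h := hs2_mul_left (U : Mt N) X
    have h1 := opn_unitary U
    have h0 := opn_nonneg (U : Mt N)
    have h2 := hs2_nonneg X
    have h3 : opn (U : Mt N) ^ 2 ≤ 1 := pow_le_one₀ h0 h1
    nlinarith
  · have h := hs2_mul_left (star (U : Mt N)) ((U : Mt N) * X)
    rw [← mul_assoc, Unitary.coe_star_mul_self U, one_mul, opn_star] at h
    have h1 := opn_unitary U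
    have h0 := opn_nonneg (U : Mt N)
    have h2 := hs2_nonneg ((U : Mt N) * X)
    have h3 : opn (U : Mt N) ^ 2 ≤ 1 := pow_le_one₀ h0 h1
    nlinarith

theorem hs2_mul_unitary (U : UN N) (X : Mt N) : hs2 (X * (U : Mt N)) = hs2 X := by
  rw [← hs2_star (X * (U : Mt N)), star_mul, ← hs2_star X]
  have h := hs2_unitary_mul (star U) (star X)
  rw [Unitary.coe_star] at h
  exact h

theorem hs2_le_opn (X : Mt N) : hs2 X ≤ opn X ^ 2 := by
  have h := hs2_mul_left X (1 : Mt N)
  rw [mul_one] at h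
  have h1 : hs2 (1 : Mt N) ≤ 1 := by
    have h2 : ∀ i : Fin N, ∑ j, ‖(1 : Mt N) i j‖ ^ 2 = 1 := by
      intro i
      rw [Finset.sum_eq_single i]
      · simp
      · intro j _ hj
        simp [Matrix.one_apply_ne hj.symm]
      · intro h; exact absurd (Finset.mem_univ _) h
    unfold hs2
    rw [Finset.sum_congr rfl (fun i _ => h2 i)]
    rw [Finset.sum_const, Finset.card_univ, Fintype.card_fin, nsmul_eq_mul, mul_one]
    rcases Nat.eq_zero_or_pos N with rfl | hN
    · simp
    · have : (N : ℝ) ≠ 0 := by exact_mod_cast hN.ne'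
      rw [inv_mul_cancel₀ this]
  have h3 : 0 ≤ opn X ^ 2 := sq_nonneg _
  nlinarith

theorem norm_ntr_sq_le (X : Mt N) : ‖ntr X‖ ^ 2 ≤ hs2 X := by
  unfold ntr hs2
  rcases Nat.eq_zero_or_pos N with rfl | hN
  · simp
  have hN' : (0 : ℝ) < N := by exact_mod_cast hN
  rw [norm_mul, norm_inv, Complex.norm_natCast, mul_pow]
  have h1 : ‖X.trace‖ ≤ ∑ i, ‖X i i‖ := norm_sum_le _ _
  have h2 : (∑ i, ‖X i i‖) ^ 2 ≤ N * ∑ i, ‖X i i‖ ^ 2 := by
    have := sq_sum_le_card_mul_sum_sq (s := (Finset.univ : Finset (Fin N)))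
      (f := fun i => ‖X i i‖)
    simpa using this
  have h3 : ∑ i, ‖X i i‖ ^ 2 ≤ ∑ i, ∑ j, ‖X i j‖ ^ 2 := by
    apply Finset.sum_le_sum
    intro i _
    exact Finset.single_le_sum (f := fun j => ‖X i j‖ ^ 2) (fun j _ => sq_nonneg _)
      (Finset.mem_univ i)
  have h4 : ‖X.trace‖ ^ 2 ≤ N * ∑ i, ∑ j, ‖X i j‖ ^ 2 := by
    calc ‖X.trace‖ ^ 2 ≤ (∑ i, ‖X i i‖) ^ 2 := pow_le_pow_left₀ (norm_nonneg _) h1 2
      _ ≤ N * ∑ i, ‖X i i‖ ^ 2 := h2
      _ ≤ N * ∑ i, ∑ j, ‖X i j‖ ^ 2 := mul_le_mul_of_nonneg_left h3 hN'.le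
  calc (N : ℝ)⁻¹ ^ 2 * ‖X.trace‖ ^ 2 ≤ (N : ℝ)⁻¹ ^ 2 * (N * ∑ i, ∑ j, ‖X i j‖ ^ 2) :=
        mul_le_mul_of_nonneg_left h4 (by positivity)
    _ = (N : ℝ)⁻¹ * ∑ i, ∑ j, ‖X i j‖ ^ 2 := by
        field_simp

theorem norm_ntr_le (X : Mt N) : ‖ntr X‖ ≤ opn X := by
  have h := (norm_ntr_sq_le X).trans (hs2_le_opn X)
  exact (sq_le_sq₀ (norm_nonneg _) (opn_nonneg X)).1 h

theorem hs2_eq (X : Mt N) : (hs2 X : ℂ) = ntr (star X * X) := by
  unfold hs2 ntr
  rw [Complex.ofReal_mul, Complex.ofReal_inv, Complex.ofReal_natCast]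
  congr 1
  rw [Matrix.trace, Complex.ofReal_sum]
  simp only [Complex.ofReal_sum]
  rw [Finset.sum_comm]
  apply Finset.sum_congr rfl
  intro j _
  rw [Matrix.diag_apply, Matrix.mul_apply]
  apply Finset.sum_congr rfl
  intro i _
  rw [Matrix.star_apply, RCLike.star_def, RCLike.conj_mul]
  simp

/-- the vector of the entries -/
def vec (X : Mt N) : EuclideanSpace ℂ (Fin N × Fin N) := WithLp.toLp 2 fun p => X p.1 p.2

theorem vec_add (X Y : Mt N) : vec (X + Y) = vec X + vec Y := rfl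
theorem vec_sub (X Y : Mt N) : vec (X - Y) = vec X - vec Y := rfl

theorem sqrt_hs2 (X : Mt N) : √(hs2 X) = √((N : ℝ)⁻¹) * ‖vec X‖ := by
  unfold hs2
  rw [Real.sqrt_mul (by positivity)]
  congr 1
  rw [EuclideanSpace.norm_eq]
  congr 1
  rw [Fintype.sum_prod_type]
  rfl

theorem sqrt_hs2_add (X Y : Mt N) : √(hs2 (X + Y)) ≤ √(hs2 X) + √(hs2 Y) := by
  rw [sqrt_hs2, sqrt_hs2, sqrt_hs2, vec_add, ← mul_add]
  exact mul_le_mul_of_nonneg_left (norm_add_le _ _) (Real.sqrt_nonneg _)

theorem sqrt_hs2_sub (X Y : Mt N) : √(hs2 (X - Y)) ≤ √(hs2 X) + √(hs2 Y) := by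
  rw [sqrt_hs2, sqrt_hs2, sqrt_hs2, vec_sub, ← mul_add]
  exact mul_le_mul_of_nonneg_left (norm_sub_le _ _) (Real.sqrt_nonneg _)

theorem continuous_ntr : Continuous (ntr : Mt N → ℂ) := by
  unfold ntr
  exact continuous_const.mul (Continuous.matrix_trace continuous_id)

theorem continuous_hs2 : Continuous (hs2 : Mt N → ℝ) := by
  unfold hs2
  refine continuous_const.mul (continuous_finsetSum _ fun i _ => continuous_finsetSum _
    fun j _ => ?_)
  exact (continuous_norm.comp (continuous_id.matrix_elem i j)).pow 2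

variable {ι : Type}

theorem continuous_lit (i : ι) (e : Bool) : Continuous fun U : ι → UN N => lit U i e := by
  unfold lit
  cases e
  · simp only [Bool.false_eq_true, if_false]
    exact (continuous_subtype_val.comp (continuous_apply i)).star
  · simp only [if_true]
    exact continuous_subtype_val.comp (continuous_apply i)

theorem continuous_ev (w : List (Lt ι N)) : Continuous fun U : ι → UN N => ev U w := by
  induction w with
  | nil => simp only [ev, List.map_nil, List.prod_nil]; exact continuous_const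
  | cons l w ih =>
    simp only [ev, List.map_cons, List.prod_cons] at ih ⊢
    exact ((continuous_lit l.1 l.2.1).mul continuous_const).mul ih

theorem continuous_T (w : List (Lt ι N)) : Continuous fun U : ι → UN N => T U w := by
  unfold T
  exact continuous_ntr.comp (continuous_ev w)

theorem continuous_TR (R : List (List (Lt ι N))) : Continuous fun U : ι → UN N => TR U R := by
  induction R with
  | nil => simp only [TR, List.map_nil, List.prod_nil]; exact continuous_const
  | cons w R ih =>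
    simp only [TR, List.map_cons, List.prod_cons] at ih ⊢
    exact (continuous_T w).mul ih

theorem wt_nonneg (w : List (Lt ι N)) : 0 ≤ wt w := by
  unfold wt
  apply List.prod_nonneg
  intro x hx
  obtain ⟨l, _, rfl⟩ := List.mem_map.1 hx
  exact opn_nonneg _

theorem wtR_nonneg (R : List (List (Lt ι N))) : 0 ≤ wtR R := by
  unfold wtR
  apply List.prod_nonneg
  intro x hx
  obtain ⟨l, _, rfl⟩ := List.mem_map.1 hx
  exact wt_nonneg _

theorem opn_lit_le (U : ι → UN N) (i : ι) (e : Bool) : opn (lit U i e) ≤ 1 := by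
  unfold lit
  cases e
  · simp only [Bool.false_eq_true, if_false, opn_star]
    exact opn_unitary _
  · simp only [if_true]
    exact opn_unitary _

theorem opn_ev_le (U : ι → UN N) (w : List (Lt ι N)) : opn (ev U w) ≤ wt w := by
  induction w with
  | nil => simpa [ev, wt] using (opn_one (N := N))
  | cons l w ih =>
    simp only [ev, wt, List.map_cons, List.prod_cons] at ih ⊢
    have h1 := opn_mul (lit U l.1 l.2.1 * l.2.2) ((w.map fun l => lit U l.1 l.2.1 * l.2.2).prod)
    have h2 := opn_mul (lit U l.1 l.2.1) l.2.2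
    have h3 := opn_lit_le U l.1 l.2.1
    have h4 := opn_nonneg l.2.2
    have h5 : opn (lit U l.1 l.2.1 * l.2.2) ≤ opn l.2.2 := by nlinarith
    exact h1.trans (mul_le_mul h5 ih (opn_nonneg _) h4)

theorem norm_T_le (U : ι → UN N) (w : List (Lt ι N)) : ‖T U w‖ ≤ wt w :=
  (norm_ntr_le _).trans (opn_ev_le U w)

theorem norm_TR_le (U : ι → UN N) (R : List (List (Lt ι N))) : ‖TR U R‖ ≤ wtR R := by
  induction R with
  | nil => simp [TR, wtR]
  | cons w R ih =>
    simp only [TR, wtR, List.map_cons, List.prod_cons] at ih ⊢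
    rw [norm_mul]
    exact mul_le_mul (norm_T_le U w) ih (norm_nonneg _) (wt_nonneg w)

theorem ev_append (U : ι → UN N) (w w' : List (Lt ι N)) :
    ev U (w ++ w') = ev U w * ev U w' := by
  simp only [ev, List.map_append, List.prod_append]

theorem integrable_cont [Fintype ι] {E : Type} [NormedAddCommGroup E] {F : (ι → UN N) → E}
    (hF : Continuous F) : Integrable F (PP ι N) := by
  have h2 : SecondCountableTopology (UN N) := by
    have : SecondCountableTopology (Mt N) :=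
      inferInstanceAs (SecondCountableTopology (Fin N → Fin N → ℂ))
    exact TopologicalSpace.Subtype.secondCountableTopology _
  have h3 : BorelSpace (ι → UN N) := Pi.borelSpace
  exact hF.integrable_of_hasCompactSupport (HasCompactSupport.of_compactSpace F)

end BAS

end Pool.Agent.H710R2.FF
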