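import Mathlib
import Pool.Agent.H710R2.FF.Defs
import Pool.Agent.H710R2.FF.Basic

/-!
Cayley transform facts (task CAY of helper710).
-/

set_option autoImplicit false
set_option linter.unusedSectionVars false

open MeasureTheory
open scoped ComplexConjugate InnerProductSpace

noncomputable section

namespace Pool.Agent.H710R2.FF

section gen

variable {A : Type} [CStarAlgebra A]

lemma cay_den_ne {z : ℂ} (h : z = (z.re : ℂ)) : 1 - Complex.I * z ≠ 0 := by
  rw [h]
  intro h0
  have := congrArg Complex.re h0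
  simp at this

lemma cay_cfc_num (x : A) (hx : IsSelfAdjoint x) :
    cfc (fun z : ℂ => 1 + Complex.I * z) x = 1 + Complex.I • x := by
  have hn : IsStarNormal x := hx.isStarNormal
  rw [cfc_const_add (1 : ℂ) (fun z => Complex.I * z) x, cfc_const_mul_id Complex.I x, map_one]

lemma cay_cfc_den (x : A) (hx : IsSelfAdjoint x) :
    cfc (fun z : ℂ => 1 - Complex.I * z) x = 1 - Complex.I • x := by
  have hn : IsStarNormal x := hx.isStarNormal
  rw [cfc_sub (fun _ => (1 : ℂ)) (fun z => Complex.I * z) x, cfc_const_mul_id Complex.I x,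
    cfc_const_one ℂ x]

lemma cay_cfc (x : A) (hx : IsSelfAdjoint x) :
    cay x = cfc (fun z : ℂ => (1 + Complex.I * z) / (1 - Complex.I * z)) x := by
  have hn : IsStarNormal x := hx.isStarNormal
  rw [cfc_map_div (fun z : ℂ => 1 + Complex.I * z) (fun z : ℂ => 1 - Complex.I * z) x
    (fun z hz => cay_den_ne (hx.mem_spectrum_eq_re hz)), cay_cfc_num x hx, cay_cfc_den x hx, cay]

lemma cay_isUnit (x : A) (hx : IsSelfAdjoint x) : IsUnit (1 - Complex.I • x) := by
  have hn : IsStarNormal x := hx.isStarNormal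
  rw [← cay_cfc_den x hx, isUnit_cfc_iff (fun z : ℂ => 1 - Complex.I * z) x]
  exact fun z hz => cay_den_ne (hx.mem_spectrum_eq_re hz)

lemma cay_inv_norm (x : A) (hx : IsSelfAdjoint x) :
    ‖Ring.inverse (1 - Complex.I • x)‖ ≤ 1 := by
  have hn : IsStarNormal x := hx.isStarNormal
  rw [← cay_cfc_den x hx, ← cfc_inv (fun z : ℂ => 1 - Complex.I * z) x
    (fun z hz => cay_den_ne (hx.mem_spectrum_eq_re hz))]
  refine norm_cfc_le zero_le_one (fun z hz => ?_)
  have h := hx.mem_spectrum_eq_re hz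
  rw [norm_inv]
  refine inv_le_one_of_one_le₀ ?_
  have h2 : (1 - Complex.I * z).re = 1 := by rw [h]; simp
  calc (1 : ℝ) = |(1 - Complex.I * z).re| := by rw [h2, abs_one]
    _ ≤ ‖1 - Complex.I * z‖ := Complex.abs_re_le_norm _

/-- polynomial approximation of the Cayley transform, uniform over all C*-algebras -/
theorem cay_poly (R ε : ℝ) (_ : 0 ≤ R) (hε : 0 < ε) : ∃ p : Polynomial ℂ,
    ∀ (A : Type) [CStarAlgebra A] (x : A), IsSelfAdjoint x → ‖x‖ ≤ R →
      ‖Polynomial.aeval x p - cay x‖ ≤ ε := by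
  have hc1 : Continuous (fun t : ℝ => (1 - t ^ 2) / (1 + t ^ 2)) := by
    refine Continuous.div (by fun_prop) (by fun_prop) (fun t => ?_)
    positivity
  have hc2 : Continuous (fun t : ℝ => 2 * t / (1 + t ^ 2)) := by
    refine Continuous.div (by fun_prop) (by fun_prop) (fun t => ?_)
    positivity
  obtain ⟨p1, h1⟩ := exists_polynomial_near_of_continuousOn (-R) R _ hc1.continuousOn (ε / 2)
    (by linarith)
  obtain ⟨p2, h2⟩ := exists_polynomial_near_of_continuousOn (-R) R _ hc2.continuousOn (ε / 2)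
    (by linarith)
  refine ⟨p1.map (algebraMap ℝ ℂ) + Polynomial.C Complex.I * p2.map (algebraMap ℝ ℂ), ?_⟩
  intro A _ x hx hxR
  have hn : IsStarNormal x := hx.isStarNormal
  have hcont : ContinuousOn (fun z : ℂ => (1 + Complex.I * z) / (1 - Complex.I * z))
      (spectrum ℂ x) := by
    refine ContinuousOn.div (by fun_prop) (by fun_prop) (fun z hz => ?_)
    exact cay_den_ne (hx.mem_spectrum_eq_re hz)
  rw [cay_cfc x hx, ← cfc_polynomial _ x, ← cfc_sub _ _ x (by fun_prop) hcont]
  refine norm_cfc_le hε.le (fun z hz => ?_)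
  have hz1 := hx.mem_spectrum_eq_re hz
  have hz2 : ‖z‖ ≤ R := by
    rcases subsingleton_or_nontrivial A with hA | hA
    · simp at hz
    · exact (spectrum.norm_le_norm_of_mem hz).trans hxR
  set t : ℝ := z.re with ht
  have ht1 : t ∈ Set.Icc (-R) R := by
    rw [hz1, Complex.norm_real, Real.norm_eq_abs, abs_le] at hz2
    exact hz2
  have g1 := h1 t ht1
  have g2 := h2 t ht1
  have hf : (1 + Complex.I * z) / (1 - Complex.I * z) =
      (((1 - t ^ 2) / (1 + t ^ 2) : ℝ) : ℂ) + Complex.I * ((2 * t / (1 + t ^ 2) : ℝ) : ℂ) := by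
    have hd : (1 - Complex.I * z) ≠ 0 := cay_den_ne hz1
    have hd2 : ((1 : ℂ) + (t : ℂ) ^ 2) ≠ 0 := by
      have : (0 : ℝ) < 1 + t ^ 2 := by positivity
      exact_mod_cast this.ne'
    rw [hz1] at hd ⊢
    push_cast
    field_simp
    ring_nf
    simp only [Complex.I_sq]
    ring
  have hp : (p1.map (algebraMap ℝ ℂ) + Polynomial.C Complex.I * p2.map (algebraMap ℝ ℂ)).eval z =
      ((p1.eval t : ℝ) : ℂ) + Complex.I * ((p2.eval t : ℝ) : ℂ) := by
    rw [hz1, Polynomial.eval_add, Polynomial.eval_mul, Polynomial.eval_C]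
    congr 1
    · rw [Polynomial.eval_map, ← Polynomial.aeval_def, ← Complex.coe_algebraMap,
        Polynomial.aeval_algebraMap_apply_eq_algebraMap_eval]
    · rw [Polynomial.eval_map, ← Polynomial.aeval_def, ← Complex.coe_algebraMap,
        Polynomial.aeval_algebraMap_apply_eq_algebraMap_eval]
  rw [hp, hf]
  have e1 : ((p1.eval t : ℝ) : ℂ) + Complex.I * ((p2.eval t : ℝ) : ℂ) -
      ((((1 - t ^ 2) / (1 + t ^ 2) : ℝ) : ℂ) + Complex.I * ((2 * t / (1 + t ^ 2) : ℝ) : ℂ)) =
      ((p1.eval t - (1 - t ^ 2) / (1 + t ^ 2) : ℝ) : ℂ) +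
        Complex.I * ((p2.eval t - 2 * t / (1 + t ^ 2) : ℝ) : ℂ) := by
    push_cast; ring
  rw [e1]
  refine (norm_add_le _ _).trans ?_
  rw [norm_mul, Complex.norm_I, one_mul, Complex.norm_real, Complex.norm_real, Real.norm_eq_abs,
    Real.norm_eq_abs]
  linarith

lemma cay_mem_gen (x : A) (hx : IsSelfAdjoint x) : star (cay x) * cay x = 1 := by
  set u : A := 1 - Complex.I • x with hu
  set v : A := 1 + Complex.I • x with hv
  set w : A := Ring.inverse u with hw
  have hU := cay_isUnit x hx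
  have h1 : u * w = 1 := Ring.mul_inverse_cancel _ hU
  have h2 : w * u = 1 := Ring.inverse_mul_cancel _ hU
  have hsu : star u = v := by
    rw [hu, hv, star_sub, star_one, star_smul, hx.star_eq, Complex.star_def, Complex.conj_I,
      neg_smul, sub_neg_eq_add]
  have hsv : star v = u := by rw [← hsu, star_star]
  have hc : u * v = v * u := by
    rw [hu, hv]
    generalize Complex.I • x = y
    noncomm_ring
  have h3 : star w * v = 1 := by rw [← hsu, ← star_mul, h1, star_one]
  have hcay : cay x = v * w := rfl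
  rw [hcay, star_mul, hsv]
  calc star w * u * (v * w) = star w * (u * v) * w := by noncomm_ring
    _ = (star w * v) * (u * w) := by rw [hc]; noncomm_ring
    _ = 1 := by rw [h3, h1, one_mul]

end gen

open scoped Matrix.Norms.L2Operator

theorem cay_mem {N : ℕ} (K : Mt N) (hK : K.IsHermitian) :
    cay K ∈ Matrix.unitaryGroup (Fin N) ℂ := by
  rw [Matrix.mem_unitaryGroup_iff']
  exact cay_mem_gen K hK

lemma cay_sub {N : ℕ} (K K' : Mt N) (hK : K.IsHermitian) (hK' : K'.IsHermitian) :
    cay K - cay K' = (2 * Complex.I) • (Ring.inverse (1 - Complex.I • K) * (K - K') *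
      Ring.inverse (1 - Complex.I • K')) := by
  have hU := cay_isUnit K hK
  have hU' := cay_isUnit K' hK'
  have h1 : (1 - Complex.I • K) * Ring.inverse (1 - Complex.I • K) = 1 :=
    Ring.mul_inverse_cancel _ hU
  have h2 : Ring.inverse (1 - Complex.I • K) * (1 - Complex.I • K) = 1 :=
    Ring.inverse_mul_cancel _ hU
  have h3 : (1 - Complex.I • K') * Ring.inverse (1 - Complex.I • K') = 1 :=
    Ring.mul_inverse_cancel _ hU'
  set w := Ring.inverse (1 - Complex.I • K) with hw
  set w' := Ring.inverse (1 - Complex.I • K') with hw'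
  have e1 : cay K = 2 • w - 1 := by
    have : cay K = (1 + Complex.I • K) * w := rfl
    rw [this, show (1 : Mt N) + Complex.I • K = 2 • 1 - (1 - Complex.I • K) by
      rw [two_smul]; abel, sub_mul, h1, smul_mul_assoc, one_mul]
  have e2 : cay K' = 2 • w' - 1 := by
    have : cay K' = (1 + Complex.I • K') * w' := rfl
    rw [this, show (1 : Mt N) + Complex.I • K' = 2 • 1 - (1 - Complex.I • K') by
      rw [two_smul]; abel, sub_mul, h3, smul_mul_assoc, one_mul]
  have e3 : w - w' = Complex.I • (w * (K - K') * w') := by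
    calc w - w' = w * ((1 - Complex.I • K') * w') - (w * (1 - Complex.I • K)) * w' := by
          rw [h3, h2, mul_one, one_mul]
      _ = w * ((1 - Complex.I • K') - (1 - Complex.I • K)) * w' := by noncomm_ring
      _ = w * (Complex.I • (K - K')) * w' := by
          congr 2
          rw [smul_sub]; abel
      _ = _ := by rw [mul_smul_comm, smul_mul_assoc]
  rw [e1, e2]
  calc 2 • w - 1 - (2 • w' - 1) = 2 • (w - w') := by rw [smul_sub]; abel
    _ = _ := by
      rw [e3, two_smul, two_mul, add_smul]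

theorem cay_lip {N : ℕ} (K K' : Mt N) (hK : K.IsHermitian) (hK' : K'.IsHermitian) :
    hs2 (cay K - cay K') ≤ 4 * hs2 (K - K') := by
  rw [cay_sub K K' hK hK', hs2_smul]
  have h1 := hs2_mul_right (Ring.inverse (1 - Complex.I • K) * (K - K'))
    (Ring.inverse (1 - Complex.I • K'))
  have h2 := hs2_mul_left (Ring.inverse (1 - Complex.I • K)) (K - K')
  have h3 : opn (Ring.inverse (1 - Complex.I • K)) ≤ 1 := cay_inv_norm K hK
  have h4 : opn (Ring.inverse (1 - Complex.I • K')) ≤ 1 := cay_inv_norm K' hK'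
  have h5 := opn_nonneg (Ring.inverse (1 - Complex.I • K))
  have h6 := opn_nonneg (Ring.inverse (1 - Complex.I • K'))
  have h7 := hs2_nonneg (K - K')
  have h8 := hs2_nonneg (Ring.inverse (1 - Complex.I • K) * (K - K'))
  have h9 : opn (Ring.inverse (1 - Complex.I • K)) ^ 2 ≤ 1 := pow_le_one₀ h5 h3
  have h10 : opn (Ring.inverse (1 - Complex.I • K')) ^ 2 ≤ 1 := pow_le_one₀ h6 h4
  have h11 : ‖(2 * Complex.I)‖ ^ 2 = 4 := by
    rw [norm_mul, Complex.norm_I]; norm_num
  rw [h11]
  nlinarith [mul_le_mul_of_nonneg_right h9 h7, mul_le_mul_of_nonneg_right h10 h8]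

theorem cay_lower {N : ℕ} (K K' : Mt N) (hK : K.IsHermitian) (hK' : K'.IsHermitian) (L : ℝ)
    (hL : opn K ≤ L) (hL' : opn K' ≤ L) :
    hs2 (K - K') ≤ (1 + L) ^ 4 * hs2 (cay K - cay K') := by
  have hU := cay_isUnit K hK
  have hU' := cay_isUnit K' hK'
  have h1 : (1 - Complex.I • K) * Ring.inverse (1 - Complex.I • K) = 1 :=
    Ring.mul_inverse_cancel _ hU
  have h2 : Ring.inverse (1 - Complex.I • K') * (1 - Complex.I • K') = 1 :=
    Ring.inverse_mul_cancel _ hU'
  have h0 : 0 ≤ L := (opn_nonneg K).trans hL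
  have e1 : K - K' = (2 * Complex.I)⁻¹ • ((1 - Complex.I • K) * (cay K - cay K') *
      (1 - Complex.I • K')) := by
    rw [cay_sub K K' hK hK', mul_smul_comm, smul_mul_assoc, smul_smul, inv_mul_cancel₀ (by simp),
      one_smul]
    calc K - K' = ((1 - Complex.I • K) * Ring.inverse (1 - Complex.I • K)) * (K - K') *
          (Ring.inverse (1 - Complex.I • K') * (1 - Complex.I • K')) := by
          rw [h1, h2, one_mul, mul_one]
      _ = _ := by simp only [mul_assoc]
  have h3 : ∀ Z : Mt N, opn Z ≤ L → opn (1 - Complex.I • Z) ≤ 1 + L := by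
    intro Z hZ
    refine (opn_sub _ _).trans ?_
    rw [opn_smul, Complex.norm_I, one_mul]
    exact add_le_add opn_one hZ
  have hD := hs2_nonneg (cay K - cay K')
  have hh1 := hs2_mul_right ((1 - Complex.I • K) * (cay K - cay K')) (1 - Complex.I • K')
  have hh2 := hs2_mul_left (1 - Complex.I • K) (cay K - cay K')
  have hh3 : opn (1 - Complex.I • K) ^ 2 ≤ (1 + L) ^ 2 :=
    pow_le_pow_left₀ (opn_nonneg _) (h3 K hL) 2
  have hh4 : opn (1 - Complex.I • K') ^ 2 ≤ (1 + L) ^ 2 :=
    pow_le_pow_left₀ (opn_nonneg _) (h3 K' hL') 2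
  have hn : ‖(2 * Complex.I)⁻¹‖ ^ 2 ≤ 1 := by
    rw [norm_inv, norm_mul, Complex.norm_I]; norm_num
  have h4 : hs2 (K - K') = ‖(2 * Complex.I)⁻¹‖ ^ 2 * hs2 ((1 - Complex.I • K) *
      (cay K - cay K') * (1 - Complex.I • K')) := by
    rw [← hs2_smul, ← e1]
  rw [h4]
  calc ‖(2 * Complex.I)⁻¹‖ ^ 2 * hs2 ((1 - Complex.I • K) * (cay K - cay K') *
        (1 - Complex.I • K'))
      ≤ 1 * ((1 + L) ^ 2 * ((1 + L) ^ 2 * hs2 (cay K - cay K'))) := by
        refine mul_le_mul hn ?_ (hs2_nonneg _) zero_le_one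
        refine hh1.trans (mul_le_mul hh4 ?_ (hs2_nonneg _) (by positivity))
        exact hh2.trans (mul_le_mul_of_nonneg_right hh3 hD)
    _ = (1 + L) ^ 4 * hs2 (cay K - cay K') := by ring

end Pool.Agent.H710R2.FF
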