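import Mathlib
import Pool.Agent.H710R2.FF.Defs

set_option autoImplicit false
set_option linter.unusedSectionVars false

open MeasureTheory
open scoped ComplexConjugate InnerProductSpace

noncomputable section

namespace Pool.Agent.H710R2.FF

section RC
open Pool.Agent.Helper278 Pool.Agent.Helper436.SN

variable {G : Type} [Group G]

/-- basis vector -/
def dl (g : G) : EllTwo G := open Classical in lp.single 2 g (1 : ℂ)

theorem dirac_eq : dirac G = dl (1 : G) := rfl

theorem dl_self (g : G) : (dl g : EllTwo G) g = 1 := by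
  classical
  unfold dl
  rw [lp.single_apply_self]

theorem dl_ne {g h : G} (hh : h ≠ g) : (dl g : EllTwo G) h = 0 := by
  classical
  unfold dl
  rw [lp.single_apply_ne _ _ _ hh]

theorem inner_dl (g : G) (f : EllTwo G) : ⟪dl g, f⟫_ℂ = f g := by
  classical
  unfold dl
  rw [lp.inner_single_left]
  simp

theorem single_eq_smul_dl [DecidableEq G] (g : G) (c : ℂ) :
    (lp.single 2 g c : EllTwo G) = c • dl g := by
  ext k
  rw [lp.coeFn_smul, Pi.smul_apply]
  by_cases hk : k = g
  · subst hk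
    rw [lp.single_apply_self, dl_self, smul_eq_mul, mul_one]
  · rw [lp.single_apply_ne _ _ _ hk, dl_ne hk, smul_zero]

theorem norm_dl (g : G) : ‖(dl g : EllTwo G)‖ = 1 := by
  classical
  unfold dl
  rw [lp.norm_single (by norm_num)]
  simp

theorem permOp_dl (e : G ≃ G) (g : G) : permOp e (dl g) = dl (e.symm g) := by
  ext h
  rw [permOp_apply]
  by_cases hh : e h = g
  · subst hh
    rw [e.symm_apply_apply, dl_self, dl_self]
  · rw [dl_ne hh, dl_ne]
    intro h2
    apply hh
    rw [h2, e.apply_symm_apply]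

theorem rightReg_dl (g h : G) : rightReg G g (dl h) = dl (h * g⁻¹) := by
  unfold rightReg
  rw [permOp_dl]
  rfl

theorem leftReg_dl (g h : G) : leftReg G g (dl h) = dl (g * h) := by
  unfold leftReg
  rw [permOp_dl]
  congr 1
  show (g⁻¹)⁻¹ * h = g * h
  rw [inv_inv]

theorem star_rightReg (g : G) : star (rightReg G g) = rightReg G g⁻¹ := by
  unfold rightReg
  rw [star_permOp]
  rfl

theorem RC_one : (1 : EllTwo G →L[ℂ] EllTwo G) ∈ RC G := by
  intro g
  rw [one_mul, mul_one]

theorem RC_zero : (0 : EllTwo G →L[ℂ] EllTwo G) ∈ RC G := by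
  intro g
  rw [zero_mul, mul_zero]

theorem RC_mul {x y : EllTwo G →L[ℂ] EllTwo G} (hx : x ∈ RC G) (hy : y ∈ RC G) :
    x * y ∈ RC G := by
  intro g
  rw [mul_assoc, hy g, ← mul_assoc, hx g, mul_assoc]

theorem RC_add {x y : EllTwo G →L[ℂ] EllTwo G} (hx : x ∈ RC G) (hy : y ∈ RC G) :
    x + y ∈ RC G := by
  intro g
  rw [add_mul, mul_add, hx g, hy g]

theorem RC_sub {x y : EllTwo G →L[ℂ] EllTwo G} (hx : x ∈ RC G) (hy : y ∈ RC G) :
    x - y ∈ RC G := by
  intro g
  rw [sub_mul, mul_sub, hx g, hy g]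

theorem RC_smul (c : ℂ) {x : EllTwo G →L[ℂ] EllTwo G} (hx : x ∈ RC G) : c • x ∈ RC G := by
  intro g
  rw [smul_mul_assoc, mul_smul_comm, hx g]

theorem RC_star {x : EllTwo G →L[ℂ] EllTwo G} (hx : x ∈ RC G) : star x ∈ RC G := by
  intro g
  have h := congrArg star (hx g⁻¹)
  rw [star_mul, star_mul, star_rightReg, inv_inv] at h
  exact h.symm

theorem RC_inv {x : EllTwo G →L[ℂ] EllTwo G} (hx : x ∈ RC G) : Ring.inverse x ∈ RC G := by
  by_cases hu : IsUnit x
  · obtain ⟨u, rfl⟩ := hu
    rw [Ring.inverse_unit]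
    intro g
    have h : Commute (u : EllTwo G →L[ℂ] EllTwo G) (rightReg G g) := hx g
    exact h.units_inv_left
  · rw [Ring.inverse_non_unit _ hu]
    exact RC_zero

theorem RC_leftReg (g : G) : leftReg G g ∈ RC G := by
  intro h
  unfold leftReg rightReg
  rw [permOp_mul, permOp_mul]
  congr 1
  ext k
  show g⁻¹ * k * h = g⁻¹ * (k * h)
  rw [mul_assoc]

theorem star_leftReg (g : G) : star (leftReg G g) = leftReg G g⁻¹ := by
  unfold leftReg
  rw [star_permOp]
  congr 1
  ext k
  rfl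

theorem leftReg_mul (g h : G) : leftReg G (g * h) = leftReg G g * leftReg G h := by
  unfold leftReg
  rw [permOp_mul]
  congr 1
  ext k
  show (g * h)⁻¹ * k = h⁻¹ * (g⁻¹ * k)
  rw [mul_inv_rev, mul_assoc]

theorem leftReg_one : leftReg G 1 = 1 := by
  rw [← permOp_refl]
  unfold leftReg
  congr 1
  ext k
  show (1 : G)⁻¹ * k = k
  rw [inv_one, one_mul]

theorem LG_sub_RC {x : EllTwo G →L[ℂ] EllTwo G} (hx : x ∈ LG G) : x ∈ RC G := by
  intro g
  have h1 : x ∈ StarSubalgebra.centralizer ℂ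
      (StarSubalgebra.centralizer ℂ (Set.range (leftReg G)) : Set (EllTwo G →L[ℂ] EllTwo G)) := hx
  rw [StarSubalgebra.mem_centralizer_iff] at h1
  have h2 : rightReg G g ∈ StarSubalgebra.centralizer ℂ (Set.range (leftReg G)) := by
    rw [StarSubalgebra.mem_centralizer_iff]
    rintro _ ⟨h, rfl⟩
    refine ⟨RC_leftReg h g, ?_⟩
    rw [star_leftReg]
    exact RC_leftReg h⁻¹ g
  exact (h1 _ h2).1.symm

theorem RC_apply_dl {x : EllTwo G →L[ℂ] EllTwo G} (hx : x ∈ RC G) (h g : G) :
    (x (dl h) : EllTwo G) g = (x (dirac G) : EllTwo G) (g * h⁻¹) := by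
  have h1 : (dl h : EllTwo G) = rightReg G h⁻¹ (dirac G) := by
    rw [dirac_eq, rightReg_dl, inv_inv, one_mul]
  have h2 := congrArg (fun z : EllTwo G →L[ℂ] EllTwo G => z (dirac G)) (hx h⁻¹)
  have h3 : x (rightReg G h⁻¹ (dirac G)) = rightReg G h⁻¹ (x (dirac G)) := h2
  rw [h1, h3]
  rfl

theorem star_coef' {x : EllTwo G →L[ℂ] EllTwo G} (hx : x ∈ RC G) (g : G) :
    (star x (dirac G) : EllTwo G) g = conj ((x (dirac G) : EllTwo G) g⁻¹) := by
  rw [← inner_dl g, ContinuousLinearMap.star_eq_adjoint, ContinuousLinearMap.adjoint_inner_right,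
    ← inner_conj_symm, dirac_eq, inner_dl, RC_apply_dl hx, one_mul, dirac_eq]

theorem tr_eq_apply (x : EllTwo G →L[ℂ] EllTwo G) : tr x = (x (dirac G) : EllTwo G) 1 := by
  unfold tr
  rw [dirac_eq, inner_dl]

theorem tr_mul_hasSum {x : EllTwo G →L[ℂ] EllTwo G} (hx : x ∈ RC G)
    (y : EllTwo G →L[ℂ] EllTwo G) :
    HasSum (fun g => (x (dirac G) : EllTwo G) g⁻¹ * (y (dirac G) : EllTwo G) g) (tr (x * y)) := by
  have h1 : tr (x * y) = ⟪star x (dirac G), y (dirac G)⟫_ℂ := by
    rw [ContinuousLinearMap.star_eq_adjoint, ContinuousLinearMap.adjoint_inner_left]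
    rfl
  rw [h1]
  refine (lp.hasSum_inner (𝕜 := ℂ) (star x (dirac G)) (y (dirac G))).congr_fun ?_
  intro g
  rw [star_coef' hx, RCLike.inner_apply, RCLike.conj_conj, mul_comm]

theorem tr_comm {x y : EllTwo G →L[ℂ] EllTwo G} (hx : x ∈ RC G) (hy : y ∈ RC G) :
    tr (x * y) = tr (y * x) := by
  have h1 := tr_mul_hasSum hx y
  have h2 := tr_mul_hasSum hy x
  have h3 := ((Equiv.inv G).hasSum_iff (f := fun g => (y (dirac G) : EllTwo G) g⁻¹ *
    (x (dirac G) : EllTwo G) g) (a := tr (y * x))).2 h2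
  refine h1.unique (h3.congr_fun ?_)
  intro g
  show _ = (y (dirac G) : EllTwo G) (g⁻¹)⁻¹ * (x (dirac G) : EllTwo G) g⁻¹
  rw [inv_inv, mul_comm]

theorem tr_star (x : EllTwo G →L[ℂ] EllTwo G) : tr (star x) = conj (tr x) := by
  unfold tr
  rw [ContinuousLinearMap.star_eq_adjoint, ContinuousLinearMap.adjoint_inner_right,
    inner_conj_symm]

theorem tr_one : tr (1 : EllTwo G →L[ℂ] EllTwo G) = 1 := by
  rw [tr_eq_apply]
  exact dl_self 1

theorem tr_add (x y : EllTwo G →L[ℂ] EllTwo G) : tr (x + y) = tr x + tr y := by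
  unfold tr
  rw [add_apply, inner_add_right]

theorem tr_sub (x y : EllTwo G →L[ℂ] EllTwo G) : tr (x - y) = tr x - tr y := by
  unfold tr
  rw [sub_apply, inner_sub_right]

theorem tr_smul (c : ℂ) (x : EllTwo G →L[ℂ] EllTwo G) : tr (c • x) = c * tr x := by
  unfold tr
  rw [smul_apply, inner_smul_right]

theorem norm_dirac : ‖dirac G‖ = 1 := norm_dl 1

theorem norm_tr_le (x : EllTwo G →L[ℂ] EllTwo G) : ‖tr x‖ ≤ n2 x := by
  unfold tr n2
  refine (norm_inner_le_norm _ _).trans ?_
  rw [norm_dirac, one_mul]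

theorem n2_le_norm (x : EllTwo G →L[ℂ] EllTwo G) : n2 x ≤ ‖x‖ := by
  unfold n2
  refine (x.le_opNorm _).trans ?_
  rw [norm_dirac, mul_one]

theorem n2_nonneg (x : EllTwo G →L[ℂ] EllTwo G) : 0 ≤ n2 x := norm_nonneg _

theorem n2_sq (x : EllTwo G →L[ℂ] EllTwo G) : ((n2 x ^ 2 : ℝ) : ℂ) = tr (star x * x) := by
  have h1 : tr (star x * x) = ⟪x (dirac G), x (dirac G)⟫_ℂ := by
    rw [← ContinuousLinearMap.adjoint_inner_right, ← ContinuousLinearMap.star_eq_adjoint]
    rfl
  rw [h1, inner_self_eq_norm_sq_to_K]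
  unfold n2
  push_cast
  rfl

theorem n2_add (x y : EllTwo G →L[ℂ] EllTwo G) : n2 (x + y) ≤ n2 x + n2 y := by
  unfold n2
  rw [add_apply]
  exact norm_add_le _ _

theorem n2_sub (x y : EllTwo G →L[ℂ] EllTwo G) : n2 (x - y) ≤ n2 x + n2 y := by
  unfold n2
  rw [sub_apply]
  exact norm_sub_le _ _

theorem n2_smul (c : ℂ) (x : EllTwo G →L[ℂ] EllTwo G) : n2 (c • x) = ‖c‖ * n2 x := by
  unfold n2
  rw [smul_apply, norm_smul]

theorem n2_star {x : EllTwo G →L[ℂ] EllTwo G} (hx : x ∈ RC G) : n2 (star x) = n2 x := by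
  have h1 := n2_sq (star x)
  rw [star_star, tr_comm hx (RC_star hx), ← n2_sq x] at h1
  have h2 : n2 (star x) ^ 2 = n2 x ^ 2 := by exact_mod_cast h1
  exact (pow_left_inj₀ (n2_nonneg _) (n2_nonneg _) two_ne_zero).1 h2

theorem n2_mul_left (x y : EllTwo G →L[ℂ] EllTwo G) : n2 (x * y) ≤ ‖x‖ * n2 y := by
  unfold n2
  exact x.le_opNorm _

theorem n2_mul_right {x y : EllTwo G →L[ℂ] EllTwo G} (hx : x ∈ RC G) (hy : y ∈ RC G) :
    n2 (x * y) ≤ ‖y‖ * n2 x := by
  rw [← n2_star (RC_mul hx hy), star_mul]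
  refine (n2_mul_left _ _).trans ?_
  have h1 : ‖star y‖ = ‖y‖ := by
    rw [ContinuousLinearMap.star_eq_adjoint]
    exact LinearIsometryEquiv.norm_map _ y
  rw [h1, n2_star hx]

variable {m : ℕ}

theorem lamA_single (g : FreeGroup (Fin m)) (c : ℂ) :
    lamA m (MonoidAlgebra.single g c) = c • leftReg (FreeGroup (Fin m)) g := by
  unfold lamA
  rw [MonoidAlgebra.lift_single]
  rfl

theorem lamA_mem (b : FA m) : lamA m b ∈ RC (FreeGroup (Fin m)) := by
  induction b using MonoidAlgebra.induction_linear with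
  | zero => rw [map_zero]; exact RC_zero
  | add x y hx hy => rw [map_add]; exact RC_add hx hy
  | single g c => rw [lamA_single]; exact RC_smul c (RC_leftReg g)

theorem lamA_of (g : FreeGroup (Fin m)) :
    lamA m (MonoidAlgebra.of ℂ _ g) = leftReg (FreeGroup (Fin m)) g := by
  rw [MonoidAlgebra.of_apply, lamA_single, one_smul]

theorem fst'_zero : fst' (0 : FA m) = 0 := by
  unfold fst'
  rw [MonoidAlgebra.coeff_zero, Finsupp.sum_zero_index]

theorem fst'_add (x y : FA m) : fst' (x + y) = fst' x + fst' y := by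
  unfold fst'
  rw [MonoidAlgebra.coeff_add, Finsupp.sum_add_index']
  · intro g
    rw [map_zero, MonoidAlgebra.single_zero]
  · intro g a b
    rw [map_add, MonoidAlgebra.single_add]

theorem fst'_single (g : FreeGroup (Fin m)) (c : ℂ) :
    fst' (MonoidAlgebra.single g c : FA m) = MonoidAlgebra.single g⁻¹ (conj c) := by
  unfold fst'
  rw [MonoidAlgebra.coeff_single, Finsupp.sum_single_index]
  rw [map_zero, MonoidAlgebra.single_zero]

theorem fst'_sum {α : Type} (s : Finset α) (f : α → FA m) :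
    fst' (∑ i ∈ s, f i) = ∑ i ∈ s, fst' (f i) := by
  classical
  induction s using Finset.induction_on with
  | empty => rw [Finset.sum_empty, Finset.sum_empty, fst'_zero]
  | insert a s ha ih => rw [Finset.sum_insert ha, Finset.sum_insert ha, fst'_add, ih]

theorem lamA_fst (b : FA m) : lamA m (fst' b) = star (lamA m b) := by
  induction b using MonoidAlgebra.induction_linear with
  | zero => rw [fst'_zero, map_zero, star_zero]
  | add x y hx hy => rw [fst'_add, map_add, map_add, star_add, hx, hy]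
  | single g c =>
    rw [fst'_single, lamA_single, lamA_single, star_smul, star_leftReg]
    rfl

theorem tr_lamA (b : FA m) : tr (lamA m b) = tau b := by
  induction b using MonoidAlgebra.induction_linear with
  | zero =>
    rw [map_zero]
    unfold tau tr
    rw [zero_apply, inner_zero_right]
    rfl
  | add x y hx hy =>
    rw [map_add, tr_add, hx, hy]
    rfl
  | single g c =>
    rw [lamA_single, tr_smul, tr_eq_apply, dirac_eq, leftReg_dl, mul_one]
    unfold tau
    rw [MonoidAlgebra.coeff_single]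
    by_cases hg : g = 1
    · subst hg
      rw [dl_self, Finsupp.single_eq_same, mul_one]
    · rw [dl_ne (Ne.symm hg), mul_zero, Finsupp.single_eq_of_ne (Ne.symm hg)]

theorem evV_single {N : ℕ} (V : Fin m → UN N) (g : FreeGroup (Fin m)) (c : ℂ) :
    evV V (MonoidAlgebra.single g c) = c • ((FreeGroup.lift V g : UN N) : Mt N) := by
  unfold evV
  rw [MonoidAlgebra.lift_single]
  rfl

theorem evV_fst {N : ℕ} (V : Fin m → UN N) (b : FA m) : evV V (fst' b) = star (evV V b) := by
  induction b using MonoidAlgebra.induction_linear with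
  | zero => rw [fst'_zero, map_zero, star_zero]
  | add x y hx hy => rw [fst'_add, map_add, map_add, star_add, hx, hy]
  | single g c =>
    rw [fst'_single, evV_single, evV_single, star_smul, map_inv]
    rfl

theorem lamA_wordF {n : ℕ} (b : Fin n → FA m) (f : List (Fin n × Bool)) :
    lamA m (wordF b f) = wordO (fun i => lamA m (b i)) f := by
  unfold wordF wordO
  rw [map_list_prod, List.map_map]
  congr 1
  refine List.map_congr_left ?_
  intro x _
  show lamA m (if x.2 then b x.1 else fst' (b x.1)) = _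
  by_cases hx : x.2 = true
  · rw [if_pos hx, if_pos hx]
  · rw [if_neg hx, if_neg hx, lamA_fst]

theorem lamA_sum_dirac (S : Finset (FreeGroup (Fin m))) (c : FreeGroup (Fin m) → ℂ) :
    lamA m (∑ g ∈ S, MonoidAlgebra.single g (c g)) (dirac (FreeGroup (Fin m))) =
      ∑ g ∈ S, c g • dl g := by
  rw [map_sum, sum_apply]
  refine Finset.sum_congr rfl ?_
  intro g _
  rw [lamA_single, smul_apply, dirac_eq, leftReg_dl, mul_one]

/-- finitely supported approximation in the 2-norm of a self-adjoint element -/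
theorem exists_fin_approx {h : EllTwo (FreeGroup (Fin m)) →L[ℂ] EllTwo (FreeGroup (Fin m))}
    (hh : h ∈ RC (FreeGroup (Fin m))) (hs : IsSelfAdjoint h) (η : ℝ) (hη : 0 < η) :
    ∃ q : FA m, fst' q = q ∧ n2 (lamA m q - h) ≤ η := by
  classical
  have hsym : ∀ g, conj ((h (dirac _) : EllTwo (FreeGroup (Fin m))) g) =
      (h (dirac _) : EllTwo (FreeGroup (Fin m))) g⁻¹ := by
    intro g
    have h1 := star_coef' hh g⁻¹
    rw [hs.star_eq, inv_inv] at h1
    exact h1.symm
  have h1 := lp.hasSum_single (E := fun _ : FreeGroup (Fin m) => ℂ) (p := 2) (by norm_num)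
    (h (dirac _))
  rw [HasSum, SummationFilter.unconditional_filter, Metric.tendsto_atTop] at h1
  obtain ⟨S0, hS0⟩ := h1 η hη
  refine ⟨∑ g ∈ S0 ∪ S0.map (Equiv.inv _).toEmbedding,
    MonoidAlgebra.single g ((h (dirac _) : EllTwo (FreeGroup (Fin m))) g), ?_, ?_⟩
  · rw [fst'_sum]
    refine Finset.sum_bij (fun g _ => g⁻¹) ?_ ?_ ?_ ?_
    · intro g hg
      rw [Finset.mem_union] at hg ⊢
      rcases hg with hg | hg
      · right
        rw [Finset.mem_map]
        exact ⟨g, hg, rfl⟩
      · left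
        rw [Finset.mem_map] at hg
        obtain ⟨k, hk, rfl⟩ := hg
        show (k⁻¹)⁻¹ ∈ S0
        rw [inv_inv]
        exact hk
    · intro a _ b _ hab
      exact inv_injective hab
    · intro g hg
      refine ⟨g⁻¹, ?_, inv_inv g⟩
      rw [Finset.mem_union] at hg ⊢
      rcases hg with hg | hg
      · right
        rw [Finset.mem_map]
        exact ⟨g, hg, rfl⟩
      · left
        rw [Finset.mem_map] at hg
        obtain ⟨k, hk, rfl⟩ := hg
        show (k⁻¹)⁻¹ ∈ S0
        rw [inv_inv]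
        exact hk
    · intro g _
      rw [fst'_single, hsym]
  · have h2 := hS0 (S0 ∪ S0.map (Equiv.inv _).toEmbedding) Finset.subset_union_left
    rw [dist_eq_norm] at h2
    unfold n2
    rw [sub_apply, lamA_sum_dirac]
    refine le_of_eq_of_le ?_ h2.le
    congr 2
    refine Finset.sum_congr rfl ?_
    intro g _
    exact (single_eq_smul_dl g _).symm

end RC

end Pool.Agent.H710R2.FF
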