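import Mathlib
import Pool.Agent.H710R2.FF.Defs

set_option autoImplicit false
set_option linter.unusedSectionVars false

open MeasureTheory
open scoped ComplexConjugate InnerProductSpace

noncomputable section

namespace Pool.Agent.H710R2.FF

/-! ### BAS: basic facts -/
section BAS
variable {N : ℕ}

theorem ntr_add (X Y : Mt N) : ntr (X + Y) = ntr X + ntr Y := sorry
theorem ntr_sub (X Y : Mt N) : ntr (X - Y) = ntr X - ntr Y := sorry
theorem ntr_smul (c : ℂ) (X : Mt N) : ntr (c • X) = c * ntr X := sorry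
theorem ntr_mul_comm (X Y : Mt N) : ntr (X * Y) = ntr (Y * X) := sorry
theorem ntr_one (hN : 0 < N) : ntr (1 : Mt N) = 1 := sorry
theorem ntr_star (X : Mt N) : ntr (star X) = conj (ntr X) := sorry
theorem norm_ntr_le (X : Mt N) : ‖ntr X‖ ≤ opn X := sorry
theorem norm_ntr_sq_le (X : Mt N) : ‖ntr X‖ ^ 2 ≤ hs2 X := sorry
theorem hs2_eq (X : Mt N) : (hs2 X : ℂ) = ntr (star X * X) := sorry
theorem hs2_nonneg (X : Mt N) : 0 ≤ hs2 X := sorry
theorem hs2_zero : hs2 (0 : Mt N) = 0 := sorry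
theorem hs2_le_opn (X : Mt N) : hs2 X ≤ opn X ^ 2 := sorry
theorem sqrt_hs2_add (X Y : Mt N) : √(hs2 (X + Y)) ≤ √(hs2 X) + √(hs2 Y) := sorry
theorem sqrt_hs2_sub (X Y : Mt N) : √(hs2 (X - Y)) ≤ √(hs2 X) + √(hs2 Y) := sorry
theorem hs2_smul (c : ℂ) (X : Mt N) : hs2 (c • X) = ‖c‖ ^ 2 * hs2 X := sorry
theorem hs2_star (X : Mt N) : hs2 (star X) = hs2 X := sorry
theorem hs2_mul_left (A X : Mt N) : hs2 (A * X) ≤ opn A ^ 2 * hs2 X := sorry
theorem hs2_mul_right (X A : Mt N) : hs2 (X * A) ≤ opn A ^ 2 * hs2 X := sorry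
theorem hs2_unitary_mul (U : UN N) (X : Mt N) : hs2 ((U : Mt N) * X) = hs2 X := sorry
theorem hs2_mul_unitary (U : UN N) (X : Mt N) : hs2 (X * (U : Mt N)) = hs2 X := sorry
theorem opn_nonneg (X : Mt N) : 0 ≤ opn X := sorry
theorem opn_add (X Y : Mt N) : opn (X + Y) ≤ opn X + opn Y := sorry
theorem opn_sub (X Y : Mt N) : opn (X - Y) ≤ opn X + opn Y := sorry
theorem opn_mul (X Y : Mt N) : opn (X * Y) ≤ opn X * opn Y := sorry
theorem opn_smul (c : ℂ) (X : Mt N) : opn (c • X) = ‖c‖ * opn X := sorry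
theorem opn_star (X : Mt N) : opn (star X) = opn X := sorry
theorem opn_one : opn (1 : Mt N) ≤ 1 := sorry
theorem opn_unitary (U : UN N) : opn (U : Mt N) ≤ 1 := sorry
theorem continuous_ntr : Continuous (ntr : Mt N → ℂ) := sorry
theorem continuous_hs2 : Continuous (hs2 : Mt N → ℝ) := sorry
theorem continuous_opn : Continuous (opn : Mt N → ℝ) := sorry

variable {ι : Type}

theorem continuous_lit (i : ι) (e : Bool) : Continuous fun U : ι → UN N => lit U i e := sorry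
theorem continuous_ev (w : List (Lt ι N)) : Continuous fun U : ι → UN N => ev U w := sorry
theorem continuous_T (w : List (Lt ι N)) : Continuous fun U : ι → UN N => T U w := sorry
theorem continuous_TR (R : List (List (Lt ι N))) : Continuous fun U : ι → UN N => TR U R := sorry
theorem wt_nonneg (w : List (Lt ι N)) : 0 ≤ wt w := sorry
theorem wtR_nonneg (R : List (List (Lt ι N))) : 0 ≤ wtR R := sorry
theorem opn_ev_le (U : ι → UN N) (w : List (Lt ι N)) : opn (ev U w) ≤ wt w := sorry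
theorem norm_T_le (U : ι → UN N) (w : List (Lt ι N)) : ‖T U w‖ ≤ wt w := sorry
theorem norm_TR_le (U : ι → UN N) (R : List (List (Lt ι N))) : ‖TR U R‖ ≤ wtR R := sorry
theorem ev_append (U : ι → UN N) (w w' : List (Lt ι N)) : ev U (w ++ w') = ev U w * ev U w' := sorry

theorem integrable_cont [Fintype ι] {E : Type} [NormedAddCommGroup E] {F : (ι → UN N) → E}
    (hF : Continuous F) : Integrable F (PP ι N) := sorry

end BAS

/-! ### SD: Schwinger–Dyson inequality -/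

theorem sd_word {ι : Type} [Fintype ι] [DecidableEq ι] {N : ℕ} (hN : 0 < N) (i : ι) (D₁ : Mt N)
    (rest : List (Lt ι N)) (R : List (List (Lt ι N))) :
    ‖∫ U, T U ((i, true, D₁) :: rest) * TR U R ∂(PP ι N)‖ ≤
      (∑ p : Fin rest.length, if (rest.get p).1 = i then
        (if (rest.get p).2.1 = true then
          ‖∫ U, T U ((i, true, D₁) :: rest.take p) * (T U (rest.drop p) * TR U R) ∂(PP ι N)‖
        else
          ‖∫ U, ntr (D₁ * ev U (rest.take p)) *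
            (ntr ((rest.get p).2.2 * ev U (rest.drop (p + 1))) * TR U R) ∂(PP ι N)‖)
        else 0) +
      (lenR R : ℝ) * (wt ((i, true, D₁) :: rest) * wtR R) / (N : ℝ) ^ 2 := sorry

/-! ### MAS: the master lemma -/

theorem master (ι : Type) [Fintype ι] [DecidableEq ι] (L r : ℕ) : ∃ C : ℝ, 0 ≤ C ∧
    ∀ N : ℕ, 0 < N → ∀ (w : List (Lt ι N)) (R : List (List (Lt ι N))), w ≠ [] → w.length ≤ L →
      lenR R ≤ r → Good w →
      ‖∫ U, T U w * TR U R ∂(PP ι N)‖ ≤ C * (wt w * wtR R) / (N : ℝ) ^ 2 := sorry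

/-! ### MIX2, MIX: mixed moments of Haar unitaries and conjugated noise -/

/-- product of `acc_l(V) · cnoise(i_l, e_l)` -/
def evI {m n N : ℕ} (D : Fin n → UN N) (U : Fin m ⊕ Fin n → UN N)
    (items : List (FA m × Fin n × Bool)) : Mt N :=
  (items.map fun x => evV (Vp U) x.1 * cnoise D U x.2.1 x.2.2).prod

theorem mixed2 {m n : ℕ} (items : List (FA m × Fin n × Bool)) (hne : items ≠ []) (last : FA m)
    (hch : items.IsChain fun x y => x.2.1 = y.2.1 → tau y.1 = 0) :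
    ∃ C : ℝ, 0 ≤ C ∧ ∀ N : ℕ, 0 < N → ∀ D : Fin n → UN N,
      ‖∫ U, ntr (evI D U items * evV (Vp U) last) ∂(PP (Fin m ⊕ Fin n) N)‖ ≤ C / N := sorry

theorem mixed {m n : ℕ} (b : Fin n → FA m) (n0 : FA m) (κ : ℝ) (hκ : 1 ≤ κ)
    (hb : ∀ i (N : ℕ) (V : Fin m → UN N), opn (evV V (b i)) ≤ κ)
    (hn0 : ∀ (N : ℕ) (V : Fin m → UN N), opn (evV V n0) ≤ κ)
    (f : List (Fin n × Bool)) (hf : FreeGroup.IsReduced f) (η : ℝ) (h0 : 0 ≤ η) (h1 : η ≤ 1)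
    (hη : ∀ u : List (Fin n × Bool), FreeGroup.IsReduced u → u ≠ [] → u.length ≤ f.length →
      ‖tau (wordF b u)‖ ≤ η) :
    ∃ C : ℝ, 0 ≤ C ∧ ∀ N : ℕ, 0 < N → ∀ D : Fin n → UN N,
      ‖(∫ U, ntr (evV (Vp U) n0 * tokP b D U f) ∂(PP (Fin m ⊕ Fin n) N)) -
        phP D f * tau (n0 * wordF b f)‖ ≤ η * (32 * κ) ^ (f.length + 2) + C / N := sorry

/-! ### LAT: lattice points -/

theorem lattice_count : ∃ C : ℝ, 1 ≤ C ∧ ∀ (ι : Type) [Fintype ι] (R : ℝ), 0 ≤ R →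
    {k : ι → ℤ | ∑ i, ((k i : ℤ) : ℝ) ^ 2 ≤ R ^ 2 * Fintype.card ι}.Finite ∧
    (({k : ι → ℤ | ∑ i, ((k i : ℤ) : ℝ) ^ 2 ≤ R ^ 2 * Fintype.card ι}.ncard : ℕ) : ℝ) ≤
      (C * (1 + R)) ^ (Fintype.card ι) := sorry

/-! ### CAY: Cayley transform -/

theorem cay_mem {N : ℕ} (K : Mt N) (hK : K.IsHermitian) :
    cay K ∈ Matrix.unitaryGroup (Fin N) ℂ := sorry

theorem cay_lip {N : ℕ} (K K' : Mt N) (hK : K.IsHermitian) (hK' : K'.IsHermitian) :
    hs2 (cay K - cay K') ≤ 4 * hs2 (K - K') := sorry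

theorem cay_lower {N : ℕ} (K K' : Mt N) (hK : K.IsHermitian) (hK' : K'.IsHermitian) (L : ℝ)
    (hL : opn K ≤ L) (hL' : opn K' ≤ L) :
    hs2 (K - K') ≤ (1 + L) ^ 4 * hs2 (cay K - cay K') := sorry

/-- polynomial approximation of the Cayley transform, uniform over all C*-algebras -/
theorem cay_poly (R ε : ℝ) (hR : 0 ≤ R) (hε : 0 < ε) : ∃ p : Polynomial ℂ,
    ∀ (A : Type) [CStarAlgebra A] (x : A), IsSelfAdjoint x → ‖x‖ ≤ R →
      ‖Polynomial.aeval x p - cay x‖ ≤ ε := sorry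

/-! ### SQ: every unitary is the square of a Cayley transform of a Hermitian contraction -/

theorem exists_cay_sq {N : ℕ} (U : UN N) : ∃ K : Mt N, K.IsHermitian ∧ opn K ≤ 1 ∧
    cay K * cay K = (U : Mt N) := sorry

/-! ### BL, QR: lower bounds for Haar measures of small balls -/

theorem ball_lower : ∃ c : ℝ, 0 < c ∧ ∀ N : ℕ, 0 < N → ∀ r : ℝ, 0 < r → r ≤ 1 →
    (c * r) ^ (N ^ 2) ≤ (mu N).real {U | hs2 ((U : Mt N) - 1) ≤ r ^ 2} := sorry

theorem Qr_lower : ∃ c : ℝ, 0 < c ∧ ∀ r : ℝ, 0 < r → r ≤ 1 → ∃ N₀ : ℕ, ∀ N ≥ N₀,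
    (c * r) ^ (N ^ 2) / (8 * N) ≤ (mu N).real (Qr N r) := sorry

/-! ### GRID, BU: upper bounds for Haar measures of balls -/

/-- Hermitian matrix with zero diagonal and entries `s/√N (x + i y)`, `x, y` integers -/
def Hg (N : ℕ) (s : ℝ) (k : {p : Fin N × Fin N // p.1 ≠ p.2} → ℤ) : Mt N := fun a b =>
  if h : a < b then ((s / √N : ℝ) : ℂ) *
      (((k ⟨(a, b), h.ne⟩ : ℤ) : ℂ) + ((k ⟨(b, a), h.ne'⟩ : ℤ) : ℂ) * Complex.I)
  else if h' : b < a then ((s / √N : ℝ) : ℂ) *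
      (((k ⟨(b, a), h'.ne⟩ : ℤ) : ℂ) - ((k ⟨(a, b), h'.ne'⟩ : ℤ) : ℂ) * Complex.I)
  else 0

theorem Hg_hermitian (N : ℕ) (s : ℝ) (k : {p : Fin N × Fin N // p.1 ≠ p.2} → ℤ) :
    (Hg N s k).IsHermitian := sorry

theorem hs2_Hg (N : ℕ) (hN : 0 < N) (s : ℝ) (k k' : {p : Fin N × Fin N // p.1 ≠ p.2} → ℤ) :
    hs2 (Hg N s k - Hg N s k') = 2 * s ^ 2 / (N : ℝ) ^ 2 * ∑ p, (((k p - k' p : ℤ)) : ℝ) ^ 2 :=
  sorry

open Classical in
theorem grid_norm (N : ℕ) (hN : 0 < N) (K : ℕ) (s : ℝ) (hs : 0 < s) (hK : s * K ≤ 1) :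
    ((2 * K + 1 : ℕ) : ℝ) ^ (N ^ 2 - N) ≤
      2 * (((Fintype.piFinset fun _ : {p : Fin N × Fin N // p.1 ≠ p.2} =>
        Finset.Icc (-(K : ℤ)) K).filter fun k => opn (Hg N s k) ≤ 10).card : ℝ) := sorry

theorem ball_upper : ∃ C : ℝ, 1 ≤ C ∧ ∀ N : ℕ, 2 ≤ N → ∀ (X : Mt N) (r : ℝ), 0 < r →
    (mu N).real {U | hs2 ((U : Mt N) - X) ≤ r ^ 2} ≤ (C * r) ^ (N ^ 2 - N) := sorry

/-! ### MI: change of measure -/

theorem meas_ineq {m n N : ℕ} (hm : 0 < m) (A : (Fin m → UN N) → (Fin n → UN N)) (hA : Continuous A)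
    (P : Fin m → (Fin n → UN N) → Mt N) (hP : ∀ j, Continuous (P j)) (r : ℝ)
    (δ B : Fin m → ℝ) (hδ : ∀ j, 0 < δ j)
    (herr : ∀ j, ∀ D : Fin n → UN N, (∀ i, D i ∈ Qr N r) →
      ∫ U : Fin m ⊕ Fin n → UN N, hs2 ((U (Sum.inl j) : Mt N) -
        P j (fun i => A (Vp U) i * (U (Sum.inr i) * D i * (U (Sum.inr i))⁻¹)))
          ∂(PP (Fin m ⊕ Fin n) N) ≤ δ j)
    (hB : ∀ j, ∀ X : Mt N, (mu N).real {U | hs2 ((U : Mt N) - X) ≤ 2 * m * δ j} ≤ B j) :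
    (1 / 2 : ℝ) * (mu N).real (Qr N r) ^ n ≤ ∏ j, B j := sorry

/-! ### RC: the commutant of the right translations -/

section RC
open Pool.Agent.Helper278 Pool.Agent.Helper436.SN

variable {G : Type} [Group G]

theorem RC_one : (1 : EllTwo G →L[ℂ] EllTwo G) ∈ RC G := sorry
theorem RC_mul {x y : EllTwo G →L[ℂ] EllTwo G} (hx : x ∈ RC G) (hy : y ∈ RC G) :
    x * y ∈ RC G := sorry
theorem RC_add {x y : EllTwo G →L[ℂ] EllTwo G} (hx : x ∈ RC G) (hy : y ∈ RC G) :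
    x + y ∈ RC G := sorry
theorem RC_sub {x y : EllTwo G →L[ℂ] EllTwo G} (hx : x ∈ RC G) (hy : y ∈ RC G) :
    x - y ∈ RC G := sorry
theorem RC_smul (c : ℂ) {x : EllTwo G →L[ℂ] EllTwo G} (hx : x ∈ RC G) : c • x ∈ RC G := sorry
theorem RC_star {x : EllTwo G →L[ℂ] EllTwo G} (hx : x ∈ RC G) : star x ∈ RC G := sorry
theorem RC_inv {x : EllTwo G →L[ℂ] EllTwo G} (hx : x ∈ RC G) : Ring.inverse x ∈ RC G := sorry
theorem RC_leftReg (g : G) : leftReg G g ∈ RC G := sorry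
theorem LG_sub_RC {x : EllTwo G →L[ℂ] EllTwo G} (hx : x ∈ LG G) : x ∈ RC G := sorry
theorem star_leftReg (g : G) : star (leftReg G g) = leftReg G g⁻¹ := sorry
theorem leftReg_mul (g h : G) : leftReg G (g * h) = leftReg G g * leftReg G h := sorry
theorem leftReg_one : leftReg G 1 = 1 := sorry
theorem tr_comm {x y : EllTwo G →L[ℂ] EllTwo G} (hx : x ∈ RC G) (hy : y ∈ RC G) :
    tr (x * y) = tr (y * x) := sorry
theorem tr_star (x : EllTwo G →L[ℂ] EllTwo G) : tr (star x) = conj (tr x) := sorry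
theorem tr_one : tr (1 : EllTwo G →L[ℂ] EllTwo G) = 1 := sorry
theorem tr_add (x y : EllTwo G →L[ℂ] EllTwo G) : tr (x + y) = tr x + tr y := sorry
theorem tr_sub (x y : EllTwo G →L[ℂ] EllTwo G) : tr (x - y) = tr x - tr y := sorry
theorem tr_smul (c : ℂ) (x : EllTwo G →L[ℂ] EllTwo G) : tr (c • x) = c * tr x := sorry
theorem norm_tr_le (x : EllTwo G →L[ℂ] EllTwo G) : ‖tr x‖ ≤ n2 x := sorry
theorem n2_le_norm (x : EllTwo G →L[ℂ] EllTwo G) : n2 x ≤ ‖x‖ := sorry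
theorem n2_nonneg (x : EllTwo G →L[ℂ] EllTwo G) : 0 ≤ n2 x := sorry
theorem n2_sq (x : EllTwo G →L[ℂ] EllTwo G) : ((n2 x ^ 2 : ℝ) : ℂ) = tr (star x * x) := sorry
theorem n2_add (x y : EllTwo G →L[ℂ] EllTwo G) : n2 (x + y) ≤ n2 x + n2 y := sorry
theorem n2_sub (x y : EllTwo G →L[ℂ] EllTwo G) : n2 (x - y) ≤ n2 x + n2 y := sorry
theorem n2_smul (c : ℂ) (x : EllTwo G →L[ℂ] EllTwo G) : n2 (c • x) = ‖c‖ * n2 x := sorry
theorem n2_star {x : EllTwo G →L[ℂ] EllTwo G} (hx : x ∈ RC G) : n2 (star x) = n2 x := sorry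
theorem n2_mul_left (x y : EllTwo G →L[ℂ] EllTwo G) : n2 (x * y) ≤ ‖x‖ * n2 y := sorry
theorem n2_mul_right {x y : EllTwo G →L[ℂ] EllTwo G} (hx : x ∈ RC G) (hy : y ∈ RC G) :
    n2 (x * y) ≤ ‖y‖ * n2 x := sorry

variable {m : ℕ}
theorem lamA_mem (b : FA m) : lamA m b ∈ RC (FreeGroup (Fin m)) := sorry
theorem lamA_of (g : FreeGroup (Fin m)) :
    lamA m (MonoidAlgebra.of ℂ _ g) = leftReg (FreeGroup (Fin m)) g := sorry
theorem lamA_fst (b : FA m) : lamA m (fst' b) = star (lamA m b) := sorry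
theorem tr_lamA (b : FA m) : tr (lamA m b) = tau b := sorry
theorem evV_fst {N : ℕ} (V : Fin m → UN N) (b : FA m) : evV V (fst' b) = star (evV V b) := sorry
theorem lamA_wordF {n : ℕ} (b : Fin n → FA m) (f : List (Fin n × Bool)) :
    lamA m (wordF b f) = wordO (fun i => lamA m (b i)) f := sorry
/-- finitely supported approximation in the 2-norm of a self-adjoint element -/
theorem exists_fin_approx {h : EllTwo (FreeGroup (Fin m)) →L[ℂ] EllTwo (FreeGroup (Fin m))}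
    (hh : h ∈ RC (FreeGroup (Fin m))) (hs : IsSelfAdjoint h) (η : ℝ) (hη : 0 < η) :
    ∃ q : FA m, fst' q = q ∧ n2 (lamA m q - h) ≤ η := sorry
end RC

/-! ### APX: approximation of a Haar unitary by polynomials that are uniformly almost unitary -/

section APX
open Pool.Agent.Helper278 Pool.Agent.Helper436.SN

theorem approx {m : ℕ} (a : EllTwo (FreeGroup (Fin m)) →L[ℂ] EllTwo (FreeGroup (Fin m)))
    (ha : a ∈ RC (FreeGroup (Fin m)))
    (hu : a ∈ unitary (EllTwo (FreeGroup (Fin m)) →L[ℂ] EllTwo (FreeGroup (Fin m))))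
    (hH : ∀ k : ℕ, 0 < k → tr (a ^ k) = 0) (η : ℝ) (hη : 0 < η) :
    ∃ b : FA m, (∀ N : ℕ, ∃ A : (Fin m → UN N) → UN N, Continuous A ∧
        ∀ V, opn (evV V b - (A V : Mt N)) ≤ η) ∧
      n2 (lamA m b - a) ≤ η ∧ ‖lamA m b‖ ≤ 1 + η := sorry

/-- coefficient of the `j`-th generator with respect to the word `g` in the `a_i` -/
def coef {n m : ℕ} (a : Fin n → EllTwo (FreeGroup (Fin m)) →L[ℂ] EllTwo (FreeGroup (Fin m)))
    (j : Fin m) (g : FreeGroup (Fin n)) : ℂ :=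
  tr (star (wordO a g.toWord) * leftReg (FreeGroup (Fin m)) (FreeGroup.of j))

/-- a free family of Haar unitaries in the commutant of the right translations -/
structure FreeHaar {n m : ℕ}
    (a : Fin n → EllTwo (FreeGroup (Fin m)) →L[ℂ] EllTwo (FreeGroup (Fin m))) : Prop where
  mem : ∀ i, a i ∈ RC (FreeGroup (Fin m))
  uni : ∀ i, a i ∈ unitary (EllTwo (FreeGroup (Fin m)) →L[ℂ] EllTwo (FreeGroup (Fin m)))
  free : ∀ f : List (Fin n × Bool), FreeGroup.IsReduced f → f ≠ [] → tr (wordO a f) = 0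

/-! ### ERR: the error of the estimator -/

theorem err_limit {m n : ℕ}
    (a : Fin n → EllTwo (FreeGroup (Fin m)) →L[ℂ] EllTwo (FreeGroup (Fin m)))
    (ha : FreeHaar a) (S : Finset (FreeGroup (Fin n))) (r ε : ℝ) (hr : 0 < r) (hr1 : r ≤ 1)
    (hε : 0 < ε) : ∃ N₀ : ℕ, ∀ N ≥ N₀, ∃ A : (Fin m → UN N) → (Fin n → UN N), Continuous A ∧
      ∃ P : Fin m → (Fin n → UN N) → Mt N, (∀ j, Continuous (P j)) ∧
      ∀ j, ∀ D : Fin n → UN N, (∀ i, D i ∈ Qr N r) →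
      ∫ U : Fin m ⊕ Fin n → UN N, hs2 ((U (Sum.inl j) : Mt N) -
        P j (fun i => A (Vp U) i * (U (Sum.inr i) * D i * (U (Sum.inr i))⁻¹)))
          ∂(PP (Fin m ⊕ Fin n) N) ≤
        1 - ∑ g ∈ S, (1 - r ^ 2 * g.norm) * ‖coef a j g‖ ^ 2 + ε := sorry

/-! ### MAIN -/

/-- the energy of the `j`-th generator at scale `t` -/
def En {n m : ℕ} (a : Fin n → EllTwo (FreeGroup (Fin m)) →L[ℂ] EllTwo (FreeGroup (Fin m)))
    (j : Fin m) (t : ℝ) : ℝ := 1 - ∑' g, max 0 (1 - t * (g.norm : ℝ)) * ‖coef a j g‖ ^ 2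

theorem main (n m : ℕ) (hm : 0 < m) : ∃ c : ℝ, 0 < c ∧
    ∀ a : Fin n → EllTwo (FreeGroup (Fin m)) →L[ℂ] EllTwo (FreeGroup (Fin m)), FreeHaar a →
      ∀ t : ℝ, 0 < t → t ≤ 1 → c * t ^ n ≤ ∏ j, En a j t := sorry

end APX

/-! ### ISO, SOB: isomorphisms of free group factors -/

section ISO
open Pool.Agent.Helper278 Pool.Agent.Helper436.SN

/-- the unitary `λ_g` as an element of `L(G)` -/
def lgE (G : Type) [Group G] (g : G) : Elt (LG G) := ⟨leftReg G g, by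
  show leftReg G g ∈ StarSubalgebra.centralizer ℂ
    (StarSubalgebra.centralizer ℂ (Set.range (leftReg G)) : Set (EllTwo G →L[ℂ] EllTwo G))
  rw [StarSubalgebra.mem_centralizer_iff]
  intro y hy
  have hy1 := (StarSubalgebra.mem_centralizer_iff ℂ).1 hy _ ⟨g, rfl⟩
  refine ⟨hy1.1.symm, ?_⟩
  have h := hy1.2
  have h2 := congrArg star h
  rw [star_mul, star_mul, star_star] at h2
  exact h2⟩

/-- Fourier coefficient of `x ∈ L(G)` at `g` -/
def fc {G : Type} [Group G] (x : Elt (LG G)) (g : G) : ℂ :=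
  ((x : EllTwo G →L[ℂ] EllTwo G) (dirac G) : EllTwo G) g

/-- every star isomorphism of free group factors preserves the trace -/
theorem iso_trace {n m : ℕ} (hn : 2 ≤ n)
    (θ : Elt (LG (FreeGroup (Fin n))) ≃⋆ₐ[ℂ] Elt (LG (FreeGroup (Fin m))))
    (x : Elt (LG (FreeGroup (Fin n)))) : trL _ (θ x) = trL _ x := sorry

theorem iso_freeHaar {n m : ℕ} (hn : 2 ≤ n)
    (θ : Elt (LG (FreeGroup (Fin n))) ≃⋆ₐ[ℂ] Elt (LG (FreeGroup (Fin m)))) :
    FreeHaar (fun i => ((θ (lgE _ (FreeGroup.of i)) : Elt (LG (FreeGroup (Fin m)))) :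
      EllTwo (FreeGroup (Fin m)) →L[ℂ] EllTwo (FreeGroup (Fin m)))) := sorry

theorem iso_coef {n m : ℕ} (hn : 2 ≤ n)
    (θ : Elt (LG (FreeGroup (Fin n))) ≃⋆ₐ[ℂ] Elt (LG (FreeGroup (Fin m)))) (j : Fin m)
    (g : FreeGroup (Fin n)) :
    coef (fun i => ((θ (lgE _ (FreeGroup.of i)) : Elt (LG (FreeGroup (Fin m)))) :
      EllTwo (FreeGroup (Fin m)) →L[ℂ] EllTwo (FreeGroup (Fin m)))) j g =
    fc (θ.symm (lgE _ (FreeGroup.of j))) g := sorry

theorem fc_sum_one {n m : ℕ} (hn : 2 ≤ n)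
    (θ : Elt (LG (FreeGroup (Fin n))) ≃⋆ₐ[ℂ] Elt (LG (FreeGroup (Fin m)))) (j : Fin m) :
    HasSum (fun g => ‖fc (θ.symm (lgE _ (FreeGroup.of j))) g‖ ^ 2) 1 := sorry

/-- numerical consequence of the product inequality -/
theorem sobolev_of_prod {n m : ℕ} (c : ℝ) (hc : 0 < c) (w : Fin m → FreeGroup (Fin n) → ℝ)
    (hw : ∀ j g, 0 ≤ w j g) (hs : ∀ j, Summable (w j))
    (h : ∀ t : ℝ, 0 < t → t ≤ 1 → c * t ^ n ≤ ∏ j, ∑' g, min 1 (t * (g.norm : ℝ)) * w j g)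
    (s : Fin m → ℝ) (hs0 : ∀ j, 0 ≤ s j) (hs1 : ∀ j, s j ≤ 1 / 2)
    (hsum : ∀ j, Summable fun g : FreeGroup (Fin n) => (g.norm : ℝ) ^ (2 * s j) * w j g) :
    ∑ j, s j ≤ n / 2 := sorry

end ISO

end Pool.Agent.H710R2.FF
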