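import Mathlib
import Pool.Agent.H710R2.FF.Defs

set_option autoImplicit false
set_option linter.unusedSectionVars false

open MeasureTheory
open scoped ComplexConjugate InnerProductSpace

noncomputable section

namespace Pool.Agent.H710R2.FF

/-- product of `acc_l(V) · cnoise(i_l, e_l)` -/
def evI {m n N : ℕ} (D : Fin n → UN N) (U : Fin m ⊕ Fin n → UN N)
    (items : List (FA m × Fin n × Bool)) : Mt N :=
  (items.map fun x => evV (Vp U) x.1 * cnoise D U x.2.1 x.2.2).prod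

/-- Hermitian matrix with zero diagonal and entries `s/√N (x + i y)`, `x, y` integers -/
def Hg (N : ℕ) (s : ℝ) (k : {p : Fin N × Fin N // p.1 ≠ p.2} → ℤ) : Mt N := fun a b =>
  if h : a < b then ((s / √N : ℝ) : ℂ) *
      (((k ⟨(a, b), h.ne⟩ : ℤ) : ℂ) + ((k ⟨(b, a), h.ne'⟩ : ℤ) : ℂ) * Complex.I)
  else if h' : b < a then ((s / √N : ℝ) : ℂ) *
      (((k ⟨(b, a), h'.ne⟩ : ℤ) : ℂ) - ((k ⟨(a, b), h'.ne'⟩ : ℤ) : ℂ) * Complex.I)
  else 0

section
open Pool.Agent.Helper278 Pool.Agent.Helper436.SN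

/-- coefficient of the `j`-th generator with respect to the word `g` in the `a_i` -/
def coef {n m : ℕ} (a : Fin n → EllTwo (FreeGroup (Fin m)) →L[ℂ] EllTwo (FreeGroup (Fin m)))
    (j : Fin m) (g : FreeGroup (Fin n)) : ℂ :=
  tr (star (wordO a g.toWord) * leftReg (FreeGroup (Fin m)) (FreeGroup.of j))

/-- a free family of Haar unitaries in the commutant of the right translations -/
structure FreeHaar {n m : ℕ}
    (a : Fin n → EllTwo (FreeGroup (Fin m)) →L[ℂ] EllTwo (FreeGroup (Fin m))) : Prop where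
  mem : ∀ i, a i ∈ RC (FreeGroup (Fin m))
  uni : ∀ i, a i ∈ unitary (EllTwo (FreeGroup (Fin m)) →L[ℂ] EllTwo (FreeGroup (Fin m)))
  free : ∀ f : List (Fin n × Bool), FreeGroup.IsReduced f → f ≠ [] → tr (wordO a f) = 0

/-- the energy of the `j`-th generator at scale `t` -/
def En {n m : ℕ} (a : Fin n → EllTwo (FreeGroup (Fin m)) →L[ℂ] EllTwo (FreeGroup (Fin m)))
    (j : Fin m) (t : ℝ) : ℝ := 1 - ∑' g, max 0 (1 - t * (g.norm : ℝ)) * ‖coef a j g‖ ^ 2

/-- the unitary `λ_g` as an element of `L(G)` -/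
def lgE (G : Type) [Group G] (g : G) : Elt (LG G) := ⟨leftReg G g, by
  show leftReg G g ∈ StarSubalgebra.centralizer ℂ
    (StarSubalgebra.centralizer ℂ (Set.range (leftReg G)) : Set (EllTwo G →L[ℂ] EllTwo G))
  rw [StarSubalgebra.mem_centralizer_iff]
  intro y hy
  have hy1 := (StarSubalgebra.mem_centralizer_iff ℂ).1 hy _ ⟨g, rfl⟩
  refine ⟨hy1.1.symm, ?_⟩
  have h := hy1.2
  have h2 := congrArg star h
  rw [star_mul, star_mul, star_star] at h2
  exact h2⟩

/-- Fourier coefficient of `x ∈ L(G)` at `g` -/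
def fc {G : Type} [Group G] (x : Elt (LG G)) (g : G) : ℂ :=
  ((x : EllTwo G →L[ℂ] EllTwo G) (dirac G) : EllTwo G) g

end

end Pool.Agent.H710R2.FF
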