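import Mathlib
import Pool.Agent.H710R2.FF.Defs2
import Pool.Agent.H710R2.FF.Basic
import Pool.Agent.H710R2.FF.Cay
import Pool.Agent.H710R2.FF.Rc

set_option autoImplicit false
set_option linter.unusedSectionVars false

open MeasureTheory
open scoped ComplexConjugate InnerProductSpace

noncomputable section

namespace Pool.Agent.H710R2.FF

section hilbert

variable {H : Type} [NormedAddCommGroup H] [InnerProductSpace ℂ H] [CompleteSpace H]

lemma apx_norm_sq (x : H →L[ℂ] H) (hx : IsSelfAdjoint x) (c : ℂ) (hc : c.re = 0) (hc1 : ‖c‖ = 1)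
    (v : H) : ‖v + c • x v‖ ^ 2 = ‖v‖ ^ 2 + ‖x v‖ ^ 2 := by
  have him : (⟪v, x v⟫_ℂ).im = 0 := by
    have h1 := hx.isSymmetric v v
    have h2 : (starRingEnd ℂ) ⟪v, x v⟫_ℂ = ⟪v, x v⟫_ℂ := by
      rw [inner_conj_symm]
      exact h1
    exact Complex.conj_eq_iff_im.1 h2
  have h3 := @norm_add_sq ℂ H _ _ _ v (c • x v)
  rw [h3, norm_smul, hc1, one_mul, inner_smul_right]
  have : RCLike.re (c * ⟪v, x v⟫_ℂ) = 0 := by
    show (c * ⟪v, x v⟫_ℂ).re = 0
    rw [Complex.mul_re, him, hc]
    ring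
  rw [this]
  ring

lemma apx_norm_sub (x : H →L[ℂ] H) (hx : IsSelfAdjoint x) (v : H) :
    ‖(1 - Complex.I • x) v‖ ^ 2 = ‖v‖ ^ 2 + ‖x v‖ ^ 2 := by
  have h := apx_norm_sq x hx (-Complex.I) (by simp) (by simp) v
  rw [← h]
  congr 2
  simp [sub_eq_add_neg]

lemma apx_norm_add (x : H →L[ℂ] H) (hx : IsSelfAdjoint x) (v : H) :
    ‖(1 + Complex.I • x) v‖ ^ 2 = ‖v‖ ^ 2 + ‖x v‖ ^ 2 := by
  have h := apx_norm_sq x hx (Complex.I) (by simp) (by simp) v
  rw [← h]
  congr 2

lemma apx_unit {A : Type} [CStarAlgebra A] (x : A) (hx : IsSelfAdjoint x) :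
    IsUnit (1 - Complex.I • x) := by
  have h1 : (-Complex.I) ∉ spectrum ℂ x := by
    intro h
    have h2 := hx.mem_spectrum_eq_re h
    have h3 := congrArg Complex.im h2
    simp at h3
  rw [spectrum.notMem_iff] at h1
  have h2 : (1 - Complex.I • x) = algebraMap ℂ A Complex.I * (algebraMap ℂ A (-Complex.I) - x) := by
    rw [mul_sub, ← map_mul, ← Algebra.smul_def]
    simp
  rw [h2]
  refine IsUnit.mul ?_ h1
  exact (IsUnit.mk0 Complex.I Complex.I_ne_zero).map (algebraMap ℂ A)

lemma apx_inv_norm (x : H →L[ℂ] H) (hx : IsSelfAdjoint x) :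
    ‖Ring.inverse (1 - Complex.I • x)‖ ≤ 1 := by
  have hu := apx_unit x hx
  refine ContinuousLinearMap.opNorm_le_bound _ zero_le_one fun u => ?_
  set v := Ring.inverse (1 - Complex.I • x) u with hv
  have h1 : (1 - Complex.I • x) v = u := by
    have := Ring.mul_inverse_cancel _ hu
    have h2 := congrArg (fun T : H →L[ℂ] H => T u) this
    simpa [hv] using h2
  have h2 := apx_norm_sub x hx v
  rw [h1] at h2
  rw [one_mul]
  nlinarith [norm_nonneg v, norm_nonneg u, sq_nonneg ‖x v‖]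

lemma apx_cay_norm (x : H →L[ℂ] H) (hx : IsSelfAdjoint x) : ‖cay x‖ ≤ 1 := by
  have hu := apx_unit x hx
  refine ContinuousLinearMap.opNorm_le_bound _ zero_le_one fun u => ?_
  set v := Ring.inverse (1 - Complex.I • x) u with hv
  have h1 : (1 - Complex.I • x) v = u := by
    have := Ring.mul_inverse_cancel _ hu
    have h2 := congrArg (fun T : H →L[ℂ] H => T u) this
    simpa [hv] using h2
  have h2 := apx_norm_sub x hx v
  have h3 := apx_norm_add x hx v
  rw [h1] at h2
  have h4 : cay x u = (1 + Complex.I • x) v := rfl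
  rw [h4, one_mul]
  have h5 : ‖(1 + Complex.I • x) v‖ ^ 2 = ‖u‖ ^ 2 := by rw [h2, h3]
  exact le_of_eq ((pow_left_inj₀ (norm_nonneg _) (norm_nonneg _) two_ne_zero).1 h5)

lemma apx_cay_sub {A : Type} [CStarAlgebra A] (x y : A) (hx : IsSelfAdjoint x)
    (hy : IsSelfAdjoint y) :
    cay x - cay y = (2 * Complex.I) • (Ring.inverse (1 - Complex.I • x) *
      ((x - y) * Ring.inverse (1 - Complex.I • y))) := by
  have hux := apx_unit x hx
  have huy := apx_unit y hy
  set X := 1 - Complex.I • x with hX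
  set Y := 1 - Complex.I • y with hY
  have h1 : ∀ z : A, (1 + Complex.I • z) = 2 - (1 - Complex.I • z) := by
    intro z
    rw [← one_add_one_eq_two]
    abel
  have hXi := Ring.mul_inverse_cancel _ hux
  have hYi := Ring.mul_inverse_cancel _ huy
  have hXi' := Ring.inverse_mul_cancel _ hux
  have e1 : cay x = 2 * Ring.inverse X - 1 := by
    unfold cay
    rw [h1, sub_mul, ← hX, hXi]
  have e2 : cay y = 2 * Ring.inverse Y - 1 := by
    unfold cay
    rw [h1, sub_mul, ← hY, hYi]
  have e3 : Ring.inverse X - Ring.inverse Y = Ring.inverse X * ((Y - X) * Ring.inverse Y) := by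
    rw [sub_mul, hYi, mul_sub, mul_one, ← mul_assoc, hXi', one_mul]
  have e4 : Y - X = Complex.I • (x - y) := by
    rw [hX, hY, smul_sub]
    abel
  rw [e1, e2, sub_sub_sub_cancel_right, ← mul_sub, e3, e4, smul_mul_assoc, mul_smul_comm,
    mul_smul, two_smul, two_mul]

end hilbert

section rc

lemma apx_uni {H : Type} [NormedAddCommGroup H] [InnerProductSpace ℂ H] [CompleteSpace H]
    (u : H →L[ℂ] H) (hu : u ∈ unitary (H →L[ℂ] H)) : ‖u‖ ≤ 1 := by
  refine ContinuousLinearMap.opNorm_le_bound _ zero_le_one fun v => ?_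
  rw [one_mul, ContinuousLinearMap.norm_map_of_mem_unitary hu]

open Pool.Agent.Helper278 Pool.Agent.Helper436.SN

variable {G : Type} [Group G]

lemma apx_norm_dirac : ‖dirac G‖ = 1 := by
  classical
  unfold dirac
  rw [lp.norm_single (by norm_num)]
  simp

/-- perturbation of a large scalar is invertible -/
lemma apx_unit_add {A : Type} [CStarAlgebra A] (s : ℝ) (hs : 1 < s) (y : A) (hy : ‖y‖ ≤ 1) :
    IsUnit ((s : ℂ) • (1 : A) + y) := by
  have hs0 : (s : ℂ) ≠ 0 := by
    have : s ≠ 0 := by linarith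
    exact_mod_cast this
  have h1 : ‖-((s : ℂ)⁻¹ • y)‖ < 1 := by
    rw [norm_neg, norm_smul, norm_inv, Complex.norm_real, Real.norm_of_nonneg (by linarith)]
    have : s⁻¹ < 1 := inv_lt_one_of_one_lt₀ hs
    have h0 : 0 ≤ s⁻¹ := by positivity
    nlinarith [norm_nonneg y]
  have h2 : (s : ℂ) • (1 : A) + y = algebraMap ℂ A s * (1 - (-((s : ℂ)⁻¹ • y))) := by
    rw [sub_neg_eq_add, mul_add, mul_one, ← Algebra.smul_def, smul_smul, mul_inv_cancel₀ hs0,
      one_smul, Algebra.algebraMap_eq_smul_one]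
  rw [h2]
  exact ((IsUnit.mk0 (s : ℂ) hs0).map (algebraMap ℂ A)).mul ⟨Units.oneSub _ h1, rfl⟩

lemma apx_n2_Y (a : EllTwo G →L[ℂ] EllTwo G)
    (hu : a ∈ unitary (EllTwo G →L[ℂ] EllTwo G)) (hH : ∀ k : ℕ, 0 < k → tr (a ^ k) = 0)
    (s : ℝ) (hs : 1 < s) :
    (s ^ 2 - 1) * n2 (Ring.inverse ((s : ℂ) • (1 : EllTwo G →L[ℂ] EllTwo G) + star a)) ^ 2 ≤ 1 := by
  have hst1 : ‖star a‖ ≤ 1 := apx_uni _ (Unitary.star_mem hu)
  have hun := apx_unit_add s hs (star a) hst1
  set Y := Ring.inverse ((s : ℂ) • (1 : EllTwo G →L[ℂ] EllTwo G) + star a) with hY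
  have hYm : ((s : ℂ) • (1 : EllTwo G →L[ℂ] EllTwo G) + star a) * Y = 1 :=
    Ring.mul_inverse_cancel _ hun
  have hYm' : (s : ℂ) • Y + star a * Y = 1 := by
    rw [add_mul, smul_mul_assoc, one_mul] at hYm
    exact hYm
  -- the numbers tr (star a ^ k * Y)
  have hrec : ∀ k : ℕ, tr (star a ^ (k + 1) * Y) = (-(s : ℂ)) ^ k * tr (star a * Y) := by
    intro k
    induction k with
    | zero => simp
    | succ k ih =>
      have h1 : star a ^ (k + 1) * ((s : ℂ) • Y + star a * Y) = star a ^ (k + 1) := by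
        rw [hYm', mul_one]
      have h2 : tr (star a ^ (k + 1)) = 0 := by
        rw [← star_pow, tr_star, hH _ (Nat.succ_pos k), map_zero]
      have h3 : (s : ℂ) * tr (star a ^ (k + 1) * Y) + tr (star a ^ (k + 1 + 1) * Y) = 0 := by
        have h5 : star a ^ (k + 1) * ((s : ℂ) • Y + star a * Y) =
            (s : ℂ) • (star a ^ (k + 1) * Y) + star a ^ (k + 1 + 1) * Y := by
          rw [mul_add, mul_smul_comm, ← mul_assoc, ← pow_succ]
        rw [← tr_smul, ← tr_add, ← h5, h1, h2]
      have h4 : tr (star a ^ (k + 1 + 1) * Y) = -(s : ℂ) * tr (star a ^ (k + 1) * Y) := by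
        linear_combination h3
      rw [h4, ih, pow_succ]
      ring
  have hbd : ∀ k : ℕ, ‖tr (star a ^ (k + 1) * Y)‖ ≤ n2 Y := by
    intro k
    refine (norm_tr_le _).trans ((n2_mul_left _ _).trans ?_)
    have : ‖star a ^ (k + 1)‖ ≤ 1 := by
      have hmem : star a ^ (k + 1) ∈ unitary (EllTwo G →L[ℂ] EllTwo G) :=
        Submonoid.pow_mem _ (Unitary.star_mem hu) _
      exact apx_uni _ hmem
    calc ‖star a ^ (k + 1)‖ * n2 Y ≤ 1 * n2 Y := mul_le_mul_of_nonneg_right this (n2_nonneg _)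
      _ = n2 Y := one_mul _
  have hzero : tr (star a * Y) = 0 := by
    by_contra hne
    have hpos : 0 < ‖tr (star a * Y)‖ := norm_pos_iff.2 hne
    obtain ⟨k, hk⟩ := pow_unbounded_of_one_lt (n2 Y / ‖tr (star a * Y)‖) hs
    have h1 := hbd k
    rw [hrec k, norm_mul, norm_pow, norm_neg, Complex.norm_real,
      Real.norm_of_nonneg (by linarith)] at h1
    rw [div_lt_iff₀ hpos] at hk
    linarith
  -- the norm computation
  set y := Y (dirac G) with hy
  have h1 : (s : ℂ) • y = dirac G - star a y := by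
    have h2 := congrArg (fun T : EllTwo G →L[ℂ] EllTwo G => T (dirac G)) hYm'
    have h3 : (s : ℂ) • y + star a y = dirac G := h2
    rw [← h3]
    abel
  have h2 : ⟪dirac G, star a y⟫_ℂ = 0 := hzero
  have h3 : ‖star a y‖ ≤ ‖y‖ := by
    calc ‖star a y‖ ≤ ‖star a‖ * ‖y‖ := (star a).le_opNorm y
      _ ≤ 1 * ‖y‖ := mul_le_mul_of_nonneg_right hst1 (norm_nonneg _)
      _ = ‖y‖ := one_mul _
  have h4 := @norm_sub_sq ℂ (EllTwo G) _ _ _ (dirac G) (star a y)
  rw [← h1, h2, apx_norm_dirac, norm_smul, Complex.norm_real,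
    Real.norm_of_nonneg (by linarith)] at h4
  have h5 : n2 Y = ‖y‖ := rfl
  rw [h5]
  simp only [map_zero, mul_zero, sub_zero] at h4
  nlinarith [norm_nonneg y, norm_nonneg (star a y)]

lemma apx_exists_h (a : EllTwo G →L[ℂ] EllTwo G) (ha : a ∈ RC G)
    (hu : a ∈ unitary (EllTwo G →L[ℂ] EllTwo G)) (hH : ∀ k : ℕ, 0 < k → tr (a ^ k) = 0)
    (d : ℝ) (hd : 0 < d) :
    ∃ h : EllTwo G →L[ℂ] EllTwo G, h ∈ RC G ∧ IsSelfAdjoint h ∧ n2 (cay h - a) ≤ √(2 * d) := by
  have haa : a * star a = 1 := Unitary.mul_star_self_of_mem hu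
  have haa' : star a * a = 1 := Unitary.star_mul_self_of_mem hu
  have ha1 : ‖a‖ ≤ 1 := apx_uni _ hu
  have hst1 : ‖star a‖ ≤ 1 := apx_uni _ (Unitary.star_mem hu)
  set s : ℝ := 1 + d with hs
  have hs1 : 1 < s := by linarith
  set R : EllTwo G →L[ℂ] EllTwo G := (s : ℂ) • 1 + (1 / 2 : ℂ) • (a + star a) with hR
  have hRn : ‖(1 / 2 : ℂ) • (a + star a)‖ ≤ 1 := by
    rw [norm_smul]
    have h1 := norm_add_le a (star a)
    have h2 : ‖(1 / 2 : ℂ)‖ = 1 / 2 := by simp
    rw [h2]
    linarith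
  have hRu : IsUnit R := apx_unit_add s hs1 _ hRn
  set Ri := Ring.inverse R with hRi
  have hRR : R * Ri = 1 := Ring.mul_inverse_cancel _ hRu
  have hRR' : Ri * R = 1 := Ring.inverse_mul_cancel _ hRu
  have hYu := apx_unit_add s hs1 (star a) hst1
  set Z : EllTwo G →L[ℂ] EllTwo G := (s : ℂ) • 1 + star a with hZ
  set Y := Ring.inverse Z with hY
  have hZY : Z * Y = 1 := Ring.mul_inverse_cancel _ hYu
  have hYZ : Y * Z = 1 := Ring.inverse_mul_cancel _ hYu
  -- commutation
  have hca : R * a = a * R := by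
    rw [hR, add_mul, mul_add, smul_mul_assoc, smul_mul_assoc, mul_smul_comm, mul_smul_comm,
      add_mul, mul_add, haa, haa', one_mul, mul_one]
  have hcs : R * star a = star a * R := by
    rw [hR, add_mul, mul_add, smul_mul_assoc, smul_mul_assoc, mul_smul_comm, mul_smul_comm,
      add_mul, mul_add, haa, haa', one_mul, mul_one]
  have hcomm : ∀ x, R * x = x * R → Ri * x = x * Ri := by
    intro x hx
    calc Ri * x = Ri * x * (R * Ri) := by rw [hRR, mul_one]
      _ = Ri * (x * R) * Ri := by noncomm_ring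
      _ = Ri * (R * x) * Ri := by rw [hx]
      _ = (Ri * R) * x * Ri := by noncomm_ring
      _ = x * Ri := by rw [hRR', one_mul]
  have hRs : star R = R := by
    rw [hR, star_add, star_smul, star_smul, star_one, star_add, star_star, add_comm (star a) a]
    congr 2
    · simp
    · simp
  have hRis : star Ri = Ri := by
    have h1 : star Ri * R = 1 := by rw [← hRs, ← star_mul, hRR, star_one]
    calc star Ri = star Ri * (R * Ri) := by rw [hRR, mul_one]
      _ = (star Ri * R) * Ri := by rw [mul_assoc]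
      _ = Ri := by rw [h1, one_mul]
  set h : EllTwo G →L[ℂ] EllTwo G := (-(Complex.I / 2)) • ((a - star a) * Ri) with hh
  have hsub : Ri * (a - star a) = (a - star a) * Ri := by
    apply hcomm
    rw [mul_sub, sub_mul, hca, hcs]
  have hhs : IsSelfAdjoint h := by
    rw [isSelfAdjoint_iff, hh, star_smul, star_mul, star_sub, star_star, hRis,
      ← neg_sub a (star a), mul_neg, hsub, smul_neg, ← neg_smul]
    congr 1
    simp only [star_neg, star_div₀, Complex.star_def, Complex.conj_I, map_ofNat]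
    ring
  have hI : Complex.I * (-(Complex.I / 2)) = 1 / 2 := by
    have := Complex.I_mul_I
    linear_combination (-(1 / 2 : ℂ)) * this
  have hIh : Complex.I • h = (1 / 2 : ℂ) • ((a - star a) * Ri) := by
    rw [hh, smul_smul, hI]
  have e1 : 1 + Complex.I • h = ((s : ℂ) • 1 + a) * Ri := by
    have h5 : (s : ℂ) • (1 : EllTwo G →L[ℂ] EllTwo G) + a =
        R + (1 / 2 : ℂ) • (a - star a) := by
      rw [hR]
      module
    rw [hIh, h5, add_mul, hRR, smul_mul_assoc]
  have e2 : 1 - Complex.I • h = Z * Ri := by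
    have h5 : Z = R - (1 / 2 : ℂ) • (a - star a) := by
      rw [hR, hZ]
      module
    rw [hIh, h5, sub_mul R, hRR, smul_mul_assoc]
  have e3 : Ring.inverse (1 - Complex.I • h) = R * Y := by
    rw [e2]
    refine Ring.inverse_unit ⟨Z * Ri, R * Y, ?_, ?_⟩
    · rw [mul_assoc, ← mul_assoc Ri, hRR', one_mul, hZY]
    · rw [mul_assoc, ← mul_assoc Y, hYZ, one_mul, hRR]
  have e4 : cay h - a = (d : ℂ) • ((1 - a) * Y) := by
    unfold cay
    rw [e1, e3, mul_assoc, ← mul_assoc Ri, hRR', one_mul]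
    have h5 : a = a * (Z * Y) := by rw [hZY, mul_one]
    have h6 : a * Z = (s : ℂ) • a + 1 := by
      rw [hZ, mul_add, mul_smul_comm, mul_one, haa]
    calc ((s : ℂ) • 1 + a) * Y - a = ((s : ℂ) • 1 + a) * Y - (a * Z) * Y := by
          rw [mul_assoc, ← h5]
      _ = (((s : ℂ) • 1 + a) - (a * Z)) * Y := by rw [sub_mul]
      _ = ((d : ℂ) • (1 - a)) * Y := by
          rw [h6]
          congr 1
          have hsd : (s : ℂ) = 1 + d := by rw [hs]; push_cast; ring
          rw [hsd]
          module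
      _ = (d : ℂ) • ((1 - a) * Y) := smul_mul_assoc _ _ _
  refine ⟨h, ?_, hhs, ?_⟩
  · exact RC_smul _ (RC_mul (RC_sub ha (RC_star ha)) (RC_inv (RC_add (RC_smul _ RC_one)
      (RC_smul _ (RC_add ha (RC_star ha))))))
  · rw [e4, n2_smul, Complex.norm_real, Real.norm_of_nonneg hd.le]
    have h7 : n2 ((1 - a) * Y) ≤ 2 * n2 Y := by
      refine (n2_mul_left _ _).trans ?_
      have : ‖(1 : EllTwo G →L[ℂ] EllTwo G) - a‖ ≤ 2 := by
        have h8 := norm_sub_le (1 : EllTwo G →L[ℂ] EllTwo G) a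
        have h9 : ‖(1 : EllTwo G →L[ℂ] EllTwo G)‖ ≤ 1 := ContinuousLinearMap.norm_id_le
        linarith
      exact mul_le_mul_of_nonneg_right this (n2_nonneg _)
    have h8 := apx_n2_Y a hu hH s hs1
    rw [← hZ, ← hY] at h8
    have h9 : 2 * d * n2 Y ^ 2 ≤ 1 := by
      have : 2 * d ≤ s ^ 2 - 1 := by rw [hs]; nlinarith
      nlinarith [sq_nonneg (n2 Y)]
    have h0 := n2_nonneg Y
    calc d * n2 ((1 - a) * Y) ≤ d * (2 * n2 Y) := mul_le_mul_of_nonneg_left h7 hd.le
      _ ≤ √(2 * d) := by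
        apply Real.le_sqrt_of_sq_le
        nlinarith

end rc

section final

open Pool.Agent.Helper278 Pool.Agent.Helper436.SN

variable {m : ℕ}

lemma apx_evV_of {N : ℕ} (V : Fin m → UN N) (g : FreeGroup (Fin m)) :
    evV V (MonoidAlgebra.of ℂ _ g) = ((FreeGroup.lift V g : UN N) : Mt N) := by
  unfold evV
  rw [MonoidAlgebra.lift_of]
  rfl

/-- continuity of the evaluation -/
lemma apx_cont_evV {N : ℕ} (q : FA m) : Continuous fun V : Fin m → UN N => evV V q := by
  induction q using MonoidAlgebra.induction_on with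
  | of g =>
    have h1 : Continuous fun V : Fin m → UN N => (FreeGroup.lift V g : UN N) := by
      induction g using FreeGroup.induction_on with
      | C1 => simpa using continuous_const
      | of i => simpa using continuous_apply i
      | inv_of i _ =>
        have h2 : Continuous fun V : Fin m → UN N => (V i)⁻¹ := (continuous_apply i).inv
        simpa using h2
      | mul x y hx hy =>
        have h2 : Continuous fun V : Fin m → UN N =>
          (FreeGroup.lift V x : UN N) * (FreeGroup.lift V y : UN N) := hx.mul hy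
        simpa using h2
    have h2 := continuous_subtype_val.comp h1
    convert h2 using 1
    funext V
    exact apx_evV_of V g
  | add x y hx hy =>
    have h2 : Continuous fun V : Fin m → UN N => evV V x + evV V y := hx.add hy
    simpa using h2
  | smul c x hx =>
    have h2 : Continuous fun V : Fin m → UN N => c • evV V x := hx.const_smul c
    simpa using h2

/-- uniform bound of the norms of all evaluations -/
lemma apx_bound (q : FA m) : ∃ R : ℝ, 0 ≤ R ∧ ‖lamA m q‖ ≤ R ∧
    ∀ (N : ℕ) (V : Fin m → UN N), opn (evV V q) ≤ R := by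
  induction q using MonoidAlgebra.induction_on with
  | of g =>
    refine ⟨1, zero_le_one, ?_, ?_⟩
    · rw [lamA_of]
      apply apx_uni
      rw [Unitary.mem_iff, star_leftReg, ← leftReg_mul, ← leftReg_mul, inv_mul_cancel,
        mul_inv_cancel, leftReg_one]
      exact ⟨rfl, rfl⟩
    · intro N V
      rw [apx_evV_of]
      exact opn_unitary _
  | add x y hx hy =>
    obtain ⟨R, h0, h1, h2⟩ := hx
    obtain ⟨R', h0', h1', h2'⟩ := hy
    refine ⟨R + R', add_nonneg h0 h0', ?_, ?_⟩
    · rw [map_add]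
      exact (norm_add_le _ _).trans (add_le_add h1 h1')
    · intro N V
      rw [map_add]
      exact (opn_add _ _).trans (add_le_add (h2 N V) (h2' N V))
  | smul c x hx =>
    obtain ⟨R, h0, h1, h2⟩ := hx
    refine ⟨‖c‖ * R, mul_nonneg (norm_nonneg _) h0, ?_, ?_⟩
    · rw [map_smul, norm_smul]
      exact mul_le_mul_of_nonneg_left h1 (norm_nonneg _)
    · intro N V
      rw [map_smul, opn_smul]
      exact mul_le_mul_of_nonneg_left (h2 N V) (norm_nonneg _)

lemma apx_herm {N : ℕ} (V : Fin m → UN N) (q : FA m) (hq : fst' q = q) :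
    (evV V q).IsHermitian := by
  have h := evV_fst V q
  rw [hq] at h
  exact h.symm

open scoped Matrix.Norms.L2Operator in
lemma apx_cont_cay {X : Type} [TopologicalSpace X] {N : ℕ} (f : X → Mt N) (hf : Continuous f)
    (hh : ∀ x, (f x).IsHermitian) : Continuous fun x => cay (f x) := by
  unfold cay
  refine (continuous_const.add (hf.const_smul Complex.I)).mul ?_
  rw [continuous_iff_continuousAt]
  intro x
  have hsa : IsSelfAdjoint (f x) := hh x
  have hu : IsUnit (1 - Complex.I • f x) := apx_unit (f x) hsa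
  obtain ⟨u, hu⟩ := hu
  have h1 : ContinuousAt (Ring.inverse : Mt N → Mt N) (1 - Complex.I • f x) := by
    rw [← hu]
    exact NormedRing.inverse_continuousAt u
  exact ContinuousAt.comp (f := fun x => 1 - Complex.I • f x) h1
    (continuous_const.sub (hf.const_smul Complex.I)).continuousAt

open scoped Matrix.Norms.L2Operator in
lemma apx_cay_poly {N : ℕ} (R ε : ℝ) (p : Polynomial ℂ)
    (hp : ∀ (A : Type) [CStarAlgebra A] (x : A), IsSelfAdjoint x → ‖x‖ ≤ R →
      ‖Polynomial.aeval x p - cay x‖ ≤ ε) (x : Mt N) (hx : x.IsHermitian) (hR : opn x ≤ R) :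
    opn (Polynomial.aeval x p - cay x) ≤ ε := hp (Mt N) x hx hR

theorem approx {m : ℕ} (a : EllTwo (FreeGroup (Fin m)) →L[ℂ] EllTwo (FreeGroup (Fin m)))
    (ha : a ∈ RC (FreeGroup (Fin m)))
    (hu : a ∈ unitary (EllTwo (FreeGroup (Fin m)) →L[ℂ] EllTwo (FreeGroup (Fin m))))
    (hH : ∀ k : ℕ, 0 < k → tr (a ^ k) = 0) (η : ℝ) (hη : 0 < η) :
    ∃ b : FA m, (∀ N : ℕ, ∃ A : (Fin m → UN N) → UN N, Continuous A ∧
        ∀ V, opn (evV V b - (A V : Mt N)) ≤ η) ∧
      n2 (lamA m b - a) ≤ η ∧ ‖lamA m b‖ ≤ 1 + η := by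
  obtain ⟨h, hh, hhs, hha⟩ := apx_exists_h a ha hu hH (η ^ 2 / 32) (by positivity)
  have hha' : n2 (cay h - a) ≤ η / 4 := by
    refine hha.trans (le_of_eq ?_)
    rw [show 2 * (η ^ 2 / 32) = (η / 4) ^ 2 by ring]
    exact Real.sqrt_sq (by positivity)
  obtain ⟨q, hq, hqh⟩ := exists_fin_approx hh hhs (η / 16) (by positivity)
  obtain ⟨R, hR0, hR1, hR2⟩ := apx_bound q
  obtain ⟨p, hp⟩ := cay_poly R (η / 4) hR0 (by positivity)
  have hxs : IsSelfAdjoint (lamA m q) := by
    have := lamA_fst q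
    rw [hq] at this
    exact this.symm
  refine ⟨Polynomial.aeval q p, ?_, ?_, ?_⟩
  · intro N
    refine ⟨fun V => ⟨cay (evV V q), cay_mem _ (apx_herm V q hq)⟩, ?_, ?_⟩
    · exact Continuous.subtype_mk (apx_cont_cay _ (apx_cont_evV q) fun V => apx_herm V q hq) _
    · intro V
      rw [← Polynomial.aeval_algHom_apply]
      refine (apx_cay_poly R (η / 4) p hp (evV V q) (apx_herm V q hq) (hR2 N V)).trans ?_
      linarith
  · have h1 : n2 (lamA m (Polynomial.aeval q p) - cay (lamA m q)) ≤ η / 4 := by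
      rw [← Polynomial.aeval_algHom_apply]
      exact (n2_le_norm _).trans (hp _ (lamA m q) hxs hR1)
    have h2 : n2 (cay (lamA m q) - cay h) ≤ η / 8 := by
      rw [apx_cay_sub _ _ hxs hhs, n2_smul]
      have h3 : ‖(2 * Complex.I : ℂ)‖ = 2 := by simp
      rw [h3]
      have hYm : Ring.inverse (1 - Complex.I • h) ∈ RC (FreeGroup (Fin m)) :=
        RC_inv (RC_sub RC_one (RC_smul _ hh))
      have h4 : n2 ((lamA m q - h) * Ring.inverse (1 - Complex.I • h)) ≤ η / 16 := by
        refine (n2_mul_right (RC_sub (lamA_mem q) hh) hYm).trans ?_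
        have := apx_inv_norm h hhs
        have h5 := n2_nonneg (lamA m q - h)
        nlinarith
      have h6 : n2 (Ring.inverse (1 - Complex.I • lamA m q) *
          ((lamA m q - h) * Ring.inverse (1 - Complex.I • h))) ≤ η / 16 := by
        refine (n2_mul_left _ _).trans ?_
        have := apx_inv_norm (lamA m q) hxs
        have h5 := n2_nonneg ((lamA m q - h) * Ring.inverse (1 - Complex.I • h))
        nlinarith
      linarith
    have e : lamA m (Polynomial.aeval q p) - a =
        (lamA m (Polynomial.aeval q p) - cay (lamA m q)) + ((cay (lamA m q) - cay h) +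
          (cay h - a)) := by abel
    rw [e]
    have h7 := n2_add (lamA m (Polynomial.aeval q p) - cay (lamA m q))
      ((cay (lamA m q) - cay h) + (cay h - a))
    have h8 := n2_add (cay (lamA m q) - cay h) (cay h - a)
    linarith
  · have h1 : ‖lamA m (Polynomial.aeval q p) - cay (lamA m q)‖ ≤ η / 4 := by
      rw [← Polynomial.aeval_algHom_apply]
      exact hp _ (lamA m q) hxs hR1
    have h2 := apx_cay_norm (lamA m q) hxs
    have h3 := norm_add_le (lamA m (Polynomial.aeval q p) - cay (lamA m q)) (cay (lamA m q))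
    rw [sub_add_cancel] at h3
    linarith

end final

end Pool.Agent.H710R2.FF
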