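import Mathlib
import Pool.Agent.H710R2.FF.Defs

set_option autoImplicit false

noncomputable section

namespace Pool.Agent.H710R2.FF

namespace Lat

theorem term_le (L : ℝ) (hL : 1 ≤ L) (j : ℕ) :
    Real.exp (-(1 / L ^ 2) * ((j:ℝ) + 1) ^ 2) ≤ 2 * L ^ 2 * (1 / (L + j) - 1 / (L + (j + 1))) := by
  have hj : (0:ℝ) ≤ j := Nat.cast_nonneg j
  have h1 : Real.exp (-(1 / L ^ 2) * ((j:ℝ) + 1) ^ 2) ≤ 1 / (1 + (1 / L ^ 2) * ((j:ℝ) + 1) ^ 2) := by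
    rw [neg_mul, Real.exp_neg, ← one_div]
    apply one_div_le_one_div_of_le
    · positivity
    · have := Real.add_one_le_exp ((1 / L ^ 2) * ((j:ℝ) + 1) ^ 2)
      linarith
  have hL0 : 0 < L := by linarith
  refine h1.trans ?_
  have h2 : (1:ℝ) / (1 + (1 / L ^ 2) * ((j:ℝ) + 1) ^ 2) = L ^ 2 / (L ^ 2 + ((j:ℝ) + 1) ^ 2) := by
    field_simp
  have h3 : 2 * L ^ 2 * (1 / (L + j) - 1 / (L + (j + 1))) =
      2 * L ^ 2 / ((L + j) * (L + (j + 1))) := by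
    field_simp
    ring
  rw [h2, h3, div_le_div_iff₀ (by positivity) (by positivity)]
  have h4 : (L + j) * (L + (j + 1)) ≤ 2 * (L ^ 2 + ((j:ℝ) + 1) ^ 2) := by
    nlinarith [sq_nonneg (L - (j + 1))]
  nlinarith [sq_nonneg L]

theorem sum_le (L : ℝ) (hL : 1 ≤ L) (M : ℕ) :
    ∑ j ∈ Finset.Icc (-(M:ℤ)) M, Real.exp (-(1 / L ^ 2) * (j:ℝ) ^ 2) ≤
      1 + 4 * L ^ 2 * (1 / L - 1 / (L + M)) := by
  have hL0 : 0 < L := by linarith
  induction M with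
  | zero => simp
  | succ M ih =>
    have hset : Finset.Icc (-((M + 1 : ℕ) : ℤ)) ((M + 1 : ℕ) : ℤ) =
        insert ((M:ℤ) + 1) (insert (-((M:ℤ) + 1)) (Finset.Icc (-(M:ℤ)) M)) := by
      ext x
      simp only [Finset.mem_Icc, Finset.mem_insert, Nat.cast_add, Nat.cast_one]
      omega
    rw [hset, Finset.sum_insert (by
      simp only [Finset.mem_Icc, Finset.mem_insert]
      omega), Finset.sum_insert (by
      simp only [Finset.mem_Icc]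
      omega)]
    have h1 := term_le L hL M
    have e1 : ((((M:ℤ) + 1 : ℤ) : ℝ)) = (M:ℝ) + 1 := by push_cast; ring
    have e2 : (((-((M:ℤ) + 1) : ℤ) : ℝ)) ^ 2 = ((M:ℝ) + 1) ^ 2 := by push_cast; ring
    rw [e2, e1]
    have e3 : (L + ((M + 1 : ℕ) : ℝ)) = L + ((M:ℝ) + 1) := by push_cast; ring
    rw [e3]
    have e4 : 1 + 4 * L ^ 2 * (1 / L - 1 / (L + ((M:ℝ) + 1))) =
        (1 + 4 * L ^ 2 * (1 / L - 1 / (L + M))) +
        2 * (2 * L ^ 2 * (1 / (L + (M:ℝ)) - 1 / (L + ((M:ℝ) + 1)))) := by ring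
    rw [e4]
    linarith

theorem sum_le' (L : ℝ) (hL : 1 ≤ L) (M : ℕ) :
    ∑ j ∈ Finset.Icc (-(M:ℤ)) M, Real.exp (-(1 / L ^ 2) * (j:ℝ) ^ 2) ≤ 5 * L := by
  have hL0 : 0 < L := by linarith
  refine (sum_le L hL M).trans ?_
  have h1 : 0 ≤ 1 / (L + (M:ℝ)) := by positivity
  have h2 : 4 * L ^ 2 * (1 / L - 1 / (L + M)) ≤ 4 * L ^ 2 * (1 / L) := by
    apply mul_le_mul_of_nonneg_left _ (by positivity)
    linarith
  have h3 : 4 * L ^ 2 * (1 / L) = 4 * L := by field_simp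
  linarith

end Lat

theorem lattice_count : ∃ C : ℝ, 1 ≤ C ∧ ∀ (ι : Type) [Fintype ι] (R : ℝ), 0 ≤ R →
    {k : ι → ℤ | ∑ i, ((k i : ℤ) : ℝ) ^ 2 ≤ R ^ 2 * Fintype.card ι}.Finite ∧
    (({k : ι → ℤ | ∑ i, ((k i : ℤ) : ℝ) ^ 2 ≤ R ^ 2 * Fintype.card ι}.ncard : ℕ) : ℝ) ≤
      (C * (1 + R)) ^ (Fintype.card ι) := by
  classical
  refine ⟨5 * Real.exp 1, ?_, ?_⟩
  · have := Real.add_one_le_exp (1:ℝ)
    linarith
  intro ι _ R hR
  set d := Fintype.card ι with hd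
  set S : Set (ι → ℤ) := {k : ι → ℤ | ∑ i, ((k i : ℤ) : ℝ) ^ 2 ≤ R ^ 2 * d} with hS
  set L := 1 + R with hLdef
  have hL : 1 ≤ L := by rw [hLdef]; linarith
  have hL0 : 0 < L := by linarith
  set M : ℕ := ⌈R ^ 2 * d⌉₊ with hM
  set B : Finset (ι → ℤ) := Fintype.piFinset (fun _ : ι => Finset.Icc (-(M:ℤ)) M) with hB
  have hsub : S ⊆ ↑B := by
    intro k hk
    rw [Finset.mem_coe, Fintype.mem_piFinset]
    intro i
    rw [Finset.mem_Icc, ← abs_le]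
    have h1 : ((k i : ℤ) : ℝ) ^ 2 ≤ R ^ 2 * d :=
      (Finset.single_le_sum (f := fun i => ((k i : ℤ) : ℝ) ^ 2) (fun i _ => sq_nonneg _)
        (Finset.mem_univ i)).trans hk
    have h2 : R ^ 2 * d ≤ (M:ℝ) := Nat.le_ceil _
    have h3 : ((k i : ℤ) : ℝ) ^ 2 ≤ ((M:ℤ):ℝ) := by
      rw [Int.cast_natCast]; linarith
    have h4 : (k i) ^ 2 ≤ (M:ℤ) := by exact_mod_cast h3
    have h5 : |k i| ≤ (k i) ^ 2 := by
      rw [← sq_abs]
      have h6 : 0 ≤ |k i| := abs_nonneg _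
      rcases h6.eq_or_lt with h7 | h7
      · rw [← h7]; norm_num
      · nlinarith
    linarith
  have hfin : S.Finite := (Finset.finite_toSet B).subset hsub
  refine ⟨hfin, ?_⟩
  rw [Set.ncard_eq_toFinset_card S hfin]
  set T := hfin.toFinset with hT
  have hTB : T ⊆ B := by
    intro k hk
    exact hsub ((Set.Finite.mem_toFinset _).mp hk)
  have h1 : (T.card : ℝ) * Real.exp (-(d:ℝ)) ≤
      ∑ k ∈ T, Real.exp (∑ i, (-(1 / L ^ 2) * ((k i : ℤ):ℝ) ^ 2)) := by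
    rw [← nsmul_eq_mul]
    apply Finset.card_nsmul_le_sum
    intro k hk
    have hk'' : k ∈ S := (Set.Finite.mem_toFinset _).mp hk
    have hk' : ∑ i, ((k i : ℤ) : ℝ) ^ 2 ≤ R ^ 2 * d := hk''
    apply Real.exp_le_exp.mpr
    rw [← Finset.mul_sum, neg_mul]
    apply neg_le_neg
    have h2 : (1 / L ^ 2) * ∑ i, ((k i : ℤ) : ℝ) ^ 2 ≤ (1 / L ^ 2) * (R ^ 2 * d) :=
      mul_le_mul_of_nonneg_left hk' (by positivity)
    refine h2.trans ?_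
    have h3 : (1 / L ^ 2) * R ^ 2 ≤ 1 := by
      rw [div_mul_eq_mul_div, one_mul, div_le_one (by positivity)]
      apply pow_le_pow_left₀ hR
      rw [hLdef]; linarith
    have hd0 : (0:ℝ) ≤ d := Nat.cast_nonneg d
    nlinarith
  have h2 : ∑ k ∈ T, Real.exp (∑ i, (-(1 / L ^ 2) * ((k i : ℤ):ℝ) ^ 2)) ≤
      ∑ k ∈ B, Real.exp (∑ i, (-(1 / L ^ 2) * ((k i : ℤ):ℝ) ^ 2)) :=
    Finset.sum_le_sum_of_subset_of_nonneg hTB (fun _ _ _ => (Real.exp_pos _).le)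
  have h3 : ∑ k ∈ B, Real.exp (∑ i, (-(1 / L ^ 2) * ((k i : ℤ):ℝ) ^ 2)) =
      (∑ j ∈ Finset.Icc (-(M:ℤ)) M, Real.exp (-(1 / L ^ 2) * (j:ℝ) ^ 2)) ^ d := by
    have h4 : ∀ k : ι → ℤ, Real.exp (∑ i, (-(1 / L ^ 2) * ((k i : ℤ):ℝ) ^ 2)) =
        ∏ i, Real.exp (-(1 / L ^ 2) * ((k i : ℤ):ℝ) ^ 2) := fun k => Real.exp_sum _ _
    simp_rw [h4]
    rw [hB, ← Finset.prod_univ_sum (fun _ : ι => Finset.Icc (-(M:ℤ)) M)
      (fun _ j => Real.exp (-(1 / L ^ 2) * (j:ℝ) ^ 2)), Finset.prod_const, Finset.card_univ]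
  have h5 : (∑ j ∈ Finset.Icc (-(M:ℤ)) M, Real.exp (-(1 / L ^ 2) * (j:ℝ) ^ 2)) ^ d ≤
      (5 * L) ^ d := by
    apply pow_le_pow_left₀ (Finset.sum_nonneg (fun _ _ => (Real.exp_pos _).le))
    exact Lat.sum_le' L hL M
  have h6 : (T.card : ℝ) * Real.exp (-(d:ℝ)) ≤ (5 * L) ^ d :=
    h1.trans (h2.trans (h3.le.trans h5))
  have h7 : (T.card : ℝ) = (T.card : ℝ) * Real.exp (-(d:ℝ)) * Real.exp (d:ℝ) := by
    rw [mul_assoc, ← Real.exp_add, neg_add_cancel, Real.exp_zero, mul_one]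
  have h8 : Real.exp (d:ℝ) = (Real.exp 1) ^ d := by
    rw [← Real.exp_nat_mul, mul_one]
  rw [h7, h8]
  calc (T.card : ℝ) * Real.exp (-(d:ℝ)) * (Real.exp 1) ^ d ≤ (5 * L) ^ d * (Real.exp 1) ^ d :=
        mul_le_mul_of_nonneg_right h6 (by positivity)
    _ = (5 * Real.exp 1 * L) ^ d := by rw [← mul_pow]; congr 1; ring

end Pool.Agent.H710R2.FF
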