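import Mathlib
import Pool.Agent.H710R2.FF.Defs

set_option autoImplicit false

open MeasureTheory

noncomputable section

namespace Pool.Agent.H710R2.FF

namespace Sq

/-- a quarter of the argument, through the tangent -/
def tq (z : ℂ) : ℝ := Real.tan (Complex.arg z / 4)

lemma quarter_mem (z : ℂ) : -(Real.pi / 4) ≤ Complex.arg z / 4 ∧
    Complex.arg z / 4 ≤ Real.pi / 4 := by
  constructor
  · have := Complex.neg_pi_lt_arg z
    linarith
  · have := Complex.arg_le_pi z
    linarith

lemma abs_tq_le (z : ℂ) : |tq z| ≤ 1 := by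
  obtain ⟨h1, h2⟩ := quarter_mem z
  have hpi := Real.pi_pos
  rw [abs_le]
  constructor
  · have : Real.tan (-(Real.pi / 4)) ≤ Real.tan (Complex.arg z / 4) := by
      apply Real.strictMonoOn_tan.monotoneOn _ _ h1
      · constructor <;> linarith
      · constructor <;> linarith
    rw [Real.tan_neg, Real.tan_pi_div_four] at this
    exact this
  · have : Real.tan (Complex.arg z / 4) ≤ Real.tan (Real.pi / 4) := by
      apply Real.strictMonoOn_tan.monotoneOn _ _ h2
      · constructor <;> linarith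
      · constructor <;> linarith
    rw [Real.tan_pi_div_four] at this
    exact this

lemma one_sub_ne (t : ℝ) : (1 : ℂ) - Complex.I * (t : ℂ) ≠ 0 := by
  intro h
  have := congrArg Complex.re h
  simp at this

lemma cay_scalar (z : ℂ) (hz : ‖z‖ = 1) :
    ((1 + Complex.I * (tq z : ℂ)) / (1 - Complex.I * (tq z : ℂ))) *
      ((1 + Complex.I * (tq z : ℂ)) / (1 - Complex.I * (tq z : ℂ))) = z := by
  set b : ℝ := Complex.arg z / 4 with hb
  have hpi := Real.pi_pos
  obtain ⟨h1, h2⟩ := quarter_mem z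
  have hcos : Real.cos b ≠ 0 := by
    apply ne_of_gt
    apply Real.cos_pos_of_mem_Ioo
    constructor <;> linarith
  have hcosC : (Real.cos b : ℂ) ≠ 0 := by exact_mod_cast hcos
  have ht : (tq z : ℂ) = (Real.sin b : ℂ) / (Real.cos b : ℂ) := by
    rw [tq, ← hb, Real.tan_eq_sin_div_cos]
    push_cast
    rfl
  have e1 : Complex.exp (b * Complex.I) = Real.cos b + Real.sin b * Complex.I := by
    rw [Complex.exp_mul_I]; push_cast; rfl
  have e2 : Complex.exp (-(b * Complex.I)) = Real.cos b - Real.sin b * Complex.I := by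
    rw [← neg_mul, Complex.exp_mul_I, Complex.cos_neg, Complex.sin_neg]; push_cast; ring
  have hq : (1 + Complex.I * (tq z : ℂ)) / (1 - Complex.I * (tq z : ℂ)) =
      Complex.exp (2 * (b * Complex.I)) := by
    have h3 : (1 + Complex.I * (tq z : ℂ)) = Complex.exp (b * Complex.I) / (Real.cos b : ℂ) := by
      rw [e1, ht]; field_simp
    have h4 : (1 - Complex.I * (tq z : ℂ)) = Complex.exp (-(b * Complex.I)) / (Real.cos b : ℂ) := by
      rw [e2, ht]; field_simp
    rw [h3, h4, div_div_div_cancel_right₀ hcosC, ← Complex.exp_sub]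
    congr 1
    ring
  rw [hq, ← Complex.exp_add]
  have h5 : (2 * ((b : ℂ) * Complex.I) + 2 * ((b : ℂ) * Complex.I)) =
      (Complex.arg z : ℂ) * Complex.I := by
    rw [hb]; push_cast; ring
  rw [h5]
  have h6 := Complex.norm_mul_exp_arg_mul_I z
  rw [hz, Complex.ofReal_one, one_mul] at h6
  exact h6

lemma gen {A : Type} [CStarAlgebra A] (u : A) (hu : u ∈ unitary A)
    (hfin : (spectrum ℂ u).Finite) : ∃ K : A, star K = K ∧ ‖K‖ ≤ 1 ∧
      ((1 + Complex.I • K) * Ring.inverse (1 - Complex.I • K)) *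
        ((1 + Complex.I • K) * Ring.inverse (1 - Complex.I • K)) = u := by
  have hn : IsStarNormal u := ⟨by
    rw [Unitary.mem_iff] at hu
    rw [commute_iff_eq, hu.1, hu.2]⟩
  have hc : ∀ f : ℂ → ℂ, ContinuousOn f (spectrum ℂ u) := fun f => hfin.continuousOn f
  let f : ℂ → ℂ := fun z => (tq z : ℂ)
  refine ⟨cfc f u, ?_, ?_, ?_⟩
  · rw [← cfc_star]
    congr 1
    funext z
    exact Complex.conj_ofReal _
  · apply norm_cfc_le zero_le_one
    intro z _
    rw [Complex.norm_real]
    exact abs_tq_le z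
  · have h1 : (1 : A) + Complex.I • cfc f u = cfc (fun z => 1 + Complex.I * f z) u := by
      rw [cfc_const_add 1 (fun z => Complex.I * f z) u (hc _), cfc_const_mul _ _ _ (hc _), map_one]
    have h2 : (1 : A) - Complex.I • cfc f u = cfc (fun z => 1 - Complex.I * f z) u := by
      rw [cfc_sub (fun _ => (1 : ℂ)) (fun z => Complex.I * f z) u (hc _) (hc _),
        cfc_const_mul _ _ _ (hc _), cfc_const_one ℂ u]
    rw [h1, h2, ← cfc_map_div _ _ _ (fun z _ => one_sub_ne _) (hc _) (hc _),
      ← cfc_mul _ _ _ (hc _) (hc _)]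
    have h3 : cfc (fun z => (1 + Complex.I * f z) / (1 - Complex.I * f z) *
        ((1 + Complex.I * f z) / (1 - Complex.I * f z))) u = cfc (id : ℂ → ℂ) u := by
      apply cfc_congr
      intro z hz
      exact cay_scalar z (spectrum.norm_eq_one_of_unitary hu hz)
    rw [h3, cfc_id ℂ u]

end Sq

open Sq in
open scoped Matrix.Norms.L2Operator in
theorem exists_cay_sq {N : ℕ} (U : UN N) : ∃ K : Mt N, K.IsHermitian ∧ opn K ≤ 1 ∧
    cay K * cay K = (U : Mt N) := by
  obtain ⟨K, h1, h2, h3⟩ := gen (A := Mt N) (U : Mt N) U.2 (Matrix.finite_spectrum _)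
  exact ⟨K, h1, h2, h3⟩

end Pool.Agent.H710R2.FF
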