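import Mathlib
import Pool.Agent.H710R2.FF.Basic
import Pool.Agent.H710R2.FF.Lat
import Pool.Agent.H710R2.FF.Sq
import Pool.Agent.H710R2.FF.Cay

/-! Lower bound for the Haar measure of small 2-norm balls (helper409). -/

set_option autoImplicit false
set_option linter.unusedSectionVars false

open MeasureTheory
open scoped ComplexConjugate InnerProductSpace

noncomputable section

namespace Pool.Agent.H710R2.FF

/-- real coordinates of a Hermitian matrix -/
def blKap {N : ℕ} (K : Mt N) (p : Fin N × Fin N) : ℝ :=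
  if p.1 ≤ p.2 then (K p.1 p.2).re else (K p.1 p.2).im

theorem bl_kap_sq_le {N : ℕ} (K : Mt N) (p : Fin N × Fin N) :
    blKap K p ^ 2 ≤ ‖K p.1 p.2‖ ^ 2 := by
  rw [← Complex.normSq_eq_norm_sq, Complex.normSq_apply]
  unfold blKap
  split_ifs <;> nlinarith [mul_self_nonneg (K p.1 p.2).re, mul_self_nonneg (K p.1 p.2).im]

theorem bl_sum_kap {N : ℕ} (hN : 0 < N) (K : Mt N) (hK : opn K ≤ 1) :
    ∑ p, blKap K p ^ 2 ≤ N := by
  have h1 : hs2 K ≤ 1 := (hs2_le_opn K).trans (by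
    have := opn_nonneg K
    nlinarith)
  have hN' : (0 : ℝ) < N := by exact_mod_cast hN
  have h2 : ∑ i, ∑ j, ‖K i j‖ ^ 2 ≤ N := by
    unfold hs2 at h1
    rw [inv_mul_le_iff₀ hN', mul_one] at h1
    exact h1
  calc ∑ p, blKap K p ^ 2 ≤ ∑ p : Fin N × Fin N, ‖K p.1 p.2‖ ^ 2 :=
        Finset.sum_le_sum fun p _ => bl_kap_sq_le K p
    _ = ∑ i, ∑ j, ‖K i j‖ ^ 2 := by rw [Fintype.sum_prod_type]
    _ ≤ N := h2

theorem bl_entry {N : ℕ} (K K' : Mt N) (hK : K.IsHermitian) (hK' : K'.IsHermitian) (δ : ℝ)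
    (h : ∀ p, |blKap K p - blKap K' p| ≤ δ) (i j : Fin N) : ‖(K - K') i j‖ ^ 2 ≤ 2 * δ ^ 2 := by
  have hδ : 0 ≤ δ := (abs_nonneg _).trans (h (i, j))
  have hre : ∀ (K : Mt N), K.IsHermitian → ∀ i j, (K i j).re = (K j i).re := by
    intro K hK i j
    rw [← hK.apply i j]
    simp
  have him : ∀ (K : Mt N), K.IsHermitian → ∀ i j, (K i j).im = -(K j i).im := by
    intro K hK i j
    rw [← hK.apply i j]
    simp
  have h1 : |(K i j).re - (K' i j).re| ≤ δ := by
    by_cases hij : i ≤ j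
    · simpa [blKap, hij] using h (i, j)
    · have hji : j ≤ i := (not_le.1 hij).le
      have h2 := h (j, i)
      simp only [blKap, hji, if_true] at h2
      rwa [hre K hK i j, hre K' hK' i j]
  have h2 : |(K i j).im - (K' i j).im| ≤ δ := by
    by_cases hij : i ≤ j
    · rcases hij.eq_or_lt with h3 | h3
      · subst h3
        have h4 := him K hK i i
        have h5 := him K' hK' i i
        have h6 : (K i i).im - (K' i i).im = 0 := by linarith
        rw [h6, abs_zero]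
        exact hδ
      · have h4 := h (j, i)
        simp only [blKap, not_le.2 h3, if_false] at h4
        rw [him K hK i j, him K' hK' i j, ← abs_neg]
        have h5 : -(-(K j i).im - -(K' j i).im) = (K j i).im - (K' j i).im := by ring
        rwa [h5]
    · simpa [blKap, hij] using h (i, j)
  rw [← Complex.normSq_eq_norm_sq, Complex.normSq_apply, Matrix.sub_apply, Complex.sub_re,
    Complex.sub_im]
  have h3 := sq_le_sq' (neg_le_of_abs_le h1) (le_of_abs_le h1)
  have h4 := sq_le_sq' (neg_le_of_abs_le h2) (le_of_abs_le h2)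
  nlinarith

theorem bl_hs2 {N : ℕ} (hN : 0 < N) (K K' : Mt N) (hK : K.IsHermitian) (hK' : K'.IsHermitian)
    (δ : ℝ) (h : ∀ p, |blKap K p - blKap K' p| ≤ δ) : hs2 (K - K') ≤ 2 * N * δ ^ 2 := by
  have hN' : (0 : ℝ) < N := by exact_mod_cast hN
  unfold hs2
  rw [inv_mul_le_iff₀ hN']
  calc ∑ i, ∑ j, ‖(K - K') i j‖ ^ 2 ≤ ∑ _i : Fin N, ∑ _j : Fin N, 2 * δ ^ 2 :=
        Finset.sum_le_sum fun i _ => Finset.sum_le_sum fun j _ => bl_entry K K' hK hK' δ h i j
    _ = N * (2 * N * δ ^ 2) := by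
        simp only [Finset.sum_const, Finset.card_univ, Fintype.card_fin, nsmul_eq_mul]
        ring

/-- the lattice point of a unitary -/
def blKey (N : ℕ) (s : ℝ) (U : UN N) (p : Fin N × Fin N) : ℤ :=
  ⌊blKap (exists_cay_sq U).choose p * √N / s⌋

theorem bl_key_sum {N : ℕ} (hN : 0 < N) (s : ℝ) (hs : 0 < s) (hs1 : s ≤ 1) (U : UN N) :
    ∑ p, ((blKey N s U p : ℤ) : ℝ) ^ 2 ≤ (2 / s) ^ 2 * Fintype.card (Fin N × Fin N) := by
  have hN' : (0 : ℝ) < N := by exact_mod_cast hN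
  obtain ⟨-, h2, -⟩ := (exists_cay_sq U).choose_spec
  have h3 := bl_sum_kap hN _ h2
  have h4 : ∀ x : ℝ, ((⌊x⌋ : ℤ) : ℝ) ^ 2 ≤ 2 * x ^ 2 + 2 := by
    intro x
    have h5 := Int.floor_le x
    have h6 := Int.lt_floor_add_one x
    nlinarith [sq_nonneg ((⌊x⌋ : ℝ) - 2 * x), sq_nonneg (x - ⌊x⌋)]
  have h5 : ∀ p, ((blKey N s U p : ℤ) : ℝ) ^ 2 ≤
      2 * N / s ^ 2 * blKap (exists_cay_sq U).choose p ^ 2 + 2 := by
    intro p
    refine (h4 _).trans (le_of_eq ?_)
    rw [div_pow, mul_pow, Real.sq_sqrt hN'.le]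
    ring
  calc ∑ p, ((blKey N s U p : ℤ) : ℝ) ^ 2
      ≤ ∑ p, (2 * N / s ^ 2 * blKap (exists_cay_sq U).choose p ^ 2 + 2) :=
        Finset.sum_le_sum fun p _ => h5 p
    _ = 2 * N / s ^ 2 * ∑ p, blKap (exists_cay_sq U).choose p ^ 2 + 2 * (N * N) := by
        rw [Finset.sum_add_distrib, ← Finset.mul_sum]
        simp only [Finset.sum_const, Finset.card_univ, Fintype.card_prod, Fintype.card_fin,
          nsmul_eq_mul, Nat.cast_mul]
        ring
    _ ≤ 2 * N / s ^ 2 * N + 2 * (N * N) := by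
        gcongr
    _ ≤ 2 * N / s ^ 2 * N + 2 * (N * N) / s ^ 2 := by
        gcongr
        rw [le_div_iff₀ (by positivity)]
        have : s ^ 2 ≤ 1 := by nlinarith
        nlinarith [mul_pos hN' hN']
    _ = (2 / s) ^ 2 * Fintype.card (Fin N × Fin N) := by
        simp only [Fintype.card_prod, Fintype.card_fin, Nat.cast_mul]
        field_simp
        ring

theorem bl_key_eq {N : ℕ} (hN : 0 < N) (s : ℝ) (hs : 0 < s) (U U' : UN N)
    (h : blKey N s U = blKey N s U') : hs2 ((U : Mt N) - (U' : Mt N)) ≤ 32 * s ^ 2 := by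
  have hN' : (0 : ℝ) < N := by exact_mod_cast hN
  have hkey := h
  obtain ⟨h1, h2, h3⟩ := (exists_cay_sq U).choose_spec
  obtain ⟨h1', h2', h3'⟩ := (exists_cay_sq U').choose_spec
  have h4 : ∀ p, |blKap (exists_cay_sq U).choose p - blKap (exists_cay_sq U').choose p| ≤
      s / √N := by
    intro p
    have h5 := congrFun hkey p
    unfold blKey at h5
    have h6 := Int.abs_sub_lt_one_of_floor_eq_floor h5
    have hsq : 0 < √(N : ℝ) := Real.sqrt_pos.2 hN'
    have h7 : blKap (exists_cay_sq U).choose p * √N / s - blKap (exists_cay_sq U').choose p *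
        √N / s = (blKap (exists_cay_sq U).choose p - blKap (exists_cay_sq U').choose p) *
          (√N / s) := by ring
    rw [h7, abs_mul, abs_of_pos (div_pos hsq hs)] at h6
    rw [le_div_iff₀ hsq]
    have h8 : |blKap (exists_cay_sq U).choose p - blKap (exists_cay_sq U').choose p| * √N / s
        < 1 := by rwa [mul_div_assoc]
    rw [div_lt_one hs] at h8
    exact h8.le
  generalize (exists_cay_sq U).choose = K at *
  generalize (exists_cay_sq U').choose = K' at *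
  have h9 := bl_hs2 hN K K' h1 h1' _ h4
  have h10 : 2 * N * (s / √N) ^ 2 = 2 * s ^ 2 := by
    rw [div_pow, Real.sq_sqrt hN'.le]
    field_simp
  rw [h10] at h9
  have h11 := cay_lip K K' h1 h1'
  have hc := cay_mem K h1
  have hc' := cay_mem K' h1'
  have h12 : (U : Mt N) - (U' : Mt N) =
      cay K * (cay K - cay K') + (cay K - cay K') * cay K' := by
    rw [← h3, ← h3']
    noncomm_ring
  have h13 : hs2 (cay K * (cay K - cay K')) = hs2 (cay K - cay K') :=
    hs2_unitary_mul (⟨cay K, hc⟩ : UN N) (cay K - cay K')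
  have h14 : hs2 ((cay K - cay K') * cay K') = hs2 (cay K - cay K') :=
    hs2_mul_unitary (⟨cay K', hc'⟩ : UN N) (cay K - cay K')
  have h15 := sqrt_hs2_add (cay K * (cay K - cay K')) ((cay K - cay K') * cay K')
  rw [← h12, h13, h14] at h15
  have h16 : 0 ≤ hs2 (cay K - cay K') := hs2_nonneg _
  have h17 : 0 ≤ hs2 ((U : Mt N) - (U' : Mt N)) := hs2_nonneg _
  have h18 : hs2 ((U : Mt N) - (U' : Mt N)) ≤ 4 * hs2 (cay K - cay K') := by
    have e1 := Real.sq_sqrt h16
    have e2 := Real.sq_sqrt h17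
    have e3 := Real.sqrt_nonneg (hs2 ((U : Mt N) - (U' : Mt N)))
    have e4 := Real.sqrt_nonneg (hs2 (cay K - cay K'))
    nlinarith
  linarith

theorem bl_ball_meas {N : ℕ} (V : UN N) (r : ℝ) :
    (mu N).real {U | hs2 ((U : Mt N) - (V : Mt N)) ≤ r ^ 2} =
      (mu N).real {U | hs2 ((U : Mt N) - 1) ≤ r ^ 2} := by
  have h1 : {U : UN N | hs2 ((U : Mt N) - (V : Mt N)) ≤ r ^ 2} =
      (fun U => V⁻¹ * U) ⁻¹' {U : UN N | hs2 ((U : Mt N) - 1) ≤ r ^ 2} := by
    ext U
    simp only [Set.mem_setOf_eq, Set.mem_preimage]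
    have h2 : ((V⁻¹ * U : UN N) : Mt N) - 1 = ((V⁻¹ : UN N) : Mt N) * ((U : Mt N) - (V : Mt N)) := by
      rw [mul_sub]
      have h3 : ((V⁻¹ : UN N) : Mt N) * (V : Mt N) = 1 := by
        rw [← Submonoid.coe_mul, inv_mul_cancel, Submonoid.coe_one]
      rw [h3, Submonoid.coe_mul]
    rw [h2, hs2_unitary_mul]
  rw [h1, Measure.real, Measure.real, measure_preimage_mul]

theorem ball_lower : ∃ c : ℝ, 0 < c ∧ ∀ N : ℕ, 0 < N → ∀ r : ℝ, 0 < r → r ≤ 1 →
    (c * r) ^ (N ^ 2) ≤ (mu N).real {U | hs2 ((U : Mt N) - 1) ≤ r ^ 2} := by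
  obtain ⟨C, hC1, hC⟩ := lattice_count
  refine ⟨1 / (13 * C), by positivity, fun N hN r hr hr1 => ?_⟩
  set s := r / 6 with hs
  have hs0 : 0 < s := by positivity
  have hs1 : s ≤ 1 := by linarith
  obtain ⟨hfin, hcard⟩ := hC (Fin N × Fin N) (2 / s) (by positivity)
  set S : Set (Fin N × Fin N → ℤ) := {k : Fin N × Fin N → ℤ | ∑ i, ((k i : ℤ) : ℝ) ^ 2 ≤
    (2 / s) ^ 2 * Fintype.card (Fin N × Fin N)} with hS
  have hcard2 : ((S.ncard : ℕ) : ℝ) ≤ (13 * C / r) ^ (N ^ 2) := by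
    refine hcard.trans ?_
    have e1 : Fintype.card (Fin N × Fin N) = N ^ 2 := by
      simp [sq]
    rw [e1]
    refine pow_le_pow_left₀ (by positivity) ?_ _
    rw [hs]
    have e2 : C * (1 + 2 / (r / 6)) = C * (r + 12) / r := by
      field_simp
      ring
    rw [e2]
    refine div_le_div_of_nonneg_right ?_ hr.le
    nlinarith
  classical
  -- representatives
  let rep : (Fin N × Fin N → ℤ) → UN N := fun k =>
    if h : ∃ U : UN N, blKey N s U = k then h.choose else 1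
  have hcover : (Set.univ : Set (UN N)) ⊆
      ⋃ k ∈ hfin.toFinset, {U : UN N | hs2 ((U : Mt N) - (rep k : Mt N)) ≤ r ^ 2} := by
    intro U _
    rw [Set.mem_iUnion₂]
    refine ⟨blKey N s U, ?_, ?_⟩
    · rw [Set.Finite.mem_toFinset]
      exact bl_key_sum hN s hs0 hs1 U
    · have hex : ∃ U' : UN N, blKey N s U' = blKey N s U := ⟨U, rfl⟩
      have hrep : rep (blKey N s U) = hex.choose := dif_pos hex
      have h5 := bl_key_eq hN s hs0 U hex.choose hex.choose_spec.symm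
      change hs2 ((U : Mt N) - (rep (blKey N s U) : Mt N)) ≤ r ^ 2
      rw [hrep]
      refine h5.trans ?_
      rw [hs]
      nlinarith [sq_nonneg r]
  have h6 : (1 : ℝ) ≤ (13 * C / r) ^ (N ^ 2) *
      (mu N).real {U | hs2 ((U : Mt N) - 1) ≤ r ^ 2} := by
    calc (1 : ℝ) = (mu N).real Set.univ := by simp
      _ ≤ (mu N).real (⋃ k ∈ hfin.toFinset,
          {U : UN N | hs2 ((U : Mt N) - (rep k : Mt N)) ≤ r ^ 2}) :=
        measureReal_mono hcover (measure_ne_top _ _)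
      _ ≤ ∑ k ∈ hfin.toFinset, (mu N).real
          {U : UN N | hs2 ((U : Mt N) - (rep k : Mt N)) ≤ r ^ 2} :=
        measureReal_biUnion_finset_le _ _
      _ = (S.ncard : ℝ) * (mu N).real {U | hs2 ((U : Mt N) - 1) ≤ r ^ 2} := by
        simp only [bl_ball_meas]
        rw [Finset.sum_const, nsmul_eq_mul, Set.ncard_eq_toFinset_card S hfin]
      _ ≤ _ := mul_le_mul_of_nonneg_right hcard2 measureReal_nonneg
  have h7 : (1 / (13 * C) * r) ^ (N ^ 2) * (13 * C / r) ^ (N ^ 2) = 1 := by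
    rw [← mul_pow]
    have : 1 / (13 * C) * r * (13 * C / r) = 1 := by
      field_simp
    rw [this, one_pow]
  calc (1 / (13 * C) * r) ^ (N ^ 2) = (1 / (13 * C) * r) ^ (N ^ 2) * 1 := (mul_one _).symm
    _ ≤ (1 / (13 * C) * r) ^ (N ^ 2) * ((13 * C / r) ^ (N ^ 2) *
        (mu N).real {U | hs2 ((U : Mt N) - 1) ≤ r ^ 2}) :=
      mul_le_mul_of_nonneg_left h6 (by positivity)
    _ = _ := by rw [← mul_assoc, h7, one_mul]

end Pool.Agent.H710R2.FF
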