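import Mathlib
import Pool.Agent.H710R2.FF.Defs2
import Pool.Agent.H710R2.FF.Basic

set_option autoImplicit false
set_option linter.unusedSectionVars false

open MeasureTheory Metric Module
open scoped ComplexConjugate InnerProductSpace ENNReal

noncomputable section

namespace Pool.Agent.H710R2.FF
namespace Grid

open scoped Function in
/-- a `1/4`-separated set in the unit ball has at most `9 ^ dim` points -/
theorem card_le_of_sep {E : Type} [NormedAddCommGroup E] [NormedSpace ℝ E] [FiniteDimensional ℝ E]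
    (s : Finset E) (hs : ∀ c ∈ s, ‖c‖ ≤ 1)
    (h : ∀ c ∈ s, ∀ d ∈ s, c ≠ d → 1 / 4 ≤ ‖c - d‖) : s.card ≤ 9 ^ finrank ℝ E := by
  borelize E
  let μ : Measure E := Measure.addHaar
  let δ : ℝ := (1 : ℝ) / 8
  let ρ : ℝ := (9 : ℝ) / 8
  have ρpos : 0 < ρ := by norm_num [ρ]
  have δpos : 0 < δ := by norm_num [δ]
  set A := ⋃ c ∈ s, ball (c : E) δ with hA
  have D : Set.Pairwise (s : Set E) (Disjoint on fun c => ball (c : E) δ) := by
    rintro c hc d hd hcd
    apply ball_disjoint_ball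
    rw [dist_eq_norm]
    have := h c hc d hd hcd
    simp only [δ]
    linarith
  have A_subset : A ⊆ ball (0 : E) ρ := by
    refine Set.iUnion₂_subset fun x hx => ?_
    apply ball_subset_ball'
    calc
      δ + dist x 0 ≤ δ + 1 := by rw [dist_zero_right]; exact add_le_add le_rfl (hs x hx)
      _ = ρ := by norm_num [δ, ρ]
  have I :
    (s.card : ℝ≥0∞) * ENNReal.ofReal (δ ^ finrank ℝ E) * μ (ball 0 1) ≤
      ENNReal.ofReal (ρ ^ finrank ℝ E) * μ (ball 0 1) :=
    calc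
      (s.card : ℝ≥0∞) * ENNReal.ofReal (δ ^ finrank ℝ E) * μ (ball 0 1) = μ A := by
        rw [hA, measure_biUnion_finset D fun c _ => measurableSet_ball]
        simp only [μ.addHaar_ball_of_pos _ δpos]
        simp only [Finset.sum_const, nsmul_eq_mul, mul_assoc]
      _ ≤ μ (ball (0 : E) ρ) := measure_mono A_subset
      _ = ENNReal.ofReal (ρ ^ finrank ℝ E) * μ (ball 0 1) := by
        simp only [μ.addHaar_ball_of_pos _ ρpos]
  have J : (s.card : ℝ≥0∞) * ENNReal.ofReal (δ ^ finrank ℝ E) ≤ ENNReal.ofReal (ρ ^ finrank ℝ E) :=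
    (ENNReal.mul_le_mul_iff_left (measure_ball_pos _ _ zero_lt_one).ne' measure_ball_lt_top.ne).1 I
  have K0 : (s.card : ℝ) * δ ^ finrank ℝ E ≤ ρ ^ finrank ℝ E := by
    have := ENNReal.toReal_le_of_le_ofReal (pow_nonneg ρpos.le _) J
    rwa [ENNReal.toReal_mul, ENNReal.toReal_natCast,
      ENNReal.toReal_ofReal (pow_nonneg δpos.le _)] at this
  have K1 : ρ = 9 * δ := by norm_num [δ, ρ]
  have K : (s.card : ℝ) ≤ (9 : ℝ) ^ finrank ℝ E := by
    rw [K1, mul_pow] at K0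
    exact le_of_mul_le_mul_right K0 (pow_pos δpos _)
  exact mod_cast K

/-- a `1/4`-net of the unit sphere with at most `9 ^ dim` points -/
theorem exists_net (E : Type) [NormedAddCommGroup E] [NormedSpace ℝ E] [FiniteDimensional ℝ E] :
    ∃ F : Finset E, (∀ v ∈ F, ‖v‖ = 1) ∧ F.card ≤ 9 ^ finrank ℝ E ∧
      ∀ u : E, ‖u‖ = 1 → ∃ v ∈ F, ‖u - v‖ ≤ 1 / 4 := by
  classical
  let P : ℕ → Prop := fun n => ∃ s : Finset E, s.card = n ∧ (∀ c ∈ s, ‖c‖ = 1) ∧
    ∀ c ∈ s, ∀ d ∈ s, c ≠ d → 1 / 4 ≤ ‖c - d‖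
  have h0 : P 0 := ⟨∅, rfl, by simp, by simp⟩
  have hb : ∀ n, P n → n ≤ 9 ^ finrank ℝ E := by
    rintro n ⟨s, rfl, h1, h2⟩
    exact card_le_of_sep s (fun c hc => (h1 c hc).le) h2
  obtain ⟨s, hs, h1, h2⟩ : P (Nat.findGreatest P (9 ^ finrank ℝ E)) :=
    Nat.findGreatest_spec (Nat.zero_le _) h0
  refine ⟨s, h1, card_le_of_sep s (fun c hc => (h1 c hc).le) h2, ?_⟩
  intro u hu
  by_contra hcon
  push Not at hcon
  have hus : u ∉ s := by
    intro hus
    have := hcon u hus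
    simp at this
    linarith
  have hP : P (s.card + 1) := by
    refine ⟨insert u s, Finset.card_insert_of_notMem hus, ?_, ?_⟩
    · intro c hc
      rcases Finset.mem_insert.mp hc with rfl | hc
      · exact hu
      · exact h1 c hc
    · intro c hc d hd hcd
      rcases Finset.mem_insert.mp hc with hc' | hc'
      · rcases Finset.mem_insert.mp hd with hd' | hd'
        · exact absurd (hc'.trans hd'.symm) hcd
        · rw [hc']
          exact (hcon d hd').le
      · rcases Finset.mem_insert.mp hd with hd' | hd'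
        · rw [hd', norm_sub_rev]
          exact (hcon c hc').le
        · exact h2 c hc' d hd' hcd
  have h3 := Nat.le_findGreatest (hb _ hP) hP
  omega

/-- one coordinate -/
theorem sum_exp_le (K : ℕ) (t : ℝ) :
    ∑ j ∈ Finset.Icc (-(K : ℤ)) K, Real.exp (t * j) ≤
      (2 * K + 1 : ℕ) * Real.exp (t ^ 2 * (K : ℝ) ^ 2 / 2) := by
  have hcard : (Finset.Icc (-(K : ℤ)) K).card = 2 * K + 1 := by
    rw [Int.card_Icc]; omega
  have hrefl : ∑ j ∈ Finset.Icc (-(K : ℤ)) K, Real.exp (t * j) =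
      ∑ j ∈ Finset.Icc (-(K : ℤ)) K, Real.exp (-(t * j)) := by
    refine Finset.sum_nbij' (fun j => -j) (fun j => -j) ?_ ?_ ?_ ?_ ?_
    · intro j hj
      simp only [Finset.mem_Icc] at hj ⊢
      omega
    · intro j hj
      simp only [Finset.mem_Icc] at hj ⊢
      omega
    · intro j _; simp
    · intro j _; simp
    · intro j _
      push_cast
      congr 1
      ring
  have hcosh : ∑ j ∈ Finset.Icc (-(K : ℤ)) K, Real.exp (t * j) =
      ∑ j ∈ Finset.Icc (-(K : ℤ)) K, Real.cosh (t * j) := by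
    have h2 : (2 : ℝ) * ∑ j ∈ Finset.Icc (-(K : ℤ)) K, Real.exp (t * j) =
        2 * ∑ j ∈ Finset.Icc (-(K : ℤ)) K, Real.cosh (t * j) := by
      have : (2 : ℝ) * ∑ j ∈ Finset.Icc (-(K : ℤ)) K, Real.exp (t * j) =
          ∑ j ∈ Finset.Icc (-(K : ℤ)) K, Real.exp (t * j) +
            ∑ j ∈ Finset.Icc (-(K : ℤ)) K, Real.exp (-(t * j)) := by
        rw [← hrefl]; ring
      rw [this, ← Finset.sum_add_distrib, Finset.mul_sum]
      refine Finset.sum_congr rfl fun j _ => ?_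
      rw [Real.cosh_eq]; ring
    linarith
  rw [hcosh, ← hcard, ← nsmul_eq_mul]
  refine Finset.sum_le_card_nsmul _ _ _ fun j hj => ?_
  refine (Real.cosh_le_exp_half_sq _).trans (Real.exp_le_exp.mpr ?_)
  simp only [Finset.mem_Icc] at hj
  have hj1 : (-(K : ℝ)) ≤ (j : ℝ) := by exact_mod_cast hj.1
  have hj2 : (j : ℝ) ≤ (K : ℝ) := by exact_mod_cast hj.2
  have : (j : ℝ) ^ 2 ≤ (K : ℝ) ^ 2 := by nlinarith
  rw [mul_pow]
  have ht : 0 ≤ t ^ 2 := sq_nonneg t
  have := mul_le_mul_of_nonneg_left this ht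
  linarith

theorem box_exp_le {ι : Type} [Fintype ι] [DecidableEq ι] (K : ℕ) (t : ι → ℝ) :
    ∑ k ∈ Fintype.piFinset (fun _ : ι => Finset.Icc (-(K : ℤ)) K),
        Real.exp (∑ p, t p * (k p : ℝ)) ≤
      ((2 * K + 1 : ℕ) : ℝ) ^ (Fintype.card ι) *
        Real.exp ((∑ p, t p ^ 2) * (K : ℝ) ^ 2 / 2) := by
  have h1 : ∑ k ∈ Fintype.piFinset (fun _ : ι => Finset.Icc (-(K : ℤ)) K),
        Real.exp (∑ p, t p * (k p : ℝ)) =
      ∏ p, ∑ j ∈ Finset.Icc (-(K : ℤ)) K, Real.exp (t p * (j : ℝ)) := by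
    rw [Finset.prod_univ_sum]
    refine Finset.sum_congr rfl fun k _ => ?_
    rw [Real.exp_sum]
  rw [h1]
  calc ∏ p, ∑ j ∈ Finset.Icc (-(K : ℤ)) K, Real.exp (t p * (j : ℝ))
      ≤ ∏ p : ι, (((2 * K + 1 : ℕ) : ℝ) * Real.exp (t p ^ 2 * (K : ℝ) ^ 2 / 2)) := by
        refine Finset.prod_le_prod (fun p _ => Finset.sum_nonneg fun j _ => (Real.exp_pos _).le)
          fun p _ => sum_exp_le K (t p)
    _ = _ := by
        rw [Finset.prod_mul_distrib, Finset.prod_const, ← Real.exp_sum, Finset.card_univ]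
        congr 2
        rw [Finset.sum_mul, Finset.sum_div]

/-- Chernoff bound in the box -/
theorem box_chernoff {ι : Type} [Fintype ι] [DecidableEq ι] (K : ℕ) (c : ι → ℝ) (N : ℝ)
    (hN : 0 < N) (hc : (∑ p, c p ^ 2) * (K : ℝ) ^ 2 ≤ 2 / N) :
    (((Fintype.piFinset (fun _ : ι => Finset.Icc (-(K : ℤ)) K)).filter
      fun k => 5 < ∑ p, c p * (k p : ℝ)).card : ℝ) ≤
      ((2 * K + 1 : ℕ) : ℝ) ^ (Fintype.card ι) * Real.exp (-(25 * N / 4)) := by
  set S := (Fintype.piFinset (fun _ : ι => Finset.Icc (-(K : ℤ)) K))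
  have h1 : ((S.filter fun k => 5 < ∑ p, c p * (k p : ℝ)).card : ℝ) * Real.exp (25 * N / 2) ≤
      ∑ k ∈ S, Real.exp (∑ p, (5 * N / 2 * c p) * (k p : ℝ)) := by
    calc ((S.filter fun k => 5 < ∑ p, c p * (k p : ℝ)).card : ℝ) * Real.exp (25 * N / 2)
        = ∑ k ∈ S.filter (fun k => 5 < ∑ p, c p * (k p : ℝ)), Real.exp (25 * N / 2) := by
          rw [Finset.sum_const, nsmul_eq_mul]
      _ ≤ ∑ k ∈ S.filter (fun k => 5 < ∑ p, c p * (k p : ℝ)),
            Real.exp (∑ p, (5 * N / 2 * c p) * (k p : ℝ)) := by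
          refine Finset.sum_le_sum fun k hk => Real.exp_le_exp.mpr ?_
          have h5 := (Finset.mem_filter.mp hk).2
          have : ∑ p, (5 * N / 2 * c p) * (k p : ℝ) = 5 * N / 2 * ∑ p, c p * (k p : ℝ) := by
            rw [Finset.mul_sum]
            exact Finset.sum_congr rfl fun p _ => by ring
          rw [this]
          nlinarith
      _ ≤ _ := Finset.sum_le_sum_of_subset_of_nonneg (Finset.filter_subset _ _)
          fun k _ _ => (Real.exp_pos _).le
  have h2 := box_exp_le K (fun p => 5 * N / 2 * c p)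
  have h3 : (∑ p, (5 * N / 2 * c p) ^ 2) * (K : ℝ) ^ 2 / 2 ≤ 25 * N / 4 := by
    have : ∑ p, (5 * N / 2 * c p) ^ 2 = (5 * N / 2) ^ 2 * ∑ p, c p ^ 2 := by
      rw [Finset.mul_sum]
      exact Finset.sum_congr rfl fun p _ => by ring
    rw [this, mul_assoc]
    calc (5 * N / 2) ^ 2 * ((∑ p, c p ^ 2) * (K : ℝ) ^ 2) / 2
        ≤ (5 * N / 2) ^ 2 * (2 / N) / 2 := by
          gcongr
      _ = 25 * N / 4 := by field_simp; ring
  have h4 : ((S.filter fun k => 5 < ∑ p, c p * (k p : ℝ)).card : ℝ) * Real.exp (25 * N / 2) ≤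
      ((2 * K + 1 : ℕ) : ℝ) ^ (Fintype.card ι) * Real.exp (25 * N / 4) :=
    h1.trans (h2.trans (mul_le_mul_of_nonneg_left (Real.exp_le_exp.mpr h3) (by positivity)))
  have h5 : Real.exp (25 * N / 4) = Real.exp (-(25 * N / 4)) * Real.exp (25 * N / 2) := by
    rw [← Real.exp_add]; congr 1; ring
  rw [h5, ← mul_assoc] at h4
  exact le_of_mul_le_mul_right h4 (Real.exp_pos _)

/-! ## quadratic forms and operator norms -/

theorem net_cn (N : ℕ) : ∃ F : Finset (EuclideanSpace ℂ (Fin N)), (∀ v ∈ F, ‖v‖ = 1) ∧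
    F.card ≤ 81 ^ N ∧ ∀ u : EuclideanSpace ℂ (Fin N), ‖u‖ = 1 → ∃ v ∈ F, ‖u - v‖ ≤ 1 / 4 := by
  obtain ⟨F, h1, h2, h3⟩ := @exists_net (EuclideanSpace ℂ (Fin N)) _ NormedSpace.complexToReal
    (FiniteDimensional.complexToReal _)
  refine ⟨F, h1, h2.trans ?_, h3⟩
  have : @finrank ℝ (EuclideanSpace ℂ (Fin N)) _ _ (Module.complexToReal _) = 2 * N := by
    rw [finrank_real_of_complex, finrank_euclideanSpace, Fintype.card_fin]
  refine le_of_eq ?_
  have h81 : (81 : ℕ) ^ N = 9 ^ (2 * N) := by rw [pow_mul]; norm_num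
  rw [h81]
  congr 1

variable {N : ℕ}

/-- the real quadratic form -/
def qf (H : Mt N) (v : EuclideanSpace ℂ (Fin N)) : ℝ :=
  ∑ a, ∑ b, (H a b * (v b * conj (v a))).re

theorem qf_eq (H : Mt N) (v : EuclideanSpace ℂ (Fin N)) :
    qf H v = RCLike.re ⟪Matrix.toEuclideanCLM (n := Fin N) (𝕜 := ℂ) H v, v⟫_ℂ := by
  rw [PiLp.inner_apply, map_sum]
  unfold qf
  refine Finset.sum_congr rfl fun a _ => ?_
  have h1 : (Matrix.toEuclideanCLM (n := Fin N) (𝕜 := ℂ) H v) a = ∑ b, H a b * v b := by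
    rw [Matrix.ofLp_toEuclideanCLM]
    rfl
  rw [h1]
  have h2 : ⟪∑ b, H a b * v b, v a⟫_ℂ = conj (∑ b, H a b * (v b * conj (v a))) := by
    rw [RCLike.inner_apply, map_sum, map_sum, Finset.mul_sum]
    refine Finset.sum_congr rfl fun b _ => ?_
    simp only [map_mul, Complex.conj_conj]
    ring
  rw [h2]
  simp only [RCLike.re_to_complex, Complex.conj_re, Complex.re_sum]

theorem opn_le_of_net (H : Mt N) (hH : H.IsHermitian) (F : Finset (EuclideanSpace ℂ (Fin N)))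
    (hF1 : ∀ v ∈ F, ‖v‖ = 1)
    (hF : ∀ u : EuclideanSpace ℂ (Fin N), ‖u‖ = 1 → ∃ v ∈ F, ‖u - v‖ ≤ 1 / 4)
    (hq : ∀ v ∈ F, |qf H v| ≤ 5) : opn H ≤ 10 := by
  set T := Matrix.toEuclideanCLM (n := Fin N) (𝕜 := ℂ) H with hT
  have hop : opn H = ‖T‖ := rfl
  have hsym : (T : EuclideanSpace ℂ (Fin N) →ₗ[ℂ] EuclideanSpace ℂ (Fin N)).IsSymmetric := by
    have h1 : (T : EuclideanSpace ℂ (Fin N) →ₗ[ℂ] EuclideanSpace ℂ (Fin N)) =
        Matrix.toEuclideanLin H := by
      rw [hT, Matrix.coe_toEuclideanCLM_eq_toEuclideanLin]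
    rw [h1]
    exact Matrix.isSymmetric_toEuclideanLin_iff.mpr hH
  have hqu : ∀ u : EuclideanSpace ℂ (Fin N), ‖u‖ = 1 → |qf H u| ≤ 5 + ‖T‖ / 2 := by
    intro u hu
    obtain ⟨v, hv, huv⟩ := hF u hu
    have h5 := hq v hv
    have hv1 := hF1 v hv
    have hdiff : qf H u - qf H v = RCLike.re ⟪T (u - v), u⟫_ℂ + RCLike.re ⟪T v, u - v⟫_ℂ := by
      rw [qf_eq, qf_eq, ← hT, map_sub, inner_sub_left, inner_sub_right, map_sub, map_sub]
      ring
    have hb1 : |RCLike.re ⟪T (u - v), u⟫_ℂ| ≤ ‖T‖ / 4 := by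
      refine (RCLike.abs_re_le_norm _).trans ((norm_inner_le_norm _ _).trans ?_)
      rw [hu, mul_one]
      refine (T.le_opNorm _).trans ?_
      have := mul_le_mul_of_nonneg_left huv (norm_nonneg T)
      linarith
    have hb2 : |RCLike.re ⟪T v, u - v⟫_ℂ| ≤ ‖T‖ / 4 := by
      refine (RCLike.abs_re_le_norm _).trans ((norm_inner_le_norm _ _).trans ?_)
      have h6 : ‖T v‖ ≤ ‖T‖ := by
        have := T.le_opNorm v
        rwa [hv1, mul_one] at this
      calc ‖T v‖ * ‖u - v‖ ≤ ‖T‖ * (1 / 4) := mul_le_mul h6 huv (norm_nonneg _) (norm_nonneg _)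
        _ = ‖T‖ / 4 := by ring
    rw [abs_le] at *
    constructor <;> linarith [hb1.1, hb1.2, hb2.1, hb2.2, h5.1, h5.2]
  have hnorm : ‖T‖ ≤ 5 + ‖T‖ / 2 := by
    conv_lhs => rw [ContinuousLinearMap.norm_eq_iSup_rayleighQuotient T hsym]
    refine ciSup_le fun x => ?_
    by_cases hx : x = 0
    · rw [hx, ContinuousLinearMap.rayleighQuotient_apply_zero, abs_zero]
      positivity
    · have hx' : ‖x‖ ≠ 0 := norm_ne_zero_iff.mpr hx
      have hc : ((‖x‖⁻¹ : ℝ) : ℂ) ≠ 0 := by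
        exact_mod_cast inv_ne_zero hx'
      have hu : ‖((‖x‖⁻¹ : ℝ) : ℂ) • x‖ = 1 := by
        rw [norm_smul, Complex.norm_real, norm_inv, norm_norm, inv_mul_cancel₀ hx']
      have h7 := ContinuousLinearMap.rayleigh_smul T x hc
      rw [← h7]
      have h8 := hqu _ hu
      have h9 : T.rayleighQuotient (((‖x‖⁻¹ : ℝ) : ℂ) • x) = qf H (((‖x‖⁻¹ : ℝ) : ℂ) • x) := by
        rw [qf_eq, ContinuousLinearMap.rayleighQuotient, hu]
        simp only [one_pow, div_one]
        rfl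
      rw [h9]
      exact h8
  rw [hop]
  linarith

/-! ## the grid matrices -/

/-- extension by zero -/
def kx (k : {p : Fin N × Fin N // p.1 ≠ p.2} → ℤ) (a b : Fin N) : ℝ :=
  if h : a ≠ b then (k ⟨(a, b), h⟩ : ℝ) else 0

theorem sum_sub (f : Fin N → Fin N → ℝ) (k : {p : Fin N × Fin N // p.1 ≠ p.2} → ℤ) :
    ∑ p : {p : Fin N × Fin N // p.1 ≠ p.2}, f p.1.1 p.1.2 * (k p : ℝ) =
      ∑ a, ∑ b, f a b * kx k a b := by
  rw [← Fintype.sum_prod_type' (f := fun a b => f a b * kx k a b)]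
  have h1 : ∑ q : Fin N × Fin N, f q.1 q.2 * kx k q.1 q.2 =
      ∑ q ∈ Finset.univ.filter (fun q : Fin N × Fin N => q.1 ≠ q.2), f q.1 q.2 * kx k q.1 q.2 := by
    rw [Finset.sum_filter]
    refine Finset.sum_congr rfl fun q _ => ?_
    by_cases h : q.1 ≠ q.2
    · rw [if_pos h]
    · rw [if_neg h, kx, dif_neg h, mul_zero]
  rw [h1, Finset.sum_subtype (p := fun q : Fin N × Fin N => q.1 ≠ q.2) _ (by simp)]
  refine Finset.sum_congr rfl fun p _ => ?_
  rw [kx, dif_pos p.2]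

theorem Hg_lt (s : ℝ) (k : {p : Fin N × Fin N // p.1 ≠ p.2} → ℤ) {a b : Fin N} (h : a < b) :
    Hg N s k a b = ((s / √N : ℝ) : ℂ) * ((kx k a b : ℂ) + (kx k b a : ℂ) * Complex.I) := by
  unfold Hg kx
  rw [dif_pos h, dif_pos h.ne, dif_pos h.ne']
  push_cast
  rfl

theorem Hg_gt (s : ℝ) (k : {p : Fin N × Fin N // p.1 ≠ p.2} → ℤ) {a b : Fin N} (h : b < a) :
    Hg N s k a b = ((s / √N : ℝ) : ℂ) * ((kx k b a : ℂ) - (kx k a b : ℂ) * Complex.I) := by
  unfold Hg kx
  rw [dif_neg h.not_gt, dif_pos h, dif_pos h.ne, dif_pos h.ne']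
  push_cast
  rfl

theorem Hg_eq (s : ℝ) (k : {p : Fin N × Fin N // p.1 ≠ p.2} → ℤ) (a : Fin N) :
    Hg N s k a a = 0 := by
  unfold Hg
  rw [dif_neg (lt_irrefl a), dif_neg (lt_irrefl a)]

end Grid

open Grid

theorem Hg_hermitian (N : ℕ) (s : ℝ) (k : {p : Fin N × Fin N // p.1 ≠ p.2} → ℤ) :
    (Hg N s k).IsHermitian := by
  ext a b
  rw [Matrix.conjTranspose_apply]
  rcases lt_trichotomy a b with h | h | h
  · rw [Hg_lt s k h, Hg_gt s k h]
    simp [Complex.conj_ofReal]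
  · subst h
    rw [Hg_eq]
    simp
  · rw [Hg_lt s k h, Hg_gt s k h]
    simp [Complex.conj_ofReal]
    left
    ring

theorem hs2_Hg (N : ℕ) (hN : 0 < N) (s : ℝ) (k k' : {p : Fin N × Fin N // p.1 ≠ p.2} → ℤ) :
    hs2 (Hg N s k - Hg N s k') = 2 * s ^ 2 / (N : ℝ) ^ 2 * ∑ p, (((k p - k' p : ℤ)) : ℝ) ^ 2 := by
  have hNr : (0 : ℝ) < N := by exact_mod_cast hN
  have hsq : √(N : ℝ) ^ 2 = N := Real.sq_sqrt hNr.le
  set d : Fin N → Fin N → ℝ := fun a b => kx k a b - kx k' a b with hd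
  have hdd : ∀ a, d a a = 0 := fun a => by simp [hd, kx]
  have hent : ∀ a b, ‖(Hg N s k - Hg N s k') a b‖ ^ 2 = s ^ 2 / N * (d a b ^ 2 + d b a ^ 2) := by
    intro a b
    rw [Matrix.sub_apply]
    rcases lt_trichotomy a b with h | h | h
    · rw [Hg_lt s k h, Hg_lt s k' h, ← mul_sub]
      have : ((kx k a b : ℂ) + (kx k b a : ℂ) * Complex.I -
          ((kx k' a b : ℂ) + (kx k' b a : ℂ) * Complex.I)) =
          ((d a b : ℝ) : ℂ) + ((d b a : ℝ) : ℂ) * Complex.I := by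
        simp only [hd]; push_cast; ring
      rw [this, norm_mul, mul_pow, Complex.norm_real, ← Complex.normSq_eq_norm_sq,
        Complex.normSq_add_mul_I, Real.norm_eq_abs, sq_abs, div_pow, hsq]
    · subst h
      rw [Hg_eq, Hg_eq, hdd]
      simp
    · rw [Hg_gt s k h, Hg_gt s k' h, ← mul_sub]
      have : ((kx k b a : ℂ) - (kx k a b : ℂ) * Complex.I -
          ((kx k' b a : ℂ) - (kx k' a b : ℂ) * Complex.I)) =
          ((d b a : ℝ) : ℂ) + ((-d a b : ℝ) : ℂ) * Complex.I := by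
        simp only [hd]; push_cast; ring
      rw [this, norm_mul, mul_pow, Complex.norm_real, ← Complex.normSq_eq_norm_sq,
        Complex.normSq_add_mul_I, Real.norm_eq_abs, sq_abs, div_pow, hsq]
      ring
  have hsum : ∑ p : {p : Fin N × Fin N // p.1 ≠ p.2}, (((k p - k' p : ℤ)) : ℝ) ^ 2 =
      ∑ a, ∑ b, d a b ^ 2 := by
    rw [← Fintype.sum_prod_type' (f := fun a b => d a b ^ 2)]
    have h1 : ∑ q : Fin N × Fin N, d q.1 q.2 ^ 2 =
        ∑ q ∈ Finset.univ.filter (fun q : Fin N × Fin N => q.1 ≠ q.2), d q.1 q.2 ^ 2 := by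
      rw [Finset.sum_filter]
      refine Finset.sum_congr rfl fun q _ => ?_
      by_cases h : q.1 ≠ q.2
      · rw [if_pos h]
      · rw [if_neg h]
        rw [not_not] at h
        rw [h, hdd]
        simp
    rw [h1, Finset.sum_subtype (p := fun q : Fin N × Fin N => q.1 ≠ q.2) _ (by simp)]
    refine Finset.sum_congr rfl fun p _ => ?_
    simp only [hd, kx]
    rw [dif_pos p.2, dif_pos p.2]
    push_cast
    rfl
  unfold hs2
  simp only [hent]
  rw [hsum]
  have h2 : ∑ a, ∑ b, s ^ 2 / N * (d a b ^ 2 + d b a ^ 2) =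
      2 * (s ^ 2 / N) * ∑ a, ∑ b, d a b ^ 2 := by
    have h3 : ∑ a, ∑ b, d b a ^ 2 = ∑ a, ∑ b, d a b ^ 2 := Finset.sum_comm
    simp only [← Finset.mul_sum, Finset.sum_add_distrib]
    rw [h3]
    ring
  rw [h2]
  field_simp

namespace Grid

variable {N : ℕ}

/-- coefficients of the linear form `k ↦ qf (Hg k) v` -/
def cf (s : ℝ) (v : EuclideanSpace ℂ (Fin N)) (a b : Fin N) : ℝ :=
  s / √N * (if a < b then 2 * (v b * conj (v a)).re else
    if b < a then 2 * (v b * conj (v a)).im else 0)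

theorem qf_Hg (s : ℝ) (v : EuclideanSpace ℂ (Fin N)) (k : {p : Fin N × Fin N // p.1 ≠ p.2} → ℤ) :
    qf (Hg N s k) v = ∑ p : {p : Fin N × Fin N // p.1 ≠ p.2}, cf s v p.1.1 p.1.2 * (k p : ℝ) := by
  rw [sum_sub]
  unfold qf
  set r := s / √(N : ℝ) with hr
  set al : Fin N → Fin N → ℝ := fun a b => r * (if a < b then (v b * conj (v a)).re else
    if b < a then (v b * conj (v a)).im else 0) with hal
  set be : Fin N → Fin N → ℝ := fun a b => r * (if a < b then -(v b * conj (v a)).im else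
    if b < a then (v b * conj (v a)).re else 0) with hbe
  have hzz : ∀ a b, (v a * conj (v b)) = conj (v b * conj (v a)) := by
    intro a b
    simp only [map_mul, Complex.conj_conj]
    ring
  have hre : ∀ a b, (v a * conj (v b)).re = (v b * conj (v a)).re := by
    intro a b; rw [hzz, Complex.conj_re]
  have him : ∀ a b, (v a * conj (v b)).im = -(v b * conj (v a)).im := by
    intro a b; rw [hzz, Complex.conj_im]
  have hterm : ∀ a b, (Hg N s k a b * (v b * conj (v a))).re =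
      al a b * kx k a b + be a b * kx k b a := by
    intro a b
    rcases lt_trichotomy a b with h | h | h
    · rw [Hg_lt s k h]
      simp only [hal, hbe, if_pos h]
      rw [mul_assoc, Complex.re_ofReal_mul, ← hr]
      simp only [Complex.mul_re, Complex.add_re, Complex.ofReal_re, Complex.ofReal_im,
        Complex.I_re, Complex.I_im, Complex.add_im, Complex.mul_im]
      ring
    · subst h
      rw [Hg_eq]
      simp [hal, hbe]
    · rw [Hg_gt s k h]
      simp only [hal, hbe, if_neg h.not_gt, if_pos h]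
      rw [mul_assoc, Complex.re_ofReal_mul, ← hr]
      simp only [Complex.mul_re, Complex.sub_re, Complex.ofReal_re, Complex.ofReal_im,
        Complex.I_re, Complex.I_im, Complex.sub_im, Complex.mul_im]
      ring
  simp only [hterm, Finset.sum_add_distrib]
  have hswap : ∑ a, ∑ b, be a b * kx k b a = ∑ a, ∑ b, be b a * kx k a b := Finset.sum_comm
  rw [hswap, ← Finset.sum_add_distrib]
  refine Finset.sum_congr rfl fun a _ => ?_
  rw [← Finset.sum_add_distrib]
  refine Finset.sum_congr rfl fun b _ => ?_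
  rw [← add_mul]
  congr 1
  unfold cf
  rw [← hr]
  simp only [hal, hbe]
  rcases lt_trichotomy a b with h | h | h
  · rw [if_pos h, if_neg h.not_gt, if_pos h, if_pos h, hre a b]
    ring
  · subst h
    simp
  · rw [if_neg h.not_gt, if_pos h, if_pos h, if_neg h.not_gt, if_pos h, him a b]
    ring

theorem cf_sq (hN : 0 < N) (s : ℝ) (v : EuclideanSpace ℂ (Fin N)) (hv : ‖v‖ = 1) :
    ∑ p : {p : Fin N × Fin N // p.1 ≠ p.2}, cf s v p.1.1 p.1.2 ^ 2 ≤ 2 * s ^ 2 / N := by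
  have hNr : (0 : ℝ) < N := by exact_mod_cast hN
  have hsq : √(N : ℝ) ^ 2 = N := Real.sq_sqrt hNr.le
  have hzz : ∀ a b, (v a * conj (v b)) = conj (v b * conj (v a)) := by
    intro a b
    simp only [map_mul, Complex.conj_conj]
    ring
  have h1 : ∑ p : {p : Fin N × Fin N // p.1 ≠ p.2}, cf s v p.1.1 p.1.2 ^ 2 =
      ∑ a, ∑ b, cf s v a b ^ 2 := by
    rw [← Fintype.sum_prod_type' (f := fun a b => cf s v a b ^ 2)]
    have h1 : ∑ q : Fin N × Fin N, cf s v q.1 q.2 ^ 2 =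
        ∑ q ∈ Finset.univ.filter (fun q : Fin N × Fin N => q.1 ≠ q.2), cf s v q.1 q.2 ^ 2 := by
      rw [Finset.sum_filter]
      refine Finset.sum_congr rfl fun q _ => ?_
      by_cases h : q.1 ≠ q.2
      · rw [if_pos h]
      · rw [if_neg h]
        rw [not_not] at h
        simp [cf, h]
    rw [h1, Finset.sum_subtype (p := fun q : Fin N × Fin N => q.1 ≠ q.2) _ (by simp)]
  have h2 : ∀ a b, cf s v a b ^ 2 + cf s v b a ^ 2 ≤
      4 * s ^ 2 / N * (‖v a‖ ^ 2 * ‖v b‖ ^ 2) := by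
    have key : ∀ a b, a < b → cf s v a b ^ 2 + cf s v b a ^ 2 =
        4 * s ^ 2 / N * (‖v a‖ ^ 2 * ‖v b‖ ^ 2) := by
      intro a b h
      unfold cf
      rw [if_pos h, if_neg h.not_gt, if_pos h]
      have him : (v a * conj (v b)).im = -(v b * conj (v a)).im := by
        rw [hzz, Complex.conj_im]
      rw [him]
      have h3 : (v b * conj (v a)).re ^ 2 + (v b * conj (v a)).im ^ 2 =
          ‖v a‖ ^ 2 * ‖v b‖ ^ 2 := by
        have := Complex.normSq_apply (v b * conj (v a))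
        rw [Complex.normSq_eq_norm_sq, norm_mul, Complex.norm_conj, mul_pow] at this
        nlinarith [this]
      rw [← h3]
      have hq : (s / √(N : ℝ)) ^ 2 = s ^ 2 / N := by rw [div_pow, hsq]
      simp only [mul_pow, hq]
      ring
    intro a b
    rcases lt_trichotomy a b with h | h | h
    · exact (key a b h).le
    · subst h
      have : cf s v a a = 0 := by simp [cf]
      rw [this]
      have : 0 ≤ 4 * s ^ 2 / N * (‖v a‖ ^ 2 * ‖v a‖ ^ 2) := by positivity
      simpa using this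
    · have := key b a h
      rw [add_comm, this]
      apply le_of_eq
      ring
  have h3 : ∑ a, ∑ b, cf s v b a ^ 2 = ∑ a, ∑ b, cf s v a b ^ 2 := Finset.sum_comm
  have hnv : ∑ a, ‖v a‖ ^ 2 = 1 := by
    have := EuclideanSpace.norm_sq_eq v
    rw [hv] at this
    linarith
  have h4 : 2 * ∑ a, ∑ b, cf s v a b ^ 2 ≤ 4 * s ^ 2 / N := by
    calc 2 * ∑ a, ∑ b, cf s v a b ^ 2 = ∑ a, ∑ b, cf s v a b ^ 2 + ∑ a, ∑ b, cf s v b a ^ 2 := by
          rw [h3]; ring
      _ = ∑ a, ∑ b, (cf s v a b ^ 2 + cf s v b a ^ 2) := by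
          rw [← Finset.sum_add_distrib]
          exact Finset.sum_congr rfl fun a _ => by rw [Finset.sum_add_distrib]
      _ ≤ ∑ a, ∑ b, 4 * s ^ 2 / N * (‖v a‖ ^ 2 * ‖v b‖ ^ 2) :=
          Finset.sum_le_sum fun a _ => Finset.sum_le_sum fun b _ => h2 a b
      _ = 4 * s ^ 2 / N * ((∑ a, ‖v a‖ ^ 2) * ∑ b, ‖v b‖ ^ 2) := by
          rw [Finset.sum_mul_sum, Finset.mul_sum]
          exact Finset.sum_congr rfl fun a _ => by rw [Finset.mul_sum]
      _ = 4 * s ^ 2 / N := by rw [hnv]; ring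
  rw [h1]
  have h5 : (4 : ℝ) * s ^ 2 / N = 2 * (2 * s ^ 2 / N) := by ring
  rw [h5] at h4
  linarith

theorem card_pairs (N : ℕ) : Fintype.card {p : Fin N × Fin N // p.1 ≠ p.2} = N ^ 2 - N := by
  have h := Fintype.card_subtype_compl (fun p : Fin N × Fin N => p.1 = p.2)
  have h2 : Fintype.card {p : Fin N × Fin N // p.1 = p.2} = N := by
    have : Fintype.card {p : Fin N × Fin N // p.1 = p.2} = Fintype.card (Fin N) := by
      refine Fintype.card_congr ⟨fun p => p.1.1, fun a => ⟨(a, a), rfl⟩, ?_, ?_⟩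
      · rintro ⟨⟨a, b⟩, h⟩
        simp only at h
        subst h
        rfl
      · intro a; rfl
    rw [this, Fintype.card_fin]
  rw [h2, Fintype.card_prod, Fintype.card_fin] at h
  rw [sq]
  exact h

end Grid

open Classical in
theorem grid_norm (N : ℕ) (hN : 0 < N) (K : ℕ) (s : ℝ) (hs : 0 < s) (hK : s * K ≤ 1) :
    ((2 * K + 1 : ℕ) : ℝ) ^ (N ^ 2 - N) ≤
      2 * (((Fintype.piFinset fun _ : {p : Fin N × Fin N // p.1 ≠ p.2} =>
        Finset.Icc (-(K : ℤ)) K).filter fun k => opn (Hg N s k) ≤ 10).card : ℝ) := by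
  have hNr : (0 : ℝ) < N := by exact_mod_cast hN
  obtain ⟨F, hF1, hF2, hF3⟩ := net_cn N
  set S := (Fintype.piFinset fun _ : {p : Fin N × Fin N // p.1 ≠ p.2} =>
        Finset.Icc (-(K : ℤ)) K) with hS
  have hcardS : (S.card : ℝ) = ((2 * K + 1 : ℕ) : ℝ) ^ (N ^ 2 - N) := by
    rw [hS, Fintype.card_piFinset, Finset.prod_const, Finset.card_univ, card_pairs,
      Int.card_Icc]
    push_cast
    congr 1
    have : ((K : ℤ) + 1 - -(K : ℤ)).toNat = 2 * K + 1 := by omega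
    rw [this]
    push_cast
    ring
  set W : ℝ := ((2 * K + 1 : ℕ) : ℝ) ^ (N ^ 2 - N) with hW
  have hWpos : 0 < W := by positivity
  set X : ℝ := Real.exp (-(25 * (N : ℝ) / 4)) with hX
  -- one vector of the net
  have hsK : (s * K) ^ 2 ≤ 1 := by
    have : 0 ≤ s * K := by positivity
    nlinarith
  have hc : ∀ v ∈ F, (∑ p : {p : Fin N × Fin N // p.1 ≠ p.2}, cf s v p.1.1 p.1.2 ^ 2) *
      (K : ℝ) ^ 2 ≤ 2 / N := by
    intro v hv
    have h1 := cf_sq hN s v (hF1 v hv)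
    calc (∑ p : {p : Fin N × Fin N // p.1 ≠ p.2}, cf s v p.1.1 p.1.2 ^ 2) * (K : ℝ) ^ 2
        ≤ (2 * s ^ 2 / N) * (K : ℝ) ^ 2 := mul_le_mul_of_nonneg_right h1 (sq_nonneg _)
      _ = (2 / N) * (s * K) ^ 2 := by ring
      _ ≤ (2 / N) * 1 := mul_le_mul_of_nonneg_left hsK (by positivity)
      _ = 2 / N := mul_one _
  have hp : ∀ v ∈ F, ((S.filter fun k => 5 < qf (Hg N s k) v).card : ℝ) ≤ W * X := by
    intro v hv
    have h1 := box_chernoff K (fun p : {p : Fin N × Fin N // p.1 ≠ p.2} => cf s v p.1.1 p.1.2)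
      N hNr (hc v hv)
    rw [card_pairs] at h1
    simp only [qf_Hg]
    convert h1
  have hm : ∀ v ∈ F, ((S.filter fun k => 5 < -qf (Hg N s k) v).card : ℝ) ≤ W * X := by
    intro v hv
    have h1 := box_chernoff K (fun p : {p : Fin N × Fin N // p.1 ≠ p.2} => -cf s v p.1.1 p.1.2)
      N hNr (by simpa using hc v hv)
    rw [card_pairs] at h1
    simp only [neg_mul, Finset.sum_neg_distrib] at h1
    simp only [qf_Hg]
    convert h1
  -- the union
  have hsub : S \ (S.filter fun k => opn (Hg N s k) ≤ 10) ⊆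
      F.biUnion fun v => (S.filter fun k => 5 < qf (Hg N s k) v) ∪
        (S.filter fun k => 5 < -qf (Hg N s k) v) := by
    intro k hk
    rw [Finset.mem_sdiff, Finset.mem_filter, not_and] at hk
    have h10 := hk.2 hk.1
    by_contra hcon
    apply h10
    refine opn_le_of_net _ (Hg_hermitian N s k) F hF1 hF3 fun v hv => ?_
    rw [Finset.mem_biUnion] at hcon
    push Not at hcon
    have h2 := hcon v hv
    rw [Finset.notMem_union, Finset.mem_filter, Finset.mem_filter, not_and, not_and] at h2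
    have h3 := h2.1 hk.1
    have h4 := h2.2 hk.1
    rw [not_lt] at h3 h4
    rw [abs_le]
    constructor <;> linarith
  have hbad : ((S \ (S.filter fun k => opn (Hg N s k) ≤ 10)).card : ℝ) ≤
      (81 : ℝ) ^ N * (2 * (W * X)) := by
    have h1 : ((S \ (S.filter fun k => opn (Hg N s k) ≤ 10)).card : ℝ) ≤
        ∑ v ∈ F, (((S.filter fun k => 5 < qf (Hg N s k) v) ∪
        (S.filter fun k => 5 < -qf (Hg N s k) v)).card : ℝ) := by
      exact_mod_cast (Finset.card_le_card hsub).trans Finset.card_biUnion_le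
    refine h1.trans ?_
    have h2 : ∀ v ∈ F, (((S.filter fun k => 5 < qf (Hg N s k) v) ∪
        (S.filter fun k => 5 < -qf (Hg N s k) v)).card : ℝ) ≤ 2 * (W * X) := by
      intro v hv
      have h3 : (((S.filter fun k => 5 < qf (Hg N s k) v) ∪
        (S.filter fun k => 5 < -qf (Hg N s k) v)).card : ℝ) ≤
        ((S.filter fun k => 5 < qf (Hg N s k) v).card : ℝ) +
        ((S.filter fun k => 5 < -qf (Hg N s k) v).card : ℝ) := by
        exact_mod_cast Finset.card_union_le _ _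
      linarith [hp v hv, hm v hv]
    refine (Finset.sum_le_card_nsmul _ _ _ h2).trans ?_
    rw [nsmul_eq_mul]
    refine mul_le_mul_of_nonneg_right ?_ (by positivity)
    exact_mod_cast hF2
  have hexp : (81 : ℝ) ^ N * X ≤ 1 / 4 := by
    have h1 : X = Real.exp (-(25 / 4)) ^ N := by
      rw [hX, ← Real.exp_nat_mul]
      congr 1
      ring
    rw [h1, ← mul_pow]
    have h6 : (324 : ℝ) ≤ Real.exp (25 / 4) := by
      have h7 : Real.exp 6 ≤ Real.exp (25 / 4) := Real.exp_le_exp.mpr (by norm_num)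
      have h8 : Real.exp 6 = Real.exp 1 ^ 6 := by
        rw [← Real.exp_nat_mul]; norm_num
      have h9 : (2.718 : ℝ) ≤ Real.exp 1 := by
        have := Real.exp_one_gt_d9
        linarith
      have h10 : (2.718 : ℝ) ^ 6 ≤ Real.exp 1 ^ 6 := pow_le_pow_left₀ (by norm_num) h9 6
      have h11 : (324 : ℝ) ≤ 2.718 ^ 6 := by norm_num
      linarith
    have h7 : 81 * Real.exp (-(25 / 4)) ≤ 1 / 4 := by
      rw [Real.exp_neg]
      have hpos : 0 < Real.exp (25 / 4) := Real.exp_pos _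
      rw [← div_eq_mul_inv, div_le_div_iff₀ hpos (by norm_num)]
      linarith
    have h8 : 0 ≤ 81 * Real.exp (-(25 / 4)) := by positivity
    calc (81 * Real.exp (-(25 / 4))) ^ N ≤ (81 * Real.exp (-(25 / 4))) ^ 1 :=
          pow_le_pow_of_le_one h8 (h7.trans (by norm_num)) hN
      _ ≤ 1 / 4 := by rw [pow_one]; exact h7
  have hcards : ((S \ (S.filter fun k => opn (Hg N s k) ≤ 10)).card : ℝ) +
      ((S.filter fun k => opn (Hg N s k) ≤ 10).card : ℝ) = W := by
    rw [← hcardS]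
    exact_mod_cast Finset.card_sdiff_add_card_eq_card (Finset.filter_subset _ _)
  have hfin : (81 : ℝ) ^ N * (2 * (W * X)) ≤ W / 2 := by
    have := mul_le_mul_of_nonneg_left hexp hWpos.le
    nlinarith
  linarith

end Pool.Agent.H710R2.FF
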