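import Mathlib
import Pool.Agent.H710R2.FF.Defs2
import Pool.Agent.H710R2.FF.Basic
import Pool.Agent.H710R2.FF.Lat
import Pool.Agent.H710R2.FF.Cay
import Pool.Agent.H710R2.FF.Grid

set_option autoImplicit false
set_option linter.unusedSectionVars false

open MeasureTheory
open scoped ComplexConjugate InnerProductSpace

noncomputable section

namespace Pool.Agent.H710R2.FF

/-- separated subsets which are maximal -/
theorem bu_exists_sep {α : Type} (G : Finset α) (R : α → α → Prop) (hrefl : ∀ x, R x x)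
    (hsymm : ∀ x y, R x y → R y x) :
    ∃ S ⊆ G, (∀ x ∈ S, ∀ y ∈ S, x ≠ y → ¬ R x y) ∧ ∀ x ∈ G, ∃ y ∈ S, R x y := by
  classical
  induction G using Finset.induction_on with
  | empty => exact ⟨∅, Finset.Subset.refl _, by simp, by simp⟩
  | insert a s ha ih =>
    obtain ⟨S, hS, hsep, hcov⟩ := ih
    by_cases h : ∃ y ∈ S, R a y
    · refine ⟨S, hS.trans (Finset.subset_insert _ _), hsep, ?_⟩
      intro x hx
      rcases Finset.mem_insert.mp hx with rfl | hx
      · exact h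
      · exact hcov x hx
    · push Not at h
      refine ⟨insert a S, Finset.insert_subset_insert a hS, ?_, ?_⟩
      · intro x hx y hy hxy
        rcases Finset.mem_insert.mp hx with hxa | hx'
        · rcases Finset.mem_insert.mp hy with hya | hy'
          · exact absurd (hxa.trans hya.symm) hxy
          · rw [hxa]
            exact h y hy'
        · rcases Finset.mem_insert.mp hy with hya | hy'
          · intro hR
            rw [hya] at hR
            exact h x hx' (hsymm _ _ hR)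
          · exact hsep x hx' y hy' hxy
      · intro x hx
        rcases Finset.mem_insert.mp hx with rfl | hx
        · exact ⟨x, Finset.mem_insert_self _ _, hrefl x⟩
        · obtain ⟨y, hy, hR⟩ := hcov x hx
          exact ⟨y, Finset.mem_insert_of_mem hy, hR⟩

theorem bu_card (N : ℕ) : Fintype.card {p : Fin N × Fin N // p.1 ≠ p.2} = N ^ 2 - N := by
  classical
  rw [Fintype.card_subtype]
  have h := Finset.offDiag_card (Finset.univ : Finset (Fin N))
  rw [Finset.card_univ, Fintype.card_fin] at h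
  rw [pow_two, ← h]
  congr 1
  ext p
  simp [Finset.mem_offDiag]

/-- number of grid points near a given one -/
theorem bu_near {C1 : ℝ} (hC1 : ∀ (ι : Type) [Fintype ι] (R : ℝ), 0 ≤ R →
    {k : ι → ℤ | ∑ i, ((k i : ℤ) : ℝ) ^ 2 ≤ R ^ 2 * Fintype.card ι}.Finite ∧
    (({k : ι → ℤ | ∑ i, ((k i : ℤ) : ℝ) ^ 2 ≤ R ^ 2 * Fintype.card ι}.ncard : ℕ) : ℝ) ≤
      (C1 * (1 + R)) ^ (Fintype.card ι)) {N : ℕ} (hN : 2 ≤ N) {r : ℝ} (hr : 0 < r)
    (G : Finset ({p : Fin N × Fin N // p.1 ≠ p.2} → ℤ))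
    (k' : {p : Fin N × Fin N // p.1 ≠ p.2} → ℤ)
    (hG : ∀ k ∈ G, hs2 (Hg N r k - Hg N r k') ≤ (484 * r) ^ 2) :
    (G.card : ℝ) ≤ (485 * C1) ^ (N ^ 2 - N) := by
  classical
  obtain ⟨hfin, hle⟩ := hC1 {p : Fin N × Fin N // p.1 ≠ p.2} 484 (by norm_num)
  rw [bu_card] at hfin hle
  have hinj : Function.Injective (fun k : {p : Fin N × Fin N // p.1 ≠ p.2} → ℤ => k - k') :=
    fun a b h => sub_left_injective h
  have h1 : ((G.image (fun k => k - k') : Finset _) :
      Set ({p : Fin N × Fin N // p.1 ≠ p.2} → ℤ)) ⊆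
      {k : {p : Fin N × Fin N // p.1 ≠ p.2} → ℤ |
        ∑ i, ((k i : ℤ) : ℝ) ^ 2 ≤ 484 ^ 2 * ((N ^ 2 - N : ℕ) : ℝ)} := by
    intro x hx
    rw [Finset.coe_image] at hx
    obtain ⟨k, hk, rfl⟩ := hx
    have h2 := hG k hk
    rw [hs2_Hg N (by omega)] at h2
    have hNpos : (0 : ℝ) < N := by positivity
    have hN2 : (2 : ℝ) ≤ N := by exact_mod_cast hN
    have hcast : ((N ^ 2 - N : ℕ) : ℝ) = (N : ℝ) ^ 2 - N := by
      rw [Nat.cast_sub (by nlinarith)]
      push_cast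
      ring
    show ∑ i, (((k - k') i : ℤ) : ℝ) ^ 2 ≤ _
    have h3 : ∑ i, (((k - k') i : ℤ) : ℝ) ^ 2 = ∑ p, (((k p - k' p : ℤ)) : ℝ) ^ 2 := rfl
    rw [h3, hcast]
    set Sg := ∑ p, (((k p - k' p : ℤ)) : ℝ) ^ 2 with hSg
    have h4 : 2 * r ^ 2 * Sg ≤ (484 * r) ^ 2 * (N : ℝ) ^ 2 := by
      rw [div_mul_eq_mul_div, div_le_iff₀ (by positivity)] at h2
      exact h2
    have h5 : 2 * Sg ≤ 484 ^ 2 * (N : ℝ) ^ 2 := by
      have hr2 : 0 < r ^ 2 := by positivity
      have : r ^ 2 * (2 * Sg) ≤ r ^ 2 * (484 ^ 2 * (N : ℝ) ^ 2) := by nlinarith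
      exact le_of_mul_le_mul_left this hr2
    nlinarith
  have h2 := Set.ncard_le_ncard h1 hfin
  rw [Set.ncard_coe_finset, Finset.card_image_of_injective _ hinj] at h2
  calc (G.card : ℝ) ≤ _ := by exact_mod_cast h2
    _ ≤ (C1 * (1 + 484)) ^ (N ^ 2 - N) := hle
    _ = (485 * C1) ^ (N ^ 2 - N) := by
      congr 1
      ring

theorem bu_measurable {N : ℕ} (X : Mt N) (t : ℝ) :
    MeasurableSet {U : UN N | hs2 ((U : Mt N) - X) ≤ t} := by
  apply IsClosed.measurableSet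
  apply isClosed_le _ continuous_const
  exact continuous_hs2.comp (continuous_subtype_val.sub continuous_const)

theorem bu_translate {N : ℕ} (g : UN N) (t : ℝ) :
    (mu N).real {U : UN N | hs2 ((U : Mt N) - (g : Mt N)) ≤ t} =
      (mu N).real {U : UN N | hs2 ((U : Mt N) - 1) ≤ t} := by
  have h1 := measure_preimage_mul (mu N) g {U : UN N | hs2 ((U : Mt N) - (g : Mt N)) ≤ t}
  have h2 : (fun h => g * h) ⁻¹' {U : UN N | hs2 ((U : Mt N) - (g : Mt N)) ≤ t} =
      {U : UN N | hs2 ((U : Mt N) - 1) ≤ t} := by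
    ext U
    simp only [Set.mem_preimage, Set.mem_ofPred_eq]
    have h3 : ((g * U : UN N) : Mt N) - (g : Mt N) = (g : Mt N) * ((U : Mt N) - 1) := by
      rw [mul_sub, mul_one]
      rfl
    rw [h3, hs2_unitary_mul]
  rw [h2] at h1
  simp only [Measure.real, h1]

theorem bu_tri {N : ℕ} {X Y Z : Mt N} {t : ℝ} (ht : 0 ≤ t) (h1 : hs2 (Z - X) ≤ t ^ 2)
    (h2 : hs2 (Z - Y) ≤ t ^ 2) : hs2 (X - Y) ≤ (2 * t) ^ 2 := by
  have h3 := sqrt_hs2_sub (Z - Y) (Z - X)
  have e : (Z - Y) - (Z - X) = X - Y := by abel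
  rw [e] at h3
  have h4 : √(hs2 (Z - Y)) ≤ t := Real.sqrt_le_iff.mpr ⟨ht, h2⟩
  have h5 : √(hs2 (Z - X)) ≤ t := Real.sqrt_le_iff.mpr ⟨ht, h1⟩
  have h6 : √(hs2 (X - Y)) ≤ 2 * t := by linarith
  exact (Real.sqrt_le_iff.mp h6).2

theorem ball_upper : ∃ C : ℝ, 1 ≤ C ∧ ∀ N : ℕ, 2 ≤ N → ∀ (X : Mt N) (r : ℝ), 0 < r →
    (mu N).real {U | hs2 ((U : Mt N) - X) ≤ r ^ 2} ≤ (C * r) ^ (N ^ 2 - N) := by
  classical
  obtain ⟨C1, hC1, hlat⟩ := lattice_count
  refine ⟨970 * C1, by linarith, ?_⟩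
  intro N hN X r hr
  set d := N ^ 2 - N with hd
  have hd1 : 1 ≤ d := by
    have : N * 2 ≤ N * N := Nat.mul_le_mul_left N hN
    rw [hd, pow_two]
    omega
  by_cases hC : 1 ≤ 970 * C1 * r
  · calc (mu N).real {U | hs2 ((U : Mt N) - X) ≤ r ^ 2} ≤ 1 := measureReal_le_one
      _ ≤ (970 * C1 * r) ^ d := one_le_pow₀ hC
  push Not at hC
  have hr1 : r < 1 := by nlinarith
  by_cases hemp : ∃ U1 : UN N, hs2 ((U1 : Mt N) - X) ≤ r ^ 2
  swap
  · push Not at hemp
    have h0 : {U : UN N | hs2 ((U : Mt N) - X) ≤ r ^ 2} = ∅ := by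
      ext U
      simp only [Set.mem_ofPred_eq, Set.mem_empty_iff_false, iff_false, not_le]
      exact hemp U
    rw [h0, measureReal_empty]
    positivity
  obtain ⟨U1, hU1⟩ := hemp
  -- the ball lies in a ball around a unitary
  have hsub : {U : UN N | hs2 ((U : Mt N) - X) ≤ r ^ 2} ⊆
      {U : UN N | hs2 ((U : Mt N) - (U1 : Mt N)) ≤ (2 * r) ^ 2} := by
    intro U hU
    have hU' : hs2 ((U : Mt N) - X) ≤ r ^ 2 := hU
    show hs2 ((U : Mt N) - (U1 : Mt N)) ≤ (2 * r) ^ 2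
    apply bu_tri (Z := X) hr.le
    · have e : X - (U : Mt N) = (-1 : ℂ) • ((U : Mt N) - X) := by
        rw [neg_one_smul]; abel
      rw [e, hs2_smul]
      simpa using hU'
    · have e : X - (U1 : Mt N) = (-1 : ℂ) • ((U1 : Mt N) - X) := by
        rw [neg_one_smul]; abel
      rw [e, hs2_smul]
      simpa using hU1
  set B0 := {U : UN N | hs2 ((U : Mt N) - 1) ≤ (2 * r) ^ 2} with hB0
  have hle1 : (mu N).real {U : UN N | hs2 ((U : Mt N) - X) ≤ r ^ 2} ≤ (mu N).real B0 := by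
    rw [hB0, ← bu_translate U1]
    exact measureReal_mono hsub
  -- the grid
  set K : ℕ := ⌊1 / r⌋₊ with hK
  have hK1 : (K : ℝ) ≤ 1 / r := Nat.floor_le (by positivity)
  have hK2 : 1 / r < K + 1 := Nat.lt_floor_add_one _
  have hsK : r * K ≤ 1 := by
    rw [le_div_iff₀ hr] at hK1
    linarith
  have hgrid := grid_norm N (by omega) K r hr hsK
  set G := (Fintype.piFinset fun _ : {p : Fin N × Fin N // p.1 ≠ p.2} =>
        Finset.Icc (-(K : ℤ)) K).filter fun k => opn (Hg N r k) ≤ 10 with hG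
  obtain ⟨S, hSG, hsep, hcov⟩ := bu_exists_sep G
    (fun k k' => hs2 (Hg N r k - Hg N r k') ≤ (484 * r) ^ 2)
    (fun k => by rw [sub_self, hs2_zero]; positivity)
    (fun k k' h => by
      have e : Hg N r k' - Hg N r k = (-1 : ℂ) • (Hg N r k - Hg N r k') := by
        rw [neg_one_smul]; abel
      rw [e, hs2_smul]
      simpa using h)
  have hcard : (G.card : ℝ) ≤ S.card * (485 * C1) ^ d := by
    have h1 : G ⊆ S.biUnion (fun y => G.filter
        (fun k => hs2 (Hg N r k - Hg N r y) ≤ (484 * r) ^ 2)) := by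
      intro k hk
      obtain ⟨y, hy, hR⟩ := hcov k hk
      exact Finset.mem_biUnion.mpr ⟨y, hy, Finset.mem_filter.mpr ⟨hk, hR⟩⟩
    have h2 : (G.card : ℝ) ≤ ∑ y ∈ S, ((G.filter
        (fun k => hs2 (Hg N r k - Hg N r y) ≤ (484 * r) ^ 2)).card : ℝ) := by
      exact_mod_cast (Finset.card_le_card h1).trans Finset.card_biUnion_le
    refine h2.trans ?_
    calc _ ≤ ∑ _y ∈ S, (485 * C1) ^ d := by
          apply Finset.sum_le_sum
          intro y _
          apply bu_near hlat hN hr _ y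
          intro k hk
          exact (Finset.mem_filter.mp hk).2
      _ = S.card * (485 * C1) ^ d := by rw [Finset.sum_const, nsmul_eq_mul]
  -- the unitaries
  let g : ({p : Fin N × Fin N // p.1 ≠ p.2} → ℤ) → UN N :=
    fun k => ⟨cay (Hg N r k), cay_mem _ (Hg_hermitian N r k)⟩
  have hdisj : ∀ k ∈ S, ∀ k' ∈ S, k ≠ k' →
      Disjoint {U : UN N | hs2 ((U : Mt N) - (g k : Mt N)) ≤ (2 * r) ^ 2}
        {U : UN N | hs2 ((U : Mt N) - (g k' : Mt N)) ≤ (2 * r) ^ 2} := by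
    intro k hk k' hk' hne
    rw [Set.disjoint_left]
    intro U hU hU'
    have h1 : hs2 ((g k : Mt N) - (g k' : Mt N)) ≤ (2 * (2 * r)) ^ 2 :=
      bu_tri (Z := (U : Mt N)) (by positivity) hU hU'
    have h2 := hsep k hk k' hk' hne
    push Not at h2
    have h3 := cay_lower (Hg N r k) (Hg N r k') (Hg_hermitian N r k) (Hg_hermitian N r k') 10
      (Finset.mem_filter.mp (hSG hk)).2 (Finset.mem_filter.mp (hSG hk')).2
    have h4 : hs2 (cay (Hg N r k) - cay (Hg N r k')) ≤ (2 * (2 * r)) ^ 2 := h1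
    nlinarith
  have hSmu : (S.card : ℝ) * (mu N).real B0 ≤ 1 := by
    have h1 : (mu N).real (⋃ k ∈ S, {U : UN N | hs2 ((U : Mt N) - (g k : Mt N)) ≤ (2 * r) ^ 2}) =
        ∑ k ∈ S, (mu N).real {U : UN N | hs2 ((U : Mt N) - (g k : Mt N)) ≤ (2 * r) ^ 2} := by
      apply measureReal_biUnion_finset
      · intro k hk k' hk' hne
        exact hdisj k hk k' hk' hne
      · intro k _
        exact bu_measurable _ _
      · intro k _
        exact measure_ne_top _ _
    have h2 : ∑ k ∈ S, (mu N).real {U : UN N | hs2 ((U : Mt N) - (g k : Mt N)) ≤ (2 * r) ^ 2} =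
        S.card * (mu N).real B0 := by
      rw [Finset.sum_congr rfl (fun k _ => bu_translate (g k) ((2 * r) ^ 2)), Finset.sum_const,
        nsmul_eq_mul]
    rw [← h2, ← h1]
    exact measureReal_le_one
  -- conclusion
  have hC485 : (0 : ℝ) < (485 * C1) ^ d := by positivity
  have h1r : (1 / r) ^ d ≤ 2 * (G.card : ℝ) := by
    refine le_trans ?_ hgrid
    apply pow_le_pow_left₀ (by positivity)
    push_cast
    have : (0 : ℝ) ≤ K := Nat.cast_nonneg K
    linarith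
  have h3 : (1 / r) ^ d ≤ 2 * (S.card * (485 * C1) ^ d) := h1r.trans (by linarith)
  have hB0nn : 0 ≤ (mu N).real B0 := measureReal_nonneg
  have h4 : (1 / r) ^ d * (mu N).real B0 ≤ 2 * (485 * C1) ^ d := by
    calc (1 / r) ^ d * (mu N).real B0 ≤ 2 * (S.card * (485 * C1) ^ d) * (mu N).real B0 :=
          mul_le_mul_of_nonneg_right h3 hB0nn
      _ = 2 * (485 * C1) ^ d * (S.card * (mu N).real B0) := by ring
      _ ≤ 2 * (485 * C1) ^ d * 1 := by
          apply mul_le_mul_of_nonneg_left hSmu (by positivity)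
      _ = _ := by ring
  have h5 : (mu N).real B0 ≤ 2 * (485 * C1 * r) ^ d := by
    rw [one_div, inv_pow, inv_mul_le_iff₀ (by positivity)] at h4
    calc (mu N).real B0 ≤ r ^ d * (2 * (485 * C1) ^ d) := h4
      _ = 2 * (485 * C1 * r) ^ d := by
        rw [mul_pow (485 * C1) r]
        ring
  calc (mu N).real {U : UN N | hs2 ((U : Mt N) - X) ≤ r ^ 2} ≤ (mu N).real B0 := hle1
    _ ≤ 2 * (485 * C1 * r) ^ d := h5
    _ ≤ 2 ^ d * (485 * C1 * r) ^ d := by
      apply mul_le_mul_of_nonneg_right _ (by positivity)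
      calc (2 : ℝ) = 2 ^ 1 := (pow_one _).symm
        _ ≤ 2 ^ d := pow_le_pow_right₀ (by norm_num) hd1
    _ = (970 * C1 * r) ^ d := by
      rw [← mul_pow]
      congr 1
      ring

end Pool.Agent.H710R2.FF
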