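import Mathlib
import Pool.Agent.H710R2.FF.Basic

set_option autoImplicit false
set_option linter.unusedSectionVars false

open MeasureTheory
open scoped ComplexConjugate

noncomputable section

namespace Pool.Agent.H710R2.FF

namespace SDaux

/-! ## First order expansions -/

section expand

variable {X A : Type} [NormedRing A] [NormedAlgebra ℂ A]

/-- `F θ x = F0 x + θ F1 x + O(θ²)` uniformly in `x` -/
def Ex1 (F : ℝ → X → A) (F0 F1 : X → A) : Prop :=
  ∃ C : ℝ, 0 ≤ C ∧ (∀ x, ‖F0 x‖ ≤ C) ∧ (∀ x, ‖F1 x‖ ≤ C) ∧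
    ∀ θ : ℝ, |θ| ≤ 1 → ∀ x, ‖F θ x - F0 x - (θ : ℂ) • F1 x‖ ≤ C * θ ^ 2

theorem Ex1.mul {F G : ℝ → X → A} {F0 F1 G0 G1 : X → A} (hF : Ex1 F F0 F1) (hG : Ex1 G G0 G1) :
    Ex1 (fun θ x => F θ x * G θ x) (fun x => F0 x * G0 x)
      (fun x => F1 x * G0 x + F0 x * G1 x) := by
  obtain ⟨C, hC, hF0, hF1, hF⟩ := hF
  obtain ⟨D, hD, hG0, hG1, hG⟩ := hG
  have hCD : 0 ≤ C * D := mul_nonneg hC hD
  refine ⟨8 * (C * D), by positivity, fun x => ?_, fun x => ?_, fun θ hθ x => ?_⟩
  · calc ‖F0 x * G0 x‖ ≤ ‖F0 x‖ * ‖G0 x‖ := norm_mul_le _ _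
      _ ≤ C * D := mul_le_mul (hF0 x) (hG0 x) (norm_nonneg _) hC
      _ ≤ _ := by linarith
  · calc ‖F1 x * G0 x + F0 x * G1 x‖ ≤ ‖F1 x * G0 x‖ + ‖F0 x * G1 x‖ := norm_add_le _ _
      _ ≤ ‖F1 x‖ * ‖G0 x‖ + ‖F0 x‖ * ‖G1 x‖ := add_le_add (norm_mul_le _ _) (norm_mul_le _ _)
      _ ≤ C * D + C * D := add_le_add (mul_le_mul (hF1 x) (hG0 x) (norm_nonneg _) hC)
          (mul_le_mul (hF0 x) (hG1 x) (norm_nonneg _) hC)
      _ ≤ _ := by linarith
  · have hθ2 : θ ^ 2 ≤ 1 := by
      rw [← sq_abs]; nlinarith [abs_nonneg θ]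
    have hθn : ‖(θ : ℂ)‖ ≤ 1 := by rwa [Complex.norm_real, Real.norm_eq_abs]
    have hGn : ‖G θ x‖ ≤ 3 * D := by
      have h1 : G θ x = (G θ x - G0 x - (θ : ℂ) • G1 x) + (G0 x + (θ : ℂ) • G1 x) := by abel
      have h2 : ‖(θ : ℂ) • G1 x‖ ≤ D := by
        rw [norm_smul]
        calc ‖(θ : ℂ)‖ * ‖G1 x‖ ≤ 1 * D := mul_le_mul hθn (hG1 x) (norm_nonneg _) zero_le_one
          _ = D := one_mul _
      calc ‖G θ x‖ = ‖(G θ x - G0 x - (θ : ℂ) • G1 x) + (G0 x + (θ : ℂ) • G1 x)‖ := by rw [← h1]
        _ ≤ ‖G θ x - G0 x - (θ : ℂ) • G1 x‖ + (‖G0 x‖ + ‖(θ : ℂ) • G1 x‖) :=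
            (norm_add_le _ _).trans (add_le_add le_rfl (norm_add_le _ _))
        _ ≤ D * θ ^ 2 + (D + D) := add_le_add (hG θ hθ x) (add_le_add (hG0 x) h2)
        _ ≤ 3 * D := by nlinarith
    have hFn : ‖F0 x + (θ : ℂ) • F1 x‖ ≤ 2 * C := by
      have h2 : ‖(θ : ℂ) • F1 x‖ ≤ C := by
        rw [norm_smul]
        calc ‖(θ : ℂ)‖ * ‖F1 x‖ ≤ 1 * C := mul_le_mul hθn (hF1 x) (norm_nonneg _) zero_le_one
          _ = C := one_mul _
      calc ‖F0 x + (θ : ℂ) • F1 x‖ ≤ ‖F0 x‖ + ‖(θ : ℂ) • F1 x‖ := norm_add_le _ _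
        _ ≤ C + C := add_le_add (hF0 x) h2
        _ = 2 * C := by ring
    have key : F θ x * G θ x - F0 x * G0 x - (θ : ℂ) • (F1 x * G0 x + F0 x * G1 x) =
        (F θ x - F0 x - (θ : ℂ) • F1 x) * G θ x +
        ((F0 x + (θ : ℂ) • F1 x) * (G θ x - G0 x - (θ : ℂ) • G1 x) +
        ((θ : ℂ) * (θ : ℂ)) • (F1 x * G1 x)) := by
      simp only [mul_sub, sub_mul, add_mul, smul_add, mul_smul, smul_mul_assoc,
        mul_smul_comm]
      abel
    rw [key]
    calc _ ≤ ‖(F θ x - F0 x - (θ : ℂ) • F1 x) * G θ x‖ +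
          (‖(F0 x + (θ : ℂ) • F1 x) * (G θ x - G0 x - (θ : ℂ) • G1 x)‖ +
          ‖((θ : ℂ) * (θ : ℂ)) • (F1 x * G1 x)‖) :=
          (norm_add_le _ _).trans (add_le_add le_rfl (norm_add_le _ _))
      _ ≤ (C * θ ^ 2) * (3 * D) + ((2 * C) * (D * θ ^ 2) + θ ^ 2 * (C * D)) := by
          refine add_le_add ?_ (add_le_add ?_ ?_)
          · exact (norm_mul_le _ _).trans (mul_le_mul (hF θ hθ x) hGn (norm_nonneg _)
              (by positivity))
          · exact (norm_mul_le _ _).trans (mul_le_mul hFn (hG θ hθ x) (norm_nonneg _)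
              (by positivity))
          · rw [norm_smul, norm_mul, Complex.norm_real, Real.norm_eq_abs, ← sq, sq_abs]
            exact mul_le_mul_of_nonneg_left ((norm_mul_le _ _).trans
              (mul_le_mul (hF1 x) (hG1 x) (norm_nonneg _) hC)) (sq_nonneg _)
      _ ≤ 8 * (C * D) * θ ^ 2 := by nlinarith [mul_nonneg hCD (sq_nonneg θ)]

theorem Ex1.const (c : A) : Ex1 (fun _ (_ : X) => c) (fun _ => c) (fun _ => 0) := by
  refine ⟨‖c‖, norm_nonneg _, fun _ => le_rfl, fun _ => by simp, fun θ _ x => ?_⟩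
  simp only [sub_self, smul_zero, norm_zero]
  positivity

theorem Ex1.congr {F G : ℝ → X → A} {F0 F1 G0 G1 : X → A} (hF : Ex1 F F0 F1)
    (h : ∀ θ x, G θ x = F θ x) (h0 : ∀ x, G0 x = F0 x) (h1 : ∀ x, G1 x = F1 x) :
    Ex1 G G0 G1 := by
  have e : G = F := funext fun θ => funext fun x => h θ x
  have e0 : G0 = F0 := funext fun x => h0 x
  have e1 : G1 = F1 := funext fun x => h1 x
  rw [e, e0, e1]
  exact hF

end expand

/-! ## Derivations -/

section deriv

variable {ι : Type} [DecidableEq ι] {N : ℕ}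

/-- derivative of a letter -/
def dlit (X : Mt N) (i : ι) (U : ι → UN N) (j : ι) (e : Bool) : Mt N :=
  if j = i then (if e then X * (U i : Mt N) else -(star (U i : Mt N) * X)) else 0

/-- derivative of a word -/
def dev (X : Mt N) (i : ι) (U : ι → UN N) : List (Lt ι N) → Mt N
  | [] => 0
  | l :: w => dlit X i U l.1 l.2.1 * l.2.2 * ev U w + lit U l.1 l.2.1 * l.2.2 * dev X i U w

/-- derivative of a product of traces -/
def dTR (X : Mt N) (i : ι) (U : ι → UN N) : List (List (Lt ι N)) → ℂ
  | [] => 0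
  | w :: R => ntr (dev X i U w) * TR U R + T U w * dTR X i U R

theorem ev_nil (U : ι → UN N) : ev U [] = 1 := by simp [ev]

theorem ev_cons (U : ι → UN N) (l : Lt ι N) (w : List (Lt ι N)) :
    ev U (l :: w) = lit U l.1 l.2.1 * l.2.2 * ev U w := by simp [ev]

theorem TR_cons (U : ι → UN N) (w : List (Lt ι N)) (R : List (List (Lt ι N))) :
    TR U (w :: R) = T U w * TR U R := by simp [TR]

theorem dlit_add (X Y : Mt N) (i : ι) (U : ι → UN N) (j : ι) (e : Bool) :
    dlit (X + Y) i U j e = dlit X i U j e + dlit Y i U j e := by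
  unfold dlit
  split_ifs
  · rw [add_mul]
  · rw [mul_add, neg_add]
  · simp

theorem dlit_smul (c : ℂ) (X : Mt N) (i : ι) (U : ι → UN N) (j : ι) (e : Bool) :
    dlit (c • X) i U j e = c • dlit X i U j e := by
  unfold dlit
  split_ifs
  · rw [smul_mul_assoc]
  · rw [mul_smul_comm, smul_neg]
  · simp

theorem dev_add (X Y : Mt N) (i : ι) (U : ι → UN N) (w : List (Lt ι N)) :
    dev (X + Y) i U w = dev X i U w + dev Y i U w := by
  induction w with
  | nil => simp [dev]
  | cons l w ih =>
    simp only [dev, ih, dlit_add, add_mul, mul_add]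
    abel

theorem dev_smul (c : ℂ) (X : Mt N) (i : ι) (U : ι → UN N) (w : List (Lt ι N)) :
    dev (c • X) i U w = c • dev X i U w := by
  induction w with
  | nil => simp [dev]
  | cons l w ih =>
    simp only [dev, ih, dlit_smul, smul_add, smul_mul_assoc, mul_smul_comm]

theorem dTR_add (X Y : Mt N) (i : ι) (U : ι → UN N) (R : List (List (Lt ι N))) :
    dTR (X + Y) i U R = dTR X i U R + dTR Y i U R := by
  induction R with
  | nil => simp [dTR]
  | cons w R ih =>
    simp only [dTR, ih, dev_add, ntr_add]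
    ring

theorem dTR_smul (c : ℂ) (X : Mt N) (i : ι) (U : ι → UN N) (R : List (List (Lt ι N))) :
    dTR (c • X) i U R = c * dTR X i U R := by
  induction R with
  | nil => simp [dTR]
  | cons w R ih =>
    simp only [dTR, ih, dev_smul, ntr_smul]
    ring

theorem continuous_dlit (X : Mt N) (i : ι) (j : ι) (e : Bool) :
    Continuous fun U : ι → UN N => dlit X i U j e := by
  unfold dlit
  have h1 : Continuous fun U : ι → UN N => (U i : Mt N) :=
    continuous_subtype_val.comp (continuous_apply i)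
  split_ifs
  · exact continuous_const.mul h1
  · exact (h1.star.mul continuous_const).neg
  · exact continuous_const

theorem continuous_dev (X : Mt N) (i : ι) (w : List (Lt ι N)) :
    Continuous fun U : ι → UN N => dev X i U w := by
  induction w with
  | nil => simpa [dev] using (continuous_const : Continuous fun _ : ι → UN N => (0 : Mt N))
  | cons l w ih =>
    simp only [dev]
    exact (((continuous_dlit X i l.1 l.2.1).mul continuous_const).mul (continuous_ev w)).add
      (((continuous_lit l.1 l.2.1).mul continuous_const).mul ih)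

theorem continuous_dTR (X : Mt N) (i : ι) (R : List (List (Lt ι N))) :
    Continuous fun U : ι → UN N => dTR X i U R := by
  induction R with
  | nil => simpa [dTR] using (continuous_const : Continuous fun _ : ι → UN N => (0 : ℂ))
  | cons w R ih =>
    simp only [dTR]
    exact ((continuous_ntr.comp (continuous_dev X i w)).mul (continuous_TR R)).add
      ((continuous_T w).mul ih)

/-- infinitesimal generators of (approximate) one parameter groups -/
def Gen (X : Mt N) : Prop := star X = -X ∧ ∃ g : ℝ → UN N, ∃ C : ℝ, 0 ≤ C ∧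
  ∀ θ : ℝ, |θ| ≤ 1 → opn ((g θ : Mt N) - 1 - (θ : ℂ) • X) ≤ C * θ ^ 2

/-- left multiplication of the `i`-th coordinate -/
def act (i : ι) (g : ℝ → UN N) (θ : ℝ) (U : ι → UN N) : ι → UN N :=
  Function.update U i (g θ * U i)


section words

open scoped Matrix.Norms.L2Operator

theorem opn_def (X : Mt N) : opn X = ‖X‖ := rfl

theorem lit_act (i : ι) (g : ℝ → UN N) (θ : ℝ) (U : ι → UN N) (j : ι) (e : Bool) :
    lit (act i g θ U) j e = if j = i then (if e then (g θ : Mt N) * (U i : Mt N)
      else star (U i : Mt N) * star (g θ : Mt N)) else lit U j e := by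
  unfold lit act
  by_cases h : j = i
  · subst h
    cases e <;> simp
  · simp [h]

theorem Ex1_lit (X : Mt N) (hX : star X = -X) (g : ℝ → UN N) (C : ℝ) (hC : 0 ≤ C)
    (hg : ∀ θ : ℝ, |θ| ≤ 1 → opn ((g θ : Mt N) - 1 - (θ : ℂ) • X) ≤ C * θ ^ 2) (i j : ι)
    (e : Bool) :
    Ex1 (fun θ U => lit (act i g θ U) j e) (fun U => lit U j e) (fun U => dlit X i U j e) := by
  have hun : ∀ V : UN N, ‖(V : Mt N)‖ ≤ 1 := fun V => opn_unitary V
  have hus : ∀ V : UN N, ‖star (V : Mt N)‖ ≤ 1 := fun V => by
    have := opn_star (V : Mt N)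
    rw [opn_def, opn_def] at this
    rw [this]
    exact hun V
  refine ⟨1 + C + ‖X‖, by positivity, fun U => ?_, fun U => ?_, fun θ hθ U => ?_⟩
  · have : ‖lit U j e‖ ≤ 1 := by
      unfold lit
      split_ifs
      · exact hun _
      · exact hus _
    linarith [norm_nonneg X]
  · have : ‖dlit X i U j e‖ ≤ ‖X‖ := by
      unfold dlit
      split_ifs
      · calc ‖X * (U i : Mt N)‖ ≤ ‖X‖ * ‖(U i : Mt N)‖ := norm_mul_le _ _
          _ ≤ ‖X‖ * 1 := mul_le_mul_of_nonneg_left (hun _) (norm_nonneg _)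
          _ = ‖X‖ := mul_one _
      · rw [norm_neg]
        calc ‖star (U i : Mt N) * X‖ ≤ ‖star (U i : Mt N)‖ * ‖X‖ := norm_mul_le _ _
          _ ≤ 1 * ‖X‖ := mul_le_mul_of_nonneg_right (hus _) (norm_nonneg _)
          _ = ‖X‖ := one_mul _
      · rw [norm_zero]; exact norm_nonneg _
    linarith
  · beta_reduce
    rw [lit_act]
    have hmain : ‖(g θ : Mt N) - 1 - (θ : ℂ) • X‖ ≤ C * θ ^ 2 := hg θ hθ
    have hle : C * θ ^ 2 ≤ (1 + C + ‖X‖) * θ ^ 2 :=
      mul_le_mul_of_nonneg_right (by linarith [norm_nonneg X]) (sq_nonneg _)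
    have hstar : ‖star ((g θ : Mt N) - 1 - (θ : ℂ) • X)‖ ≤ C * θ ^ 2 := by
      have := opn_star ((g θ : Mt N) - 1 - (θ : ℂ) • X)
      rw [opn_def, opn_def] at this
      rw [this]
      exact hmain
    have hstar2 : star ((g θ : Mt N) - 1 - (θ : ℂ) • X) = star (g θ : Mt N) - 1 + (θ : ℂ) • X := by
      rw [star_sub, star_sub, star_one, star_smul, hX, smul_neg, sub_neg_eq_add]
      congr 2
      exact Complex.conj_ofReal θ
    unfold dlit
    by_cases hj : j = i
    · subst hj
      cases e with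
      | true =>
        simp only [if_true, lit]
        have e1 : (g θ : Mt N) * (U j : Mt N) - (U j : Mt N) - (θ : ℂ) • (X * (U j : Mt N)) =
            ((g θ : Mt N) - 1 - (θ : ℂ) • X) * (U j : Mt N) := by
          rw [sub_mul, sub_mul, one_mul, smul_mul_assoc]
        rw [e1]
        calc _ ≤ ‖(g θ : Mt N) - 1 - (θ : ℂ) • X‖ * ‖(U j : Mt N)‖ := norm_mul_le _ _
          _ ≤ (C * θ ^ 2) * 1 := mul_le_mul hmain (hun _) (norm_nonneg _) (by positivity)
          _ ≤ _ := by linarith
      | false =>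
        simp only [if_true, lit, Bool.false_eq_true, if_false]
        have e1 : star (U j : Mt N) * star (g θ : Mt N) - star (U j : Mt N) -
            (θ : ℂ) • -(star (U j : Mt N) * X) =
            star (U j : Mt N) * (star ((g θ : Mt N) - 1 - (θ : ℂ) • X)) := by
          rw [hstar2, mul_add, mul_sub, mul_one, mul_smul_comm, smul_neg, sub_neg_eq_add]
        rw [e1]
        calc _ ≤ ‖star (U j : Mt N)‖ * ‖star ((g θ : Mt N) - 1 - (θ : ℂ) • X)‖ :=
              norm_mul_le _ _
          _ ≤ 1 * (C * θ ^ 2) := mul_le_mul (hus _) hstar (norm_nonneg _) zero_le_one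
          _ ≤ _ := by linarith
    · simp only [hj, if_false, sub_self, smul_zero, norm_zero]
      positivity

theorem Ex1_ev (X : Mt N) (hX : star X = -X) (g : ℝ → UN N) (C : ℝ) (hC : 0 ≤ C)
    (hg : ∀ θ : ℝ, |θ| ≤ 1 → opn ((g θ : Mt N) - 1 - (θ : ℂ) • X) ≤ C * θ ^ 2) (i : ι)
    (w : List (Lt ι N)) :
    Ex1 (fun θ U => ev (act i g θ U) w) (fun U => ev U w) (fun U => dev X i U w) := by
  induction w with
  | nil =>
    refine (Ex1.const (1 : Mt N)).congr (fun θ x => ev_nil _) (fun x => ev_nil _) fun x => rfl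
  | cons l w ih =>
    refine (((Ex1_lit X hX g C hC hg i l.1 l.2.1).mul (Ex1.const l.2.2)).mul ih).congr
      (fun θ x => ev_cons _ _ _) (fun x => ev_cons _ _ _) fun x => ?_
    simp only [dev, mul_zero, add_zero]

theorem Ex1.ntr' {Y : Type} {F : ℝ → Y → Mt N} {F0 F1 : Y → Mt N} (h : Ex1 F F0 F1) :
    Ex1 (fun θ x => ntr (F θ x)) (fun x => ntr (F0 x)) (fun x => ntr (F1 x)) := by
  obtain ⟨C, hC, h0, h1, h2⟩ := h
  have hn : ∀ Z : Mt N, ‖ntr Z‖ ≤ ‖Z‖ := norm_ntr_le
  refine ⟨C, hC, fun x => (hn _).trans (h0 x), fun x => (hn _).trans (h1 x), fun θ hθ x => ?_⟩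
  have e : ntr (F θ x) - ntr (F0 x) - (θ : ℂ) • ntr (F1 x) =
      ntr (F θ x - F0 x - (θ : ℂ) • F1 x) := by
    rw [ntr_sub, ntr_sub, ntr_smul, smul_eq_mul]
  rw [e]
  exact (hn _).trans (h2 θ hθ x)

theorem Ex1_TR (X : Mt N) (hX : star X = -X) (g : ℝ → UN N) (C : ℝ) (hC : 0 ≤ C)
    (hg : ∀ θ : ℝ, |θ| ≤ 1 → opn ((g θ : Mt N) - 1 - (θ : ℂ) • X) ≤ C * θ ^ 2) (i : ι)
    (R : List (List (Lt ι N))) :
    Ex1 (fun θ U => TR (act i g θ U) R) (fun U => TR U R) (fun U => dTR X i U R) := by
  induction R with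
  | nil =>
    refine (Ex1.const (1 : ℂ)).congr (fun θ x => by simp [TR]) (fun x => by simp [TR])
      fun x => rfl
  | cons w R ih =>
    refine (((Ex1_ev X hX g C hC hg i w).ntr').mul ih).congr
      (fun θ x => TR_cons _ _ _) (fun x => TR_cons _ _ _) fun x => ?_
    simp only [dTR, T]

end words

/-- invariance of the product measure under left multiplication of one coordinate -/
theorem act_mp [Fintype ι] (i : ι) (g : ℝ → UN N) (θ : ℝ) :
    MeasurePreserving (act i g θ) (PP ι N) (PP ι N) := by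
  have h : act i g θ = fun U : ι → UN N => fun j => (if j = i then g θ else 1) * U j := by
    funext U j
    unfold act
    by_cases hj : j = i
    · subst hj; simp
    · simp [hj]
  rw [h]
  exact measurePreserving_pi (fun _ : ι => mu N) (fun _ : ι => mu N) fun j =>
    measurePreserving_mul_left (mu N) (if j = i then g θ else 1)

/-- vanishing of the mean of an infinitesimal increment -/
theorem integral_zero_of_Ex1 [Fintype ι] (i : ι) (g : ℝ → UN N) (F : (ι → UN N) → ℂ)
    (F1 : (ι → UN N) → ℂ) (hF : Continuous F) (hF1 : Continuous F1)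
    (h : Ex1 (fun θ U => F (act i g θ U)) F F1) : ∫ U, F1 U ∂(PP ι N) = 0 := by
  obtain ⟨C, hC, -, -, h2⟩ := h
  have hI := integrable_cont (ι := ι) (N := N) hF
  have hI1 := integrable_cont (ι := ι) (N := N) hF1
  have key : ∀ θ : ℝ, 0 < θ → θ ≤ 1 → ‖∫ U, F1 U ∂(PP ι N)‖ ≤ C * θ := by
    intro θ h0 h1
    have habs : |θ| ≤ 1 := by rw [abs_of_pos h0]; exact h1
    have hmp := act_mp (N := N) i g θ
    have hIθ : Integrable (fun U => F (act i g θ U)) (PP ι N) :=
      (hmp.integrable_comp hI.aestronglyMeasurable).2 hI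
    have e1 : ∫ U, F (act i g θ U) ∂(PP ι N) = ∫ U, F U ∂(PP ι N) := by
      have := integral_map (μ := PP ι N) (φ := act i g θ) hmp.measurable.aemeasurable
        (f := F) (by rw [hmp.map_eq]; exact hI.aestronglyMeasurable)
      rw [← this, hmp.map_eq]
    have e2 : ∫ U, (F (act i g θ U) - F U - (θ : ℂ) • F1 U) ∂(PP ι N) =
        -((θ : ℂ) • ∫ U, F1 U ∂(PP ι N)) := by
      have a1 : ∫ U, (F (act i g θ U) - F U - (θ : ℂ) • F1 U) ∂(PP ι N) =
          ∫ U, (F (act i g θ U) - F U) ∂(PP ι N) - ∫ U, (θ : ℂ) • F1 U ∂(PP ι N) :=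
        integral_sub (hIθ.sub hI) (hI1.smul (θ : ℂ))
      have a2 : ∫ U, (F (act i g θ U) - F U) ∂(PP ι N) =
          ∫ U, F (act i g θ U) ∂(PP ι N) - ∫ U, F U ∂(PP ι N) := integral_sub hIθ hI
      rw [a1, a2, e1, sub_self, zero_sub, integral_smul]
    have e3 : ‖∫ U, (F (act i g θ U) - F U - (θ : ℂ) • F1 U) ∂(PP ι N)‖ ≤ C * θ ^ 2 := by
      have := norm_integral_le_of_norm_le_const (μ := PP ι N) (C := C * θ ^ 2)
        (Filter.Eventually.of_forall fun U => h2 θ habs U)
      simpa using this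
    rw [e2, norm_neg, norm_smul, Complex.norm_real, Real.norm_eq_abs, abs_of_pos h0] at e3
    have e4 : θ * ‖∫ U, F1 U ∂(PP ι N)‖ ≤ θ * (C * θ) := by
      calc _ ≤ C * θ ^ 2 := e3
        _ = _ := by ring
    exact le_of_mul_le_mul_left e4 h0
  by_contra hne
  have hpos : 0 < ‖∫ U, F1 U ∂(PP ι N)‖ := norm_pos_iff.2 hne
  set a := ‖∫ U, F1 U ∂(PP ι N)‖ with ha
  have hC1 : 0 < C + 1 := by linarith
  have h1 := key (min 1 (a / (2 * (C + 1)))) (lt_min one_pos (by positivity)) (min_le_left _ _)
  have h2 : C * min 1 (a / (2 * (C + 1))) ≤ C * (a / (2 * (C + 1))) :=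
    mul_le_mul_of_nonneg_left (min_le_right _ _) hC
  have h3 : C * (a / (2 * (C + 1))) ≤ a / 2 := by
    rw [mul_div_assoc', div_le_div_iff₀ (by positivity) (by positivity)]
    nlinarith
  linarith

/-- the functional of the Schwinger-Dyson equation -/
def Phi [Fintype ι] (i : ι) (K : Mt N) (w : List (Lt ι N)) (R : List (List (Lt ι N)))
    (X : Mt N) : ℂ :=
  ∫ U, (ntr (K * dev X i U w) * TR U R + ntr (K * ev U w) * dTR X i U R) ∂(PP ι N)

theorem continuous_Phi (i : ι) (K : Mt N) (w : List (Lt ι N)) (R : List (List (Lt ι N)))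
    (X : Mt N) : Continuous fun U : ι → UN N =>
      ntr (K * dev X i U w) * TR U R + ntr (K * ev U w) * dTR X i U R :=
  ((continuous_ntr.comp (continuous_const.mul (continuous_dev X i w))).mul
    (continuous_TR R)).add
    ((continuous_ntr.comp (continuous_const.mul (continuous_ev w))).mul (continuous_dTR X i R))

open scoped Matrix.Norms.L2Operator in
theorem Phi_gen [Fintype ι] (i : ι) (K : Mt N) (w : List (Lt ι N)) (R : List (List (Lt ι N)))
    (X : Mt N) (hX : Gen X) : Phi i K w R X = 0 := by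
  obtain ⟨hs, g, C, hC, hg⟩ := hX
  refine integral_zero_of_Ex1 i g (fun U => ntr (K * ev U w) * TR U R) _
    ((continuous_ntr.comp (continuous_const.mul (continuous_ev w))).mul (continuous_TR R))
    (continuous_Phi i K w R X) ?_
  refine ((((Ex1.const K).mul (Ex1_ev X hs g C hC hg i w)).ntr').mul
    (Ex1_TR X hs g C hC hg i R)).congr (fun θ x => rfl) (fun x => rfl) fun x => ?_
  simp only [zero_mul, zero_add]

theorem Phi_add [Fintype ι] (i : ι) (K : Mt N) (w : List (Lt ι N)) (R : List (List (Lt ι N)))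
    (X Y : Mt N) : Phi i K w R (X + Y) = Phi i K w R X + Phi i K w R Y := by
  unfold Phi
  rw [← integral_add (integrable_cont (continuous_Phi i K w R X))
    (integrable_cont (continuous_Phi i K w R Y))]
  refine integral_congr_ae (Filter.Eventually.of_forall fun U => ?_)
  simp only [dev_add, dTR_add, mul_add, ntr_add]
  ring

theorem Phi_smul [Fintype ι] (i : ι) (K : Mt N) (w : List (Lt ι N)) (R : List (List (Lt ι N)))
    (c : ℂ) (X : Mt N) : Phi i K w R (c • X) = c * Phi i K w R X := by
  unfold Phi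
  rw [← smul_eq_mul, ← integral_smul]
  refine integral_congr_ae (Filter.Eventually.of_forall fun U => ?_)
  simp only [dev_smul, dTR_smul, mul_smul_comm, ntr_smul, smul_eq_mul]
  ring

end deriv

section gens

variable {ι : Type} [DecidableEq ι] {N : ℕ}

theorem gen_proj (E : Mt N) (hs : star E = E) (hE : E * E = E) : Gen (Complex.I • E) := by
  refine ⟨?_, fun θ => ⟨1 + (Complex.exp (θ * Complex.I) - 1) • E, ?_⟩, opn E, opn_nonneg E,
    fun θ hθ => ?_⟩
  · rw [star_smul, hs, Complex.star_def, Complex.conj_I, neg_smul]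
  · rw [Matrix.mem_unitaryGroup_iff]
    have h1 : star (Complex.exp (θ * Complex.I)) * Complex.exp (θ * Complex.I) = 1 := by
      rw [Complex.star_def, ← Complex.exp_conj, ← Complex.exp_add]
      simp
    rw [star_add, star_one, star_smul, hs, star_sub, star_one]
    set z := Complex.exp (θ * Complex.I) with hz
    have h2 : (1 + (z - 1) • E) * (1 + (star z - 1) • E) = 1 + (star z * z - 1) • E := by
      rw [mul_add, mul_one, add_mul, one_mul, smul_mul_smul_comm, hE, add_assoc, ← add_smul,
        ← add_smul]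
      congr 2
      ring
    rw [h2, h1, sub_self, zero_smul, add_zero]
  · have e : (1 + (Complex.exp (θ * Complex.I) - 1) • E : Mt N) - 1 -
        (θ : ℂ) • (Complex.I • E) = (Complex.exp (θ * Complex.I) - 1 - θ * Complex.I) • E := by
      rw [smul_smul, sub_smul _ ((θ : ℂ) * Complex.I), add_sub_cancel_left]
    have h3 : ‖Complex.exp (θ * Complex.I) - 1 - θ * Complex.I‖ ≤ θ ^ 2 := by
      have h4 : ‖(θ : ℂ) * Complex.I‖ ≤ 1 := by
        rw [norm_mul, Complex.norm_I, mul_one, Complex.norm_real, Real.norm_eq_abs]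
        exact hθ
      have := Complex.norm_exp_sub_one_sub_id_le h4
      rw [norm_mul, Complex.norm_I, mul_one, Complex.norm_real, Real.norm_eq_abs, sq_abs] at this
      exact this
    calc opn ((1 + (Complex.exp (θ * Complex.I) - 1) • E : Mt N) - 1 -
        (θ : ℂ) • (Complex.I • E)) = ‖Complex.exp (θ * Complex.I) - 1 - θ * Complex.I‖ * opn E := by
          rw [e, opn_smul]
      _ ≤ θ ^ 2 * opn E := mul_le_mul_of_nonneg_right h3 (opn_nonneg E)
      _ = opn E * θ ^ 2 := mul_comm _ _

theorem star_single (a b : Fin N) (c : ℂ) :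
    star (Matrix.single a b c : Mt N) = Matrix.single b a (star c) := by
  ext x y
  simp only [Matrix.star_apply, Matrix.single_apply]
  by_cases h : a = y ∧ b = x
  · simp [h]
  · have h' : ¬ (b = x ∧ a = y) := fun h2 => h ⟨h2.2, h2.1⟩
    simp [h, h']

theorem Phi_proj [Fintype ι] (i : ι) (K : Mt N) (w : List (Lt ι N)) (R : List (List (Lt ι N)))
    (E : Mt N) (hs : star E = E) (hE : E * E = E) : Phi i K w R E = 0 := by
  have h := Phi_gen i K w R _ (gen_proj E hs hE)
  rw [Phi_smul] at h
  exact (mul_eq_zero.1 h).resolve_left Complex.I_ne_zero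

theorem Phi_single [Fintype ι] (i : ι) (K : Mt N) (w : List (Lt ι N))
    (R : List (List (Lt ι N))) (a b : Fin N) : Phi i K w R (Matrix.single a b 1) = 0 := by
  have hd : ∀ c : Fin N, Phi i K w R (Matrix.single c c 1) = 0 := fun c =>
    Phi_proj i K w R _ (by rw [star_single, star_one])
      (by rw [Matrix.single_mul_single_same, mul_one])
  by_cases hab : a = b
  · subst hab
    exact hd a
  · have hba : b ≠ a := fun h => hab h.symm
    obtain ⟨P1, hP1⟩ : ∃ P : Mt N, P = (1 / 2 : ℂ) • (Matrix.single a a 1 + Matrix.single a b 1 +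
      Matrix.single b a 1 + Matrix.single b b 1) := ⟨_, rfl⟩
    obtain ⟨P2, hP2⟩ : ∃ P : Mt N, P = (1 / 2 : ℂ) • (Matrix.single a a 1 +
      Matrix.single a b (-Complex.I) + Matrix.single b a Complex.I + Matrix.single b b 1) :=
      ⟨_, rfl⟩
    have h1 : Phi i K w R P1 = 0 := by
      refine Phi_proj i K w R P1 ?_ ?_
      · rw [hP1, star_smul, star_add, star_add, star_add, star_single, star_single, star_single,
          star_single]
        have : star (1 / 2 : ℂ) = 1 / 2 := by simp
        rw [this]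
        congr 1
        simp only [star_one]
        abel
      · rw [hP1, smul_mul_smul_comm]
        simp only [mul_add, add_mul, Matrix.single_mul_single_same, Matrix.single_mul_single_of_ne,
          ne_eq, hab, hba, not_false_eq_true, mul_one, add_zero, zero_add]
        ext x y
        simp only [Matrix.smul_apply, Matrix.add_apply, smul_eq_mul, Matrix.single_apply]
        split_ifs <;> norm_num
    have h2 : Phi i K w R P2 = 0 := by
      refine Phi_proj i K w R P2 ?_ ?_
      · rw [hP2, star_smul, star_add, star_add, star_add, star_single, star_single, star_single,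
          star_single]
        have : star (1 / 2 : ℂ) = 1 / 2 := by simp
        rw [this]
        congr 1
        simp only [star_one, star_neg, Complex.star_def, Complex.conj_I, neg_neg]
        abel
      · rw [hP2, smul_mul_smul_comm]
        simp only [mul_add, add_mul, Matrix.single_mul_single_same, Matrix.single_mul_single_of_ne,
          ne_eq, hab, hba, not_false_eq_true, mul_one, one_mul, add_zero, zero_add, neg_mul,
          mul_neg, Complex.I_mul_I, neg_neg]
        ext x y
        simp only [Matrix.smul_apply, Matrix.add_apply, smul_eq_mul, Matrix.single_apply]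
        split_ifs <;> ring_nf
    have e : (Matrix.single a b 1 : Mt N) = P1 + (Complex.I • P2 +
        ((-(1 + Complex.I) / 2) • Matrix.single a a 1 +
          (-(1 + Complex.I) / 2) • Matrix.single b b 1)) := by
      rw [hP1, hP2]
      ext x y
      simp only [Matrix.smul_apply, Matrix.add_apply, smul_eq_mul, Matrix.single_apply]
      split_ifs <;> ring_nf <;> simp [Complex.I_sq] <;> ring
    rw [e, Phi_add, Phi_add, Phi_add, Phi_smul, Phi_smul, Phi_smul, h1, h2, hd, hd]
    ring

theorem trace_single_mul' (a b : Fin N) (M : Mt N) :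
    (Matrix.single b a 1 * M : Mt N).trace = M a b := by
  rw [Matrix.trace]
  simp only [Matrix.diag_apply]
  rw [Finset.sum_eq_single b]
  · rw [Matrix.single_mul_apply_same, one_mul]
  · intro c _ hc
    rw [Matrix.single_mul_apply_of_ne _ _ _ _ _ hc]
  · intro h; exact absurd (Finset.mem_univ _) h

theorem mul_single_mul_apply (Y Z : Mt N) (a b c d : Fin N) :
    (Y * Matrix.single a b 1 * Z : Mt N) c d = Y c a * Z b d := by
  rw [Matrix.mul_apply, Finset.sum_eq_single b]
  · rw [Matrix.mul_single_apply_same, mul_one]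
  · intro e _ he
    rw [Matrix.mul_single_apply_of_ne _ _ _ _ _ he, zero_mul]
  · intro h; exact absurd (Finset.mem_univ _) h

theorem sum_single1 (hN : 0 < N) (Y Z : Mt N) :
    ∑ a, ∑ b, ntr (Matrix.single b a 1 * (Y * Matrix.single a b 1 * Z)) =
      (N : ℂ) * (ntr Y * ntr Z) := by
  have hN' : (N : ℂ) ≠ 0 := by exact_mod_cast hN.ne'
  unfold ntr
  simp only [trace_single_mul', mul_single_mul_apply]
  have : ∑ a, ∑ b, (N : ℂ)⁻¹ * (Y a a * Z b b) = (N : ℂ)⁻¹ * (Y.trace * Z.trace) := by
    rw [Matrix.trace, Matrix.trace, Finset.sum_mul_sum, Finset.mul_sum]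
    refine Finset.sum_congr rfl fun a _ => ?_
    rw [Finset.mul_sum]
    rfl
  rw [this]
  field_simp

theorem sum_single2 (hN : 0 < N) (P Y Z : Mt N) :
    ∑ a, ∑ b, ntr (Matrix.single b a 1 * P) * ntr (Y * Matrix.single a b 1 * Z) =
      (N : ℂ)⁻¹ * ntr (P * Z * Y) := by
  have hN' : (N : ℂ) ≠ 0 := by exact_mod_cast hN.ne'
  have h1 : ∀ a b : Fin N, (Y * Matrix.single a b 1 * Z : Mt N).trace = (Z * Y : Mt N) b a := by
    intro a b
    rw [mul_assoc, Matrix.trace_mul_comm, mul_assoc, trace_single_mul']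
  unfold ntr
  simp only [trace_single_mul', h1]
  have : ∑ a, ∑ b, (N : ℂ)⁻¹ * P a b * ((N : ℂ)⁻¹ * (Z * Y : Mt N) b a) =
      (N : ℂ)⁻¹ * ((N : ℂ)⁻¹ * (P * (Z * Y) : Mt N).trace) := by
    obtain ⟨W, hW⟩ : ∃ W : Mt N, W = Z * Y := ⟨_, rfl⟩
    rw [← hW, Matrix.trace]
    simp only [Matrix.diag_apply, Matrix.mul_apply, Finset.mul_sum]
    refine Finset.sum_congr rfl fun a _ => Finset.sum_congr rfl fun b _ => ?_
    ring
  rw [this, mul_assoc P]

/-- contribution of the letter number `p` -/
def ctr (i : ι) (U : ι → UN N) (Y : Mt N) (w : List (Lt ι N)) (p : Fin w.length) : ℂ :=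
  if (w.get p).1 = i then
    (if (w.get p).2.1 = true then ntr (Y * ev U (w.take p)) * ntr (ev U (w.drop p))
    else -(ntr (Y * ev U (w.take p) * star (U i : Mt N)) *
      ntr ((w.get p).2.2 * ev U (w.drop (p + 1)))))
  else 0

theorem sum_dev (hN : 0 < N) (i : ι) (U : ι → UN N) (w : List (Lt ι N)) (Y : Mt N) :
    ∑ a, ∑ b, ntr (Matrix.single b a 1 * (Y * dev (Matrix.single a b 1) i U w)) =
      (N : ℂ) * ∑ p : Fin w.length, ctr i U Y w p := by
  induction w generalizing Y with
  | nil => simp [dev, ntr]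
  | cons l w ih =>
    have h1 : ∀ a b : Fin N, ntr (Matrix.single b a 1 *
        (Y * dev (Matrix.single a b 1) i U (l :: w))) =
        ntr (Matrix.single b a 1 * (Y * (dlit (Matrix.single a b 1) i U l.1 l.2.1 * l.2.2 *
          ev U w))) +
        ntr (Matrix.single b a 1 * ((Y * (lit U l.1 l.2.1 * l.2.2)) *
          dev (Matrix.single a b 1) i U w)) := by
      intro a b
      rw [← ntr_add, ← mul_add]
      congr 2
      simp only [dev, mul_add, mul_assoc]
    simp only [h1, Finset.sum_add_distrib]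
    rw [ih (Y * (lit U l.1 l.2.1 * l.2.2))]
    have h2 : ∑ p : Fin (l :: w).length, ctr i U Y (l :: w) p =
        ctr i U Y (l :: w) ⟨0, by simp⟩ +
        ∑ p : Fin w.length, ctr i U (Y * (lit U l.1 l.2.1 * l.2.2)) w p := by
      have : ∑ p : Fin (l :: w).length, ctr i U Y (l :: w) p =
          ∑ p : Fin (w.length + 1), ctr i U Y (l :: w) p := rfl
      rw [this, Fin.sum_univ_succ]
      congr 1
      refine Finset.sum_congr rfl fun p _ => ?_
      unfold ctr
      simp only [Fin.val_succ, List.take_succ_cons, List.drop_succ_cons, ev_cons, mul_assoc]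
      rfl
    rw [h2, mul_add]
    congr 1
    unfold ctr dlit
    simp only [List.get_cons_zero, Fin.mk_zero, List.take_zero, List.drop_zero, ev_nil, mul_one,
      List.drop_succ_cons, zero_add]
    by_cases h : l.1 = i
    · simp only [h, if_true]
      cases he : l.2.1 with
      | true =>
        simp only [if_true]
        have := sum_single1 hN Y ((U i : Mt N) * l.2.2 * ev U w)
        rw [ev_cons, h, he]
        simp only [lit, if_true]
        rw [← this]
        simp only [mul_assoc]
      | false =>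
        simp only [Bool.false_eq_true, if_false]
        have := sum_single1 hN (Y * star (U i : Mt N)) (l.2.2 * ev U w)
        rw [mul_neg, ← this, ← Finset.sum_neg_distrib]
        refine Finset.sum_congr rfl fun a _ => ?_
        rw [← Finset.sum_neg_distrib]
        refine Finset.sum_congr rfl fun b _ => ?_
        have e : Matrix.single b a 1 * (Y * (-(star (U i : Mt N) * Matrix.single a b 1) * l.2.2 *
            ev U w)) = (-1 : ℂ) • (Matrix.single b a 1 * (Y * star (U i : Mt N) *
            Matrix.single a b 1 * (l.2.2 * ev U w))) := by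
          rw [neg_one_smul]
          simp only [neg_mul, mul_neg, mul_assoc]
        rw [e, ntr_smul]
        ring
    · simp only [h, if_false, zero_mul, mul_zero]
      simp [ntr]

theorem wt_cons (l : Lt ι N) (w : List (Lt ι N)) : wt (l :: w) = opn l.2.2 * wt w := by
  simp [wt]

theorem wtR_cons (w : List (Lt ι N)) (R : List (List (Lt ι N))) :
    wtR (w :: R) = wt w * wtR R := by simp [wtR]

theorem lenR_cons (w : List (Lt ι N)) (R : List (List (Lt ι N))) :
    lenR (w :: R) = w.length + lenR R := by simp [lenR]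

theorem opn_lit (U : ι → UN N) (j : ι) (e : Bool) : opn (lit U j e) ≤ 1 := by
  unfold lit
  split_ifs
  · exact opn_unitary _
  · rw [opn_star]; exact opn_unitary _

theorem opn_lit_mul (U : ι → UN N) (j : ι) (e : Bool) (D : Mt N) :
    opn (lit U j e * D) ≤ opn D :=
  (opn_mul _ _).trans ((mul_le_mul_of_nonneg_right (opn_lit U j e) (opn_nonneg _)).trans
    (one_mul _).le)

theorem bound_dev (hN : 0 < N) (i : ι) (U : ι → UN N) (P : Mt N) (w : List (Lt ι N))
    (Y : Mt N) :
    ‖∑ a, ∑ b, ntr (Matrix.single b a 1 * P) * ntr (Y * dev (Matrix.single a b 1) i U w)‖ ≤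
      (N : ℝ)⁻¹ * ((w.length : ℝ) * (opn P * opn Y * wt w)) := by
  induction w generalizing Y with
  | nil =>
    have : ∀ a b : Fin N, ntr (Matrix.single b a 1 * P) *
        ntr (Y * dev (Matrix.single a b 1) i U []) = 0 := by
      intro a b
      simp [dev, ntr]
    simp [this]
  | cons l w ih =>
    have h1 : ∀ a b : Fin N, ntr (Matrix.single b a 1 * P) *
        ntr (Y * dev (Matrix.single a b 1) i U (l :: w)) =
        ntr (Matrix.single b a 1 * P) *
          ntr (Y * (dlit (Matrix.single a b 1) i U l.1 l.2.1 * l.2.2 * ev U w)) +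
        ntr (Matrix.single b a 1 * P) * ntr ((Y * (lit U l.1 l.2.1 * l.2.2)) *
          dev (Matrix.single a b 1) i U w) := by
      intro a b
      rw [← mul_add, ← ntr_add]
      congr 2
      simp only [dev, mul_add, mul_assoc]
    simp only [h1, Finset.sum_add_distrib]
    have hP := opn_nonneg P
    have hY := opn_nonneg Y
    have hD := opn_nonneg l.2.2
    have hw := wt_nonneg w
    have hNi : 0 ≤ (N : ℝ)⁻¹ := by positivity
    have hA : ‖∑ a, ∑ b, ntr (Matrix.single b a 1 * P) *
        ntr (Y * (dlit (Matrix.single a b 1) i U l.1 l.2.1 * l.2.2 * ev U w))‖ ≤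
        (N : ℝ)⁻¹ * (opn P * opn Y * (opn l.2.2 * wt w)) := by
      unfold dlit
      by_cases h : l.1 = i
      · simp only [h, if_true]
        cases he : l.2.1 with
        | true =>
          simp only [if_true]
          have e := sum_single2 hN P Y ((U i : Mt N) * l.2.2 * ev U w)
          have e2 : ∑ a, ∑ b, ntr (Matrix.single b a 1 * P) *
              ntr (Y * (Matrix.single a b 1 * (U i : Mt N) * l.2.2 * ev U w)) =
              (N : ℂ)⁻¹ * ntr (P * ((U i : Mt N) * l.2.2 * ev U w) * Y) := by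
            rw [← e]
            simp only [mul_assoc]
          rw [e2, norm_mul, norm_inv, Complex.norm_natCast]
          refine mul_le_mul_of_nonneg_left ?_ hNi
          refine (norm_ntr_le _).trans ((opn_mul _ _).trans ?_)
          have h3 : opn (P * ((U i : Mt N) * l.2.2 * ev U w)) ≤
              opn P * (opn l.2.2 * wt w) := by
            refine (opn_mul _ _).trans (mul_le_mul_of_nonneg_left ?_ hP)
            refine (opn_mul _ _).trans (mul_le_mul ?_ (opn_ev_le U w) (opn_nonneg _) hD)
            exact (opn_mul _ _).trans ((mul_le_mul_of_nonneg_right (opn_unitary _) hD).trans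
              (one_mul _).le)
          calc _ ≤ opn P * (opn l.2.2 * wt w) * opn Y := mul_le_mul_of_nonneg_right h3 hY
            _ = _ := by ring
        | false =>
          simp only [Bool.false_eq_true, if_false]
          have e := sum_single2 hN P (Y * star (U i : Mt N)) (l.2.2 * ev U w)
          have e2 : ∑ a, ∑ b, ntr (Matrix.single b a 1 * P) *
              ntr (Y * (-(star (U i : Mt N) * Matrix.single a b 1) * l.2.2 * ev U w)) =
              -((N : ℂ)⁻¹ * ntr (P * (l.2.2 * ev U w) * (Y * star (U i : Mt N)))) := by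
            rw [← e, ← Finset.sum_neg_distrib]
            refine Finset.sum_congr rfl fun a _ => ?_
            rw [← Finset.sum_neg_distrib]
            refine Finset.sum_congr rfl fun b _ => ?_
            have e3 : Y * (-(star (U i : Mt N) * Matrix.single a b 1) * l.2.2 * ev U w) =
                (-1 : ℂ) • (Y * star (U i : Mt N) * Matrix.single a b 1 * (l.2.2 * ev U w)) := by
              rw [neg_one_smul]
              simp only [neg_mul, mul_neg, mul_assoc]
            rw [e3, ntr_smul]
            ring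
          rw [e2, norm_neg, norm_mul, norm_inv, Complex.norm_natCast]
          refine mul_le_mul_of_nonneg_left ?_ hNi
          refine (norm_ntr_le _).trans ((opn_mul _ _).trans ?_)
          have h3 : opn (P * (l.2.2 * ev U w)) ≤ opn P * (opn l.2.2 * wt w) := by
            refine (opn_mul _ _).trans (mul_le_mul_of_nonneg_left ?_ hP)
            exact (opn_mul _ _).trans (mul_le_mul_of_nonneg_left (opn_ev_le U w) hD)
          have h4 : opn (Y * star (U i : Mt N)) ≤ opn Y := by
            refine (opn_mul _ _).trans ?_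
            rw [opn_star]
            exact (mul_le_mul_of_nonneg_left (opn_unitary _) hY).trans (mul_one _).le
          calc _ ≤ opn P * (opn l.2.2 * wt w) * opn Y :=
                mul_le_mul h3 h4 (opn_nonneg _) (by positivity)
            _ = _ := by ring
      · have : ∀ a b : Fin N, ntr (Matrix.single b a 1 * P) *
            ntr (Y * ((if l.1 = i then (if l.2.1 = true then Matrix.single a b 1 * (U i : Mt N)
              else -(star (U i : Mt N) * Matrix.single a b 1)) else 0) * l.2.2 * ev U w)) = 0 := by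
          intro a b
          simp [h, ntr]
        simp only [this, Finset.sum_const_zero, norm_zero]
        positivity
    have hB := ih (Y * (lit U l.1 l.2.1 * l.2.2))
    have hYD : opn (Y * (lit U l.1 l.2.1 * l.2.2)) ≤ opn Y * opn l.2.2 :=
      (opn_mul _ _).trans (mul_le_mul_of_nonneg_left (opn_lit_mul U _ _ _) hY)
    refine (norm_add_le _ _).trans ((add_le_add hA hB).trans ?_)
    rw [wt_cons, List.length_cons, ← mul_add]
    refine mul_le_mul_of_nonneg_left ?_ hNi
    have h5 : (w.length : ℝ) * (opn P * opn (Y * (lit U l.1 l.2.1 * l.2.2)) * wt w) ≤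
        (w.length : ℝ) * (opn P * (opn Y * opn l.2.2) * wt w) := by gcongr
    push_cast
    nlinarith [h5]

theorem bound_dTR (hN : 0 < N) (i : ι) (U : ι → UN N) (P : Mt N) (R : List (List (Lt ι N))) :
    ‖∑ a, ∑ b, ntr (Matrix.single b a 1 * P) * dTR (Matrix.single a b 1) i U R‖ ≤
      (N : ℝ)⁻¹ * ((lenR R : ℝ) * (opn P * wtR R)) := by
  induction R with
  | nil => simp [dTR, lenR]
  | cons w R ih =>
    have h1 : ∀ a b : Fin N, ntr (Matrix.single b a 1 * P) *
        dTR (Matrix.single a b 1) i U (w :: R) =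
        TR U R * (ntr (Matrix.single b a 1 * P) * ntr (1 * dev (Matrix.single a b 1) i U w)) +
        T U w * (ntr (Matrix.single b a 1 * P) * dTR (Matrix.single a b 1) i U R) := by
      intro a b
      simp only [dTR, one_mul]
      ring
    simp only [h1, Finset.sum_add_distrib, ← Finset.mul_sum]
    have hA := bound_dev hN i U P w 1
    have hP := opn_nonneg P
    have hw := wt_nonneg w
    have hR := wtR_nonneg R
    have hNi : 0 ≤ (N : ℝ)⁻¹ := by positivity
    have hA2 : (N : ℝ)⁻¹ * ((w.length : ℝ) * (opn P * opn (1 : Mt N) * wt w)) ≤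
        (N : ℝ)⁻¹ * ((w.length : ℝ) * (opn P * wt w)) := by
      have := opn_one (N := N)
      have h3 : opn P * opn (1 : Mt N) ≤ opn P := (mul_le_mul_of_nonneg_left this hP).trans
        (mul_one _).le
      gcongr
    refine (norm_add_le _ _).trans ?_
    rw [norm_mul, norm_mul]
    have h4 : ‖TR U R‖ * ‖∑ a, ∑ b, ntr (Matrix.single b a 1 * P) *
        ntr (1 * dev (Matrix.single a b 1) i U w)‖ ≤
        wtR R * ((N : ℝ)⁻¹ * ((w.length : ℝ) * (opn P * wt w))) :=
      mul_le_mul (norm_TR_le U R) (hA.trans hA2) (norm_nonneg _) hR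
    have h5 : ‖T U w‖ * ‖∑ a, ∑ b, ntr (Matrix.single b a 1 * P) *
        dTR (Matrix.single a b 1) i U R‖ ≤
        wt w * ((N : ℝ)⁻¹ * ((lenR R : ℝ) * (opn P * wtR R))) :=
      mul_le_mul (norm_T_le U w) ih (norm_nonneg _) hw
    refine (add_le_add h4 h5).trans (le_of_eq ?_)
    rw [lenR_cons, wtR_cons]
    push_cast
    ring

/-- the terms of the Schwinger-Dyson equation -/
def sdt (i : ι) (D₁ : Mt N) (rest : List (Lt ι N)) (U : ι → UN N) (p : Fin rest.length) : ℂ :=
  if (rest.get p).1 = i then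
    (if (rest.get p).2.1 = true then T U ((i, true, D₁) :: rest.take p) * T U (rest.drop p)
    else -(ntr (D₁ * ev U (rest.take p)) *
      ntr ((rest.get p).2.2 * ev U (rest.drop (p + 1)))))
  else 0

theorem ctr_succ (i : ι) (D₁ : Mt N) (rest : List (Lt ι N)) (U : ι → UN N)
    (p : Fin rest.length) :
    ctr i U 1 ((i, true, D₁) :: rest) p.succ = sdt i D₁ rest U p := by
  have hg : (((i, true, D₁) :: rest : List (Lt ι N)).get p.succ) = rest.get p := rfl
  have hU : star (U i : Mt N) * (U i : Mt N) = 1 := Unitary.coe_star_mul_self (U i)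
  unfold ctr sdt
  simp only [Fin.val_succ, List.take_succ_cons, List.drop_succ_cons, one_mul]
  rw [hg]
  by_cases h : (rest.get p).1 = i
  · simp only [h, if_true]
    cases he : (rest.get p).2.1 with
    | true => simp only [if_true, T]
    | false =>
      simp only [Bool.false_eq_true, if_false]
      congr 2
      rw [ntr_mul_comm, ev_cons]
      simp only [lit, if_true]
      rw [← mul_assoc, ← mul_assoc, hU, one_mul]
  · simp only [h, if_false]

theorem continuous_sdt (i : ι) (D₁ : Mt N) (rest : List (Lt ι N)) (p : Fin rest.length) :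
    Continuous fun U : ι → UN N => sdt i D₁ rest U p := by
  unfold sdt
  split_ifs
  · exact (continuous_T _).mul (continuous_T _)
  · exact ((continuous_ntr.comp (continuous_const.mul (continuous_ev _))).mul
      (continuous_ntr.comp (continuous_const.mul (continuous_ev _)))).neg
  · exact continuous_const

theorem sd_word_aux [Fintype ι] (hN : 0 < N) (i : ι) (D₁ : Mt N)
    (rest : List (Lt ι N)) (R : List (List (Lt ι N))) :
    ‖∫ U, T U ((i, true, D₁) :: rest) * TR U R ∂(PP ι N)‖ ≤
      (∑ p : Fin rest.length, if (rest.get p).1 = i then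
        (if (rest.get p).2.1 = true then
          ‖∫ U, T U ((i, true, D₁) :: rest.take p) * (T U (rest.drop p) * TR U R) ∂(PP ι N)‖
        else
          ‖∫ U, ntr (D₁ * ev U (rest.take p)) *
            (ntr ((rest.get p).2.2 * ev U (rest.drop (p + 1))) * TR U R) ∂(PP ι N)‖)
        else 0) +
      (lenR R : ℝ) * (wt ((i, true, D₁) :: rest) * wtR R) / (N : ℝ) ^ 2 := by
  have hN' : (N : ℂ) ≠ 0 := by exact_mod_cast hN.ne'
  obtain ⟨w, hw⟩ : ∃ w : List (Lt ι N), w = (i, true, D₁) :: rest := ⟨_, rfl⟩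
  -- the sum of all matrix entry equations
  have h0 : ∫ U, (∑ a, ∑ b, (ntr (Matrix.single b a 1 * dev (Matrix.single a b 1) i U w) *
      TR U R + ntr (Matrix.single b a 1 * ev U w) * dTR (Matrix.single a b 1) i U R))
        ∂(PP ι N) = 0 := by
    rw [integral_finsetSum _ fun a _ => integrable_cont (continuous_finsetSum _ fun b _ =>
      continuous_Phi i (Matrix.single b a 1) w R (Matrix.single a b 1))]
    refine Finset.sum_eq_zero fun a _ => ?_
    rw [integral_finsetSum _ fun b _ => integrable_cont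
      (continuous_Phi i (Matrix.single b a 1) w R (Matrix.single a b 1))]
    exact Finset.sum_eq_zero fun b _ => Phi_single i (Matrix.single b a 1) w R a b
  obtain ⟨S, hS⟩ : ∃ S : (ι → UN N) → ℂ, S = fun U =>
      ∑ a, ∑ b, ntr (Matrix.single b a 1 * ev U w) * dTR (Matrix.single a b 1) i U R :=
    ⟨_, rfl⟩
  have hSc : Continuous S := by
    rw [hS]
    exact continuous_finsetSum _ fun a _ => continuous_finsetSum _ fun b _ =>
      (continuous_ntr.comp (continuous_const.mul (continuous_ev w))).mul (continuous_dTR _ i R)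
  have h1 : ∀ U : ι → UN N, (∑ a, ∑ b, (ntr (Matrix.single b a 1 *
      dev (Matrix.single a b 1) i U w) * TR U R +
        ntr (Matrix.single b a 1 * ev U w) * dTR (Matrix.single a b 1) i U R)) =
      (N : ℂ) * (T U w * TR U R) + ((N : ℂ) * (∑ p : Fin rest.length,
        sdt i D₁ rest U p * TR U R) + S U) := by
    intro U
    have e1 := sum_dev hN i U w 1
    simp only [one_mul] at e1
    have e2 : ∑ p : Fin w.length, ctr i U 1 w p =
        T U w + ∑ p : Fin rest.length, sdt i D₁ rest U p := by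
      subst hw
      have : ∑ p : Fin ((i, true, D₁) :: rest : List (Lt ι N)).length,
          ctr i U 1 ((i, true, D₁) :: rest) p =
          ∑ p : Fin (rest.length + 1), ctr i U 1 ((i, true, D₁) :: rest) p := rfl
      rw [this, Fin.sum_univ_succ]
      congr 1
      · have hg0 : (((i, true, D₁) :: rest : List (Lt ι N)).get
            (0 : Fin (rest.length + 1))) = (i, true, D₁) := rfl
        unfold ctr
        rw [hg0]
        simp only [Fin.val_zero, List.take_zero, List.drop_zero, ev_nil, mul_one, ntr_one hN,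
          one_mul, if_true]
        rfl
      · exact Finset.sum_congr rfl fun p _ => ctr_succ i D₁ rest U p
    simp only [Finset.sum_add_distrib, ← Finset.sum_mul]
    rw [e1, e2, hS]
    ring
  simp only [h1] at h0
  have iT : Integrable (fun U : ι → UN N => T U w * TR U R) (PP ι N) :=
    integrable_cont ((continuous_T w).mul (continuous_TR R))
  have iS : ∀ p : Fin rest.length, Integrable (fun U : ι → UN N => sdt i D₁ rest U p * TR U R)
      (PP ι N) := fun p => integrable_cont ((continuous_sdt i D₁ rest p).mul (continuous_TR R))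
  have iSS : Integrable (fun U : ι → UN N => ∑ p : Fin rest.length,
      sdt i D₁ rest U p * TR U R) (PP ι N) := integrable_finsetSum _ fun p _ => iS p
  have iSc : Integrable S (PP ι N) := integrable_cont hSc
  have h2 : ∫ U, ((N : ℂ) * (T U w * TR U R) + ((N : ℂ) * (∑ p : Fin rest.length,
        sdt i D₁ rest U p * TR U R) + S U)) ∂(PP ι N) =
      (N : ℂ) * ∫ U, T U w * TR U R ∂(PP ι N) + ((N : ℂ) * (∑ p : Fin rest.length,
        ∫ U, sdt i D₁ rest U p * TR U R ∂(PP ι N)) + ∫ U, S U ∂(PP ι N)) := by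
    have a1 : ∫ U, ((N : ℂ) * (T U w * TR U R) + ((N : ℂ) * (∑ p : Fin rest.length,
        sdt i D₁ rest U p * TR U R) + S U)) ∂(PP ι N) =
        ∫ U, (N : ℂ) * (T U w * TR U R) ∂(PP ι N) + ∫ U, ((N : ℂ) * (∑ p : Fin rest.length,
        sdt i D₁ rest U p * TR U R) + S U) ∂(PP ι N) :=
      integral_add (iT.const_mul _) ((iSS.const_mul _).add iSc)
    have a2 : ∫ U, ((N : ℂ) * (∑ p : Fin rest.length,
        sdt i D₁ rest U p * TR U R) + S U) ∂(PP ι N) =
        ∫ U, (N : ℂ) * (∑ p : Fin rest.length,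
        sdt i D₁ rest U p * TR U R) ∂(PP ι N) + ∫ U, S U ∂(PP ι N) :=
      integral_add (iSS.const_mul _) iSc
    rw [a1, a2, integral_const_mul, integral_const_mul, integral_finsetSum _ fun p _ => iS p]
  rw [h2] at h0
  have h3 : ∫ U, T U w * TR U R ∂(PP ι N) = -(∑ p : Fin rest.length,
        ∫ U, sdt i D₁ rest U p * TR U R ∂(PP ι N)) - (N : ℂ)⁻¹ * ∫ U, S U ∂(PP ι N) := by
    have : (N : ℂ) * ∫ U, T U w * TR U R ∂(PP ι N) = (N : ℂ) * (-(∑ p : Fin rest.length,
        ∫ U, sdt i D₁ rest U p * TR U R ∂(PP ι N)) - (N : ℂ)⁻¹ * ∫ U, S U ∂(PP ι N)) := by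
      rw [mul_sub, mul_neg, ← mul_assoc (N : ℂ) (N : ℂ)⁻¹, mul_inv_cancel₀ hN', one_mul]
      linear_combination h0
    exact mul_left_cancel₀ hN' this
  have hSb : ‖∫ U, S U ∂(PP ι N)‖ ≤ (N : ℝ)⁻¹ * ((lenR R : ℝ) * (wt w * wtR R)) := by
    have := norm_integral_le_of_norm_le_const (μ := PP ι N) (f := S)
      (C := (N : ℝ)⁻¹ * ((lenR R : ℝ) * (wt w * wtR R)))
      (Filter.Eventually.of_forall fun U => by
        rw [hS]
        refine (bound_dTR hN i U (ev U w) R).trans ?_
        have := opn_ev_le U w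
        have hR := wtR_nonneg R
        gcongr)
    simpa using this
  have h4 : ∀ p : Fin rest.length, ‖∫ U, sdt i D₁ rest U p * TR U R ∂(PP ι N)‖ =
      if (rest.get p).1 = i then
        (if (rest.get p).2.1 = true then
          ‖∫ U, T U ((i, true, D₁) :: rest.take p) * (T U (rest.drop p) * TR U R) ∂(PP ι N)‖
        else
          ‖∫ U, ntr (D₁ * ev U (rest.take p)) *
            (ntr ((rest.get p).2.2 * ev U (rest.drop (p + 1))) * TR U R) ∂(PP ι N)‖)
        else 0 := by
    intro p
    unfold sdt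
    by_cases h : (rest.get p).1 = i
    · simp only [h, if_true]
      cases he : (rest.get p).2.1 with
      | true =>
        simp only [if_true, mul_assoc]
      | false =>
        simp only [Bool.false_eq_true, if_false, neg_mul, integral_neg, norm_neg, mul_assoc]
    · simp only [h, if_false, zero_mul, integral_zero, norm_zero]
  rw [← hw, h3]
  refine (norm_sub_le _ _).trans ?_
  rw [norm_neg]
  refine add_le_add ?_ ?_
  · refine (norm_sum_le _ _).trans (le_of_eq ?_)
    exact Finset.sum_congr rfl fun p _ => h4 p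
  · rw [norm_mul, norm_inv, Complex.norm_natCast]
    calc (N : ℝ)⁻¹ * ‖∫ U, S U ∂(PP ι N)‖
        ≤ (N : ℝ)⁻¹ * ((N : ℝ)⁻¹ * ((lenR R : ℝ) * (wt w * wtR R))) :=
          mul_le_mul_of_nonneg_left hSb (by positivity)
      _ = (lenR R : ℝ) * (wt w * wtR R) / (N : ℝ) ^ 2 := by
          rw [div_eq_mul_inv, ← inv_pow]
          ring

end gens

end SDaux

open SDaux in
/-- the Schwinger-Dyson inequality for Haar unitaries -/
theorem sd_word {ι : Type} [Fintype ι] [DecidableEq ι] {N : ℕ} (hN : 0 < N) (i : ι) (D₁ : Mt N)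
    (rest : List (Lt ι N)) (R : List (List (Lt ι N))) :
    ‖∫ U, T U ((i, true, D₁) :: rest) * TR U R ∂(PP ι N)‖ ≤
      (∑ p : Fin rest.length, if (rest.get p).1 = i then
        (if (rest.get p).2.1 = true then
          ‖∫ U, T U ((i, true, D₁) :: rest.take p) * (T U (rest.drop p) * TR U R) ∂(PP ι N)‖
        else
          ‖∫ U, ntr (D₁ * ev U (rest.take p)) *
            (ntr ((rest.get p).2.2 * ev U (rest.drop (p + 1))) * TR U R) ∂(PP ι N)‖)
        else 0) +
      (lenR R : ℝ) * (wt ((i, true, D₁) :: rest) * wtR R) / (N : ℝ) ^ 2 :=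
  sd_word_aux hN i D₁ rest R

end Pool.Agent.H710R2.FF
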