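import Mathlib
import Pool.Agent.H710R2.FF.Basic
import Pool.Agent.H710R2.FF.Sd

set_option autoImplicit false
set_option linter.unusedSectionVars false

open MeasureTheory
open scoped ComplexConjugate InnerProductSpace

noncomputable section

namespace Pool.Agent.H710R2.FF

namespace MAS

variable {ι : Type} {N : ℕ}

/-- multiply the last matrix of a word by `D` -/
def mulLast (D : Mt N) : List (Lt ι N) → List (Lt ι N)
  | [] => []
  | [l] => [(l.1, l.2.1, l.2.2 * D)]
  | l :: l' :: w => l :: mulLast D (l' :: w)

theorem ev_cons (U : ι → UN N) (l : Lt ι N) (w : List (Lt ι N)) :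
    ev U (l :: w) = lit U l.1 l.2.1 * l.2.2 * ev U w := by
  simp [ev]

theorem ev_nil (U : ι → UN N) : ev U ([] : List (Lt ι N)) = 1 := by simp [ev]

theorem wt_cons (l : Lt ι N) (w : List (Lt ι N)) : wt (l :: w) = opn l.2.2 * wt w := by
  simp [wt]

theorem wt_nil : wt ([] : List (Lt ι N)) = 1 := by simp [wt]

theorem wt_app (w w' : List (Lt ι N)) : wt (w ++ w') = wt w * wt w' := by
  simp [wt]

theorem wtR_cons (w : List (Lt ι N)) (R : List (List (Lt ι N))) :
    wtR (w :: R) = wt w * wtR R := by simp [wtR]

theorem lenR_cons (w : List (Lt ι N)) (R : List (List (Lt ι N))) :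
    lenR (w :: R) = w.length + lenR R := by simp [lenR]

theorem TR_cons (U : ι → UN N) (w : List (Lt ι N)) (R : List (List (Lt ι N))) :
    TR U (w :: R) = T U w * TR U R := by simp [TR]

theorem mulLast_length (D : Mt N) : ∀ w : List (Lt ι N), (mulLast D w).length = w.length
  | [] => rfl
  | [_] => rfl
  | l :: l' :: w => by
    have := mulLast_length D (l' :: w)
    simp only [mulLast, List.length_cons] at this ⊢
    rw [this]

theorem mulLast_ne (D : Mt N) (w : List (Lt ι N)) (hw : w ≠ []) : mulLast D w ≠ [] := by
  intro h
  have h1 := mulLast_length D w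
  rw [h] at h1
  exact hw (List.length_eq_zero_iff.1 h1.symm)

theorem mulLast_ev (U : ι → UN N) (D : Mt N) :
    ∀ w : List (Lt ι N), w ≠ [] → ev U (mulLast D w) = ev U w * D
  | [], h => absurd rfl h
  | [l], _ => by
    simp [mulLast, ev, mul_assoc]
  | l :: l' :: w, _ => by
    have := mulLast_ev U D (l' :: w) (by simp)
    simp only [mulLast]
    rw [ev_cons, this, ev_cons U l (l' :: w), mul_assoc _ (ev U (l' :: w)) D]

theorem mulLast_wt (D : Mt N) :
    ∀ w : List (Lt ι N), w ≠ [] → wt (mulLast D w) ≤ wt w * opn D
  | [], h => absurd rfl h
  | [l], _ => by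
    simp only [mulLast]
    rw [wt_cons, wt_cons, wt_nil, mul_one, mul_one]
    exact opn_mul _ _
  | l :: l' :: w, _ => by
    have := mulLast_wt D (l' :: w) (by simp)
    simp only [mulLast]
    rw [wt_cons, wt_cons l (l' :: w), mul_assoc]
    exact mul_le_mul_of_nonneg_left this (opn_nonneg _)

theorem mulLast_good (D : Mt N) : ∀ w : List (Lt ι N), Good w → Good (mulLast D w)
  | [], h => h
  | [l], _ => by
    simp only [mulLast, Good]
    exact List.isChain_singleton _
  | [l, l'], h => by
    simp only [mulLast, Good] at h ⊢
    rw [List.isChain_cons_cons] at h ⊢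
    exact ⟨h.1, List.isChain_singleton _⟩
  | l :: l' :: l'' :: w, h => by
    have h1 : Good (l' :: l'' :: w) := by
      unfold Good at h ⊢
      rw [List.isChain_cons_cons] at h
      exact h.2
    have h2 := mulLast_good D (l' :: l'' :: w) h1
    simp only [mulLast, Good] at h h2 ⊢
    rw [List.isChain_cons_cons] at h ⊢
    exact ⟨h.1, h2⟩

/-- flip the sign of the letters with index `i` -/
def flp [DecidableEq ι] (i : ι) (l : Lt ι N) : Lt ι N :=
  (l.1, if l.1 = i then !l.2.1 else l.2.1, l.2.2)

theorem flp_good [DecidableEq ι] (i : ι) (w : List (Lt ι N)) (h : Good w) :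
    Good (w.map (flp i)) := by
  unfold Good at h ⊢
  rw [List.isChain_map]
  refine h.imp ?_
  intro l l' hll h1 h2
  apply hll h1
  intro h3
  apply h2
  simp only [flp] at h1 ⊢
  rw [h1, h3]

theorem flp_wt [DecidableEq ι] (i : ι) (w : List (Lt ι N)) : wt (w.map (flp i)) = wt w := by
  unfold wt
  rw [List.map_map]
  rfl

theorem flp_wtR [DecidableEq ι] (i : ι) (R : List (List (Lt ι N))) :
    wtR (R.map (List.map (flp i))) = wtR R := by
  unfold wtR
  rw [List.map_map]
  congr 1
  apply List.map_congr_left
  intro w _
  exact flp_wt i w

theorem flp_lenR [DecidableEq ι] (i : ι) (R : List (List (Lt ι N))) :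
    lenR (R.map (List.map (flp i))) = lenR R := by
  unfold lenR
  rw [List.map_map]
  congr 1
  apply List.map_congr_left
  intro w _
  simp

/-- inversion of the coordinate `i` -/
def inv1 [DecidableEq ι] (i : ι) (U : ι → UN N) : ι → UN N := fun j =>
  (if j = i then fun x : UN N => x⁻¹ else fun x => x) (U j)

theorem lit_inv1 [DecidableEq ι] (i : ι) (U : ι → UN N) (j : ι) (e : Bool) :
    lit (inv1 i U) j e = lit U j (if j = i then !e else e) := by
  unfold lit inv1
  by_cases h : j = i
  · rw [if_pos h, if_pos h]
    cases e
    · simp
    · simp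
  · rw [if_neg h, if_neg h]

theorem ev_inv1 [DecidableEq ι] (i : ι) (U : ι → UN N) (w : List (Lt ι N)) :
    ev (inv1 i U) w = ev U (w.map (flp i)) := by
  unfold ev
  rw [List.map_map]
  congr 1
  apply List.map_congr_left
  intro l _
  simp only [Function.comp, flp]
  rw [lit_inv1]

theorem T_inv1 [DecidableEq ι] (i : ι) (U : ι → UN N) (w : List (Lt ι N)) :
    T (inv1 i U) w = T U (w.map (flp i)) := by
  unfold T
  rw [ev_inv1]

theorem TR_inv1 [DecidableEq ι] (i : ι) (U : ι → UN N) (R : List (List (Lt ι N))) :
    TR (inv1 i U) R = TR U (R.map (List.map (flp i))) := by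
  unfold TR
  rw [List.map_map]
  congr 1
  apply List.map_congr_left
  intro w _
  exact T_inv1 i U w

theorem mp_inv1 [Fintype ι] [DecidableEq ι] (i : ι) :
    MeasurePreserving (inv1 (N := N) i) (PP ι N) (PP ι N) := by
  apply measurePreserving_pi (fun _ : ι => mu N) (fun _ : ι => mu N)
    (f := fun j => if j = i then fun x : UN N => x⁻¹ else fun x => x)
  intro j
  by_cases h : j = i
  · simp only [if_pos h]
    exact Measure.measurePreserving_inv (mu N)
  · simp only [if_neg h]
    exact MeasurePreserving.id (mu N)

theorem int_inv1 [Fintype ι] [DecidableEq ι] (i : ι) (F : (ι → UN N) → ℂ) (hF : Continuous F) :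
    ∫ U, F U ∂(PP ι N) = ∫ U, F (inv1 i U) ∂(PP ι N) := by
  have h1 := mp_inv1 (N := N) i
  conv_lhs => rw [← h1.map_eq]
  rw [integral_map h1.aemeasurable]
  rw [h1.map_eq]
  exact (integrable_cont hF).aestronglyMeasurable

end MAS

open MAS

theorem master (ι : Type) [Fintype ι] [DecidableEq ι] (L r : ℕ) : ∃ C : ℝ, 0 ≤ C ∧
    ∀ N : ℕ, 0 < N → ∀ (w : List (Lt ι N)) (R : List (List (Lt ι N))), w ≠ [] → w.length ≤ L →
      lenR R ≤ r → Good w →
      ‖∫ U, T U w * TR U R ∂(PP ι N)‖ ≤ C * (wt w * wtR R) / (N : ℝ) ^ 2 := by
  induction L generalizing r with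
  | zero =>
    refine ⟨0, le_rfl, fun N _ w R hw hl => ?_⟩
    exact absurd (List.length_eq_zero_iff.1 (by omega)) hw
  | succ L ih =>
    obtain ⟨C1, hC1, h1⟩ := ih (r + L)
    refine ⟨L * C1 + r, by positivity, ?_⟩
    intro N hN
    have hN2 : (0 : ℝ) < (N : ℝ) ^ 2 := by positivity
    -- the case of a positive first letter
    have main : ∀ (i : ι) (D₁ : Mt N) (rest : List (Lt ι N)) (R : List (List (Lt ι N))),
        rest.length ≤ L → lenR R ≤ r → Good ((i, true, D₁) :: rest) →
        ‖∫ U, T U ((i, true, D₁) :: rest) * TR U R ∂(PP ι N)‖ ≤
          (L * C1 + r) * (wt ((i, true, D₁) :: rest) * wtR R) / (N : ℝ) ^ 2 := by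
      intro i D₁ rest R hL hR hG
      refine (sd_word hN i D₁ rest R).trans ?_
      set W := wt ((i, true, D₁) :: rest) * wtR R with hW
      have hW0 : 0 ≤ W := mul_nonneg (wt_nonneg _) (wtR_nonneg _)
      set K := C1 * W / (N : ℝ) ^ 2 with hK
      have hK0 : 0 ≤ K := by positivity
      have hterm : ∀ p : Fin rest.length, (if (rest.get p).1 = i then
        (if (rest.get p).2.1 = true then
          ‖∫ U, T U ((i, true, D₁) :: rest.take p) * (T U (rest.drop p) * TR U R) ∂(PP ι N)‖
        else
          ‖∫ U, ntr (D₁ * ev U (rest.take p)) *
            (ntr ((rest.get p).2.2 * ev U (rest.drop (p + 1))) * TR U R) ∂(PP ι N)‖)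
        else 0) ≤ K := by
        rintro ⟨p, hp⟩
        simp only [List.get_eq_getElem]
        have hdrop : rest.drop p = rest[p] :: rest.drop (p + 1) := List.drop_eq_getElem_cons hp
        have hsplit : wt rest = wt (rest.take p) * (opn rest[p].2.2 * wt (rest.drop (p + 1))) := by
          conv_lhs => rw [← List.take_append_drop p rest]
          rw [wt_app, hdrop, wt_cons]
        split_ifs with hi he
        · -- positive letter
          have hg : Good ((i, true, D₁) :: rest.take p) := by
            have := List.IsChain.take hG (p + 1)
            rwa [List.take_succ_cons] at this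
          have h2 := h1 N hN ((i, true, D₁) :: rest.take p) (rest.drop p :: R) (by simp)
            (by rw [List.length_cons, List.length_take]; omega)
            (by rw [lenR_cons, List.length_drop]; omega) hg
          simp only [TR_cons] at h2
          refine h2.trans (le_of_eq ?_)
          rw [hK, hW, wtR_cons, wt_cons, wt_cons]
          have h3 : wt rest = wt (rest.take p) * wt (rest.drop p) := by
            conv_lhs => rw [← List.take_append_drop p rest]
            rw [wt_app]
          rw [h3]
          ring
        · -- negative letter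
          have he' : rest[p].2.1 = false := by simpa using he
          rcases Nat.eq_zero_or_pos p with hp0 | hp0
          · subst hp0
            have hD : ntr D₁ = 0 := by
              cases rest with
              | nil => simp at hp
              | cons l rest' =>
                unfold Good at hG
                rw [List.isChain_cons_cons] at hG
                simp only [List.getElem_cons_zero] at hi he'
                exact hG.1 hi.symm (by simp [he'])
            have hz : ∀ U : ι → UN N, ntr (D₁ * ev U (rest.take 0)) *
                (ntr (rest[0].2.2 * ev U (rest.drop (0 + 1))) * TR U R) = 0 := by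
              intro U
              rw [List.take_zero, ev_nil, mul_one, hD, zero_mul]
            simp only [hz, integral_zero, norm_zero]
            exact hK0
          · set u := rest.take p with hu
            set v := rest.drop (p + 1) with hv
            set Dp := rest[p].2.2 with hDp
            have hune : u ≠ [] := by
              intro h
              have h2 := congrArg List.length h
              rw [hu, List.length_take, List.length_nil] at h2
              omega
            have hug : Good u := by
              have h2 : Good rest := List.IsChain.tail hG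
              exact List.IsChain.take h2 p
            have hul : u.length ≤ L := by
              rw [hu, List.length_take]; omega
            have hWe : W = opn D₁ * (wt u * (opn Dp * wt v)) * wtR R := by
              rw [hW, wt_cons, hsplit]
            have e1 : ∀ U : ι → UN N, ntr (D₁ * ev U u) = T U (mulLast D₁ u) := by
              intro U
              unfold T
              rw [mulLast_ev U D₁ u hune, ntr_mul_comm]
            have hwt1 := mulLast_wt D₁ u hune
            have n1 := opn_nonneg D₁
            have n2 := opn_nonneg Dp
            have n3 := wt_nonneg u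
            have n4 := wt_nonneg v
            have n5 := wtR_nonneg R
            have n6 := wt_nonneg (mulLast D₁ u)
            by_cases hvne : v = []
            · have h2 := h1 N hN (mulLast D₁ u) R (mulLast_ne _ _ hune)
                (by rw [mulLast_length]; exact hul) (by omega) (mulLast_good _ _ hug)
              have e2 : ∀ U : ι → UN N, ntr (D₁ * ev U u) * (ntr (Dp * ev U v) * TR U R) =
                  ntr Dp * (T U (mulLast D₁ u) * TR U R) := by
                intro U
                rw [e1, hvne, ev_nil, mul_one]
                ring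
              simp only [e2]
              rw [integral_const_mul, norm_mul, hK, hWe, hvne, wt_nil]
              calc ‖ntr Dp‖ * ‖∫ U, T U (mulLast D₁ u) * TR U R ∂(PP ι N)‖ ≤
                  opn Dp * (C1 * (wt (mulLast D₁ u) * wtR R) / (N : ℝ) ^ 2) :=
                    mul_le_mul (norm_ntr_le _) h2 (norm_nonneg _) n2
                _ ≤ opn Dp * (C1 * ((wt u * opn D₁) * wtR R) / (N : ℝ) ^ 2) := by gcongr
                _ = C1 * (opn D₁ * (wt u * (opn Dp * 1)) * wtR R) / (N : ℝ) ^ 2 := by ring
            · have h2 := h1 N hN (mulLast D₁ u) (mulLast Dp v :: R) (mulLast_ne _ _ hune)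
                (by rw [mulLast_length]; exact hul)
                (by rw [lenR_cons, mulLast_length, hv, List.length_drop]; omega)
                (mulLast_good _ _ hug)
              have e2 : ∀ U : ι → UN N, ntr (D₁ * ev U u) * (ntr (Dp * ev U v) * TR U R) =
                  T U (mulLast D₁ u) * TR U (mulLast Dp v :: R) := by
                intro U
                rw [e1, TR_cons]
                congr 2
                unfold T
                rw [mulLast_ev U Dp v hvne, ntr_mul_comm]
              simp only [e2]
              refine h2.trans ?_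
              have hwt2 := mulLast_wt Dp v hvne
              have n7 := wt_nonneg (mulLast Dp v)
              rw [hK, hWe, wtR_cons]
              calc C1 * (wt (mulLast D₁ u) * (wt (mulLast Dp v) * wtR R)) / (N : ℝ) ^ 2 ≤
                  C1 * ((wt u * opn D₁) * ((wt v * opn Dp) * wtR R)) / (N : ℝ) ^ 2 := by gcongr
                _ = C1 * (opn D₁ * (wt u * (opn Dp * wt v)) * wtR R) / (N : ℝ) ^ 2 := by ring
        · exact hK0
      have hsum := Finset.sum_le_sum (s := Finset.univ) (fun p _ => hterm p)
      have hcard : ∑ _p : Fin rest.length, K ≤ L * K := by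
        rw [Finset.sum_const, Finset.card_univ, Fintype.card_fin, nsmul_eq_mul]
        have : (rest.length : ℝ) ≤ L := by exact_mod_cast hL
        exact mul_le_mul_of_nonneg_right this hK0
      have hlast : (lenR R : ℝ) * W / (N : ℝ) ^ 2 ≤ r * W / (N : ℝ) ^ 2 := by
        have : (lenR R : ℝ) ≤ r := by exact_mod_cast hR
        gcongr
      calc _ ≤ L * K + r * W / (N : ℝ) ^ 2 := add_le_add (hsum.trans hcard) hlast
        _ = (L * C1 + r) * W / (N : ℝ) ^ 2 := by rw [hK]; ring
    -- general case
    intro w R hw hl hR hG
    obtain ⟨⟨i, e, D₁⟩, rest, rfl⟩ := List.exists_cons_of_ne_nil hw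
    rw [List.length_cons] at hl
    cases e with
    | true => exact main i D₁ rest R (by omega) hR hG
    | false =>
      rw [int_inv1 i (fun U : ι → UN N => T U ((i, false, D₁) :: rest) * TR U R)
        ((continuous_T _).mul (continuous_TR _))]
      simp only [T_inv1, TR_inv1]
      have hm : List.map (flp i) ((i, false, D₁) :: rest) =
          (i, true, D₁) :: rest.map (flp i) := by
        simp [flp]
      have hG' := flp_good i _ hG
      rw [hm] at hG' ⊢
      have h3 := main i D₁ (rest.map (flp i)) (R.map (List.map (flp i)))
        (by rw [List.length_map]; omega) (by rw [flp_lenR]; exact hR) hG'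
      rw [← hm, flp_wt, flp_wtR, hm] at h3
      exact h3

end Pool.Agent.H710R2.FF
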