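import Mathlib
import Pool.Agent.H710R2.FF.Defs2
import Pool.Agent.H710R2.FF.Basic
import Pool.Agent.H710R2.FF.Master

set_option autoImplicit false
set_option linter.unusedSectionVars false

open MeasureTheory
open scoped ComplexConjugate InnerProductSpace

noncomputable section

namespace Pool.Agent.H710R2.FF

/-! ### MIX2: centred mixed words -/

section MIX2

variable {m n N : ℕ}

/-- `D_i` or its adjoint, centred -/
def mx_D0 (D : Fin n → UN N) (i : Fin n) (e : Bool) : Mt N :=
  (if e then (D i : Mt N) else star (D i : Mt N)) - nph D i e • (1 : Mt N)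

theorem mx_opn_De (D : Fin n → UN N) (i : Fin n) (e : Bool) :
    opn (if e then (D i : Mt N) else star (D i : Mt N)) ≤ 1 := by
  cases e
  · simp only [Bool.false_eq_true, if_false]
    rw [opn_star]; exact opn_unitary _
  · simp only [if_true]
    exact opn_unitary _

theorem mx_ntr_De (D : Fin n → UN N) (i : Fin n) (e : Bool) :
    ntr (if e then (D i : Mt N) else star (D i : Mt N)) = nph D i e := by
  cases e
  · simp only [Bool.false_eq_true, if_false, nph]
    rw [ntr_star]
  · simp only [if_true, nph]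

theorem mx_ntr_D0 (hN : 0 < N) (D : Fin n → UN N) (i : Fin n) (e : Bool) :
    ntr (mx_D0 D i e) = 0 := by
  unfold mx_D0
  rw [ntr_sub, mx_ntr_De, ntr_smul, ntr_one hN, mul_one, sub_self]

theorem mx_opn_D0 (D : Fin n → UN N) (i : Fin n) (e : Bool) :
    opn (mx_D0 D i e) ≤ 2 := by
  unfold mx_D0
  refine (opn_sub _ _).trans ?_
  have h1 := mx_opn_De D i e
  have h2 : ‖nph D i e‖ ≤ 1 := by
    rw [← mx_ntr_De]
    exact (norm_ntr_le _).trans h1
  rw [opn_smul]
  have h3 : ‖nph D i e‖ * opn (1 : Mt N) ≤ 1 * 1 :=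
    mul_le_mul h2 opn_one (opn_nonneg _) zero_le_one
  linarith

/-- letters of an element of the free group -/
def mx_let (N : ℕ) (g : FreeGroup (Fin m)) : List (Lt (Fin m ⊕ Fin n) N) :=
  g.toWord.map fun x => (Sum.inl x.1, x.2, (1 : Mt N))

/-- the word belonging to a list of group elements and noises -/
def mx_wd (D : Fin n → UN N) (last : FreeGroup (Fin m)) :
    List (FreeGroup (Fin m) × Fin n × Bool) → List (Lt (Fin m ⊕ Fin n) N)
  | [] => mx_let N last
  | x :: l => mx_let N x.1 ++ ((Sum.inr x.2.1, true, mx_D0 D x.2.1 x.2.2) ::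
      (Sum.inr x.2.1, false, (1 : Mt N)) :: mx_wd D last l)

/-- the list of group elements as a list of algebra elements -/
def mx_of (l : List (FreeGroup (Fin m) × Fin n × Bool)) : List (FA m × Fin n × Bool) :=
  l.map fun x => (MonoidAlgebra.of ℂ _ x.1, x.2)

theorem mx_evV_of (V : Fin m → UN N) (g : FreeGroup (Fin m)) :
    evV V (MonoidAlgebra.of ℂ _ g) = ((FreeGroup.lift V g : UN N) : Mt N) := by
  unfold evV
  rw [MonoidAlgebra.lift_of]
  rfl

theorem mx_ev_let (U : Fin m ⊕ Fin n → UN N) (g : FreeGroup (Fin m)) :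
    ev U (mx_let N g) = evV (Vp U) (MonoidAlgebra.of ℂ _ g) := by
  rw [mx_evV_of]
  conv_rhs => rw [← FreeGroup.mk_toWord (x := g)]
  rw [FreeGroup.lift_mk]
  unfold mx_let ev
  generalize g.toWord = L
  induction L with
  | nil => simp
  | cons x L ih =>
    rw [List.map_cons, List.map_cons, List.prod_cons, ih, List.map_cons, List.prod_cons]
    rw [Submonoid.coe_mul]
    congr 1
    rw [mul_one]
    unfold lit
    rcases x with ⟨j, e⟩
    cases e
    · simp only [Bool.false_eq_true, if_false, cond_false]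
      rfl
    · simp only [if_true, cond_true]
      rfl

theorem mx_cnoise (D : Fin n → UN N) (U : Fin m ⊕ Fin n → UN N) (i : Fin n) (e : Bool) :
    lit U (Sum.inr i) true * mx_D0 D i e * (lit U (Sum.inr i) false * 1) = cnoise D U i e := by
  unfold cnoise noise mx_D0 lit
  simp only [if_true, Bool.false_eq_true, if_false, mul_one]
  rw [mul_sub, sub_mul]
  congr 1
  rw [mul_smul_comm, mul_one, smul_mul_assoc]
  congr 1
  exact (U (Sum.inr i)).2.2

theorem mx_ev_wd (D : Fin n → UN N) (U : Fin m ⊕ Fin n → UN N) (last : FreeGroup (Fin m))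
    (l : List (FreeGroup (Fin m) × Fin n × Bool)) :
    ev U (mx_wd D last l) = evI D U (mx_of l) * evV (Vp U) (MonoidAlgebra.of ℂ _ last) := by
  induction l with
  | nil =>
    show ev U (mx_let N last) = _
    rw [mx_ev_let]
    simp [evI, mx_of]
  | cons x l ih =>
    show ev U (mx_let N x.1 ++ ((Sum.inr x.2.1, true, mx_D0 D x.2.1 x.2.2) ::
      (Sum.inr x.2.1, false, (1 : Mt N)) :: mx_wd D last l)) = _
    rw [ev_append, mx_ev_let]
    have h1 : ev U ((Sum.inr x.2.1, true, mx_D0 D x.2.1 x.2.2) ::
      (Sum.inr x.2.1, false, (1 : Mt N)) :: mx_wd D last l) =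
        cnoise D U x.2.1 x.2.2 * ev U (mx_wd D last l) := by
      rw [← mx_cnoise]
      unfold ev
      simp only [List.map_cons, List.prod_cons, mul_assoc]
    rw [h1, ih]
    unfold evI mx_of
    simp only [List.map_cons, List.prod_cons, mul_assoc]

theorem mx_len (D : Fin n → UN N) (last : FreeGroup (Fin m))
    (l : List (FreeGroup (Fin m) × Fin n × Bool)) :
    (mx_wd D last l).length = (l.map fun x => x.1.toWord.length + 2).sum + last.toWord.length := by
  induction l with
  | nil =>
    show (mx_let N last).length = _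
    simp [mx_let]
  | cons x l ih =>
    show (mx_let N x.1 ++ ((Sum.inr x.2.1, true, mx_D0 D x.2.1 x.2.2) ::
      (Sum.inr x.2.1, false, (1 : Mt N)) :: mx_wd D last l)).length = _
    rw [List.length_append, List.length_cons, List.length_cons, ih]
    simp only [mx_let, List.length_map, List.map_cons, List.sum_cons]
    omega

theorem mx_wt_append {ι : Type} (w w' : List (Lt ι N)) : wt (w ++ w') = wt w * wt w' := by
  unfold wt
  rw [List.map_append, List.prod_append]

theorem mx_wt_let (g : FreeGroup (Fin m)) : wt (mx_let (n := n) N g) ≤ 1 := by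
  unfold wt mx_let
  generalize g.toWord = L
  induction L with
  | nil => simp
  | cons x L ih =>
    rw [List.map_cons, List.map_cons, List.prod_cons]
    refine mul_le_one₀ opn_one ?_ ih
    apply List.prod_nonneg
    intro a ha
    simp only [List.map_map, List.mem_map, Function.comp] at ha
    obtain ⟨y, _, rfl⟩ := ha
    exact opn_nonneg _

theorem mx_wt_wd (D : Fin n → UN N) (last : FreeGroup (Fin m))
    (l : List (FreeGroup (Fin m) × Fin n × Bool)) :
    wt (mx_wd D last l) ≤ 2 ^ l.length := by
  induction l with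
  | nil =>
    show wt (mx_let N last) ≤ _
    simpa using mx_wt_let (n := n) (N := N) last
  | cons x l ih =>
    show wt (mx_let N x.1 ++ ((Sum.inr x.2.1, true, mx_D0 D x.2.1 x.2.2) ::
      (Sum.inr x.2.1, false, (1 : Mt N)) :: mx_wd D last l)) ≤ _
    rw [mx_wt_append]
    have h1 : wt ((Sum.inr x.2.1, true, mx_D0 D x.2.1 x.2.2) ::
      (Sum.inr x.2.1, false, (1 : Mt N)) :: mx_wd D last l) =
        opn (mx_D0 D x.2.1 x.2.2) * (opn (1 : Mt N) * wt (mx_wd D last l)) := by
      unfold wt
      simp only [List.map_cons, List.prod_cons]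
    rw [h1, List.length_cons, pow_succ]
    have h2 : opn (1 : Mt N) * wt (mx_wd D last l) ≤ 1 * 2 ^ l.length :=
      mul_le_mul opn_one ih (wt_nonneg _) zero_le_one
    have h3 : opn (mx_D0 D x.2.1 x.2.2) * (opn (1 : Mt N) * wt (mx_wd D last l)) ≤
        2 * (1 * 2 ^ l.length) :=
      mul_le_mul (mx_opn_D0 _ _ _) h2 (mul_nonneg (opn_nonneg _) (wt_nonneg _)) zero_le_two
    have h4 : wt (mx_let (n := n) N x.1) * (opn (mx_D0 D x.2.1 x.2.2) *
        (opn (1 : Mt N) * wt (mx_wd D last l))) ≤ 1 * (2 * (1 * 2 ^ l.length)) :=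
      mul_le_mul (mx_wt_let _) h3 (mul_nonneg (opn_nonneg _)
        (mul_nonneg (opn_nonneg _) (wt_nonneg _))) zero_le_one
    linarith

/-- relation between consecutive letters in the definition of `Good` -/
def mx_R {ι : Type} {N : ℕ} (l l' : Lt ι N) : Prop :=
  l.1 = l'.1 → l.2.1 ≠ l'.2.1 → ntr l.2.2 = 0

theorem mx_good_let (g : FreeGroup (Fin m)) :
    (mx_let (n := n) N g).IsChain mx_R := by
  unfold mx_let
  rw [List.isChain_map]
  have h : FreeGroup.IsReduced g.toWord := FreeGroup.isReduced_toWord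
  refine List.IsChain.imp ?_ h
  intro a b hab h1 h2
  exact absurd (hab (Sum.inl_injective h1)) h2

theorem mx_good (hN : 0 < N) (D : Fin n → UN N) (last : FreeGroup (Fin m))
    (l : List (FreeGroup (Fin m) × Fin n × Bool))
    (hch : l.IsChain fun x y => x.2.1 = y.2.1 → y.1 ≠ 1) :
    (mx_wd D last l).IsChain mx_R := by
  induction l with
  | nil => exact mx_good_let last
  | cons x l ih =>
    have hch' := List.isChain_cons.1 hch
    show (mx_let N x.1 ++ ((Sum.inr x.2.1, true, mx_D0 D x.2.1 x.2.2) ::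
      (Sum.inr x.2.1, false, (1 : Mt N)) :: mx_wd D last l)).IsChain mx_R
    rw [List.isChain_append]
    refine ⟨mx_good_let _, ?_, ?_⟩
    · rw [List.isChain_cons_cons]
      refine ⟨fun _ _ => mx_ntr_D0 hN D _ _, ?_⟩
      rw [List.isChain_cons]
      refine ⟨?_, ih hch'.2⟩
      intro y hy h1 _
      exfalso
      -- the head of the rest is not `inr x.2.1`
      cases l with
      | nil =>
        have hy' : y ∈ (mx_let (n := n) N last).head? := hy
        have hy2 := List.mem_of_mem_head? hy'
        unfold mx_let at hy2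
        rw [List.mem_map] at hy2
        obtain ⟨z, _, rfl⟩ := hy2
        simp at h1
      | cons z l =>
        have hy' : y ∈ (mx_let N z.1 ++ ((Sum.inr z.2.1, true, mx_D0 D z.2.1 z.2.2) ::
          (Sum.inr z.2.1, false, (1 : Mt N)) :: mx_wd D last l)).head? := hy
        rcases hz : mx_let (n := n) N z.1 with _ | ⟨a, L⟩
        · rw [hz] at hy'
          simp only [List.nil_append, List.head?_cons, Option.mem_def, Option.some.injEq] at hy'
          have hz1 : z.1 = 1 := by
            unfold mx_let at hz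
            rw [List.map_eq_nil_iff] at hz
            exact FreeGroup.toWord_eq_nil_iff.1 hz
          have h2 : x.2.1 = z.2.1 := by
            rw [← hy'] at h1
            exact Sum.inr_injective h1
          exact hch'.1 z (by simp) h2 hz1
        · rw [hz] at hy'
          simp only [List.cons_append, List.head?_cons, Option.mem_def, Option.some.injEq] at hy'
          have ha : a ∈ mx_let (n := n) N z.1 := by rw [hz]; exact List.mem_cons_self
          unfold mx_let at ha
          rw [List.mem_map] at ha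
          obtain ⟨v, _, hv⟩ := ha
          rw [← hy', ← hv] at h1
          simp at h1
    · intro a ha b hb h1 _
      exfalso
      have ha' := List.mem_of_mem_getLast? ha
      unfold mx_let at ha'
      rw [List.mem_map] at ha'
      obtain ⟨v, _, rfl⟩ := ha'
      simp only [List.head?_cons, Option.mem_def, Option.some.injEq] at hb
      rw [← hb] at h1
      simp at h1

theorem mx_base (l : List (FreeGroup (Fin m) × Fin n × Bool)) (hne : l ≠ [])
    (hch : l.IsChain fun x y => x.2.1 = y.2.1 → y.1 ≠ 1) (last : FreeGroup (Fin m)) :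
    ∃ C : ℝ, 0 ≤ C ∧ ∀ N : ℕ, 0 < N → ∀ D : Fin n → UN N,
      ‖∫ U, ntr (evI D U (mx_of l) * evV (Vp U) (MonoidAlgebra.of ℂ _ last))
        ∂(PP (Fin m ⊕ Fin n) N)‖ ≤ C / N := by
  obtain ⟨C, hC, h⟩ := master (Fin m ⊕ Fin n)
    ((l.map fun x => x.1.toWord.length + 2).sum + last.toWord.length) 0
  refine ⟨C * 2 ^ l.length, by positivity, ?_⟩
  intro N hN D
  have hw : mx_wd D last l ≠ [] := by
    cases l with
    | nil => exact absurd rfl hne
    | cons x l =>
      show mx_let N x.1 ++ ((Sum.inr x.2.1, true, mx_D0 D x.2.1 x.2.2) ::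
        (Sum.inr x.2.1, false, (1 : Mt N)) :: mx_wd D last l) ≠ []
      simp
  have h1 := h N hN (mx_wd D last l) [] hw (mx_len D last l).le (by simp [lenR])
    (mx_good hN D last l hch)
  have h2 : ∀ U : Fin m ⊕ Fin n → UN N, T U (mx_wd D last l) * TR U [] =
      ntr (evI D U (mx_of l) * evV (Vp U) (MonoidAlgebra.of ℂ _ last)) := by
    intro U
    unfold T TR
    rw [mx_ev_wd]
    simp
  simp only [h2] at h1
  refine h1.trans ?_
  have h3 : wtR ([] : List (List (Lt (Fin m ⊕ Fin n) N))) = 1 := by simp [wtR]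
  rw [h3, mul_one]
  have hN1 : (1 : ℝ) ≤ N := by exact_mod_cast hN
  have h4 : C * wt (mx_wd D last l) ≤ C * 2 ^ l.length :=
    mul_le_mul_of_nonneg_left (mx_wt_wd D last l) hC
  have h5 : (N : ℝ) ≤ (N : ℝ) ^ 2 := by nlinarith
  calc C * wt (mx_wd D last l) / (N : ℝ) ^ 2 ≤ C * 2 ^ l.length / (N : ℝ) ^ 2 := by
        gcongr
    _ ≤ C * 2 ^ l.length / (N : ℝ) := by
        gcongr

theorem mx_cont_evV (b : FA m) :
    Continuous fun U : Fin m ⊕ Fin n → UN N => evV (Vp U) b := by
  induction b using MonoidAlgebra.induction_on with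
  | of g =>
    have : (fun U : Fin m ⊕ Fin n → UN N => evV (Vp U) (MonoidAlgebra.of ℂ _ g)) =
        fun U => ev U (mx_let N g) := by
      funext U
      rw [mx_ev_let]
    rw [this]
    exact continuous_ev _
  | add a b ha hb =>
    simp only [map_add]
    exact ha.add hb
  | smul r a ha =>
    simp only [map_smul]
    exact ha.const_smul r

theorem mx_cont_cnoise (D : Fin n → UN N) (i : Fin n) (e : Bool) :
    Continuous fun U : Fin m ⊕ Fin n → UN N => cnoise D U i e := by
  have : (fun U : Fin m ⊕ Fin n → UN N => cnoise D U i e) = fun U =>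
      lit U (Sum.inr i) true * mx_D0 D i e * (lit U (Sum.inr i) false * 1) := by
    funext U
    rw [mx_cnoise]
  rw [this]
  exact ((continuous_lit _ _).mul continuous_const).mul
    ((continuous_lit _ _).mul continuous_const)

theorem mx_cont_evI (D : Fin n → UN N) (items : List (FA m × Fin n × Bool)) :
    Continuous fun U : Fin m ⊕ Fin n → UN N => evI D U items := by
  induction items with
  | nil =>
    have : (fun U : Fin m ⊕ Fin n → UN N => evI D U []) = fun _ => 1 := by
      funext U; simp [evI]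
    rw [this]
    exact continuous_const
  | cons x l ih =>
    have : (fun U : Fin m ⊕ Fin n → UN N => evI D U (x :: l)) = fun U =>
        evV (Vp U) x.1 * cnoise D U x.2.1 x.2.2 * evI D U l := by
      funext U; simp [evI]
    rw [this]
    exact ((mx_cont_evV _).mul (mx_cont_cnoise _ _ _)).mul ih

theorem mx_evI_append (D : Fin n → UN N) (U : Fin m ⊕ Fin n → UN N)
    (l l' : List (FA m × Fin n × Bool)) : evI D U (l ++ l') = evI D U l * evI D U l' := by
  unfold evI
  rw [List.map_append, List.prod_append]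

theorem mx_sum_of (b : FA m) : b = ∑ g ∈ b.coeff.support, b.coeff g • MonoidAlgebra.of ℂ _ g := by
  conv_lhs => rw [← MonoidAlgebra.sum_coeff_single b]
  rw [Finsupp.sum]
  refine Finset.sum_congr rfl fun g _ => ?_
  rw [MonoidAlgebra.of_apply, MonoidAlgebra.smul_single, smul_eq_mul, mul_one]

/-- linear expansion of one factor -/
theorem mx_expand (b : FA m) (S : FreeGroup (Fin m) → Prop)
    (hS : ∀ g, b.coeff g ≠ 0 → S g)
    (A B : ∀ N : ℕ, (Fin n → UN N) → (Fin m ⊕ Fin n → UN N) → Mt N)
    (hA : ∀ N D, Continuous (A N D)) (hB : ∀ N D, Continuous (B N D))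
    (h : ∀ g, S g → ∃ C : ℝ, 0 ≤ C ∧ ∀ N : ℕ, 0 < N → ∀ D : Fin n → UN N,
      ‖∫ U, ntr (A N D U * evV (Vp U) (MonoidAlgebra.of ℂ _ g) * B N D U)
        ∂(PP (Fin m ⊕ Fin n) N)‖ ≤ C / N) :
    ∃ C : ℝ, 0 ≤ C ∧ ∀ N : ℕ, 0 < N → ∀ D : Fin n → UN N,
      ‖∫ U, ntr (A N D U * evV (Vp U) b * B N D U)
        ∂(PP (Fin m ⊕ Fin n) N)‖ ≤ C / N := by
  classical
  have h' : ∀ g, ∃ C : ℝ, 0 ≤ C ∧ (S g → ∀ N : ℕ, 0 < N → ∀ D : Fin n → UN N,
      ‖∫ U, ntr (A N D U * evV (Vp U) (MonoidAlgebra.of ℂ _ g) * B N D U)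
        ∂(PP (Fin m ⊕ Fin n) N)‖ ≤ C / N) := by
    intro g
    by_cases hg : S g
    · obtain ⟨C, hC, h1⟩ := h g hg
      exact ⟨C, hC, fun _ => h1⟩
    · exact ⟨0, le_rfl, fun h => absurd h hg⟩
  choose C hC hb using h'
  refine ⟨∑ g ∈ b.coeff.support, ‖b.coeff g‖ * C g,
    Finset.sum_nonneg fun g _ => mul_nonneg (norm_nonneg _) (hC g), ?_⟩
  intro N hN D
  have h1 : ∀ U : Fin m ⊕ Fin n → UN N, ntr (A N D U * evV (Vp U) b * B N D U) =
      ∑ g ∈ b.coeff.support, b.coeff g *
        ntr (A N D U * evV (Vp U) (MonoidAlgebra.of ℂ _ g) * B N D U) := by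
    intro U
    conv_lhs => rw [mx_sum_of b]
    rw [map_sum, Finset.mul_sum, Finset.sum_mul]
    have h2 : ∀ (s : Finset (FreeGroup (Fin m))) (f : FreeGroup (Fin m) → Mt N),
        ntr (∑ g ∈ s, f g) = ∑ g ∈ s, ntr (f g) := by
      intro s f
      induction s using Finset.induction_on with
      | empty => simp [ntr]
      | insert a s ha ih => rw [Finset.sum_insert ha, Finset.sum_insert ha, ntr_add, ih]
    rw [h2]
    refine Finset.sum_congr rfl fun g _ => ?_
    rw [map_smul, mul_smul_comm, smul_mul_assoc, ntr_smul]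
  simp only [h1]
  rw [integral_finsetSum]
  · refine (norm_sum_le _ _).trans ?_
    rw [Finset.sum_div]
    refine Finset.sum_le_sum fun g hg => ?_
    rw [integral_const_mul, norm_mul, mul_div_assoc]
    exact mul_le_mul_of_nonneg_left (hb g (hS g (Finsupp.mem_support_iff.1 hg)) N hN D)
      (norm_nonneg _)
  · intro g _
    refine integrable_cont ?_
    exact continuous_const.mul (continuous_ntr.comp (((hA N D).mul (mx_cont_evV _)).mul (hB N D)))

theorem mx_main (items : List (FA m × Fin n × Bool)) (last : FA m) :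
    ∀ l : List (FreeGroup (Fin m) × Fin n × Bool),
      (l.IsChain fun x y => x.2.1 = y.2.1 → y.1 ≠ 1) → (l ≠ [] ∨ items ≠ []) →
      (∀ x ∈ l.getLast?, ∀ y ∈ items.head?, x.2.1 = y.2.1 → tau y.1 = 0) →
      (items.IsChain fun x y => x.2.1 = y.2.1 → tau y.1 = 0) →
      ∃ C : ℝ, 0 ≤ C ∧ ∀ N : ℕ, 0 < N → ∀ D : Fin n → UN N,
        ‖∫ U, ntr (evI D U (mx_of l) * evI D U items * evV (Vp U) last)
          ∂(PP (Fin m ⊕ Fin n) N)‖ ≤ C / N := by
  induction items with
  | nil =>
    intro l hl hne _ _
    have hne' : l ≠ [] := hne.resolve_right (fun h => h rfl)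
    have h := mx_expand last (fun _ => True) (fun _ _ => trivial)
      (fun N D U => evI D U (mx_of l)) (fun N D U => 1)
      (fun N D => mx_cont_evI D _) (fun N D => continuous_const)
      (by
        intro g _
        obtain ⟨C, hC, h⟩ := mx_base l hne' hl g
        refine ⟨C, hC, fun N hN D => ?_⟩
        simpa only [mul_one] using h N hN D)
    obtain ⟨C, hC, h⟩ := h
    refine ⟨C, hC, fun N hN D => ?_⟩
    have := h N hN D
    simp only [mul_one] at this
    have h2 : ∀ U : Fin m ⊕ Fin n → UN N, evI D U [] = 1 := by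
      intro U; simp [evI]
    simp only [h2, mul_one]
    exact this
  | cons x items ih =>
    intro l hl _ hlast hch
    have hch' := List.isChain_cons.1 hch
    have h := mx_expand x.1 (fun g => (∀ z ∈ l.getLast?, z.2.1 = x.2.1 → g ≠ 1)) ?_
      (fun N D U => evI D U (mx_of l))
      (fun N D U => cnoise D U x.2.1 x.2.2 * evI D U items * evV (Vp U) last)
      (fun N D => mx_cont_evI D _)
      (fun N D => ((mx_cont_cnoise _ _ _).mul (mx_cont_evI D _)).mul (mx_cont_evV _)) ?_
    · obtain ⟨C, hC, h⟩ := h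
      refine ⟨C, hC, fun N hN D => ?_⟩
      have h1 := h N hN D
      have h2 : ∀ U : Fin m ⊕ Fin n → UN N,
          evI D U (mx_of l) * evI D U (x :: items) * evV (Vp U) last =
          evI D U (mx_of l) * evV (Vp U) x.1 *
            (cnoise D U x.2.1 x.2.2 * evI D U items * evV (Vp U) last) := by
        intro U
        have : evI D U (x :: items) = evV (Vp U) x.1 * cnoise D U x.2.1 x.2.2 *
            evI D U items := by simp [evI]
        rw [this]
        simp only [mul_assoc]
      simp only [h2]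
      exact h1
    · intro g hg z hz hzx h1
      have h0 := hlast z hz x (by simp) hzx
      rw [h1] at hg
      exact hg h0
    · intro g hg
      obtain ⟨C, hC, h⟩ := ih (l ++ [(g, x.2.1, x.2.2)])
        (by
          rw [List.isChain_append]
          refine ⟨hl, List.isChain_singleton _, ?_⟩
          intro z hz y hy hzy
          simp only [List.head?_cons, Option.mem_def, Option.some.injEq] at hy
          rw [← hy] at hzy ⊢
          exact hg z hz hzy)
        (Or.inl (by simp))
        (by
          intro z hz y hy hzy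
          simp only [List.getLast?_append, List.getLast?_singleton, Option.some_or,
            Option.mem_def, Option.some.injEq] at hz
          rw [← hz] at hzy
          exact hch'.1 y hy hzy)
        hch'.2
      refine ⟨C, hC, fun N hN D => ?_⟩
      have h1 := h N hN D
      have h2 : ∀ U : Fin m ⊕ Fin n → UN N,
          evI D U (mx_of l) * evV (Vp U) (MonoidAlgebra.of ℂ _ g) *
            (cnoise D U x.2.1 x.2.2 * evI D U items * evV (Vp U) last) =
          evI D U (mx_of (l ++ [(g, x.2.1, x.2.2)])) * evI D U items * evV (Vp U) last := by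
        intro U
        have : mx_of (l ++ [(g, x.2.1, x.2.2)]) =
            mx_of l ++ [(MonoidAlgebra.of ℂ _ g, x.2.1, x.2.2)] := by
          simp [mx_of]
        rw [this, mx_evI_append]
        have h3 : evI D U [((MonoidAlgebra.of ℂ _ g : FA m), x.2.1, x.2.2)] =
            evV (Vp U) (MonoidAlgebra.of ℂ _ g) * cnoise D U x.2.1 x.2.2 := by simp [evI]
        rw [h3]
        simp only [mul_assoc]
      simp only [h2]
      exact h1

theorem mixed2 {m n : ℕ} (items : List (FA m × Fin n × Bool)) (hne : items ≠ []) (last : FA m)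
    (hch : items.IsChain fun x y => x.2.1 = y.2.1 → tau y.1 = 0) :
    ∃ C : ℝ, 0 ≤ C ∧ ∀ N : ℕ, 0 < N → ∀ D : Fin n → UN N,
      ‖∫ U, ntr (evI D U items * evV (Vp U) last) ∂(PP (Fin m ⊕ Fin n) N)‖ ≤ C / N := by
  obtain ⟨C, hC, h⟩ := mx_main items last [] List.isChain_nil (Or.inr hne) (by simp) hch
  refine ⟨C, hC, fun N hN D => ?_⟩
  have h1 := h N hN D
  have h2 : ∀ U : Fin m ⊕ Fin n → UN N, evI D U (mx_of []) = 1 := by
    intro U; simp [evI, mx_of]
  simp only [h2, one_mul] at h1
  exact h1

end MIX2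

end Pool.Agent.H710R2.FF
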