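import Mathlib
import Pool.Agent.H710R2.FF.Defs2
import Pool.Agent.H710R2.FF.Basic
import Pool.Agent.H710R2.FF.Mix2
import Pool.Agent.H710R2.FF.Rc

set_option autoImplicit false
set_option linter.unusedSectionVars false

open MeasureTheory
open scoped ComplexConjugate InnerProductSpace

noncomputable section

namespace Pool.Agent.H710R2.FF

namespace Mix

theorem hred_part {α : Type} {L₁ L₂ : List (α × Bool)} (h : FreeGroup.IsReduced L₂)
    (h' : ∃ s t : List (α × Bool), s ++ L₁ ++ t = L₂) : FreeGroup.IsReduced L₁ := by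
  obtain ⟨s, t, rfl⟩ := h'
  have h1 := (List.isChain_append.1 h).1
  exact (List.isChain_append.1 h1).2.1

variable {m n N : ℕ}

/-! ### continuity -/

theorem cont_lift (g : FreeGroup (Fin m)) :
    Continuous fun V : Fin m → UN N => FreeGroup.lift V g := by
  induction g using FreeGroup.induction_on with
  | C1 => simpa using continuous_const
  | of x => simpa using continuous_apply x
  | inv_of x hx => 
    simp only [map_inv]
    exact hx.inv
  | mul x y hx hy => 
    simp only [map_mul]
    exact hx.mul hy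

theorem evV_single (V : Fin m → UN N) (g : FreeGroup (Fin m)) (c : ℂ) :
    evV V (MonoidAlgebra.single g c) = c • ((FreeGroup.lift V g : UN N) : Mt N) := by
  simp [evV, MonoidAlgebra.lift_single]

theorem cont_evV (a : FA m) : Continuous fun V : Fin m → UN N => evV V a := by
  induction a using MonoidAlgebra.induction_linear with
  | zero => simpa using continuous_const
  | add x y hx hy => 
    simp only [map_add]
    exact hx.add hy
  | single g c => 
    simp only [evV_single]
    exact (continuous_subtype_val.comp (cont_lift g)).const_smul c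

theorem cont_Vp : Continuous fun U : Fin m ⊕ Fin n → UN N => Vp U := by
  unfold Vp
  fun_prop

theorem cont_evVp (a : FA m) : Continuous fun U : Fin m ⊕ Fin n → UN N => evV (Vp U) a :=
  (cont_evV a).comp cont_Vp

theorem cont_noise (D : Fin n → UN N) (i : Fin n) (e : Bool) :
    Continuous fun U : Fin m ⊕ Fin n → UN N => noise D U i e := by
  unfold noise
  have h1 : Continuous fun U : Fin m ⊕ Fin n → UN N => (U (Sum.inr i) : Mt N) :=
    continuous_subtype_val.comp (continuous_apply _)
  exact (h1.mul continuous_const).mul h1.star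

theorem cont_cnoise (D : Fin n → UN N) (i : Fin n) (e : Bool) :
    Continuous fun U : Fin m ⊕ Fin n → UN N => cnoise D U i e :=
  (cont_noise D i e).sub continuous_const

theorem cont_tok (b : Fin n → FA m) (D : Fin n → UN N) (x : Fin n × Bool) :
    Continuous fun U : Fin m ⊕ Fin n → UN N => tok b D U x := by
  unfold tok
  split
  · exact (cont_evVp _).mul (cont_noise D _ _)
  · exact (cont_noise D _ _).mul (cont_evVp _)

theorem cont_tokP (b : Fin n → FA m) (D : Fin n → UN N) (f : List (Fin n × Bool)) :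
    Continuous fun U : Fin m ⊕ Fin n → UN N => tokP b D U f := by
  induction f with
  | nil => 
    simp only [tokP, List.map_nil, List.prod_nil]
    exact continuous_const
  | cons x f ih => 
    simp only [tokP, List.map_cons, List.prod_cons] at ih ⊢
    exact (cont_tok b D x).mul ih

theorem cont_evI (D : Fin n → UN N) (items : List (FA m × Fin n × Bool)) :
    Continuous fun U : Fin m ⊕ Fin n → UN N => evI D U items := by
  induction items with
  | nil => 
    simp only [evI, List.map_nil, List.prod_nil]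
    exact continuous_const
  | cons x f ih => 
    simp only [evI, List.map_cons, List.prod_cons] at ih ⊢
    exact ((cont_evVp _).mul (cont_cnoise _ _ _)).mul ih

/-! ### norm bounds -/

theorem opn_noise (D : Fin n → UN N) (U : Fin m ⊕ Fin n → UN N) (i : Fin n) (e : Bool) :
    opn (noise D U i e) ≤ 1 := by
  unfold noise
  have h1 : opn (U (Sum.inr i) : Mt N) ≤ 1 := opn_unitary _
  have h2 : opn (star (U (Sum.inr i) : Mt N)) ≤ 1 := by rw [opn_star]; exact h1
  have h3 : opn (if e then (D i : Mt N) else star (D i : Mt N)) ≤ 1 := by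
    split
    · exact opn_unitary _
    · rw [opn_star]; exact opn_unitary _
  calc _ ≤ opn ((U (Sum.inr i) : Mt N) * (if e then (D i : Mt N) else star (D i : Mt N))) *
        opn (star (U (Sum.inr i) : Mt N)) := opn_mul _ _
    _ ≤ (opn (U (Sum.inr i) : Mt N) * opn (if e then (D i : Mt N) else star (D i : Mt N))) *
        opn (star (U (Sum.inr i) : Mt N)) :=
        mul_le_mul_of_nonneg_right (opn_mul _ _) (opn_nonneg _)
    _ ≤ (1 * 1) * 1 := mul_le_mul (mul_le_mul h1 h3 (opn_nonneg _) zero_le_one) h2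
        (opn_nonneg _) (by norm_num)
    _ = 1 := by norm_num

theorem norm_nph (D : Fin n → UN N) (i : Fin n) (e : Bool) : ‖nph D i e‖ ≤ 1 := by
  have h : ‖ntr (D i : Mt N)‖ ≤ 1 := (norm_ntr_le _).trans (opn_unitary _)
  unfold nph
  split
  · exact h
  · rwa [RCLike.norm_conj]

theorem opn_cnoise (D : Fin n → UN N) (U : Fin m ⊕ Fin n → UN N) (i : Fin n) (e : Bool) :
    opn (cnoise D U i e) ≤ 2 := by
  unfold cnoise
  calc _ ≤ opn (noise D U i e) + opn (nph D i e • (1 : Mt N)) := opn_sub _ _
    _ = opn (noise D U i e) + ‖nph D i e‖ * opn (1 : Mt N) := by rw [opn_smul]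
    _ ≤ 1 + 1 * 1 := add_le_add (opn_noise _ _ _ _)
        (mul_le_mul (norm_nph _ _ _) opn_one (opn_nonneg _) zero_le_one)
    _ = 2 := by norm_num

theorem opn_wordF (b : Fin n → FA m) (κ : ℝ) (hκ : 1 ≤ κ)
    (hb : ∀ i (N : ℕ) (V : Fin m → UN N), opn (evV V (b i)) ≤ κ) (V : Fin m → UN N)
    (u : List (Fin n × Bool)) : opn (evV V (wordF b u)) ≤ κ ^ u.length := by
  induction u with
  | nil =>
    simp only [wordF, List.map_nil, List.prod_nil, map_one, List.length_nil, pow_zero]
    exact opn_one
  | cons x u ih =>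
    have e : wordF b (x :: u) = (if x.2 then b x.1 else fst' (b x.1)) * wordF b u := by
      simp [wordF]
    rw [e, map_mul, List.length_cons, pow_succ']
    have h1 : opn (evV V (if x.2 then b x.1 else fst' (b x.1))) ≤ κ := by
      split
      · exact hb _ _ _
      · rw [evV_fst, opn_star]
        exact hb _ _ _
    exact (opn_mul _ _).trans (mul_le_mul h1 ih (opn_nonneg _) (by linarith))

theorem opn_tok (b : Fin n → FA m) (κ : ℝ) (hκ : 1 ≤ κ)
    (hb : ∀ i (N : ℕ) (V : Fin m → UN N), opn (evV V (b i)) ≤ κ) (D : Fin n → UN N)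
    (U : Fin m ⊕ Fin n → UN N) (x : Fin n × Bool) : opn (tok b D U x) ≤ κ := by
  unfold tok
  split
  · calc _ ≤ opn (evV (Vp U) (b x.1)) * opn (noise D U x.1 true) := opn_mul _ _
      _ ≤ κ * 1 := mul_le_mul (hb _ _ _) (opn_noise _ _ _ _) (opn_nonneg _) (by linarith)
      _ = κ := mul_one _
  · calc _ ≤ opn (noise D U x.1 false) * opn (evV (Vp U) (fst' (b x.1))) := opn_mul _ _
      _ ≤ 1 * κ := mul_le_mul (opn_noise _ _ _ _) (by rw [evV_fst, opn_star]; exact hb _ _ _)
          (opn_nonneg _) zero_le_one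
      _ = κ := one_mul _

theorem opn_tokP (b : Fin n → FA m) (κ : ℝ) (hκ : 1 ≤ κ)
    (hb : ∀ i (N : ℕ) (V : Fin m → UN N), opn (evV V (b i)) ≤ κ) (D : Fin n → UN N)
    (U : Fin m ⊕ Fin n → UN N) (f : List (Fin n × Bool)) : opn (tokP b D U f) ≤ κ ^ f.length := by
  induction f with
  | nil =>
    simp only [tokP, List.map_nil, List.prod_nil, List.length_nil, pow_zero]
    exact opn_one
  | cons x u ih =>
    have e : tokP b D U (x :: u) = tok b D U x * tokP b D U u := by
      simp [tokP]
    rw [e, List.length_cons, pow_succ']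
    exact (opn_mul _ _).trans (mul_le_mul (opn_tok b κ hκ hb D U x) ih (opn_nonneg _) (by linarith))

theorem norm_int_le {F : (Fin m ⊕ Fin n → UN N) → ℂ} (B : ℝ) (h : ∀ U, ‖F U‖ ≤ B) :
    ‖∫ U, F U ∂(PP (Fin m ⊕ Fin n) N)‖ ≤ B := by
  have := norm_integral_le_of_norm_le_const (μ := PP (Fin m ⊕ Fin n) N)
    (Filter.Eventually.of_forall h)
  simpa using this

theorem int_split {F G H : (Fin m ⊕ Fin n → UN N) → ℂ} (c : ℂ) (hG : Continuous G)
    (hH : Continuous H) (h : ∀ U, F U = c * G U + H U) :
    ∫ U, F U ∂(PP (Fin m ⊕ Fin n) N) =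
      c * ∫ U, G U ∂(PP (Fin m ⊕ Fin n) N) + ∫ U, H U ∂(PP (Fin m ⊕ Fin n) N) := by
  have e : F = fun U => c * G U + H U := funext h
  rw [e, integral_add ((integrable_cont hG).const_mul c) (integrable_cont hH),
    integral_const_mul]

theorem evI_append (D : Fin n → UN N) (U : Fin m ⊕ Fin n → UN N)
    (items : List (FA m × Fin n × Bool)) (x : FA m × Fin n × Bool) :
    evI D U (items ++ [x]) = evI D U items * (evV (Vp U) x.1 * cnoise D U x.2.1 x.2.2) := by
  simp [evI]

theorem tau_one : tau (1 : FA m) = 1 := by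
  simp [tau, MonoidAlgebra.coeff_one_one]

theorem tau_center (a : FA m) : tau (a - tau a • (1 : FA m)) = 0 := by
  have h := tau_one (m := m)
  unfold tau at *
  rw [MonoidAlgebra.coeff_sub, MonoidAlgebra.coeff_smul]
  simp [MonoidAlgebra.coeff_one_one]

/-! ### expectation of polynomials -/

/-- word of a free group element -/
def letters (m n N : ℕ) (g : FreeGroup (Fin m)) : List (Lt (Fin m ⊕ Fin n) N) :=
  g.toWord.map fun x => (Sum.inl x.1, x.2, (1 : Mt N))

theorem ev_letters (U : Fin m ⊕ Fin n → UN N) (L : List (Fin m × Bool)) :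
    ev U (L.map fun x => ((Sum.inl x.1 : Fin m ⊕ Fin n), x.2, (1 : Mt N))) =
      ((FreeGroup.lift (Vp U) (FreeGroup.mk L) : UN N) : Mt N) := by
  rw [FreeGroup.lift_mk]
  induction L with
  | nil => simp [ev]
  | cons x L ih =>
    have e : ev U ((x :: L).map fun x => ((Sum.inl x.1 : Fin m ⊕ Fin n), x.2, (1 : Mt N))) =
      lit U (Sum.inl x.1) x.2 *
        ev U (L.map fun x => ((Sum.inl x.1 : Fin m ⊕ Fin n), x.2, (1 : Mt N))) := by
      simp [ev]
    rw [e, ih]
    rcases x with ⟨i, _ | _⟩
    · simp [lit, Vp]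
    · simp [lit, Vp]

theorem wt_letters (L : List (Fin m × Bool)) :
    wt (L.map fun x => ((Sum.inl x.1 : Fin m ⊕ Fin n), x.2, (1 : Mt N))) ≤ 1 := by
  induction L with
  | nil => simp [wt]
  | cons x L ih =>
    have e : wt ((x :: L).map fun x => ((Sum.inl x.1 : Fin m ⊕ Fin n), x.2, (1 : Mt N))) =
      opn (1 : Mt N) * wt (L.map fun x => ((Sum.inl x.1 : Fin m ⊕ Fin n), x.2, (1 : Mt N))) := by
      simp [wt]
    rw [e]
    calc _ ≤ (1 : ℝ) * 1 := mul_le_mul opn_one ih (wt_nonneg _) zero_le_one
      _ = 1 := one_mul _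

theorem good_letters (g : FreeGroup (Fin m)) : Good (letters m n N g) := by
  unfold Good letters
  rw [List.isChain_map]
  have h : FreeGroup.IsReduced g.toWord := FreeGroup.isReduced_toWord
  refine List.IsChain.imp ?_ h
  intro a b hab h1 h2
  exact absurd (hab (Sum.inl_injective h1)) h2

theorem expect_evV (a : FA m) : ∃ C : ℝ, 0 ≤ C ∧ ∀ N : ℕ, 0 < N →
    ‖(∫ U : Fin m ⊕ Fin n → UN N, ntr (evV (Vp U) a) ∂(PP (Fin m ⊕ Fin n) N)) - tau a‖ ≤
      C / N := by
  induction a using MonoidAlgebra.induction_linear with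
  | zero =>
    refine ⟨0, le_rfl, fun N hN => ?_⟩
    have h0 : ntr (0 : Mt N) = 0 := by simp [ntr]
    have h1 : tau (0 : FA m) = 0 := by simp [tau]
    simp [h0, h1]
  | add x y hx hy =>
    obtain ⟨C1, hC1, h1⟩ := hx
    obtain ⟨C2, hC2, h2⟩ := hy
    refine ⟨C1 + C2, by positivity, fun N hN => ?_⟩
    have e1 : tau (x + y) = tau x + tau y := by simp [tau]
    have e2 : (∫ U : Fin m ⊕ Fin n → UN N, ntr (evV (Vp U) (x + y)) ∂(PP (Fin m ⊕ Fin n) N)) =
        (∫ U : Fin m ⊕ Fin n → UN N, ntr (evV (Vp U) x) ∂(PP (Fin m ⊕ Fin n) N)) +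
        ∫ U : Fin m ⊕ Fin n → UN N, ntr (evV (Vp U) y) ∂(PP (Fin m ⊕ Fin n) N) := by
      have hx' : Integrable (fun U : Fin m ⊕ Fin n → UN N => ntr (evV (Vp U) x))
          (PP (Fin m ⊕ Fin n) N) := integrable_cont (continuous_ntr.comp (cont_evVp _))
      have hy' : Integrable (fun U : Fin m ⊕ Fin n → UN N => ntr (evV (Vp U) y))
          (PP (Fin m ⊕ Fin n) N) := integrable_cont (continuous_ntr.comp (cont_evVp _))
      rw [← integral_add hx' hy']
      simp [ntr_add]
    rw [e1, e2, add_sub_add_comm, add_div]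
    exact (norm_add_le _ _).trans (add_le_add (h1 N hN) (h2 N hN))
  | single g c =>
    by_cases hg : g = 1
    · subst hg
      refine ⟨0, le_rfl, fun N hN => ?_⟩
      have e : ∀ U : Fin m ⊕ Fin n → UN N,
          ntr (evV (Vp U) (MonoidAlgebra.single (1 : FreeGroup (Fin m)) c)) = c := by
        intro U
        rw [evV_single, ntr_smul, map_one]
        have : ((1 : UN N) : Mt N) = 1 := rfl
        rw [this, ntr_one hN, mul_one]
      simp only [e]
      simp [tau]
    · obtain ⟨C, hC, h⟩ := master (Fin m ⊕ Fin n) g.toWord.length 0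
      refine ⟨‖c‖ * C, by positivity, fun N hN => ?_⟩
      have h1 := h N hN (letters m n N g) [] (by
        intro h0
        apply hg
        have : g.toWord = [] := by simpa [letters] using h0
        rwa [FreeGroup.toWord_eq_nil_iff] at this) (by simp [letters]) (by simp [lenR])
        (good_letters g)
      have e1 : ∀ U : Fin m ⊕ Fin n → UN N, T U (letters m n N g) * TR U [] =
          ntr ((FreeGroup.lift (Vp U) g : UN N) : Mt N) := by
        intro U
        have := ev_letters U g.toWord
        rw [FreeGroup.mk_toWord] at this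
        simp [T, letters, this, TR]
      simp only [e1] at h1
      have e2 : (∫ U : Fin m ⊕ Fin n → UN N, ntr (evV (Vp U) (MonoidAlgebra.single g c))
          ∂(PP (Fin m ⊕ Fin n) N)) = c * ∫ U : Fin m ⊕ Fin n → UN N,
          ntr ((FreeGroup.lift (Vp U) g : UN N) : Mt N) ∂(PP (Fin m ⊕ Fin n) N) := by
        rw [← integral_const_mul]
        simp only [evV_single, ntr_smul]
      have e3 : tau (MonoidAlgebra.single g c) = 0 := by
        simp [tau, MonoidAlgebra.coeff_single, hg]
      rw [e2, e3, sub_zero, norm_mul, mul_div_assoc]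
      refine mul_le_mul_of_nonneg_left (h1.trans ?_) (norm_nonneg _)
      have hw : wt (letters m n N g) * wtR ([] : List (List (Lt (Fin m ⊕ Fin n) N))) ≤ 1 := by
        have := wt_letters (n := n) (N := N) g.toWord
        simpa [letters, wtR] using this
      have hN1 : (1 : ℝ) ≤ N := by exact_mod_cast hN
      have hN0 : (0 : ℝ) < N := by linarith
      rw [div_le_div_iff₀ (by positivity) hN0]
      have : C * (wt (letters m n N g) * wtR ([] : List (List (Lt (Fin m ⊕ Fin n) N)))) ≤ C :=
        mul_le_of_le_one_right hC hw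
      calc _ ≤ C * N := mul_le_mul_of_nonneg_right this hN0.le
        _ ≤ C * (N : ℝ) ^ 2 := by
          apply mul_le_mul_of_nonneg_left _ hC
          nlinarith

/-! ### the two inductions -/

theorem opn_evI_snoc {W : ℝ} (hW : 0 ≤ W) (items : List (FA m × Fin n × Bool))
    (hI : ∀ (N : ℕ) (D : Fin n → UN N) (U : Fin m ⊕ Fin n → UN N), opn (evI D U items) ≤ W)
    (a : FA m) (A : ℝ) (hA : ∀ (N : ℕ) (V : Fin m → UN N), opn (evV V a) ≤ A)
    (j : Fin n) (e : Bool) (N : ℕ) (D : Fin n → UN N) (U : Fin m ⊕ Fin n → UN N) :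
    opn (evI D U (items ++ [(a, j, e)])) ≤ W * A * 2 := by
  have hA0 : 0 ≤ A := (opn_nonneg _).trans (hA N (Vp U))
  rw [evI_append]
  calc _ ≤ opn (evI D U items) * opn (evV (Vp U) a * cnoise D U j e) := opn_mul _ _
    _ ≤ W * (A * 2) := by
      refine mul_le_mul (hI _ _ _) ?_ (opn_nonneg _) hW
      exact (opn_mul _ _).trans (mul_le_mul (hA _ _) (opn_cnoise _ _ _ _) (opn_nonneg _) hA0)
    _ = W * A * 2 := by ring

theorem opn_center (b : Fin n → FA m) (κ : ℝ) (hκ : 1 ≤ κ)
    (hb : ∀ i (N : ℕ) (V : Fin m → UN N), opn (evV V (b i)) ≤ κ)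
    (u : List (Fin n × Bool)) (c : ℂ) (hc : ‖c‖ ≤ 1) (N : ℕ) (V : Fin m → UN N) :
    opn (evV V (wordF b u - c • (1 : FA m))) ≤ κ ^ u.length + 1 := by
  rw [map_sub, map_smul, map_one]
  calc _ ≤ opn (evV V (wordF b u)) + opn (c • (1 : Mt N)) := opn_sub _ _
    _ = opn (evV V (wordF b u)) + ‖c‖ * opn (1 : Mt N) := by rw [opn_smul]
    _ ≤ κ ^ u.length + 1 * 1 := add_le_add (opn_wordF b κ hκ hb V u)
        (mul_le_mul hc opn_one (opn_nonneg _) zero_le_one)
    _ = _ := by ring

/-- the expectation appearing in the induction -/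
def Q (b : Fin n → FA m) (D : Fin n → UN N) (items : List (FA m × Fin n × Bool)) (a : FA m)
    (f : List (Fin n × Bool)) : ℂ :=
  ∫ U, ntr (evI D U items * evV (Vp U) a * tokP b D U f) ∂(PP (Fin m ⊕ Fin n) N)

/-- error integral -/
def Er (b : Fin n → FA m) (D : Fin n → UN N) (items : List (FA m × Fin n × Bool)) (a : FA m)
    (j : Fin n) (e : Bool) (f : List (Fin n × Bool)) : ℂ :=
  ∫ U, ntr (evI D U items * cnoise D U j e * evV (Vp U) a * tokP b D U f) ∂(PP (Fin m ⊕ Fin n) N)

theorem cont_Q (b : Fin n → FA m) (D : Fin n → UN N) (items : List (FA m × Fin n × Bool))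
    (a : FA m) (f : List (Fin n × Bool)) : Continuous fun U : Fin m ⊕ Fin n → UN N =>
    ntr (evI D U items * evV (Vp U) a * tokP b D U f) :=
  continuous_ntr.comp (((cont_evI D items).mul (cont_evVp a)).mul (cont_tokP b D f))

theorem cont_Er (b : Fin n → FA m) (D : Fin n → UN N) (items : List (FA m × Fin n × Bool))
    (a : FA m) (j : Fin n) (e : Bool) (f : List (Fin n × Bool)) :
    Continuous fun U : Fin m ⊕ Fin n → UN N =>
    ntr (evI D U items * cnoise D U j e * evV (Vp U) a * tokP b D U f) :=
  continuous_ntr.comp ((((cont_evI D items).mul (cont_cnoise D j e)).mul (cont_evVp a)).mul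
    (cont_tokP b D f))

theorem noise_eq (D : Fin n → UN N) (U : Fin m ⊕ Fin n → UN N) (j : Fin n) (e : Bool) :
    noise D U j e = cnoise D U j e + nph D j e • (1 : Mt N) := by
  unfold cnoise
  rw [sub_add_cancel]

/-- positive letter, without centring -/
theorem step_pos (b : Fin n → FA m) (D : Fin n → UN N) (items : List (FA m × Fin n × Bool))
    (a : FA m) (j : Fin n) (f : List (Fin n × Bool)) :
    Q b D items a ((j, true) :: f) = nph D j true * Q b D items (a * b j) f +
      Q b D (items ++ [(a * b j, j, true)]) 1 f := by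
  unfold Q
  refine int_split _ (cont_Q _ _ _ _ _) (cont_Q _ _ _ _ _) fun U => ?_
  have e1 : tokP b D U ((j, true) :: f) = tok b D U (j, true) * tokP b D U f := by simp [tokP]
  have e2 : tok b D U (j, true) = evV (Vp U) (b j) * noise D U j true := by simp [tok]
  rw [e1, e2, noise_eq, evI_append, ← ntr_smul, ← ntr_add, map_mul, map_one]
  congr 1
  simp only [mul_add, add_mul, mul_assoc, mul_smul_comm, smul_mul_assoc, mul_one]
  rw [add_comm]

/-- negative letter, without centring -/
theorem step_neg (b : Fin n → FA m) (D : Fin n → UN N) (items : List (FA m × Fin n × Bool))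
    (a : FA m) (j : Fin n) (f : List (Fin n × Bool)) :
    Q b D items a ((j, false) :: f) = nph D j false * Q b D items (a * fst' (b j)) f +
      Q b D (items ++ [(a, j, false)]) (fst' (b j)) f := by
  unfold Q
  refine int_split _ (cont_Q _ _ _ _ _) (cont_Q _ _ _ _ _) fun U => ?_
  have e1 : tokP b D U ((j, false) :: f) = tok b D U (j, false) * tokP b D U f := by simp [tokP]
  have e2 : tok b D U (j, false) = noise D U j false * evV (Vp U) (fst' (b j)) := by simp [tok]
  rw [e1, e2, noise_eq, evI_append, ← ntr_smul, ← ntr_add, map_mul]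
  congr 1
  simp only [mul_add, add_mul, mul_assoc, one_mul, mul_smul_comm, smul_mul_assoc]
  rw [add_comm]

/-- centring of the last item -/
theorem center_step (b : Fin n → FA m) (D : Fin n → UN N) (items : List (FA m × Fin n × Bool))
    (a a' : FA m) (c : ℂ) (j : Fin n) (e : Bool) (f : List (Fin n × Bool)) :
    Q b D (items ++ [(a, j, e)]) a' f = c * Er b D items a' j e f +
      Q b D (items ++ [(a - c • (1 : FA m), j, e)]) a' f := by
  unfold Q Er
  refine int_split _ (cont_Er _ _ _ _ _ _ _) (cont_Q _ _ _ _ _) fun U => ?_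
  rw [evI_append, evI_append, ← ntr_smul, ← ntr_add, map_sub, map_smul, map_one]
  congr 1
  simp only [sub_mul, mul_sub, mul_assoc, one_mul, mul_smul_comm, smul_mul_assoc]
  abel

theorem norm_Er (b : Fin n → FA m) (κ : ℝ) (hκ : 1 ≤ κ)
    (hb : ∀ i (N : ℕ) (V : Fin m → UN N), opn (evV V (b i)) ≤ κ) {W : ℝ} (hW : 0 ≤ W)
    (items : List (FA m × Fin n × Bool))
    (hI : ∀ (N : ℕ) (D : Fin n → UN N) (U : Fin m ⊕ Fin n → UN N), opn (evI D U items) ≤ W)
    (a : FA m) (A : ℝ) (hA : ∀ (N : ℕ) (V : Fin m → UN N), opn (evV V a) ≤ A)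
    (j : Fin n) (e : Bool) (f : List (Fin n × Bool)) (N : ℕ) (D : Fin n → UN N) :
    ‖Er b D items a j e f‖ ≤ W * 2 * A * κ ^ f.length := by
  unfold Er
  refine norm_int_le _ fun U => (norm_ntr_le _).trans ?_
  have hA0 : 0 ≤ A := (opn_nonneg _).trans (hA N (Vp U))
  calc _ ≤ opn (evI D U items * cnoise D U j e * evV (Vp U) a) * opn (tokP b D U f) :=
        opn_mul _ _
    _ ≤ (W * 2 * A) * κ ^ f.length := by
      refine mul_le_mul ?_ (opn_tokP b κ hκ hb D U f) (opn_nonneg _) (by positivity)
      refine (opn_mul _ _).trans (mul_le_mul ?_ (hA _ _) (opn_nonneg _) (by positivity))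
      exact (opn_mul _ _).trans (mul_le_mul (hI _ _ _) (opn_cnoise _ _ _ _) (opn_nonneg _) hW)

theorem wordF_snoc_true (b : Fin n → FA m) (u : List (Fin n × Bool)) (j : Fin n) :
    wordF b (u ++ [(j, true)]) = wordF b u * b j := by
  simp [wordF]

theorem wordF_snoc_false (b : Fin n → FA m) (u : List (Fin n × Bool)) (j : Fin n) :
    wordF b (u ++ [(j, false)]) = wordF b u * fst' (b j) := by
  simp [wordF]

theorem arith_pos {η W κ X Y Z : ℝ} (h0 : 0 ≤ η) (hW : 0 ≤ W) (hκ : 1 ≤ κ) (hX : 1 ≤ X)
    (hZ : 0 ≤ Z) (hZY : Z ≤ Y) :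
    η * (W * (X * κ) * Y) + η * (W * 2 * 1 * Z) + η * (W * (X * κ + 1) * 2 * 1 * Y) ≤
      η * (W * X * (Y * (8 * κ))) := by
  have hY : 0 ≤ Y := hZ.trans hZY
  have hXκ : 1 ≤ X * κ := by nlinarith
  have h2 : Z ≤ X * κ * Y := hZY.trans (le_mul_of_one_le_left hY hXκ)
  have h3 : Y ≤ X * κ * Y := le_mul_of_one_le_left hY hXκ
  have h4 : 0 ≤ X * κ * Y := by positivity
  have h5 : (X * κ) * Y + 2 * Z + (X * κ + 1) * 2 * Y ≤ X * (Y * (8 * κ)) := by nlinarith
  have h6 : 0 ≤ η * W := mul_nonneg h0 hW
  nlinarith [mul_le_mul_of_nonneg_left h5 h6]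

theorem arith_neg {η W κ X Y Z : ℝ} (h0 : 0 ≤ η) (hW : 0 ≤ W) (hκ : 1 ≤ κ) (hX : 1 ≤ X)
    (hZ : 0 ≤ Z) (hZY : Z ≤ Y) :
    η * (W * (X * κ) * Y) + η * (W * 2 * κ * Z) + η * (W * (X + 1) * 2 * κ * Y) ≤
      η * (W * X * (Y * (8 * κ))) := by
  have hY : 0 ≤ Y := hZ.trans hZY
  have h1 : κ * Z ≤ X * κ * Y := by
    calc κ * Z ≤ κ * Y := mul_le_mul_of_nonneg_left hZY (by linarith)
      _ ≤ X * (κ * Y) := le_mul_of_one_le_left (by positivity) hX
      _ = _ := by ring
  have h3 : κ * Y ≤ X * κ * Y := by
    calc κ * Y ≤ X * (κ * Y) := le_mul_of_one_le_left (by positivity) hX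
      _ = _ := by ring
  have h4 : 0 ≤ X * κ * Y := by positivity
  have h5 : (X * κ) * Y + 2 * κ * Z + (X + 1) * 2 * κ * Y ≤ X * (Y * (8 * κ)) := by nlinarith
  have h6 : 0 ≤ η * W := mul_nonneg h0 hW
  nlinarith [mul_le_mul_of_nonneg_left h5 h6]

theorem pow_le_pow8 {κ : ℝ} (hκ : 1 ≤ κ) (k : ℕ) : κ ^ k ≤ (8 * κ) ^ k :=
  pow_le_pow_left₀ (by linarith) (by linarith) k

theorem lemA (b : Fin n → FA m) (κ : ℝ) (hκ : 1 ≤ κ)
    (hb : ∀ i (N : ℕ) (V : Fin m → UN N), opn (evV V (b i)) ≤ κ)
    (η : ℝ) (h0 : 0 ≤ η) (h1 : η ≤ 1) (L : ℕ)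
    (hη : ∀ u : List (Fin n × Bool), FreeGroup.IsReduced u → u ≠ [] → u.length ≤ L →
      ‖tau (wordF b u)‖ ≤ η) (f : List (Fin n × Bool)) :
    ∀ (items : List (FA m × Fin n × Bool)) (u : List (Fin n × Bool)) (i : Fin n) (W : ℝ),
      0 ≤ W → items ≠ [] → (items.IsChain fun x y => x.2.1 = y.2.1 → tau y.1 = 0) →
      (∀ x ∈ items.getLast?, x.2.1 = i) → FreeGroup.IsReduced (u ++ f) →
      (u = [] → FreeGroup.IsReduced ((i, true) :: f)) → u.length + f.length ≤ L →
      (∀ (N : ℕ) (D : Fin n → UN N) (U : Fin m ⊕ Fin n → UN N), opn (evI D U items) ≤ W) →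
      ∃ C : ℝ, 0 ≤ C ∧ ∀ N : ℕ, 0 < N → ∀ D : Fin n → UN N,
        ‖Q b D items (wordF b u) f‖ ≤ η * (W * κ ^ u.length * (8 * κ) ^ f.length) + C / N := by
  induction f with
  | nil =>
    intro items u i W hW hne hch _ _ _ _ _
    obtain ⟨C, hC, h⟩ := mixed2 items hne (wordF b u) hch
    refine ⟨C, hC, fun N hN D => ?_⟩
    have e : Q b D items (wordF b u) [] =
        ∫ U, ntr (evI D U items * evV (Vp U) (wordF b u)) ∂(PP (Fin m ⊕ Fin n) N) := by
      unfold Q
      simp [tokP]
    rw [e]
    refine (h N hN D).trans ?_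
    have : 0 ≤ η * (W * κ ^ u.length * (8 * κ) ^ ([] : List (Fin n × Bool)).length) := by
      have : 0 ≤ κ := by linarith
      positivity
    linarith
  | cons x f ih =>
    intro items u i W hW hne hch hlast hred hu hlen hI
    have hκ0 : 0 ≤ κ := by linarith
    obtain ⟨j, e⟩ := x
    have hlen' : u.length + (f.length + 1) ≤ L := by simpa using hlen
    have hX : 1 ≤ κ ^ u.length := one_le_pow₀ hκ
    have hZ : 0 ≤ κ ^ f.length := by positivity
    have hZY := pow_le_pow8 hκ f.length
    have hredf : FreeGroup.IsReduced ((j, e) :: f) :=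
      hred_part hred ⟨u, [], by simp⟩
    have hredf' : FreeGroup.IsReduced f := hred_part hred ⟨u ++ [(j, e)], [], by simp⟩
    cases e with
    | true =>
      obtain ⟨C1, hC1, H1⟩ := ih items (u ++ [(j, true)]) i W hW hne hch hlast
        (by simpa using hred) (by simp) (by simp; omega) hI
      have hr1 : FreeGroup.IsReduced (u ++ [(j, true)]) := hred_part hred ⟨[], f, by simp⟩
      have hc : ‖tau (wordF b (u ++ [(j, true)]))‖ ≤ η := hη _ hr1 (by simp) (by simp; omega)
      obtain ⟨C2, hC2, H2⟩ := ih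
        (items ++ [(wordF b (u ++ [(j, true)]) - tau (wordF b (u ++ [(j, true)])) • (1 : FA m),
          j, true)]) [] j (W * (κ ^ (u ++ [(j, true)]).length + 1) * 2) (by positivity) (by simp)
        (List.isChain_append.2 ⟨hch, by simp, fun x _ y hy _ => by
          simp only [List.head?_cons, Option.mem_def, Option.some.injEq] at hy
          rw [← hy]
          exact tau_center _⟩)
        (by simp) (by simpa using hredf') (fun _ => hredf) (by simp; omega)
        (opn_evI_snoc hW items hI _ _ (opn_center b κ hκ hb _ _ (hc.trans h1)) j true)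
      refine ⟨C1 + C2, by positivity, fun N hN D => ?_⟩
      rw [step_pos, ← wordF_snoc_true, center_step b D items (wordF b (u ++ [(j, true)])) 1
        (tau (wordF b (u ++ [(j, true)])))]
      have H1' := H1 N hN D
      have H2' := H2 N hN D
      have e1 : wordF b ([] : List (Fin n × Bool)) = 1 := by simp [wordF]
      rw [e1] at H2'
      have H3 := norm_Er b κ hκ hb hW items hI 1 1 (fun N V => by rw [map_one]; exact opn_one)
        j true f N D
      have hEr : ‖tau (wordF b (u ++ [(j, true)])) * Er b D items 1 j true f‖ ≤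
          η * (W * 2 * 1 * κ ^ f.length) := by
        rw [norm_mul]
        exact mul_le_mul hc H3 (norm_nonneg _) h0
      have hN1 : ‖nph D j true * Q b D items (wordF b (u ++ [(j, true)])) f‖ ≤
          η * (W * κ ^ (u ++ [(j, true)]).length * (8 * κ) ^ f.length) + C1 / N := by
        rw [norm_mul]
        exact (mul_le_of_le_one_left (norm_nonneg _) (norm_nph _ _ _)).trans H1'
      have hl1 : κ ^ (u ++ [(j, true)]).length = κ ^ u.length * κ := by
        simp [pow_succ]
      rw [hl1] at hN1 H2'
      have hl2 : (8 * κ) ^ ((j, true) :: f).length = (8 * κ) ^ f.length * (8 * κ) := by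
        simp [pow_succ]
      rw [hl2]
      simp only [List.length_nil, pow_zero] at H2'
      have ha := arith_pos h0 hW hκ hX hZ hZY
      have ht := norm_add₃_le (a := nph D j true * Q b D items (wordF b (u ++ [(j, true)])) f)
        (b := tau (wordF b (u ++ [(j, true)])) * Er b D items 1 j true f)
        (c := Q b D (items ++ [(wordF b (u ++ [(j, true)]) -
          tau (wordF b (u ++ [(j, true)])) • (1 : FA m), j, true)]) 1 f)
      rw [add_assoc] at ht
      rw [add_div]
      linarith
    | false =>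
      obtain ⟨C1, hC1, H1⟩ := ih items (u ++ [(j, false)]) i W hW hne hch hlast
        (by simpa using hred) (by simp) (by simp; omega) hI
      have e2 : wordF b [(j, false)] = fst' (b j) := by simp [wordF]
      have hfst : ∀ (N : ℕ) (V : Fin m → UN N), opn (evV V (fst' (b j))) ≤ κ := fun N V => by
        rw [evV_fst, opn_star]
        exact hb _ _ _
      have hredj : FreeGroup.IsReduced ([(j, false)] ++ f) := by simpa using hredf
      by_cases hun : u = []
      · subst hun
        have hij : i ≠ j := by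
          intro hij
          have := hu rfl
          rw [FreeGroup.isReduced_cons_cons] at this
          simpa using this.1 hij
        have hI2 := opn_evI_snoc hW items hI (wordF b ([] : List (Fin n × Bool))) (κ ^ 0 + 1)
          (fun N V => by
            have := opn_wordF b κ hκ hb V []
            simp only [List.length_nil] at this
            linarith) j false
        obtain ⟨C2, hC2, H2⟩ := ih
          (items ++ [(wordF b ([] : List (Fin n × Bool)), j, false)]) [(j, false)] j
          (W * (κ ^ 0 + 1) * 2) (by positivity) (by simp)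
          (List.isChain_append.2 ⟨hch, by simp, fun x hx y hy hxy => by
            simp only [List.head?_cons, Option.mem_def, Option.some.injEq] at hy
            exfalso
            apply hij
            rw [← hlast x hx, hxy, ← hy]⟩)
          (by simp) hredj (by simp) (by simp at hlen' ⊢; omega) hI2
        refine ⟨C1 + C2, by positivity, fun N hN D => ?_⟩
        rw [step_neg, ← wordF_snoc_false]
        have H1' := H1 N hN D
        have H2' := H2 N hN D
        rw [e2] at H2'
        have hN1 : ‖nph D j false * Q b D items (wordF b ([] ++ [(j, false)])) f‖ ≤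
            η * (W * κ ^ (([] : List (Fin n × Bool)) ++ [(j, false)]).length *
              (8 * κ) ^ f.length) + C1 / N := by
          rw [norm_mul]
          exact (mul_le_of_le_one_left (norm_nonneg _) (norm_nph _ _ _)).trans H1'
        have hl1 : κ ^ (([] : List (Fin n × Bool)) ++ [(j, false)]).length = κ ^ 0 * κ := by
          simp
        rw [hl1] at hN1
        have hl2 : (8 * κ) ^ ((j, false) :: f).length = (8 * κ) ^ f.length * (8 * κ) := by
          simp [pow_succ]
        have hl3 : κ ^ [(j, false)].length = κ := by simp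
        rw [hl3] at H2'
        rw [hl2]
        have ha := arith_neg (X := κ ^ 0) h0 hW hκ (by simp) hZ hZY
        have h5 : 0 ≤ η * (W * 2 * κ * κ ^ f.length) := by positivity
        rw [add_div]
        simp only [List.length_nil] at *
        refine (norm_add_le _ _).trans ?_
        linarith
      · have hr1 : FreeGroup.IsReduced u := hred_part hred ⟨[], (j, false) :: f, by simp⟩
        have hc : ‖tau (wordF b u)‖ ≤ η := hη _ hr1 hun (by omega)
        obtain ⟨C2, hC2, H2⟩ := ih
          (items ++ [(wordF b u - tau (wordF b u) • (1 : FA m), j, false)]) [(j, false)] j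
          (W * (κ ^ u.length + 1) * 2) (by positivity) (by simp)
          (List.isChain_append.2 ⟨hch, by simp, fun x _ y hy _ => by
            simp only [List.head?_cons, Option.mem_def, Option.some.injEq] at hy
            rw [← hy]
            exact tau_center _⟩)
          (by simp) hredj (by simp) (by simp; omega)
          (opn_evI_snoc hW items hI _ _ (opn_center b κ hκ hb _ _ (hc.trans h1)) j false)
        refine ⟨C1 + C2, by positivity, fun N hN D => ?_⟩
        rw [step_neg, ← wordF_snoc_false, center_step b D items (wordF b u) (fst' (b j))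
          (tau (wordF b u))]
        have H1' := H1 N hN D
        have H2' := H2 N hN D
        rw [e2] at H2'
        have H3 := norm_Er b κ hκ hb hW items hI (fst' (b j)) κ hfst j false f N D
        have hEr : ‖tau (wordF b u) * Er b D items (fst' (b j)) j false f‖ ≤
            η * (W * 2 * κ * κ ^ f.length) := by
          rw [norm_mul]
          exact mul_le_mul hc H3 (norm_nonneg _) h0
        have hN1 : ‖nph D j false * Q b D items (wordF b (u ++ [(j, false)])) f‖ ≤
            η * (W * κ ^ (u ++ [(j, false)]).length * (8 * κ) ^ f.length) + C1 / N := by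
          rw [norm_mul]
          exact (mul_le_of_le_one_left (norm_nonneg _) (norm_nph _ _ _)).trans H1'
        have hl1 : κ ^ (u ++ [(j, false)]).length = κ ^ u.length * κ := by
          simp [pow_succ]
        rw [hl1] at hN1
        have hl2 : (8 * κ) ^ ((j, false) :: f).length = (8 * κ) ^ f.length * (8 * κ) := by
          simp [pow_succ]
        have hl3 : κ ^ [(j, false)].length = κ := by simp
        rw [hl3] at H2'
        rw [hl2]
        have ha := arith_neg h0 hW hκ hX hZ hZY
        have ht := norm_add₃_le (a := nph D j false * Q b D items (wordF b (u ++ [(j, false)])) f)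
          (b := tau (wordF b u) * Er b D items (fst' (b j)) j false f)
          (c := Q b D (items ++ [(wordF b u - tau (wordF b u) • (1 : FA m), j, false)])
            (fst' (b j)) f)
        rw [add_assoc] at ht
        rw [add_div]
        linarith

theorem lemB (b : Fin n → FA m) (n0 : FA m) (κ : ℝ) (hκ : 1 ≤ κ)
    (hb : ∀ i (N : ℕ) (V : Fin m → UN N), opn (evV V (b i)) ≤ κ)
    (hn0 : ∀ (N : ℕ) (V : Fin m → UN N), opn (evV V n0) ≤ κ)
    (η : ℝ) (h0 : 0 ≤ η) (h1 : η ≤ 1) (L : ℕ)
    (hη : ∀ u : List (Fin n × Bool), FreeGroup.IsReduced u → u ≠ [] → u.length ≤ L →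
      ‖tau (wordF b u)‖ ≤ η) (f : List (Fin n × Bool)) :
    ∀ (u : List (Fin n × Bool)), FreeGroup.IsReduced f → f.length ≤ L →
      ∃ C : ℝ, 0 ≤ C ∧ ∀ N : ℕ, 0 < N → ∀ D : Fin n → UN N,
        ‖Q b D [] (n0 * wordF b u) f - phP D f * tau (n0 * wordF b (u ++ f))‖ ≤
          η * (κ * κ ^ u.length * (8 * κ) ^ f.length) + C / N := by
  have hκ0 : 0 ≤ κ := by linarith
  have hnu : ∀ (u : List (Fin n × Bool)) (N : ℕ) (V : Fin m → UN N),
      opn (evV V (n0 * wordF b u)) ≤ κ * κ ^ u.length := fun u N V => by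
    rw [map_mul]
    exact (opn_mul _ _).trans (mul_le_mul (hn0 _ _) (opn_wordF b κ hκ hb V u) (opn_nonneg _) hκ0)
  have hI0 : ∀ (N : ℕ) (D : Fin n → UN N) (U : Fin m ⊕ Fin n → UN N),
      opn (evI D U ([] : List (FA m × Fin n × Bool))) ≤ 1 := fun N D U => by
    simp only [evI, List.map_nil, List.prod_nil]
    exact opn_one
  induction f with
  | nil =>
    intro u _ _
    obtain ⟨C, hC, h⟩ := expect_evV (n := n) (n0 * wordF b u)
    refine ⟨C, hC, fun N hN D => ?_⟩
    have e : Q b D [] (n0 * wordF b u) [] =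
        ∫ U : Fin m ⊕ Fin n → UN N, ntr (evV (Vp U) (n0 * wordF b u))
          ∂(PP (Fin m ⊕ Fin n) N) := by
      unfold Q
      simp [tokP, evI]
    rw [e]
    have e2 : phP D ([] : List (Fin n × Bool)) = 1 := by simp [phP]
    rw [e2, one_mul, List.append_nil]
    refine (h N hN).trans ?_
    have : 0 ≤ η * (κ * κ ^ u.length * (8 * κ) ^ ([] : List (Fin n × Bool)).length) := by
      positivity
    linarith
  | cons x f ih =>
    intro u hred hlen
    obtain ⟨j, e⟩ := x
    have hlen' : f.length + 1 ≤ L := by simpa using hlen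
    have hredf' : FreeGroup.IsReduced f := hred_part hred ⟨[(j, e)], [], by simp⟩
    have hX : 1 ≤ κ ^ u.length := one_le_pow₀ hκ
    have hY : 0 ≤ (8 * κ) ^ f.length := by positivity
    have hT : 0 ≤ η * (κ * (κ ^ u.length * κ) * (8 * κ) ^ f.length) := by positivity
    have hcalc : ∀ T : ℝ, T = η * (κ * (κ ^ u.length * κ) * (8 * κ) ^ f.length) →
        η * (κ * κ ^ u.length * ((8 * κ) ^ f.length * (8 * κ))) = 8 * T := by
      intro T hT
      rw [hT]
      ring
    cases e with
    | true =>
      obtain ⟨C1, hC1, H1⟩ := ih (u ++ [(j, true)]) hredf' (by omega)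
      obtain ⟨C2, hC2, H2⟩ := lemA b κ hκ hb η h0 h1 L hη f
        ([] ++ [(n0 * wordF b (u ++ [(j, true)]), j, true)]) [] j
        (1 * (κ * κ ^ (u ++ [(j, true)]).length) * 2) (by positivity) (by simp) (by simp)
        (by simp) (by simpa using hredf') (fun _ => hred) (by simp; omega)
        (opn_evI_snoc zero_le_one [] hI0 _ _ (hnu _) j true)
      refine ⟨C1 + C2, by positivity, fun N hN D => ?_⟩
      have e3 : phP D ((j, true) :: f) = nph D j true * phP D f := by simp [phP]
      have e4 : u ++ (j, true) :: f = (u ++ [(j, true)]) ++ f := by simp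
      rw [step_pos, mul_assoc, ← wordF_snoc_true, e3, e4]
      have H1' := H1 N hN D
      have H2' := H2 N hN D
      have e1 : wordF b ([] : List (Fin n × Bool)) = 1 := by simp [wordF]
      rw [e1] at H2'
      have e5 : nph D j true * Q b D [] (n0 * wordF b (u ++ [(j, true)])) f +
          Q b D ([] ++ [(n0 * wordF b (u ++ [(j, true)]), j, true)]) 1 f -
          nph D j true * phP D f * tau (n0 * wordF b (u ++ [(j, true)] ++ f)) =
          nph D j true * (Q b D [] (n0 * wordF b (u ++ [(j, true)])) f -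
            phP D f * tau (n0 * wordF b (u ++ [(j, true)] ++ f))) +
          Q b D ([] ++ [(n0 * wordF b (u ++ [(j, true)]), j, true)]) 1 f := by ring
      rw [e5]
      refine (norm_add_le _ _).trans ?_
      have hN1 := (mul_le_of_le_one_left (norm_nonneg (Q b D [] (n0 * wordF b (u ++ [(j, true)])) f -
            phP D f * tau (n0 * wordF b (u ++ [(j, true)] ++ f)))) (norm_nph D j true)).trans H1'
      rw [← norm_mul] at hN1
      have hl1 : κ ^ (u ++ [(j, true)]).length = κ ^ u.length * κ := by
        simp [pow_succ]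
      rw [hl1] at hN1 H2'
      have hl2 : (8 * κ) ^ ((j, true) :: f).length = (8 * κ) ^ f.length * (8 * κ) := by
        simp [pow_succ]
      rw [hl2, hcalc _ rfl, add_div]
      have e6 : η * (1 * (κ * (κ ^ u.length * κ)) * 2 * κ ^ ([] : List (Fin n × Bool)).length *
          (8 * κ) ^ f.length) = 2 * (η * (κ * (κ ^ u.length * κ) * (8 * κ) ^ f.length)) := by
        simp only [List.length_nil, pow_zero]
        ring
      rw [e6] at H2'
      linarith
    | false =>
      obtain ⟨C1, hC1, H1⟩ := ih (u ++ [(j, false)]) hredf' (by omega)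
      obtain ⟨C2, hC2, H2⟩ := lemA b κ hκ hb η h0 h1 L hη f
        ([] ++ [(n0 * wordF b u, j, false)]) [(j, false)] j
        (1 * (κ * κ ^ u.length) * 2) (by positivity) (by simp) (by simp)
        (by simp) (by simpa using hred) (by simp) (by simp; omega)
        (opn_evI_snoc zero_le_one [] hI0 _ _ (hnu _) j false)
      refine ⟨C1 + C2, by positivity, fun N hN D => ?_⟩
      have e3 : phP D ((j, false) :: f) = nph D j false * phP D f := by simp [phP]
      have e4 : u ++ (j, false) :: f = (u ++ [(j, false)]) ++ f := by simp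
      rw [step_neg, mul_assoc, ← wordF_snoc_false, e3, e4]
      have H1' := H1 N hN D
      have H2' := H2 N hN D
      have e1 : wordF b [(j, false)] = fst' (b j) := by simp [wordF]
      rw [e1] at H2'
      have e5 : nph D j false * Q b D [] (n0 * wordF b (u ++ [(j, false)])) f +
          Q b D ([] ++ [(n0 * wordF b u, j, false)]) (fst' (b j)) f -
          nph D j false * phP D f * tau (n0 * wordF b (u ++ [(j, false)] ++ f)) =
          nph D j false * (Q b D [] (n0 * wordF b (u ++ [(j, false)])) f -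
            phP D f * tau (n0 * wordF b (u ++ [(j, false)] ++ f))) +
          Q b D ([] ++ [(n0 * wordF b u, j, false)]) (fst' (b j)) f := by ring
      rw [e5]
      refine (norm_add_le _ _).trans ?_
      have hN1 := (mul_le_of_le_one_left (norm_nonneg (Q b D [] (n0 * wordF b (u ++ [(j, false)])) f -
            phP D f * tau (n0 * wordF b (u ++ [(j, false)] ++ f)))) (norm_nph D j false)).trans H1'
      rw [← norm_mul] at hN1
      have hl1 : κ ^ (u ++ [(j, false)]).length = κ ^ u.length * κ := by
        simp [pow_succ]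
      rw [hl1] at hN1
      have hl2 : (8 * κ) ^ ((j, false) :: f).length = (8 * κ) ^ f.length * (8 * κ) := by
        simp [pow_succ]
      rw [hl2, hcalc _ rfl, add_div]
      have e6 : η * (1 * (κ * κ ^ u.length) * 2 * κ ^ [(j, false)].length *
          (8 * κ) ^ f.length) = 2 * (η * (κ * (κ ^ u.length * κ) * (8 * κ) ^ f.length)) := by
        simp only [List.length_singleton, pow_one]
        ring
      rw [e6] at H2'
      linarith

end Mix

theorem mixed {m n : ℕ} (b : Fin n → FA m) (n0 : FA m) (κ : ℝ) (hκ : 1 ≤ κ)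
    (hb : ∀ i (N : ℕ) (V : Fin m → UN N), opn (evV V (b i)) ≤ κ)
    (hn0 : ∀ (N : ℕ) (V : Fin m → UN N), opn (evV V n0) ≤ κ)
    (f : List (Fin n × Bool)) (hf : FreeGroup.IsReduced f) (η : ℝ) (h0 : 0 ≤ η) (h1 : η ≤ 1)
    (hη : ∀ u : List (Fin n × Bool), FreeGroup.IsReduced u → u ≠ [] → u.length ≤ f.length →
      ‖tau (wordF b u)‖ ≤ η) :
    ∃ C : ℝ, 0 ≤ C ∧ ∀ N : ℕ, 0 < N → ∀ D : Fin n → UN N,
      ‖(∫ U, ntr (evV (Vp U) n0 * tokP b D U f) ∂(PP (Fin m ⊕ Fin n) N)) -
        phP D f * tau (n0 * wordF b f)‖ ≤ η * (32 * κ) ^ (f.length + 2) + C / N := by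
  obtain ⟨C, hC, h⟩ := Mix.lemB b n0 κ hκ hb hn0 η h0 h1 f.length hη f [] hf le_rfl
  refine ⟨C, hC, fun N hN D => ?_⟩
  have h2 := h N hN D
  have e1 : wordF b ([] : List (Fin n × Bool)) = 1 := by simp [wordF]
  have e2 : Mix.Q b D [] (n0 * wordF b ([] : List (Fin n × Bool))) f =
      ∫ U, ntr (evV (Vp U) n0 * tokP b D U f) ∂(PP (Fin m ⊕ Fin n) N) := by
    unfold Mix.Q
    rw [e1]
    simp [evI]
  rw [e2, List.nil_append] at h2
  refine h2.trans ?_
  have h3 : κ * κ ^ ([] : List (Fin n × Bool)).length * (8 * κ) ^ f.length ≤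
      (32 * κ) ^ (f.length + 2) := by
    simp only [List.length_nil, pow_zero, mul_one]
    have hκ0 : 0 ≤ κ := by linarith
    have h4 : (8 * κ) ^ f.length ≤ (32 * κ) ^ f.length :=
      pow_le_pow_left₀ (by positivity) (by linarith) _
    have h5 : κ ≤ (32 * κ) ^ 2 := by nlinarith
    rw [pow_add, mul_comm]
    exact mul_le_mul h4 h5 hκ0 (by positivity)
  have := mul_le_mul_of_nonneg_left h3 h0
  linarith

end Pool.Agent.H710R2.FF
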