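import Mathlib
import Pool.Agent.H710R2.FF.Defs2
import Pool.Agent.H710R2.FF.Basic
import Pool.Agent.H710R2.FF.Mix
import Pool.Agent.H710R2.FF.Apx
import Pool.Agent.H710R2.FF.Rc

/-!
# ERR: the error of the estimator
-/

set_option autoImplicit false
set_option linter.unusedSectionVars false

open MeasureTheory
open scoped ComplexConjugate InnerProductSpace

noncomputable section

namespace Pool.Agent.H710R2.FF

namespace ErrAux

open Pool.Agent.Helper278 Pool.Agent.Helper436.SN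

/-! ### matrices: telescoping -/

section mat
variable {N : ℕ} {X : Type}

theorem opn_prod_le_one (p : X → Mt N) (hp : ∀ x, opn (p x) ≤ 1) (l : List X) :
    opn (l.map p).prod ≤ 1 := by
  induction l with
  | nil => simpa using opn_one (N := N)
  | cons x l ih =>
    rw [List.map_cons, List.prod_cons]
    refine (opn_mul _ _).trans ?_
    have h1 := opn_nonneg (p x)
    have h2 := opn_nonneg (l.map p).prod
    nlinarith [hp x]

theorem opn_tele (p q : X → Mt N) (η : ℝ) (hη : 0 ≤ η) (hp : ∀ x, opn (p x) ≤ 1)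
    (hq : ∀ x, opn (q x) ≤ 2) (hpq : ∀ x, opn (p x - q x) ≤ η) (l : List X) :
    opn ((l.map p).prod - (l.map q).prod) ≤ l.length * 2 ^ l.length * η := by
  induction l with
  | nil =>
    simp only [List.map_nil, List.prod_nil, sub_self, List.length_nil, Nat.cast_zero, zero_mul]
    have h := opn_smul (0 : ℂ) (1 : Mt N)
    rw [zero_smul, norm_zero, zero_mul] at h
    exact h.le
  | cons x l ih =>
    rw [List.map_cons, List.prod_cons, List.map_cons, List.prod_cons]
    have h1 : p x * (l.map p).prod - q x * (l.map q).prod =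
        (p x - q x) * (l.map p).prod + q x * ((l.map p).prod - (l.map q).prod) := by
      rw [sub_mul, mul_sub]; abel
    rw [h1]
    refine (opn_add _ _).trans ?_
    have h2 : opn ((p x - q x) * (l.map p).prod) ≤ η * 1 :=
      (opn_mul _ _).trans (mul_le_mul (hpq x) (opn_prod_le_one p hp l) (opn_nonneg _) hη)
    have h3 : opn (q x * ((l.map p).prod - (l.map q).prod)) ≤ 2 * (l.length * 2 ^ l.length * η) :=
      (opn_mul _ _).trans (mul_le_mul (hq x) ih (opn_nonneg _) (by norm_num))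
    have h4 : η ≤ 2 ^ (l.length + 1) * η := le_mul_of_one_le_left hη (one_le_pow₀ (by norm_num))
    rw [List.length_cons, pow_succ]
    rw [pow_succ] at h4
    push_cast
    nlinarith

end mat

/-! ### operators: telescoping -/

section opr
variable {m n : ℕ}

/-- letters -/
def let' (a : Fin n → EllTwo (FreeGroup (Fin m)) →L[ℂ] EllTwo (FreeGroup (Fin m)))
    (x : Fin n × Bool) : EllTwo (FreeGroup (Fin m)) →L[ℂ] EllTwo (FreeGroup (Fin m)) :=
  if x.2 then a x.1 else star (a x.1)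

theorem wordO_eq (a : Fin n → EllTwo (FreeGroup (Fin m)) →L[ℂ] EllTwo (FreeGroup (Fin m)))
    (f : List (Fin n × Bool)) : wordO a f = (f.map (let' a)).prod := rfl

theorem let_mem {a : Fin n → EllTwo (FreeGroup (Fin m)) →L[ℂ] EllTwo (FreeGroup (Fin m))}
    (ha : ∀ i, a i ∈ RC (FreeGroup (Fin m))) (x : Fin n × Bool) :
    let' a x ∈ RC (FreeGroup (Fin m)) := by
  unfold let'
  split_ifs
  · exact ha _
  · exact RC_star (ha _)

theorem wordO_mem {a : Fin n → EllTwo (FreeGroup (Fin m)) →L[ℂ] EllTwo (FreeGroup (Fin m))}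
    (ha : ∀ i, a i ∈ RC (FreeGroup (Fin m))) (f : List (Fin n × Bool)) :
    wordO a f ∈ RC (FreeGroup (Fin m)) := by
  rw [wordO_eq]
  induction f with
  | nil => exact RC_one
  | cons x f ih =>
    rw [List.map_cons, List.prod_cons]
    exact RC_mul (let_mem ha x) ih

theorem let_norm {a : Fin n → EllTwo (FreeGroup (Fin m)) →L[ℂ] EllTwo (FreeGroup (Fin m))}
    {κ : ℝ} (ha : ∀ i, ‖a i‖ ≤ κ) (x : Fin n × Bool) : ‖let' a x‖ ≤ κ := by
  unfold let'
  split_ifs
  · exact ha _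
  · rw [ContinuousLinearMap.star_eq_adjoint, LinearIsometryEquiv.norm_map]; exact ha _

theorem wordO_norm {a : Fin n → EllTwo (FreeGroup (Fin m)) →L[ℂ] EllTwo (FreeGroup (Fin m))}
    (ha : ∀ i, ‖a i‖ ≤ 1) (f : List (Fin n × Bool)) : ‖wordO a f‖ ≤ 1 := by
  rw [wordO_eq]
  induction f with
  | nil => exact ContinuousLinearMap.norm_id_le
  | cons x f ih =>
    rw [List.map_cons, List.prod_cons]
    refine (norm_mul_le _ _).trans ?_
    have h1 := norm_nonneg (let' a x)
    have h2 := norm_nonneg (f.map (let' a)).prod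
    nlinarith [let_norm ha x]

theorem n2_tele {a a' : Fin n → EllTwo (FreeGroup (Fin m)) →L[ℂ] EllTwo (FreeGroup (Fin m))}
    (ha : ∀ i, a i ∈ RC (FreeGroup (Fin m))) (ha' : ∀ i, a' i ∈ RC (FreeGroup (Fin m)))
    (η : ℝ) (hη : 0 ≤ η) (h1 : ∀ i, ‖a i‖ ≤ 1) (h2 : ∀ i, ‖a' i‖ ≤ 2)
    (h3 : ∀ i, n2 (a' i - a i) ≤ η) (f : List (Fin n × Bool)) :
    n2 (wordO a' f - wordO a f) ≤ f.length * 2 ^ f.length * η := by
  have h3' : ∀ x, n2 (let' a' x - let' a x) ≤ η := by
    intro x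
    unfold let'
    split_ifs
    · exact h3 _
    · rw [← star_sub, n2_star (RC_sub (ha' _) (ha _))]; exact h3 _
  induction f with
  | nil =>
    simp only [wordO_eq, List.map_nil, List.prod_nil, sub_self, List.length_nil, Nat.cast_zero,
      zero_mul]
    simp [n2]
  | cons x f ih =>
    have e : wordO a' (x :: f) - wordO a (x :: f) =
        let' a' x * (wordO a' f - wordO a f) + (let' a' x - let' a x) * wordO a f := by
      simp only [wordO_eq, List.map_cons, List.prod_cons]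
      rw [sub_mul, mul_sub]; abel
    rw [e]
    refine (n2_add _ _).trans ?_
    have h4 : n2 (let' a' x * (wordO a' f - wordO a f)) ≤ 2 * (f.length * 2 ^ f.length * η) :=
      (n2_mul_left _ _).trans (mul_le_mul (let_norm h2 x) ih (n2_nonneg _) (by norm_num))
    have h5 : n2 ((let' a' x - let' a x) * wordO a f) ≤ 1 * η :=
      (n2_mul_right (RC_sub (let_mem ha' x) (let_mem ha x)) (wordO_mem ha f)).trans
        (mul_le_mul (wordO_norm h1 f) (h3' x) (n2_nonneg _) (by norm_num))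
    have h6 : η ≤ 2 ^ (f.length + 1) * η := le_mul_of_one_le_left hη (one_le_pow₀ (by norm_num))
    rw [List.length_cons, pow_succ]
    rw [pow_succ] at h6
    push_cast
    nlinarith

end opr

/-! ### the noisy unitaries -/

section bn
variable {m n N : ℕ}

/-- the noisy unitaries -/
def Bn (A : (Fin m → UN N) → (Fin n → UN N)) (D : Fin n → UN N) (U : Fin m ⊕ Fin n → UN N)
    (i : Fin n) : UN N := A (Vp U) i * (U (Sum.inr i) * D i * (U (Sum.inr i))⁻¹)

/-- words in unitaries -/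
def fw {n : ℕ} (B : Fin n → UN N) (g : FreeGroup (Fin n)) : Mt N :=
  ((FreeGroup.lift B g : UN N) : Mt N)

/-- one letter -/
def ltr {n : ℕ} (B : Fin n → UN N) (x : Fin n × Bool) : Mt N :=
  if x.2 then (B x.1 : Mt N) else star (B x.1 : Mt N)

theorem fw_word (B : Fin n → UN N) (g : FreeGroup (Fin n)) :
    fw B g = (g.toWord.map (ltr B)).prod := by
  unfold fw
  conv_lhs => rw [← FreeGroup.mk_toWord (x := g), FreeGroup.lift_mk]
  generalize g.toWord = l
  induction l with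
  | nil => simp
  | cons x l ih =>
    rw [List.map_cons, List.prod_cons, List.map_cons, List.prod_cons, ← ih]
    rw [Matrix.UnitaryGroup.mul_val]
    congr 1
    unfold ltr
    rcases x with ⟨i, e⟩
    cases e <;> simp

theorem continuous_lift {k : ℕ} (g : FreeGroup (Fin k)) :
    Continuous fun B : Fin k → UN N => (FreeGroup.lift B g : UN N) := by
  have h : (fun B : Fin k → UN N => (FreeGroup.lift B g : UN N)) = fun B =>
      (g.toWord.map fun x => cond x.2 (B x.1) (B x.1)⁻¹).prod := by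
    funext B
    conv_lhs => rw [← FreeGroup.mk_toWord (x := g), FreeGroup.lift_mk]
  rw [h]
  refine continuous_list_prod _ fun x _ => ?_
  rcases x with ⟨i, e⟩
  cases e
  · exact (continuous_apply i).inv
  · exact continuous_apply i

theorem continuous_fw {k : ℕ} (g : FreeGroup (Fin k)) : Continuous fun B : Fin k → UN N => fw B g :=
  continuous_subtype_val.comp (continuous_lift g)

theorem continuous_Vp : Continuous fun U : Fin m ⊕ Fin n → UN N => Vp U := by
  unfold Vp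
  fun_prop

theorem continuous_Bn {A : (Fin m → UN N) → (Fin n → UN N)} (hA : Continuous A)
    (D : Fin n → UN N) : Continuous (Bn A D) := by
  refine continuous_pi fun i => ?_
  have h1 : Continuous fun U : Fin m ⊕ Fin n → UN N => A (Vp U) i :=
    (continuous_apply i).comp (hA.comp continuous_Vp)
  have h2 : Continuous fun U : Fin m ⊕ Fin n → UN N => U (Sum.inr i) := continuous_apply _
  exact h1.mul ((h2.mul continuous_const).mul h2.inv)

theorem ltr_Bn_true (A : (Fin m → UN N) → (Fin n → UN N)) (D : Fin n → UN N)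
    (U : Fin m ⊕ Fin n → UN N) (i : Fin n) :
    ltr (Bn A D U) (i, true) = (A (Vp U) i : Mt N) * noise D U i true := by
  simp [ltr, Bn, noise]

theorem ltr_Bn_false (A : (Fin m → UN N) → (Fin n → UN N)) (D : Fin n → UN N)
    (U : Fin m ⊕ Fin n → UN N) (i : Fin n) :
    ltr (Bn A D U) (i, false) = noise D U i false * star (A (Vp U) i : Mt N) := by
  simp [ltr, Bn, noise, mul_assoc]

theorem opn_noise (D : Fin n → UN N) (U : Fin m ⊕ Fin n → UN N) (i : Fin n) (e : Bool) :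
    opn (noise D U i e) ≤ 1 := by
  unfold noise
  have h1 := opn_unitary (U (Sum.inr i))
  have h2 : opn (star (U (Sum.inr i) : Mt N)) ≤ 1 := by rw [opn_star]; exact h1
  have h3 : opn (if e then (D i : Mt N) else star (D i : Mt N)) ≤ 1 := by
    split_ifs
    · exact opn_unitary _
    · rw [opn_star]; exact opn_unitary _
  have h4 := opn_mul (U (Sum.inr i) : Mt N) (if e then (D i : Mt N) else star (D i : Mt N))
  have h5 := opn_mul ((U (Sum.inr i) : Mt N) * (if e then (D i : Mt N) else star (D i : Mt N)))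
    (star (U (Sum.inr i) : Mt N))
  have h6 := opn_nonneg (U (Sum.inr i) : Mt N)
  have h7 := opn_nonneg (if e then (D i : Mt N) else star (D i : Mt N))
  have h8 := opn_nonneg ((U (Sum.inr i) : Mt N) * (if e then (D i : Mt N) else star (D i : Mt N)))
  have h9 := opn_nonneg (star (U (Sum.inr i) : Mt N))
  have h10 : opn ((U (Sum.inr i) : Mt N) * (if e then (D i : Mt N) else star (D i : Mt N))) ≤ 1 :=
    h4.trans (mul_le_one₀ h1 h7 h3)
  exact h5.trans (mul_le_one₀ h10 h9 h2)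

theorem opn_ltr (B : Fin n → UN N) (x : Fin n × Bool) : opn (ltr B x) ≤ 1 := by
  unfold ltr
  split_ifs
  · exact opn_unitary _
  · rw [opn_star]; exact opn_unitary _

theorem opn_fw (B : Fin n → UN N) (g : FreeGroup (Fin n)) : opn (fw B g) ≤ 1 := opn_unitary _

theorem tok_diff (b : Fin n → FA m) (A : (Fin m → UN N) → (Fin n → UN N)) {η : ℝ} (hη : 0 ≤ η)
    (hA : ∀ V i, opn (evV V (b i) - (A V i : Mt N)) ≤ η) (D : Fin n → UN N)
    (U : Fin m ⊕ Fin n → UN N) (x : Fin n × Bool) : opn (ltr (Bn A D U) x - tok b D U x) ≤ η := by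
  rcases x with ⟨i, e⟩
  have h0 := hA (Vp U) i
  have h1 := opn_noise D U i e
  have h2 := opn_nonneg (noise D U i e)
  cases e
  · rw [ltr_Bn_false]
    unfold tok
    simp only [Bool.false_eq_true, if_false]
    rw [evV_fst, ← mul_sub, ← star_sub]
    refine (opn_mul _ _).trans ?_
    rw [opn_star]
    have h3 : opn ((A (Vp U) i : Mt N) - evV (Vp U) (b i)) ≤ η := by
      rw [← neg_sub]
      have := opn_smul (-1 : ℂ) (evV (Vp U) (b i) - (A (Vp U) i : Mt N))
      rw [neg_one_smul, norm_neg, norm_one, one_mul] at this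
      rw [this]
      exact h0
    calc _ ≤ 1 * η := mul_le_mul h1 h3 (opn_nonneg _) (by norm_num)
      _ = η := one_mul _
  · rw [ltr_Bn_true]
    unfold tok
    simp only [if_true]
    rw [← sub_mul]
    refine (opn_mul _ _).trans ?_
    have h3 : opn ((A (Vp U) i : Mt N) - evV (Vp U) (b i)) ≤ η := by
      rw [← neg_sub]
      have := opn_smul (-1 : ℂ) (evV (Vp U) (b i) - (A (Vp U) i : Mt N))
      rw [neg_one_smul, norm_neg, norm_one, one_mul] at this
      rw [this]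
      exact h0
    calc _ ≤ η * 1 := mul_le_mul h3 h1 h2 hη
      _ = η := mul_one _

theorem opn_tok (b : Fin n → FA m) (hb : ∀ i (V : Fin m → UN N), opn (evV V (b i)) ≤ 2)
    (D : Fin n → UN N) (U : Fin m ⊕ Fin n → UN N) (x : Fin n × Bool) : opn (tok b D U x) ≤ 2 := by
  rcases x with ⟨i, e⟩
  have h1 := opn_noise D U i e
  have h2 := opn_nonneg (noise D U i e)
  unfold tok
  cases e
  · simp only [Bool.false_eq_true, if_false]
    rw [evV_fst]
    refine (opn_mul _ _).trans ?_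
    rw [opn_star]
    calc _ ≤ 1 * 2 := mul_le_mul h1 (hb i _) (opn_nonneg _) (by norm_num)
      _ = 2 := one_mul _
  · simp only [if_true]
    refine (opn_mul _ _).trans ?_
    calc _ ≤ 2 * 1 := mul_le_mul (hb i _) h1 h2 (by norm_num)
      _ = 2 := mul_one _

theorem fw_tokP (b : Fin n → FA m) (A : (Fin m → UN N) → (Fin n → UN N)) {η : ℝ} (hη : 0 ≤ η)
    (hA : ∀ V i, opn (evV V (b i) - (A V i : Mt N)) ≤ η)
    (hb : ∀ i (V : Fin m → UN N), opn (evV V (b i)) ≤ 2) (D : Fin n → UN N)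
    (U : Fin m ⊕ Fin n → UN N) (u : FreeGroup (Fin n)) :
    opn (fw (Bn A D U) u - tokP b D U u.toWord) ≤
      u.toWord.length * 2 ^ u.toWord.length * η := by
  rw [fw_word]
  exact opn_tele _ _ η hη (opn_ltr _) (opn_tok b hb D U) (tok_diff b A hη hA D U) _

theorem norm_phP (D : Fin n → UN N) (f : List (Fin n × Bool)) : ‖phP D f‖ ≤ 1 := by
  unfold phP
  induction f with
  | nil => simp
  | cons x f ih =>
    rw [List.map_cons, List.prod_cons, norm_mul]
    have h : ‖nph D x.1 x.2‖ ≤ 1 := by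
      unfold nph
      split_ifs
      · exact (norm_ntr_le _).trans (opn_unitary _)
      · rw [RCLike.norm_conj]; exact (norm_ntr_le _).trans (opn_unitary _)
    exact mul_le_one₀ h (norm_nonneg _) ih

theorem phP_close (D : Fin n → UN N) (t : ℝ) (h : ∀ i, ‖1 - ntr (D i : Mt N)‖ ≤ t)
    (f : List (Fin n × Bool)) : ‖1 - phP D f‖ ≤ f.length * t := by
  induction f with
  | nil => simp [phP]
  | cons x f ih =>
    have h1 : phP D (x :: f) = nph D x.1 x.2 * phP D f := by simp [phP]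
    have h2 : ‖1 - nph D x.1 x.2‖ ≤ t := by
      unfold nph
      split_ifs
      · exact h _
      · have : (1 : ℂ) - conj (ntr (D x.1 : Mt N)) = conj (1 - ntr (D x.1 : Mt N)) := by simp
        rw [this, RCLike.norm_conj]; exact h _
    have h3 : 1 - phP D (x :: f) = (1 - nph D x.1 x.2) * phP D f + (1 - phP D f) := by
      rw [h1]; ring
    rw [h3, List.length_cons]
    refine (norm_add_le _ _).trans ?_
    rw [norm_mul]
    have h4 := norm_phP D f
    have h5 := norm_nonneg (1 - nph D x.1 x.2)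
    have h6 := norm_nonneg (phP D f)
    push_cast
    nlinarith

/-- trace of a matrix in `Qr` -/
theorem ntr_Qr (hN : 0 < N) {r : ℝ} {D : UN N} (hD : D ∈ Qr N r) :
    ‖1 - ntr (D : Mt N)‖ ≤ r ^ 2 / 2 + (N : ℝ)⁻¹ := by
  have h1 : (hs2 ((D : Mt N) - 1) : ℂ) = 2 - ntr (D : Mt N) - conj (ntr (D : Mt N)) := by
    rw [hs2_eq, ← ntr_star]
    have h2 : star ((D : Mt N) - 1) * ((D : Mt N) - 1) = 1 + 1 - (D : Mt N) - star (D : Mt N) := by
      have h3 : star (D : Mt N) * (D : Mt N) = 1 := D.2.1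
      rw [star_sub, star_one, sub_mul, mul_sub, mul_sub, h3, one_mul, mul_one, mul_one]
      abel
    rw [h2, ntr_sub, ntr_sub, ntr_add, ntr_one hN]
    ring
  have h2 : hs2 ((D : Mt N) - 1) = 2 - 2 * (ntr (D : Mt N)).re := by
    have h3 := congrArg Complex.re h1
    simp only [Complex.ofReal_re, Complex.sub_re, Complex.conj_re] at h3
    rw [h3]
    norm_num
    ring
  obtain ⟨h3, h4⟩ := hD
  have h5 := hs2_nonneg ((D : Mt N) - 1)
  rw [h2] at h3 h5
  have h6 := Complex.norm_le_abs_re_add_abs_im (1 - ntr (D : Mt N))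
  simp only [Complex.sub_re, Complex.one_re, Complex.sub_im, Complex.one_im, zero_sub,
    abs_neg] at h6
  have h7 : |1 - (ntr (D : Mt N)).re| ≤ r ^ 2 / 2 := by
    rw [abs_of_nonneg (by linarith)]
    linarith
  linarith

end bn

/-! ### expansion -/

section expansion
variable {n N : ℕ}

/-- the normalised trace as a linear map -/
def ntrL (N : ℕ) : Mt N →ₗ[ℂ] ℂ where
  toFun := ntr
  map_add' := ntr_add
  map_smul' := fun c X => by rw [ntr_smul]; rfl

theorem ntr_sum {ι : Type} (S : Finset ι) (F : ι → Mt N) : ntr (∑ i ∈ S, F i) = ∑ i ∈ S, ntr (F i) :=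
  map_sum (ntrL N) F S

theorem star_fw_mul (B : Fin n → UN N) (g h : FreeGroup (Fin n)) :
    star (fw B g) * fw B h = fw B (g⁻¹ * h) := by
  unfold fw
  rw [map_mul, map_inv, Matrix.UnitaryGroup.mul_val, Matrix.UnitaryGroup.inv_val]

theorem expand (hN : 0 < N) (S : Finset (FreeGroup (Fin n))) (x : FreeGroup (Fin n) → ℂ)
    (W : UN N) (B : Fin n → UN N) :
    (hs2 ((W : Mt N) - ∑ g ∈ S, x g • fw B g) : ℂ) =
      1 - (∑ g ∈ S, x g * ntr (star (W : Mt N) * fw B g)) -
        conj (∑ g ∈ S, x g * ntr (star (W : Mt N) * fw B g)) +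
        ∑ g ∈ S, ∑ h ∈ S, conj (x g) * x h * ntr (fw B (g⁻¹ * h)) := by
  rw [hs2_eq]
  set Y : Mt N := ∑ g ∈ S, x g • fw B g with hY
  have h0 : star (W : Mt N) * (W : Mt N) = 1 := W.2.1
  have h1 : star ((W : Mt N) - Y) * ((W : Mt N) - Y) =
      1 - star (W : Mt N) * Y - star (star (W : Mt N) * Y) + star Y * Y := by
    rw [star_sub, sub_mul, mul_sub, mul_sub, h0, star_mul, star_star]
    abel
  have h2 : ntr (star (W : Mt N) * Y) = ∑ g ∈ S, x g * ntr (star (W : Mt N) * fw B g) := by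
    rw [hY, Finset.mul_sum, ntr_sum]
    refine Finset.sum_congr rfl fun g _ => ?_
    rw [mul_smul_comm, ntr_smul]
  have h3 : ntr (star Y * Y) = ∑ g ∈ S, ∑ h ∈ S, conj (x g) * x h * ntr (fw B (g⁻¹ * h)) := by
    rw [hY, star_sum, Finset.sum_mul, ntr_sum]
    refine Finset.sum_congr rfl fun g _ => ?_
    rw [Finset.mul_sum, ntr_sum]
    refine Finset.sum_congr rfl fun h _ => ?_
    rw [star_smul, smul_mul_assoc, mul_smul_comm, ntr_smul, ntr_smul, star_fw_mul, mul_assoc]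
    rfl
  rw [h1, ntr_add, ntr_sub, ntr_sub, ntr_one hN, ntr_star, h2, h3]

theorem final_alg {G : Type} [DecidableEq G] (S : Finset G) (x ph m1 : G → ℂ) (m2 : G → G → ℂ)
    (τ : G → ℝ) (δ : ℝ) (h1 : ∀ g ∈ S, ‖m1 g - ph g * conj (x g)‖ ≤ δ)
    (h2 : ∀ g ∈ S, m2 g g = 1) (h3 : ∀ g ∈ S, ∀ h ∈ S, g ≠ h → ‖m2 g h‖ ≤ δ)
    (h4 : ∀ g ∈ S, ‖1 - ph g‖ ≤ τ g) :
    (1 - (∑ g ∈ S, x g * m1 g) - conj (∑ g ∈ S, x g * m1 g) +
      ∑ g ∈ S, ∑ h ∈ S, conj (x g) * x h * m2 g h).re ≤
      1 - ∑ g ∈ S, (1 - 2 * τ g) * ‖x g‖ ^ 2 +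
        (2 * (∑ g ∈ S, ‖x g‖) + (∑ g ∈ S, ‖x g‖) ^ 2) * δ := by
  rcases S.eq_empty_or_nonempty with rfl | hne
  · simp
  have hδ : 0 ≤ δ := by
    obtain ⟨g, hg⟩ := hne
    exact (norm_nonneg _).trans (h1 g hg)
  have e1 : ∀ g ∈ S, (1 - τ g) * ‖x g‖ ^ 2 - ‖x g‖ * δ ≤ (x g * m1 g).re := by
    intro g hg
    have k1 : x g * m1 g = ph g * (‖x g‖ ^ 2 : ℝ) + x g * (m1 g - ph g * conj (x g)) := by
      have : x g * conj (x g) = ((‖x g‖ ^ 2 : ℝ) : ℂ) := by
        rw [Complex.mul_conj, Complex.normSq_eq_norm_sq]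
      rw [← this]
      ring
    have k2 : -(‖x g‖ * δ) ≤ (x g * (m1 g - ph g * conj (x g))).re := by
      have a1 := Complex.abs_re_le_norm (x g * (m1 g - ph g * conj (x g)))
      rw [norm_mul] at a1
      have a2 : ‖x g‖ * ‖m1 g - ph g * conj (x g)‖ ≤ ‖x g‖ * δ :=
        mul_le_mul_of_nonneg_left (h1 g hg) (norm_nonneg _)
      have a3 := (abs_le.mp (a1.trans a2)).1
      exact a3
    have k3 : 1 - τ g ≤ (ph g).re := by
      have a1 := (Complex.re_le_norm (1 - ph g)).trans (h4 g hg)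
      rw [Complex.sub_re, Complex.one_re] at a1
      linarith
    rw [k1, Complex.add_re, Complex.re_mul_ofReal]
    have k4 : (1 - τ g) * ‖x g‖ ^ 2 ≤ (ph g).re * ‖x g‖ ^ 2 :=
      mul_le_mul_of_nonneg_right k3 (by positivity)
    linarith
  have e2 : ∀ g ∈ S, ∀ h ∈ S, (conj (x g) * x h * m2 g h).re ≤
      (if g = h then ‖x g‖ ^ 2 else 0) + ‖x g‖ * ‖x h‖ * δ := by
    intro g hg h hh
    by_cases hgh : g = h
    · subst hgh
      rw [if_pos rfl, h2 g hg, mul_one]
      have : conj (x g) * x g = ((‖x g‖ ^ 2 : ℝ) : ℂ) := by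
        rw [mul_comm, Complex.mul_conj, Complex.normSq_eq_norm_sq]
      rw [this, Complex.ofReal_re]
      have : 0 ≤ ‖x g‖ * ‖x g‖ * δ := by positivity
      linarith
    · rw [if_neg hgh, zero_add]
      refine (Complex.re_le_norm _).trans ?_
      rw [norm_mul, norm_mul, RCLike.norm_conj]
      exact mul_le_mul_of_nonneg_left (h3 g hg h hh hgh) (by positivity)
  have e3 := Finset.sum_le_sum e1
  have e4 := Finset.sum_le_sum fun g hg => Finset.sum_le_sum (e2 g hg)
  rw [Complex.add_re, Complex.sub_re, Complex.sub_re, Complex.conj_re, Complex.one_re,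
    Complex.re_sum, Complex.re_sum]
  simp only [Complex.re_sum]
  have e5 : ∑ g ∈ S, ∑ h ∈ S, ((if g = h then ‖x g‖ ^ 2 else 0) + ‖x g‖ * ‖x h‖ * δ) =
      (∑ g ∈ S, ‖x g‖ ^ 2) + (∑ g ∈ S, ‖x g‖) ^ 2 * δ := by
    simp only [Finset.sum_add_distrib]
    congr 1
    · refine Finset.sum_congr rfl fun g hg => ?_
      rw [Finset.sum_ite_eq, if_pos hg]
    · rw [sq, Finset.sum_mul_sum, Finset.sum_mul]
      refine Finset.sum_congr rfl fun g _ => ?_
      rw [Finset.sum_mul]
  rw [e5] at e4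
  have e6 : ∑ g ∈ S, ((1 - τ g) * ‖x g‖ ^ 2 - ‖x g‖ * δ) =
      ∑ g ∈ S, (1 - τ g) * ‖x g‖ ^ 2 - (∑ g ∈ S, ‖x g‖) * δ := by
    rw [Finset.sum_sub_distrib, Finset.sum_mul]
  rw [e6] at e3
  have e7 : ∑ g ∈ S, (1 - 2 * τ g) * ‖x g‖ ^ 2 =
      2 * ∑ g ∈ S, (1 - τ g) * ‖x g‖ ^ 2 - ∑ g ∈ S, ‖x g‖ ^ 2 := by
    rw [Finset.mul_sum, ← Finset.sum_sub_distrib]
    refine Finset.sum_congr rfl fun g _ => ?_
    ring
  rw [e7]
  linarith

end expansion

/-! ### the key estimate -/

section key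
variable {m n : ℕ}

theorem continuous_evV {N : ℕ} (b : FA m) : Continuous fun V : Fin m → UN N => evV V b := by
  have h : (fun V : Fin m → UN N => evV V b) = fun V =>
      b.coeff.sum fun g c => c • ((FreeGroup.lift V g : UN N) : Mt N) := by
    funext V
    rw [evV, MonoidAlgebra.lift_apply]
    rfl
  rw [h]
  unfold Finsupp.sum
  refine continuous_finsetSum _ fun g _ => ?_
  have hc : Continuous fun V : Fin m → UN N => fw V g := continuous_fw g
  exact hc.const_smul (b.coeff g)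

theorem norm_leftReg_le (g : FreeGroup (Fin m)) : ‖leftReg (FreeGroup (Fin m)) g‖ ≤ 1 := by
  have h1 : star (leftReg (FreeGroup (Fin m)) g) * leftReg (FreeGroup (Fin m)) g = 1 := by
    rw [star_leftReg, ← leftReg_mul, inv_mul_cancel, leftReg_one]
  have h2 : ‖leftReg (FreeGroup (Fin m)) g‖ * ‖leftReg (FreeGroup (Fin m)) g‖ ≤ 1 := by
    rw [← CStarRing.norm_star_mul_self, h1]
    exact ContinuousLinearMap.norm_id_le
  nlinarith [norm_nonneg (leftReg (FreeGroup (Fin m)) g)]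

theorem norm_uni_le {a : EllTwo (FreeGroup (Fin m)) →L[ℂ] EllTwo (FreeGroup (Fin m))}
    (ha : a ∈ unitary (EllTwo (FreeGroup (Fin m)) →L[ℂ] EllTwo (FreeGroup (Fin m)))) :
    ‖a‖ ≤ 1 := by
  have h2 : ‖a‖ * ‖a‖ ≤ 1 := by
    rw [← CStarRing.norm_star_mul_self, ha.1]
    exact ContinuousLinearMap.norm_id_le
  nlinarith [norm_nonneg a]

theorem keyL {a : Fin n → EllTwo (FreeGroup (Fin m)) →L[ℂ] EllTwo (FreeGroup (Fin m))}
    (ha : FreeHaar a) (b : Fin n → FA m) {η : ℝ} (hη0 : 0 ≤ η) (hη1 : η ≤ 1)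
    (hbn : ∀ i, n2 (lamA m (b i) - a i) ≤ η) (hbo : ∀ i, ‖lamA m (b i)‖ ≤ 1 + η)
    (hbV : ∀ i (N : ℕ) (V : Fin m → UN N), opn (evV V (b i)) ≤ 2)
    (K : ℕ) (hK : K * 2 ^ K * η ≤ 1) (h : FreeGroup (Fin m)) (u : FreeGroup (Fin n))
    (hu : u.toWord.length ≤ K) :
    ∃ C : ℝ, 0 ≤ C ∧ ∀ N : ℕ, 0 < N → ∀ A : (Fin m → UN N) → (Fin n → UN N), Continuous A →
      (∀ V i, opn (evV V (b i) - (A V i : Mt N)) ≤ η) → ∀ D : Fin n → UN N,
      ‖(∫ U, ntr (((FreeGroup.lift (Vp U) h : UN N) : Mt N) * fw (Bn A D U) u)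
          ∂(PP (Fin m ⊕ Fin n) N)) -
        phP D u.toWord * tr (leftReg _ h * wordO a u.toWord)‖ ≤
        3 * (K * 2 ^ K * η) * 64 ^ (K + 2) + C / N := by
  have hmono : ∀ l : ℕ, l ≤ K → (l : ℝ) * 2 ^ l * η ≤ K * 2 ^ K * η := by
    intro l hl
    have h1 : (l : ℝ) ≤ K := by exact_mod_cast hl
    have h2 : (2 : ℝ) ^ l ≤ 2 ^ K := pow_le_pow_right₀ (by norm_num) hl
    have h3 : (l : ℝ) * 2 ^ l ≤ K * 2 ^ K := mul_le_mul h1 h2 (by positivity) (by positivity)
    exact mul_le_mul_of_nonneg_right h3 hη0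
  have ha1 : ∀ i, ‖a i‖ ≤ 1 := fun i => norm_uni_le (ha.uni i)
  have hb2 : ∀ i, ‖lamA m (b i)‖ ≤ 2 := fun i => (hbo i).trans (by linarith)
  have htele := fun f => n2_tele (a := a) (a' := fun i => lamA m (b i)) ha.mem
    (fun i => lamA_mem (b i)) η hη0 ha1 hb2 hbn f
  set n0 : FA m := MonoidAlgebra.of ℂ _ h with hn0
  have hev : ∀ (N : ℕ) (V : Fin m → UN N), evV V n0 = ((FreeGroup.lift V h : UN N) : Mt N) := by
    intro N V
    rw [hn0, evV, MonoidAlgebra.lift_of]
    rfl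
  obtain ⟨C, hC, hmix⟩ := mixed b n0 2 (by norm_num) hbV
    (fun N V => by rw [hev]; exact (opn_unitary _).trans (by norm_num)) u.toWord
    FreeGroup.isReduced_toWord (K * 2 ^ K * η) (by positivity) hK (by
      intro v hv hv0 hvl
      rw [← tr_lamA, lamA_wordF]
      have h1 : tr (wordO a v) = 0 := ha.free v hv hv0
      rw [← sub_zero (tr _), ← h1, ← tr_sub]
      exact (norm_tr_le _).trans ((htele v).trans (hmono _ (hvl.trans hu))))
  refine ⟨C, hC, ?_⟩
  intro N hN A hA hAb D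
  have h1 := hmix N hN D
  have hcont1 : Continuous fun U : Fin m ⊕ Fin n → UN N =>
      ntr (((FreeGroup.lift (Vp U) h : UN N) : Mt N) * fw (Bn A D U) u) :=
    continuous_ntr.comp ((continuous_subtype_val.comp ((continuous_lift h).comp continuous_Vp)).mul
      ((continuous_fw u).comp (continuous_Bn hA D)))
  have hcont2 : Continuous fun U : Fin m ⊕ Fin n → UN N =>
      ntr (evV (Vp U) n0 * tokP b D U u.toWord) := by
    refine continuous_ntr.comp (((continuous_evV n0).comp continuous_Vp).mul ?_)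
    refine continuous_list_prod _ fun x _ => ?_
    have hno : Continuous fun U : Fin m ⊕ Fin n → UN N => noise D U x.1 x.2 := by
      unfold noise
      have h2 : Continuous fun U : Fin m ⊕ Fin n → UN N => (U (Sum.inr x.1) : Mt N) :=
        continuous_subtype_val.comp (continuous_apply _)
      exact (h2.mul continuous_const).mul h2.star
    rcases x with ⟨i, e⟩
    unfold tok
    cases e
    · simp only [Bool.false_eq_true, if_false]
      exact hno.mul ((continuous_evV _).comp continuous_Vp)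
    · simp only [if_true]
      exact ((continuous_evV _).comp continuous_Vp).mul hno
  have e1 : ‖(∫ U, ntr (((FreeGroup.lift (Vp U) h : UN N) : Mt N) * fw (Bn A D U) u)
          ∂(PP (Fin m ⊕ Fin n) N)) - ∫ U, ntr (evV (Vp U) n0 * tokP b D U u.toWord)
          ∂(PP (Fin m ⊕ Fin n) N)‖ ≤ K * 2 ^ K * η := by
    rw [← integral_sub (integrable_cont hcont1) (integrable_cont hcont2)]
    have h2 : ∀ U : Fin m ⊕ Fin n → UN N,
        ‖ntr (((FreeGroup.lift (Vp U) h : UN N) : Mt N) * fw (Bn A D U) u) -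
          ntr (evV (Vp U) n0 * tokP b D U u.toWord)‖ ≤ K * 2 ^ K * η := by
      intro U
      rw [hev, ← ntr_sub, ← mul_sub]
      refine (norm_ntr_le _).trans ((opn_mul _ _).trans ?_)
      have h3 := opn_unitary (FreeGroup.lift (Vp U) h : UN N)
      have h4 := (fw_tokP b A hη0 hAb (fun i V => hbV i N V) D U u).trans (hmono _ hu)
      calc _ ≤ 1 * (K * 2 ^ K * η) := mul_le_mul h3 h4 (opn_nonneg _) (by norm_num)
        _ = _ := one_mul _
    have h3 := norm_integral_le_of_norm_le_const (μ := PP (Fin m ⊕ Fin n) N)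
      (Filter.Eventually.of_forall h2)
    rwa [probReal_univ, mul_one] at h3
  have e2 : ‖phP D u.toWord * tau (n0 * wordF b u.toWord) -
      phP D u.toWord * tr (leftReg _ h * wordO a u.toWord)‖ ≤ K * 2 ^ K * η := by
    rw [← mul_sub, norm_mul, ← tr_lamA, map_mul, lamA_wordF, hn0, lamA_of, ← tr_sub, ← mul_sub]
    have h3 : ‖tr (leftReg (FreeGroup (Fin m)) h * (wordO (fun i => lamA m (b i)) u.toWord -
        wordO a u.toWord))‖ ≤ 1 * (K * 2 ^ K * η) :=
      (norm_tr_le _).trans ((n2_mul_left _ _).trans (mul_le_mul (norm_leftReg_le h)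
        ((htele _).trans (hmono _ hu)) (n2_nonneg _) (by norm_num)))
    calc _ ≤ 1 * (1 * (K * 2 ^ K * η)) := mul_le_mul (norm_phP D _) h3 (norm_nonneg _) (by norm_num)
      _ = _ := by ring
  have e3 : K * 2 ^ K * η * (32 * 2) ^ (u.toWord.length + 2) ≤
      K * 2 ^ K * η * 64 ^ (K + 2) := by
    refine mul_le_mul_of_nonneg_left ?_ (by positivity)
    norm_num
    exact pow_le_pow_right₀ (by norm_num) (by omega)
  have e4 : K * 2 ^ K * η ≤ K * 2 ^ K * η * 64 ^ (K + 2) :=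
    le_mul_of_one_le_right (by positivity) (one_le_pow₀ (by norm_num))
  set I1 := ∫ U, ntr (((FreeGroup.lift (Vp U) h : UN N) : Mt N) * fw (Bn A D U) u)
          ∂(PP (Fin m ⊕ Fin n) N)
  set I2 := ∫ U, ntr (evV (Vp U) n0 * tokP b D U u.toWord) ∂(PP (Fin m ⊕ Fin n) N)
  set T1 := phP D u.toWord * tau (n0 * wordF b u.toWord)
  set T2 := phP D u.toWord * tr (leftReg _ h * wordO a u.toWord)
  have e5 : I1 - T2 = (I1 - I2) + ((I2 - T1) + (T1 - T2)) := by ring
  rw [e5]
  refine (norm_add_le _ _).trans ((add_le_add le_rfl (norm_add_le _ _)).trans ?_)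
  refine (add_le_add (e1.trans e4) (add_le_add (h1.trans (add_le_add e3 le_rfl))
    (e2.trans e4))).trans (le_of_eq ?_)
  ring

end key

end ErrAux

open Pool.Agent.Helper278 Pool.Agent.Helper436.SN ErrAux

theorem err_limit {m n : ℕ}
    (a : Fin n → EllTwo (FreeGroup (Fin m)) →L[ℂ] EllTwo (FreeGroup (Fin m)))
    (ha : FreeHaar a) (S : Finset (FreeGroup (Fin n))) (r ε : ℝ) (hr : 0 < r) (hr1 : r ≤ 1)
    (hε : 0 < ε) : ∃ N₀ : ℕ, ∀ N ≥ N₀, ∃ A : (Fin m → UN N) → (Fin n → UN N), Continuous A ∧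
      ∃ P : Fin m → (Fin n → UN N) → Mt N, (∀ j, Continuous (P j)) ∧
      ∀ j, ∀ D : Fin n → UN N, (∀ i, D i ∈ Qr N r) →
      ∫ U : Fin m ⊕ Fin n → UN N, hs2 ((U (Sum.inl j) : Mt N) -
        P j (fun i => A (Vp U) i * (U (Sum.inr i) * D i * (U (Sum.inr i))⁻¹)))
          ∂(PP (Fin m ⊕ Fin n) N) ≤
        1 - ∑ g ∈ S, (1 - r ^ 2 * g.norm) * ‖coef a j g‖ ^ 2 + ε := by
  classical
  -- parameters
  set K : ℕ := 2 * S.sup FreeGroup.norm with hKdef
  have hSK : ∀ g ∈ S, 2 * g.norm ≤ K := fun g hg =>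
    Nat.mul_le_mul_left 2 (Finset.le_sup (f := FreeGroup.norm) hg)
  set G : ℝ := 3 * (K * 2 ^ K) * 64 ^ (K + 2) with hG
  set M : ℝ := ∑ j : Fin m, ∑ g ∈ S, ‖coef a j g‖ with hM
  set H : ℝ := 2 * M + M ^ 2 with hH
  have hG0 : 0 ≤ G := by positivity
  have hM0 : 0 ≤ M := by positivity
  have hH0 : 0 ≤ H := by positivity
  set η : ℝ := min 1 ε / (2 * ((G + 1) * (H + 1))) with hη
  have hmin : 0 < min 1 ε := lt_min one_pos hε
  have hηpos : 0 < η := by positivity
  have hηG : (G + 1) * (H + 1) * η = min 1 ε / 2 := by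
    rw [hη]
    field_simp
  have hKK : (0 : ℝ) ≤ K * 2 ^ K := by positivity
  have hη1 : η ≤ 1 := by
    have h1 : 1 * η ≤ (G + 1) * (H + 1) * η :=
      mul_le_mul_of_nonneg_right (by nlinarith [mul_nonneg hG0 hH0]) hηpos.le
    have h2 : min 1 ε ≤ 1 := min_le_left _ _
    linarith
  have hK1 : K * 2 ^ K * η ≤ 1 := by
    have h0 : (1 : ℝ) ≤ 64 ^ (K + 2) := one_le_pow₀ (by norm_num)
    have h1 : (K : ℝ) * 2 ^ K ≤ G := by
      rw [hG]
      nlinarith [mul_le_mul_of_nonneg_left h0 hKK]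
    have h2 : (K : ℝ) * 2 ^ K * η ≤ (G + 1) * (H + 1) * η :=
      mul_le_mul_of_nonneg_right (by nlinarith [mul_nonneg hG0 hH0]) hηpos.le
    have h3 : min 1 ε ≤ 1 := min_le_left _ _
    linarith
  have hHG : H * (G * η) ≤ ε / 2 := by
    have h1 : H * G * η ≤ (G + 1) * (H + 1) * η :=
      mul_le_mul_of_nonneg_right (by nlinarith) hηpos.le
    have h3 : min 1 ε ≤ ε := min_le_right _ _
    linarith
  -- approximation
  have hpow : ∀ i : Fin n, ∀ k : ℕ, 0 < k → tr (a i ^ k) = 0 := by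
    intro i k hk
    have h1 : a i ^ k = wordO a (List.replicate k (i, true)) := by
      simp [wordO]
    rw [h1]
    apply ha.free
    · exact List.isChain_replicate_of_rel k (by simp)
    · rw [Ne, List.replicate_eq_nil_iff]
      omega
  choose b hbA hbn hbo using fun i => approx (a i) (ha.mem i) (ha.uni i) (hpow i) η hηpos
  choose Ai hAc hAb using hbA
  have hbV : ∀ i (N : ℕ) (V : Fin m → UN N), opn (evV V (b i)) ≤ 2 := by
    intro i N V
    have h1 := opn_add (evV V (b i) - (Ai i N V : Mt N)) (Ai i N V : Mt N)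
    rw [sub_add_cancel] at h1
    have h2 := hAb i N V
    have h3 := opn_unitary (Ai i N V)
    linarith
  have key : ∀ (h : FreeGroup (Fin m)) (u : FreeGroup (Fin n)), ∃ C : ℝ, 0 ≤ C ∧
      (u.toWord.length ≤ K → ∀ N : ℕ, 0 < N → ∀ A : (Fin m → UN N) → (Fin n → UN N), Continuous A →
      (∀ V i, opn (evV V (b i) - (A V i : Mt N)) ≤ η) → ∀ D : Fin n → UN N,
      ‖(∫ U, ntr (((FreeGroup.lift (Vp U) h : UN N) : Mt N) * fw (Bn A D U) u)
          ∂(PP (Fin m ⊕ Fin n) N)) -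
        phP D u.toWord * tr (leftReg _ h * wordO a u.toWord)‖ ≤ G * η + C / N) := by
    intro h u
    by_cases hu : u.toWord.length ≤ K
    · obtain ⟨C, hC, hk⟩ := keyL ha b hηpos.le hη1 hbn hbo hbV K hK1 h u hu
      refine ⟨C, hC, fun _ N hN A hA hAb D => (hk N hN A hA hAb D).trans (le_of_eq ?_)⟩
      rw [hG]
      ring
    · exact ⟨0, le_rfl, fun h => absurd h hu⟩
  choose C hC hkey using key
  set Ct : ℝ := (∑ j : Fin m, ∑ g ∈ S, C (FreeGroup.of j)⁻¹ g) + ∑ g ∈ S, ∑ h ∈ S, C 1 (g⁻¹ * h)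
    with hCt
  have hCt0 : 0 ≤ Ct := add_nonneg
    (Finset.sum_nonneg fun _ _ => Finset.sum_nonneg fun _ _ => hC _ _)
    (Finset.sum_nonneg fun _ _ => Finset.sum_nonneg fun _ _ => hC _ _)
  have hC1 : ∀ j : Fin m, ∀ g ∈ S, C (FreeGroup.of j)⁻¹ g ≤ Ct := by
    intro j g hg
    have h1 : C (FreeGroup.of j)⁻¹ g ≤ ∑ g ∈ S, C (FreeGroup.of j)⁻¹ g :=
      Finset.single_le_sum (f := fun g => C (FreeGroup.of j)⁻¹ g) (fun _ _ => hC _ _) hg
    have h2 : ∑ g ∈ S, C (FreeGroup.of j)⁻¹ g ≤ ∑ j : Fin m, ∑ g ∈ S, C (FreeGroup.of j)⁻¹ g :=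
      Finset.single_le_sum (f := fun j => ∑ g ∈ S, C (FreeGroup.of j)⁻¹ g)
        (fun _ _ => Finset.sum_nonneg fun _ _ => hC _ _) (Finset.mem_univ j)
    have h3 : 0 ≤ ∑ g ∈ S, ∑ h ∈ S, C 1 (g⁻¹ * h) :=
      Finset.sum_nonneg fun _ _ => Finset.sum_nonneg fun _ _ => hC _ _
    linarith
  have hC2 : ∀ g ∈ S, ∀ h ∈ S, C 1 (g⁻¹ * h) ≤ Ct := by
    intro g hg h hh
    have h1 : C 1 (g⁻¹ * h) ≤ ∑ h ∈ S, C 1 (g⁻¹ * h) :=
      Finset.single_le_sum (f := fun h => C 1 (g⁻¹ * h)) (fun _ _ => hC _ _) hh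
    have h2 : ∑ h ∈ S, C 1 (g⁻¹ * h) ≤ ∑ g ∈ S, ∑ h ∈ S, C 1 (g⁻¹ * h) :=
      Finset.single_le_sum (f := fun g => ∑ h ∈ S, C 1 (g⁻¹ * h))
        (fun _ _ => Finset.sum_nonneg fun _ _ => hC _ _) hg
    have h3 : 0 ≤ ∑ j : Fin m, ∑ g ∈ S, C (FreeGroup.of j)⁻¹ g :=
      Finset.sum_nonneg fun _ _ => Finset.sum_nonneg fun _ _ => hC _ _
    linarith
  set Q : ℝ := ∑ j : Fin m, ∑ g ∈ S, 2 * (g.norm : ℝ) * ‖coef a j g‖ ^ 2 with hQ
  have hQ0 : 0 ≤ Q := by positivity
  refine ⟨⌈2 / ε * (H * Ct + Q)⌉₊ + 1, fun N hN => ?_⟩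
  have hN0 : 0 < N := by omega
  have hNr : (0 : ℝ) < N := by exact_mod_cast hN0
  have hNe : (H * Ct + Q) / N ≤ ε / 2 := by
    have h1 : 2 / ε * (H * Ct + Q) ≤ N := by
      refine (Nat.le_ceil _).trans ?_
      exact_mod_cast (by omega : ⌈2 / ε * (H * Ct + Q)⌉₊ ≤ N)
    rw [div_le_iff₀ hNr]
    have h2 : ε / 2 * (2 / ε * (H * Ct + Q)) = H * Ct + Q := by
      field_simp
    rw [← h2]
    exact mul_le_mul_of_nonneg_left h1 (by positivity)
  set A : (Fin m → UN N) → (Fin n → UN N) := fun V i => Ai i N V with hA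
  have hAcont : Continuous A := continuous_pi fun i => hAc i N
  have hAb' : ∀ V i, opn (evV V (b i) - (A V i : Mt N)) ≤ η := fun V i => hAb i N V
  refine ⟨A, hAcont, fun j B => ∑ g ∈ S, coef a j g • fw B g, fun j => ?_, ?_⟩
  · refine continuous_finsetSum _ fun g _ => ?_
    have hc : Continuous fun B : Fin n → UN N => fw B g := continuous_fw g
    exact hc.const_smul (coef a j g)
  intro j D hD
  set x : FreeGroup (Fin n) → ℂ := coef a j with hx
  -- continuity
  have hcB := continuous_Bn (m := m) hAcont D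
  have hcf : ∀ g : FreeGroup (Fin n), Continuous fun U : Fin m ⊕ Fin n → UN N => fw (Bn A D U) g :=
    fun g => (continuous_fw g).comp hcB
  have hcV : Continuous fun U : Fin m ⊕ Fin n → UN N => star (U (Sum.inl j) : Mt N) :=
    (continuous_subtype_val.comp (continuous_apply (Sum.inl j))).star
  have hc1 : ∀ g : FreeGroup (Fin n), Continuous fun U : Fin m ⊕ Fin n → UN N =>
      ntr (star (U (Sum.inl j) : Mt N) * fw (Bn A D U) g) :=
    fun g => continuous_ntr.comp (hcV.mul (hcf g))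
  have hc2 : ∀ g : FreeGroup (Fin n), Continuous fun U : Fin m ⊕ Fin n → UN N =>
      ntr (fw (Bn A D U) g) := fun g => continuous_ntr.comp (hcf g)
  set m1 : FreeGroup (Fin n) → ℂ := fun g =>
    ∫ U, ntr (star (U (Sum.inl j) : Mt N) * fw (Bn A D U) g) ∂(PP (Fin m ⊕ Fin n) N) with hm1
  set m2 : FreeGroup (Fin n) → FreeGroup (Fin n) → ℂ := fun g h =>
    ∫ U, ntr (fw (Bn A D U) (g⁻¹ * h)) ∂(PP (Fin m ⊕ Fin n) N) with hm2
  have hcF1 : Continuous fun U : Fin m ⊕ Fin n → UN N =>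
      ∑ g ∈ S, x g * ntr (star (U (Sum.inl j) : Mt N) * fw (Bn A D U) g) :=
    continuous_finsetSum _ fun g _ => continuous_const.mul (hc1 g)
  have hcF2 : Continuous fun U : Fin m ⊕ Fin n → UN N =>
      ∑ g ∈ S, ∑ h ∈ S, conj (x g) * x h * ntr (fw (Bn A D U) (g⁻¹ * h)) :=
    continuous_finsetSum _ fun g _ => continuous_finsetSum _ fun h _ =>
      continuous_const.mul (hc2 _)
  have hI1 : ∫ U : Fin m ⊕ Fin n → UN N,
      ∑ g ∈ S, x g * ntr (star (U (Sum.inl j) : Mt N) * fw (Bn A D U) g)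
        ∂(PP (Fin m ⊕ Fin n) N) = ∑ g ∈ S, x g * m1 g := by
    rw [integral_finsetSum]
    · refine Finset.sum_congr rfl fun g _ => ?_
      rw [integral_const_mul]
    · intro g _
      exact integrable_cont (continuous_const.mul (hc1 g))
  have hI2 : ∫ U : Fin m ⊕ Fin n → UN N,
      ∑ g ∈ S, ∑ h ∈ S, conj (x g) * x h * ntr (fw (Bn A D U) (g⁻¹ * h))
        ∂(PP (Fin m ⊕ Fin n) N) = ∑ g ∈ S, ∑ h ∈ S, conj (x g) * x h * m2 g h := by
    rw [integral_finsetSum]
    · refine Finset.sum_congr rfl fun g _ => ?_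
      rw [integral_finsetSum]
      · refine Finset.sum_congr rfl fun h _ => ?_
        rw [integral_const_mul]
      · intro h _
        exact integrable_cont (continuous_const.mul (hc2 _))
    · intro g _
      exact integrable_cont (continuous_finsetSum _ fun h _ => continuous_const.mul (hc2 _))
  have hmain : ((∫ U : Fin m ⊕ Fin n → UN N, hs2 ((U (Sum.inl j) : Mt N) -
      ∑ g ∈ S, x g • fw (Bn A D U) g) ∂(PP (Fin m ⊕ Fin n) N) : ℝ) : ℂ) =
      1 - (∑ g ∈ S, x g * m1 g) - conj (∑ g ∈ S, x g * m1 g) +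
        ∑ g ∈ S, ∑ h ∈ S, conj (x g) * x h * m2 g h := by
    rw [← integral_complex_ofReal]
    have h1 : (fun U : Fin m ⊕ Fin n → UN N => ((hs2 ((U (Sum.inl j) : Mt N) -
        ∑ g ∈ S, x g • fw (Bn A D U) g) : ℝ) : ℂ)) = fun U =>
        1 - (∑ g ∈ S, x g * ntr (star (U (Sum.inl j) : Mt N) * fw (Bn A D U) g)) -
        conj (∑ g ∈ S, x g * ntr (star (U (Sum.inl j) : Mt N) * fw (Bn A D U) g)) +
        ∑ g ∈ S, ∑ h ∈ S, conj (x g) * x h * ntr (fw (Bn A D U) (g⁻¹ * h)) := by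
      funext U
      exact expand hN0 S x (U (Sum.inl j)) (Bn A D U)
    rw [h1, integral_add, integral_sub, integral_sub, integral_conj, hI1, hI2]
    · simp
    · exact integrable_cont continuous_const
    · exact integrable_cont hcF1
    · exact integrable_cont (continuous_const.sub hcF1)
    · exact integrable_cont (Complex.continuous_conj.comp hcF1)
    · exact integrable_cont ((continuous_const.sub hcF1).sub (Complex.continuous_conj.comp hcF1))
    · exact integrable_cont hcF2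
  set δ : ℝ := G * η + Ct / N with hδ
  have hδ0 : 0 ≤ δ := by positivity
  have hfin := final_alg S x (fun g => phP D g.toWord) m1 m2
    (fun g => g.norm * (r ^ 2 / 2 + (N : ℝ)⁻¹)) δ
    (by
      intro g hg
      have h0 : g.toWord.length ≤ K := by
        have := hSK g hg
        change g.norm ≤ K
        omega
      have h1 := hkey (FreeGroup.of j)⁻¹ g h0 N hN0 A hAcont hAb' D
      have h2 : ∀ U : Fin m ⊕ Fin n → UN N,
          ((FreeGroup.lift (Vp U) (FreeGroup.of j)⁻¹ : UN N) : Mt N) =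
            star (U (Sum.inl j) : Mt N) := by
        intro U
        rw [map_inv, FreeGroup.lift_apply_of, Matrix.UnitaryGroup.inv_val]
        rfl
      simp only [h2] at h1
      have h3 : tr (leftReg (FreeGroup (Fin m)) (FreeGroup.of j)⁻¹ * wordO a g.toWord) =
          conj (x g) := by
        rw [hx]
        unfold coef
        rw [← tr_star, star_mul, star_star, star_leftReg]
      rw [h3] at h1
      refine h1.trans ?_
      rw [hδ]
      have := hC1 j g hg
      gcongr)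
    (by
      intro g _
      rw [hm2]
      simp only [inv_mul_cancel]
      have h1 : ∀ U : Fin m ⊕ Fin n → UN N, ntr (fw (Bn A D U) 1) = 1 := by
        intro U
        unfold fw
        rw [map_one]
        exact ntr_one hN0
      simp only [h1]
      simp)
    (by
      intro g hg h hh hgh
      have hu1 : g⁻¹ * h ≠ 1 := fun h1 => hgh (inv_mul_eq_one.mp h1)
      have h0 : (g⁻¹ * h).toWord.length ≤ K := by
        have h1 := FreeGroup.norm_mul_le g⁻¹ h
        rw [FreeGroup.norm_inv_eq] at h1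
        have h2 := hSK g hg
        have h3 := hSK h hh
        change (g⁻¹ * h).norm ≤ K
        omega
      have h1 := hkey 1 (g⁻¹ * h) h0 N hN0 A hAcont hAb' D
      have h2 : tr (leftReg (FreeGroup (Fin m)) 1 * wordO a (g⁻¹ * h).toWord) = 0 := by
        rw [leftReg_one, one_mul]
        apply ha.free _ FreeGroup.isReduced_toWord
        rwa [Ne, FreeGroup.toWord_eq_nil_iff]
      rw [h2, mul_zero, sub_zero] at h1
      have h3 : ∀ U : Fin m ⊕ Fin n → UN N,
          ((FreeGroup.lift (Vp U) (1 : FreeGroup (Fin m)) : UN N) : Mt N) = 1 := by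
        intro U
        rw [map_one]
        rfl
      simp only [h3, one_mul] at h1
      refine h1.trans ?_
      rw [hδ]
      have := hC2 g hg h hh
      gcongr)
    (by
      intro g _
      exact phP_close D _ (fun i => ntr_Qr hN0 (hD i)) _)
  rw [← hmain, Complex.ofReal_re] at hfin
  refine hfin.trans ?_
  have hMj : ∑ g ∈ S, ‖x g‖ ≤ M :=
    Finset.single_le_sum (f := fun j => ∑ g ∈ S, ‖coef a j g‖)
      (fun _ _ => Finset.sum_nonneg fun _ _ => norm_nonneg _) (Finset.mem_univ j)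
  have hMj0 : 0 ≤ ∑ g ∈ S, ‖x g‖ := Finset.sum_nonneg fun _ _ => norm_nonneg _
  have hQj : ∑ g ∈ S, 2 * (g.norm : ℝ) * ‖x g‖ ^ 2 ≤ Q :=
    Finset.single_le_sum (f := fun j => ∑ g ∈ S, 2 * (g.norm : ℝ) * ‖coef a j g‖ ^ 2)
      (fun _ _ => Finset.sum_nonneg fun _ _ => by positivity) (Finset.mem_univ j)
  have e1 : (2 * (∑ g ∈ S, ‖x g‖) + (∑ g ∈ S, ‖x g‖) ^ 2) * δ ≤ H * δ := by
    refine mul_le_mul_of_nonneg_right ?_ hδ0
    rw [hH]
    nlinarith
  have e2 : H * δ = H * (G * η) + H * Ct / (N : ℝ) := by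
    rw [hδ]
    ring
  have e3 : ∑ g ∈ S, (1 - 2 * ((g.norm : ℝ) * (r ^ 2 / 2 + (N : ℝ)⁻¹))) * ‖x g‖ ^ 2 =
      ∑ g ∈ S, (1 - r ^ 2 * (g.norm : ℝ)) * ‖x g‖ ^ 2 -
        (∑ g ∈ S, 2 * (g.norm : ℝ) * ‖x g‖ ^ 2) / (N : ℝ) := by
    rw [Finset.sum_div, ← Finset.sum_sub_distrib]
    refine Finset.sum_congr rfl fun g _ => ?_
    rw [div_eq_mul_inv]
    ring
  rw [e3]
  have e4 : (∑ g ∈ S, 2 * (g.norm : ℝ) * ‖x g‖ ^ 2) / (N : ℝ) ≤ Q / (N : ℝ) := by gcongr
  have e5 : H * Ct / (N : ℝ) + Q / (N : ℝ) ≤ ε / 2 := by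
    rw [← add_div]
    exact hNe
  linarith

end Pool.Agent.H710R2.FF
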