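import Mathlib
import Pool.Agent.Helper436.SN.StmtG

set_option autoImplicit false
set_option linter.unusedSectionVars false

namespace Pool.Agent.H710R2.FF

open Pool.Agent.Helper436.SN

/-- free groups of rank at least two have infinite conjugacy classes -/
theorem free_isICC_gen {n : ℕ} (hn : 2 ≤ n) : IsICC (FreeGroup (Fin n)) := by
  have : Nonempty (Fin n) := ⟨⟨0, by omega⟩⟩
  refine ⟨inferInstance, ?_⟩
  intro g hg
  -- the word of `g`
  set w := g.toWord with hw
  have hwr : FreeGroup.IsReduced w := FreeGroup.isReduced_toWord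
  have hwne : w ≠ [] := by
    intro h
    apply hg
    rw [← FreeGroup.mk_toWord (x := g), ← hw, h]
    rfl
  -- choose the conjugating letter
  obtain ⟨y, hy1, hy2⟩ : ∃ y : Fin n × Bool, (y.1 = (w.head hwne).1 → y.2 = (w.head hwne).2) ∧
      ((w.getLast hwne).1 ≠ y.1) := by
    by_cases h : (w.head hwne).1 = (w.getLast hwne).1
    · obtain ⟨i, hi⟩ : ∃ i : Fin n, i ≠ (w.head hwne).1 := by
        have : Nontrivial (Fin n) := Fin.nontrivial_iff_two_le.2 hn
        exact exists_ne _
      exact ⟨(i, true), fun h1 => absurd h1 hi, fun h1 => hi (by rw [h]; exact h1.symm)⟩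
    · exact ⟨w.head hwne, fun _ => rfl, fun h1 => h h1.symm⟩
  -- the conjugates
  have hred : ∀ k : ℕ, FreeGroup.IsReduced
      (List.replicate k y ++ (w ++ List.replicate k (y.1, !y.2))) := by
    intro k
    unfold FreeGroup.IsReduced
    rw [List.isChain_append, List.isChain_append]
    refine ⟨List.isChain_replicate_of_rel _ (fun _ => rfl), ⟨hwr,
      List.isChain_replicate_of_rel _ (fun _ => rfl), ?_⟩, ?_⟩
    · intro a ha b hb hab
      exfalso
      rw [List.getLast?_eq_getLast_of_ne_nil hwne] at ha
      have ha' : w.getLast hwne = a := by simpa using ha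
      have hb' : b = (y.1, !y.2) := by
        have := List.mem_of_mem_head? hb
        exact List.eq_of_mem_replicate this
      rw [← ha', hb'] at hab
      exact hy2 hab
    · intro a ha b hb hab
      have ha' : a = y := by
        have := List.mem_of_mem_getLast? ha
        exact List.eq_of_mem_replicate this
      have hb' : w.head hwne = b := by
        rw [List.head?_append_of_ne_nil _ hwne, List.head?_eq_some_head hwne] at hb
        simpa using hb
      rw [ha', ← hb'] at hab ⊢
      exact hy1 hab
  have hpow : ∀ k : ℕ, FreeGroup.mk (List.replicate k y) = (FreeGroup.mk [y]) ^ k := by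
    intro k
    induction k with
    | zero => rfl
    | succ k ih =>
      rw [pow_succ', ← ih, FreeGroup.mul_mk]
      rfl
  have hinv : ∀ k : ℕ, FreeGroup.mk (List.replicate k (y.1, !y.2)) =
      (FreeGroup.mk (List.replicate k y))⁻¹ := by
    intro k
    rw [FreeGroup.inv_mk]
    congr 1
    unfold FreeGroup.invRev
    rw [List.map_replicate, List.reverse_replicate]
  have hcj : ∀ k : ℕ, FreeGroup.mk (List.replicate k y) * g *
      (FreeGroup.mk (List.replicate k y))⁻¹ =
      FreeGroup.mk (List.replicate k y ++ (w ++ List.replicate k (y.1, !y.2))) := by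
    intro k
    rw [← hinv]
    conv_lhs => rw [← FreeGroup.mk_toWord (x := g)]
    rw [FreeGroup.mul_mk, FreeGroup.mul_mk, List.append_assoc]
  refine Set.infinite_of_injective_forall_mem (f := fun k : ℕ =>
    FreeGroup.mk (List.replicate k y) * g * (FreeGroup.mk (List.replicate k y))⁻¹) ?_
    (fun k => ⟨_, rfl⟩)
  intro k l hkl
  simp only at hkl
  rw [hcj, hcj] at hkl
  have h1 := congrArg FreeGroup.toWord hkl
  rw [FreeGroup.toWord_mk, FreeGroup.toWord_mk, (hred k).reduce_eq, (hred l).reduce_eq] at h1
  have h2 := congrArg List.length h1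
  simp only [List.length_append, List.length_replicate] at h2
  omega

end Pool.Agent.H710R2.FF
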