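import Mathlib
import Pool.Agent.H710R2.FF.Defs2
import Pool.Agent.H710R2.FF.Basic
import Pool.Agent.H710R2.FF.Rc
import Pool.Agent.H710R2.FF.IsoIcc
import Pool.Agent.Helper436.SN.CEG
import Pool.Agent.Helper278.RGNC
import Pool.Agent.Helper278.GroupMain

set_option autoImplicit false
set_option linter.unusedSectionVars false

open MeasureTheory
open scoped ComplexConjugate InnerProductSpace ComplexOrder

noncomputable section

namespace Pool.Agent.H710R2.FF

section ISO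
open Pool.Agent.Helper278 Pool.Agent.Helper436.SN

variable {G : Type} [Group G]

theorem trL_eq_tr (x : Elt (LG G)) : trL G x = tr (x : EllTwo G →L[ℂ] EllTwo G) := rfl

theorem lgE_mul (g h : G) : lgE G (g * h) = lgE G g * lgE G h :=
  Subtype.ext (leftReg_mul g h)

theorem lgE_one : lgE G 1 = 1 := Subtype.ext leftReg_one

theorem lgE_star (g : G) : star (lgE G g) = lgE G g⁻¹ := Subtype.ext (star_leftReg g)

theorem lgE_uni (g : G) : lgE G g ∈ unitary (Elt (LG G)) := by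
  rw [Unitary.mem_iff, lgE_star, ← lgE_mul, ← lgE_mul, inv_mul_cancel, mul_inv_cancel, lgE_one]
  exact ⟨rfl, rfl⟩

theorem inner_dirac (f : EllTwo G) : ⟪dirac G, f⟫_ℂ = f 1 := by
  classical
  unfold dirac
  rw [lp.inner_single_left]
  simp

theorem dirac_self : (dirac G : EllTwo G) 1 = 1 := by
  classical
  unfold dirac
  simp

theorem dirac_ne {h : G} (hh : h ≠ 1) : (dirac G : EllTwo G) h = 0 := by
  classical
  unfold dirac
  rw [lp.single_apply]
  exact Pi.single_eq_of_ne hh _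

/-- the trace of `λ_g` -/
theorem tr_leftReg {g : G} (hg : g ≠ 1) : tr (leftReg G g) = 0 := by
  unfold tr
  rw [inner_dirac]
  show (dirac G : EllTwo G) (g⁻¹ * 1) = 0
  exact dirac_ne (by rw [mul_one]; exact inv_ne_one.2 hg)

/-- Fourier coefficients through the trace -/
theorem fc_eq (x : Elt (LG G)) (g : G) : fc x g = trL G (star (lgE G g) * x) := by
  rw [trL_eq_tr]
  unfold tr fc
  rw [inner_dirac, lgE_star]
  show _ = ((x : EllTwo G →L[ℂ] EllTwo G) (dirac G) : EllTwo G) ((g⁻¹)⁻¹ * 1)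
  rw [mul_one, inv_inv]

/-- the word in the operators `θ(u_i)` is the image of the group element -/
theorem wordO_theta {n m : ℕ}
    (θ : Elt (LG (FreeGroup (Fin n))) ≃⋆ₐ[ℂ] Elt (LG (FreeGroup (Fin m))))
    (f : List (Fin n × Bool)) :
    wordO (fun i => ((θ (lgE _ (FreeGroup.of i)) : Elt (LG (FreeGroup (Fin m)))) :
      EllTwo (FreeGroup (Fin m)) →L[ℂ] EllTwo (FreeGroup (Fin m)))) f =
      ((θ (lgE _ (FreeGroup.mk f)) : Elt (LG (FreeGroup (Fin m)))) :
      EllTwo (FreeGroup (Fin m)) →L[ℂ] EllTwo (FreeGroup (Fin m))) := by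
  induction f with
  | nil =>
    have h1 : (FreeGroup.mk ([] : List (Fin n × Bool))) = 1 := rfl
    rw [h1, lgE_one, map_one]
    rfl
  | cons x f ih =>
    have h1 : FreeGroup.mk (x :: f) = FreeGroup.mk [x] * FreeGroup.mk f := by
      rw [FreeGroup.mul_mk]
      rfl
    have h2 : wordO (fun i => ((θ (lgE _ (FreeGroup.of i)) : Elt (LG (FreeGroup (Fin m)))) :
      EllTwo (FreeGroup (Fin m)) →L[ℂ] EllTwo (FreeGroup (Fin m)))) (x :: f) =
      (if x.2 then ((θ (lgE _ (FreeGroup.of x.1)) : Elt (LG (FreeGroup (Fin m)))) :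
      EllTwo (FreeGroup (Fin m)) →L[ℂ] EllTwo (FreeGroup (Fin m))) else
        star ((θ (lgE _ (FreeGroup.of x.1)) : Elt (LG (FreeGroup (Fin m)))) :
      EllTwo (FreeGroup (Fin m)) →L[ℂ] EllTwo (FreeGroup (Fin m)))) *
      wordO (fun i => ((θ (lgE _ (FreeGroup.of i)) : Elt (LG (FreeGroup (Fin m)))) :
      EllTwo (FreeGroup (Fin m)) →L[ℂ] EllTwo (FreeGroup (Fin m)))) f := by
      unfold wordO
      rw [List.map_cons, List.prod_cons]
    rw [h2, ih, h1, lgE_mul, map_mul]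
    have h3 : (if x.2 then ((θ (lgE _ (FreeGroup.of x.1)) : Elt (LG (FreeGroup (Fin m)))) :
      EllTwo (FreeGroup (Fin m)) →L[ℂ] EllTwo (FreeGroup (Fin m))) else
        star ((θ (lgE _ (FreeGroup.of x.1)) : Elt (LG (FreeGroup (Fin m)))) :
      EllTwo (FreeGroup (Fin m)) →L[ℂ] EllTwo (FreeGroup (Fin m)))) =
      ((θ (lgE _ (FreeGroup.mk [x])) : Elt (LG (FreeGroup (Fin m)))) :
      EllTwo (FreeGroup (Fin m)) →L[ℂ] EllTwo (FreeGroup (Fin m))) := by
      obtain ⟨i, e⟩ := x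
      cases e with
      | true => rfl
      | false =>
        have h4 : FreeGroup.mk [(i, false)] = (FreeGroup.of i)⁻¹ := rfl
        rw [h4, ← lgE_star, map_star]
        rfl
    rw [h3]
    rfl

/-- every star isomorphism of free group factors preserves the trace -/
theorem iso_trace {n m : ℕ} (hn : 2 ≤ n)
    (θ : Elt (LG (FreeGroup (Fin n))) ≃⋆ₐ[ℂ] Elt (LG (FreeGroup (Fin m))))
    (x : Elt (LG (FreeGroup (Fin n)))) : trL _ (θ x) = trL _ x := by
  have hfac := iiOne_LG _ (free_isICC_gen hn)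
  let S := mkState (LG (FreeGroup (Fin n))) (trL _) hfac.normal hfac.trace
  have hL : LyapProp S.τ := lyapProp S (diffuse_of_factor S hfac.center hfac.infinite)
  let φ : Elt (LG (FreeGroup (Fin n))) →ₗ[ℂ] ℂ :=
    { toFun := fun y => trL _ (θ y)
      map_add' := fun y z => by
        rw [map_add]
        exact tr_add _ _
      map_smul' := fun c y => by
        rw [map_smul]
        exact tr_smul _ _ }
  have hφ : IsTr φ := by
    refine ⟨?_, ?_, ?_⟩
    · show trL _ (θ 1) = 1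
      rw [map_one]
      exact tr_one
    · intro y z
      show trL _ (θ (y * z)) = trL _ (θ (z * y))
      rw [map_mul, map_mul]
      exact tr_comm (LG_sub_RC (θ y).2) (LG_sub_RC (θ z).2)
    · intro y
      show 0 ≤ trL _ (θ (star y * y))
      rw [map_mul, map_star]
      have h1 := n2_sq ((θ y : Elt (LG (FreeGroup (Fin m)))) :
        EllTwo (FreeGroup (Fin m)) →L[ℂ] EllTwo (FreeGroup (Fin m)))
      have h2 : trL _ (star (θ y) * θ y) = tr (star ((θ y : Elt (LG (FreeGroup (Fin m)))) :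
        EllTwo (FreeGroup (Fin m)) →L[ℂ] EllTwo (FreeGroup (Fin m))) *
        ((θ y : Elt (LG (FreeGroup (Fin m)))) :
        EllTwo (FreeGroup (Fin m)) →L[ℂ] EllTwo (FreeGroup (Fin m)))) := rfl
      rw [h2, ← h1]
      exact Complex.zero_le_real.2 (sq_nonneg _)
  exact Pool.Agent.Helper278.RG.trace_unique_base S hL hfac.center φ hφ x

theorem iso_freeHaar {n m : ℕ} (hn : 2 ≤ n)
    (θ : Elt (LG (FreeGroup (Fin n))) ≃⋆ₐ[ℂ] Elt (LG (FreeGroup (Fin m)))) :
    FreeHaar (fun i => ((θ (lgE _ (FreeGroup.of i)) : Elt (LG (FreeGroup (Fin m)))) :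
      EllTwo (FreeGroup (Fin m)) →L[ℂ] EllTwo (FreeGroup (Fin m)))) := by
  refine ⟨?_, ?_, ?_⟩
  · intro i
    exact LG_sub_RC (θ _).2
  · intro i
    have h1 : θ (lgE _ (FreeGroup.of i)) ∈ unitary (Elt (LG (FreeGroup (Fin m)))) := by
      have h := lgE_uni (FreeGroup.of i : FreeGroup (Fin n))
      rw [Unitary.mem_iff] at h ⊢
      rw [← map_star, ← map_mul, ← map_mul, h.1, h.2, map_one]
      exact ⟨rfl, rfl⟩
    rw [Unitary.mem_iff] at h1 ⊢
    exact ⟨congrArg Subtype.val h1.1, congrArg Subtype.val h1.2⟩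
  · intro f hf hne
    rw [wordO_theta]
    have h1 := iso_trace hn θ (lgE _ (FreeGroup.mk f))
    rw [trL_eq_tr, trL_eq_tr] at h1
    rw [h1]
    refine tr_leftReg ?_
    intro h
    apply hne
    have h2 : (FreeGroup.mk f).toWord = (1 : FreeGroup (Fin n)).toWord := by rw [h]
    rw [FreeGroup.toWord_mk, hf.reduce_eq, FreeGroup.toWord_one] at h2
    exact h2

theorem iso_coef {n m : ℕ} (hn : 2 ≤ n)
    (θ : Elt (LG (FreeGroup (Fin n))) ≃⋆ₐ[ℂ] Elt (LG (FreeGroup (Fin m)))) (j : Fin m)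
    (g : FreeGroup (Fin n)) :
    coef (fun i => ((θ (lgE _ (FreeGroup.of i)) : Elt (LG (FreeGroup (Fin m)))) :
      EllTwo (FreeGroup (Fin m)) →L[ℂ] EllTwo (FreeGroup (Fin m)))) j g =
    fc (θ.symm (lgE _ (FreeGroup.of j))) g := by
  rw [fc_eq, ← iso_trace hn θ, map_mul, map_star, StarAlgEquiv.apply_symm_apply]
  unfold coef
  rw [wordO_theta, FreeGroup.mk_toWord]
  rfl

theorem fc_sum_one {n m : ℕ} (hn : 2 ≤ n)
    (θ : Elt (LG (FreeGroup (Fin n))) ≃⋆ₐ[ℂ] Elt (LG (FreeGroup (Fin m)))) (j : Fin m) :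
    HasSum (fun g => ‖fc (θ.symm (lgE _ (FreeGroup.of j))) g‖ ^ 2) 1 := by
  have h0 : (0 : ℝ) < (2 : ENNReal).toReal := by norm_num
  set x := θ.symm (lgE _ (FreeGroup.of j)) with hx
  have h1 := lp.hasSum_norm h0 ((x : EllTwo (FreeGroup (Fin n)) →L[ℂ] EllTwo (FreeGroup (Fin n)))
    (dirac (FreeGroup (Fin n))))
  have hu : star x * x = 1 := by
    have h := lgE_uni (FreeGroup.of j : FreeGroup (Fin m))
    rw [Unitary.mem_iff] at h
    rw [hx, ← map_star, ← map_mul, h.1, map_one]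
  have h2 := n2_sq (x : EllTwo (FreeGroup (Fin n)) →L[ℂ] EllTwo (FreeGroup (Fin n)))
  have h3 : star (x : EllTwo (FreeGroup (Fin n)) →L[ℂ] EllTwo (FreeGroup (Fin n))) *
      (x : EllTwo (FreeGroup (Fin n)) →L[ℂ] EllTwo (FreeGroup (Fin n))) = 1 :=
    congrArg Subtype.val hu
  rw [h3, tr_one] at h2
  have h4 : n2 (x : EllTwo (FreeGroup (Fin n)) →L[ℂ] EllTwo (FreeGroup (Fin n))) ^ 2 = 1 := by
    exact_mod_cast h2
  have h5 : ‖(x : EllTwo (FreeGroup (Fin n)) →L[ℂ] EllTwo (FreeGroup (Fin n)))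
    (dirac (FreeGroup (Fin n)))‖ ^ (2 : ENNReal).toReal = 1 := by
    have h6 : (2 : ENNReal).toReal = ((2 : ℕ) : ℝ) := by norm_num
    rw [h6, Real.rpow_natCast]
    exact h4
  rw [h5] at h1
  refine h1.congr_fun ?_
  intro g
  have h6 : (2 : ENNReal).toReal = ((2 : ℕ) : ℝ) := by norm_num
  rw [h6, Real.rpow_natCast]
  rfl

end ISO

end Pool.Agent.H710R2.FF
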