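import Mathlib
import Pool.Agent.H710R2.FF.Defs2
import Pool.Agent.H710R2.FF.Basic

set_option autoImplicit false
set_option linter.unusedSectionVars false

open MeasureTheory
open scoped ComplexConjugate InnerProductSpace

noncomputable section

namespace Pool.Agent.H710R2.FF

instance mi_sct (N : ℕ) : SecondCountableTopology (UN N) := by
  have : SecondCountableTopology (Mt N) :=
    inferInstanceAs (SecondCountableTopology (Fin N → Fin N → ℂ))
  exact TopologicalSpace.Subtype.secondCountableTopology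
    (Matrix.unitaryGroup (Fin N) ℂ : Set (Mt N))

/-- the perturbed tuple -/
def miB {m n N : ℕ} (A : (Fin m → UN N) → (Fin n → UN N)) (V : Fin m → UN N)
    (Z D : Fin n → UN N) : Fin n → UN N := fun i => A V i * (Z i * D i * (Z i)⁻¹)

theorem miB_pres {m n N : ℕ} (A : (Fin m → UN N) → (Fin n → UN N)) (V : Fin m → UN N)
    (Z : Fin n → UN N) : MeasurePreserving (miB A V Z) (PP (Fin n) N) (PP (Fin n) N) := by
  unfold miB
  refine measurePreserving_pi (fun _ => mu N) (fun _ => mu N)
    (f := fun i g => A V i * (Z i * g * (Z i)⁻¹)) (fun i => ?_)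
  have h1 := measurePreserving_mul_left (mu N) (A V i)
  have h2 := measurePreserving_mul_left (mu N) (Z i)
  have h3 := measurePreserving_mul_right (mu N) (Z i)⁻¹
  exact h1.comp (h3.comp h2)

theorem miB_cont {m n N : ℕ} (A : (Fin m → UN N) → (Fin n → UN N)) (hA : Continuous A) :
    Continuous fun x : (Fin n → UN N) × ((Fin m → UN N) × (Fin n → UN N)) =>
      miB A x.2.1 x.2.2 x.1 := by
  unfold miB
  refine continuous_pi (fun i => ?_)
  have h1 : Continuous fun x : (Fin n → UN N) × ((Fin m → UN N) × (Fin n → UN N)) =>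
      A x.2.1 i := (continuous_apply i).comp (hA.comp (continuous_fst.comp continuous_snd))
  have h2 : Continuous fun x : (Fin n → UN N) × ((Fin m → UN N) × (Fin n → UN N)) =>
      x.2.2 i := (continuous_apply i).comp (continuous_snd.comp continuous_snd)
  have h3 : Continuous fun x : (Fin n → UN N) × ((Fin m → UN N) × (Fin n → UN N)) =>
      x.1 i := (continuous_apply i).comp continuous_fst
  exact h1.mul ((h2.mul h3).mul h2.inv)

theorem meas_ineq {m n N : ℕ} (hm : 0 < m) (A : (Fin m → UN N) → (Fin n → UN N))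
    (hA : Continuous A)
    (P : Fin m → (Fin n → UN N) → Mt N) (hP : ∀ j, Continuous (P j)) (r : ℝ)
    (δ B : Fin m → ℝ) (hδ : ∀ j, 0 < δ j)
    (herr : ∀ j, ∀ D : Fin n → UN N, (∀ i, D i ∈ Qr N r) →
      ∫ U : Fin m ⊕ Fin n → UN N, hs2 ((U (Sum.inl j) : Mt N) -
        P j (fun i => A (Vp U) i * (U (Sum.inr i) * D i * (U (Sum.inr i))⁻¹)))
          ∂(PP (Fin m ⊕ Fin n) N) ≤ δ j)
    (hB : ∀ j, ∀ X : Mt N, (mu N).real {U | hs2 ((U : Mt N) - X) ≤ 2 * m * δ j} ≤ B j) :
    (1 / 2 : ℝ) * (mu N).real (Qr N r) ^ n ≤ ∏ j, B j := by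
  classical
  have hmR : (0:ℝ) < m := by exact_mod_cast hm
  have hB0 : ∀ j, 0 ≤ B j := fun j => le_trans measureReal_nonneg (hB j 0)
  -- the good set
  set S : Set ((Fin m → UN N) × (Fin n → UN N)) :=
    {x | ∀ j, hs2 ((x.1 j : Mt N) - P j x.2) ≤ 2 * m * δ j} with hSdef
  have hcS : ∀ j, Continuous fun x : (Fin m → UN N) × (Fin n → UN N) =>
      hs2 ((x.1 j : Mt N) - P j x.2) := by
    intro j
    refine continuous_hs2.comp ?_
    exact (continuous_subtype_val.comp ((continuous_apply j).comp continuous_fst)).sub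
      ((hP j).comp continuous_snd)
  have hSm : MeasurableSet S := by
    have : S = ⋂ j, {x | hs2 ((x.1 j : Mt N) - P j x.2) ≤ 2 * m * δ j} := by
      ext x; simp [hSdef]
    rw [this]
    exact (isClosed_iInter fun j => isClosed_le (hcS j) continuous_const).measurableSet
  set E : Set ((Fin n → UN N) × ((Fin m → UN N) × (Fin n → UN N))) :=
    {x | (x.2.1, miB A x.2.1 x.2.2 x.1) ∈ S} with hEdef
  have hEm : MeasurableSet E := by
    have hc : Continuous fun x : (Fin n → UN N) × ((Fin m → UN N) × (Fin n → UN N)) =>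
        (x.2.1, miB A x.2.1 x.2.2 x.1) :=
      (continuous_fst.comp continuous_snd).prodMk (miB_cont A hA)
    exact hc.measurable hSm
  -- upper bound
  have hupper : ((PP (Fin n) N).prod ((PP (Fin m) N).prod (PP (Fin n) N))) E ≤
      ENNReal.ofReal (∏ j, B j) := by
    rw [Measure.prod_apply_symm hEm]
    have h1 : ∀ y : (Fin m → UN N) × (Fin n → UN N),
        (PP (Fin n) N) ((fun x => (x, y)) ⁻¹' E) = (PP (Fin n) N) (Prod.mk y.1 ⁻¹' S) := by
      intro y
      have h2 : (fun x : Fin n → UN N => (x, y)) ⁻¹' E =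
          (miB A y.1 y.2) ⁻¹' (Prod.mk y.1 ⁻¹' S) := by
        ext x; rfl
      rw [h2]
      exact (miB_pres A y.1 y.2).measure_preimage
        (measurable_prodMk_left hSm).nullMeasurableSet
    simp only [h1]
    have h3 : ∫⁻ y, (PP (Fin n) N) (Prod.mk y.1 ⁻¹' S) ∂((PP (Fin m) N).prod (PP (Fin n) N)) =
        ∫⁻ V, (PP (Fin n) N) (Prod.mk V ⁻¹' S) ∂(PP (Fin m) N) :=
      (measurePreserving_fst (μ := PP (Fin m) N) (ν := PP (Fin n) N)).lintegral_comp
        (measurable_measure_prodMk_left hSm)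
    rw [h3, ← Measure.prod_apply hSm, Measure.prod_apply_symm hSm]
    have h4 : ∀ b : Fin n → UN N, (PP (Fin m) N) ((fun V => (V, b)) ⁻¹' S) ≤
        ENNReal.ofReal (∏ j, B j) := by
      intro b
      have h5 : (fun V : Fin m → UN N => (V, b)) ⁻¹' S =
          Set.pi Set.univ (fun j => {U : UN N | hs2 ((U : Mt N) - P j b) ≤ 2 * m * δ j}) := by
        ext V; simp [hSdef]
      rw [h5, Measure.pi_pi, ENNReal.ofReal_prod_of_nonneg (fun j _ => hB0 j)]
      refine Finset.prod_le_prod' (fun j _ => ?_)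
      rw [← ofReal_measureReal]
      exact ENNReal.ofReal_le_ofReal (hB j _)
    calc ∫⁻ b, (PP (Fin m) N) ((fun V => (V, b)) ⁻¹' S) ∂(PP (Fin n) N)
        ≤ ∫⁻ _b, ENNReal.ofReal (∏ j, B j) ∂(PP (Fin n) N) := lintegral_mono h4
      _ = ENNReal.ofReal (∏ j, B j) := by
          rw [lintegral_const, measure_univ, mul_one]
  -- lower bound for fixed D
  have hfix : ∀ D : Fin n → UN N, (∀ i, D i ∈ Qr N r) →
      (2⁻¹ : ENNReal) ≤ ((PP (Fin m) N).prod (PP (Fin n) N)) (Prod.mk D ⁻¹' E) := by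
    intro D hD
    set f : Fin m → (Fin m ⊕ Fin n → UN N) → ℝ := fun j U =>
      hs2 ((U (Sum.inl j) : Mt N) -
        P j (fun i => A (Vp U) i * (U (Sum.inr i) * D i * (U (Sum.inr i))⁻¹))) with hf
    have hfc : ∀ j, Continuous (f j) := by
      intro j
      refine continuous_hs2.comp ?_
      refine (continuous_subtype_val.comp (continuous_apply (Sum.inl j))).sub ((hP j).comp ?_)
      refine continuous_pi (fun i => ?_)
      have hV : Continuous fun U : Fin m ⊕ Fin n → UN N => Vp U :=
        continuous_pi fun j => continuous_apply (Sum.inl j)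
      exact ((continuous_apply i).comp (hA.comp hV)).mul
        (((continuous_apply (Sum.inr i)).mul continuous_const).mul
          (continuous_apply (Sum.inr i)).inv)
    have hbad : ∀ j, (PP (Fin m ⊕ Fin n) N).real {U | 2 * m * δ j ≤ f j U} ≤ 1 / (2 * m) := by
      intro j
      have h1 := mul_meas_ge_le_integral_of_nonneg (μ := PP (Fin m ⊕ Fin n) N) (f := f j)
        (Filter.Eventually.of_forall fun U => hs2_nonneg _) (integrable_cont (hfc j))
        (2 * m * δ j)
      have h2 := h1.trans (herr j D hD)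
      have h3 : 0 < 2 * m * δ j := by have := hδ j; positivity
      rw [le_div_iff₀ (by positivity)]
      have h4 : 2 * m * δ j * (PP (Fin m ⊕ Fin n) N).real {U | 2 * m * δ j ≤ f j U} ≤ δ j := h2
      have h5 := hδ j
      nlinarith
    set G : Set (Fin m ⊕ Fin n → UN N) := {U | ∀ j, f j U ≤ 2 * m * δ j} with hG
    have hGm : MeasurableSet G := by
      have : G = ⋂ j, {U | f j U ≤ 2 * m * δ j} := by ext x; simp [hG]
      rw [this]
      exact (isClosed_iInter fun j => isClosed_le (hfc j) continuous_const).measurableSet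
    have hGc : (PP (Fin m ⊕ Fin n) N).real Gᶜ ≤ 1 / 2 := by
      have h1 : Gᶜ ⊆ ⋃ j, {U | 2 * m * δ j ≤ f j U} := by
        intro U hU
        simp only [hG, Set.mem_compl_iff, Set.mem_ofPred_eq, not_forall, not_le] at hU
        obtain ⟨j, hj⟩ := hU
        exact Set.mem_iUnion.2 ⟨j, hj.le⟩
      calc (PP (Fin m ⊕ Fin n) N).real Gᶜ
          ≤ (PP (Fin m ⊕ Fin n) N).real (⋃ j, {U | 2 * m * δ j ≤ f j U}) :=
            measureReal_mono h1
        _ ≤ ∑ j, (PP (Fin m ⊕ Fin n) N).real {U | 2 * m * δ j ≤ f j U} :=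
            measureReal_iUnion_fintype_le _
        _ ≤ ∑ _j : Fin m, (1 / (2 * m) : ℝ) := Finset.sum_le_sum fun j _ => hbad j
        _ = 1 / 2 := by
            rw [Finset.sum_const, Finset.card_univ, Fintype.card_fin, nsmul_eq_mul]
            field_simp
    have hGr : (1 / 2 : ℝ) ≤ (PP (Fin m ⊕ Fin n) N).real G := by
      have h1 := probReal_compl_eq_one_sub (μ := PP (Fin m ⊕ Fin n) N) hGm
      linarith
    have hmp := measurePreserving_sumPiEquivProdPi (ι := Fin m) (ι' := Fin n)
      (X := fun _ => UN N) (fun _ => mu N)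
    have hpre : (MeasurableEquiv.sumPiEquivProdPi (fun _ : Fin m ⊕ Fin n => UN N)) ⁻¹'
        (Prod.mk D ⁻¹' E) = G := by
      ext U
      rfl
    have hEq : ((PP (Fin m) N).prod (PP (Fin n) N)) (Prod.mk D ⁻¹' E) =
        (PP (Fin m ⊕ Fin n) N) G := by
      rw [← hpre]
      exact (hmp.measure_preimage (measurable_prodMk_left hEm).nullMeasurableSet).symm
    rw [hEq, ← ofReal_measureReal]
    have : (2⁻¹ : ENNReal) = ENNReal.ofReal (1 / 2) := by
      rw [one_div, ENNReal.ofReal_inv_of_pos (by norm_num)]; norm_num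
    rw [this]
    exact ENNReal.ofReal_le_ofReal hGr
  -- lower bound
  have hQm : MeasurableSet (Qr N r) := by
    have h1 : Continuous fun D : UN N => hs2 ((D : Mt N) - 1) :=
      continuous_hs2.comp (continuous_subtype_val.sub continuous_const)
    have h2 : Continuous fun D : UN N => |(ntr (D : Mt N)).im| :=
      (Complex.continuous_im.comp (continuous_ntr.comp continuous_subtype_val)).abs
    have : Qr N r = {D : UN N | hs2 ((D : Mt N) - 1) ≤ r ^ 2} ∩
        {D : UN N | |(ntr (D : Mt N)).im| ≤ (N : ℝ)⁻¹} := by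
      ext D; rfl
    rw [this]
    exact ((isClosed_le h1 continuous_const).inter
      (isClosed_le h2 continuous_const)).measurableSet
  set Qn : Set (Fin n → UN N) := Set.pi Set.univ (fun _ => Qr N r) with hQn
  have hQnm : MeasurableSet Qn := MeasurableSet.univ_pi fun _ => hQm
  have hlower : (2⁻¹ : ENNReal) * (mu N (Qr N r)) ^ n ≤
      ((PP (Fin n) N).prod ((PP (Fin m) N).prod (PP (Fin n) N))) E := by
    rw [Measure.prod_apply hEm]
    have h1 : (PP (Fin n) N) Qn = (mu N (Qr N r)) ^ n := by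
      rw [hQn, Measure.pi_pi, Finset.prod_const, Finset.card_univ, Fintype.card_fin]
    calc (2⁻¹ : ENNReal) * (mu N (Qr N r)) ^ n = ∫⁻ _D in Qn, (2⁻¹ : ENNReal) ∂(PP (Fin n) N) := by
          rw [setLIntegral_const, h1]
      _ ≤ ∫⁻ D in Qn, ((PP (Fin m) N).prod (PP (Fin n) N)) (Prod.mk D ⁻¹' E) ∂(PP (Fin n) N) :=
          setLIntegral_mono' hQnm (fun D hD => hfix D (fun i => hD i (Set.mem_univ i)))
      _ ≤ ∫⁻ D, ((PP (Fin m) N).prod (PP (Fin n) N)) (Prod.mk D ⁻¹' E) ∂(PP (Fin n) N) :=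
          setLIntegral_le_lintegral _ _
  have hfin := hlower.trans hupper
  have h6 : (2⁻¹ : ENNReal) * (mu N (Qr N r)) ^ n =
      ENNReal.ofReal ((1 / 2 : ℝ) * (mu N).real (Qr N r) ^ n) := by
    rw [ENNReal.ofReal_mul (by norm_num), ENNReal.ofReal_pow measureReal_nonneg,
      ofReal_measureReal]
    congr 1
    rw [one_div, ENNReal.ofReal_inv_of_pos (by norm_num)]; norm_num
  rw [h6] at hfin
  exact (ENNReal.ofReal_le_ofReal_iff (Finset.prod_nonneg fun j _ => hB0 j)).1 hfin

end Pool.Agent.H710R2.FF
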