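import Mathlib
import Pool.Agent.H710R2.FF.Defs2
import Pool.Agent.H710R2.FF.Basic
import Pool.Agent.H710R2.FF.Bl

set_option autoImplicit false
set_option linter.unusedSectionVars false

open MeasureTheory
open scoped ComplexConjugate InnerProductSpace

noncomputable section

namespace Pool.Agent.H710R2.FF

namespace QrAux

/-- argument of a number close to one -/
theorem abs_arg_le (z : ℂ) (ρ : ℝ) (hρ : ρ ≤ 1 / 4) (hz : ‖z - 1‖ ≤ ρ) :
    |Complex.arg z| ≤ 3 * ρ / 1 * (11 / 15) := by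
  have h0 : 0 ≤ ρ := le_trans (norm_nonneg _) hz
  have hre : |z.re - 1| ≤ ρ := by
    have := Complex.abs_re_le_norm (z - 1)
    simp at this
    linarith
  have him : |z.im| ≤ ρ := by
    have := Complex.abs_im_le_norm (z - 1)
    simp at this
    linarith
  have hre2 : 3 / 4 ≤ z.re := by
    have := (abs_le.1 hre).1
    linarith
  have hn : 3 / 4 ≤ ‖z‖ := le_trans hre2 (Complex.re_le_norm z)
  have hpi : |Complex.arg z| ≤ Real.pi / 2 :=
    Complex.abs_arg_le_pi_div_two_iff.2 (by linarith)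
  have hs : Real.sin |Complex.arg z| ≤ 4 / 3 * ρ := by
    have h1 : Real.sin |Complex.arg z| ≤ |Real.sin (Complex.arg z)| := by
      rcases abs_cases (Complex.arg z) with ⟨h, _⟩ | ⟨h, _⟩
      · rw [h]; exact le_abs_self _
      · rw [h, Real.sin_neg]; exact neg_le_abs _
    rw [Complex.sin_arg, abs_div, abs_of_nonneg (norm_nonneg z)] at h1
    refine h1.trans ?_
    rw [div_le_iff₀ (by linarith)]
    nlinarith
  have h2 := Real.mul_le_sin (abs_nonneg (Complex.arg z)) hpi
  have hp := Real.pi_lt_d2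
  have hp0 := Real.pi_pos
  have h3 : |Complex.arg z| ≤ Real.pi / 2 * (4 / 3 * ρ) := by
    have h4 : 2 / Real.pi * |Complex.arg z| ≤ 4 / 3 * ρ := h2.trans hs
    have h5 : Real.pi / 2 * (2 / Real.pi * |Complex.arg z|) ≤ Real.pi / 2 * (4 / 3 * ρ) :=
      mul_le_mul_of_nonneg_left h4 (by positivity)
    have h6 : Real.pi / 2 * (2 / Real.pi * |Complex.arg z|) = |Complex.arg z| := by
      field_simp
    linarith
  nlinarith

/-- the scalar unitary matrix of phase `α` -/
def sc (N : ℕ) (α : ℝ) : UN N := ⟨Complex.exp (Complex.I * α) • (1 : Mt N), by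
  rw [Matrix.mem_unitaryGroup_iff, star_smul, star_one, smul_mul_smul_comm, one_mul]
  have : Complex.exp (Complex.I * α) * star (Complex.exp (Complex.I * α)) = 1 := by
    have h1 : star (Complex.exp (Complex.I * α)) = Complex.exp (-(Complex.I * α)) := by
      rw [Complex.star_def, ← Complex.exp_conj, map_mul, Complex.conj_I, Complex.conj_ofReal,
        neg_mul]
    rw [h1, ← Complex.exp_add, add_neg_cancel, Complex.exp_zero]
  rw [this, one_smul]⟩

theorem coe_sc_mul (N : ℕ) (α : ℝ) (U : UN N) :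
    ((sc N α * U : UN N) : Mt N) = Complex.exp (Complex.I * α) • (U : Mt N) := by
  rw [Submonoid.coe_mul]
  show (Complex.exp (Complex.I * α) • (1 : Mt N)) * (U : Mt N) = _
  rw [smul_mul_assoc, one_mul]

end QrAux

open QrAux

theorem Qr_lower : ∃ c : ℝ, 0 < c ∧ ∀ r : ℝ, 0 < r → r ≤ 1 → ∃ N₀ : ℕ, ∀ N ≥ N₀,
    (c * r) ^ (N ^ 2) / (8 * N) ≤ (mu N).real (Qr N r) := by
  obtain ⟨c0, hc0, hball⟩ := ball_lower
  refine ⟨c0 / 4, by positivity, fun r hr hr1 => ?_⟩
  obtain ⟨M, hM⟩ := exists_nat_gt (5 / r)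
  refine ⟨M + 1, fun N hN => ?_⟩
  have hN0 : 0 < N := by omega
  have hN1 : (0 : ℝ) < N := by exact_mod_cast hN0
  have hNr : 5 < r * N := by
    have h1 : 5 / r < N := lt_of_lt_of_le hM (by exact_mod_cast (by omega : M ≤ N))
    rw [div_lt_iff₀ hr] at h1
    linarith
  set B : Set (UN N) := {U | hs2 ((U : Mt N) - 1) ≤ (r / 4) ^ 2} with hB
  have h1 := hball N hN0 (r / 4) (by positivity) (by linarith)
  -- covering
  have hcov : B ⊆ ⋃ k ∈ Finset.range (2 * N),
      (fun U => sc N (-((((k : ℕ) : ℝ) - N + 1 / 2) / N)) * U) ⁻¹' Qr N r := by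
    intro U hU
    have hU' : hs2 ((U : Mt N) - 1) ≤ (r / 4) ^ 2 := hU
    set z := ntr (U : Mt N) with hz
    have hz1 : ‖z - 1‖ ≤ r / 4 := by
      have h2 : z - 1 = ntr ((U : Mt N) - 1) := by rw [ntr_sub, ntr_one hN0]
      have h3 := norm_ntr_sq_le ((U : Mt N) - 1)
      rw [← h2] at h3
      exact abs_le_of_sq_le_sq' (h3.trans hU') (by positivity) |>.2
    have harg := abs_arg_le z (r / 4) (by linarith) hz1
    set θ := Complex.arg z with hθ
    have hθ1 : |θ| ≤ 11 / 20 * r := by linarith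
    have hθ2 := abs_le.1 hθ1
    set q : ℤ := ⌊θ * N⌋ with hq
    have hq1 : (q : ℝ) ≤ θ * N := Int.floor_le _
    have hq2 : θ * N < q + 1 := Int.lt_floor_add_one _
    have hqN : -(N : ℤ) ≤ q := by
      rw [hq, Int.le_floor]
      push_cast
      nlinarith [hθ2.1]
    have hqN2 : q < N := by
      rw [hq, Int.floor_lt]
      push_cast
      nlinarith [hθ2.2]
    obtain ⟨k, hk⟩ : ∃ k : ℕ, (k : ℤ) = q + N := ⟨(q + N).toNat, Int.toNat_of_nonneg (by omega)⟩
    have hk2 : k < 2 * N := by omega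
    have hkR : ((k : ℝ)) - N = q := by
      have : ((k : ℤ) : ℝ) = q + N := by rw [hk]; push_cast; ring
      push_cast at this
      linarith
    rw [Set.mem_iUnion₂]
    refine ⟨k, Finset.mem_range.2 hk2, ?_⟩
    rw [Set.mem_preimage, hkR]
    set α : ℝ := ((q : ℝ) + 1 / 2) / N with hα
    have hαN : α * N = q + 1 / 2 := by rw [hα]; field_simp
    have hdiff : |θ - α| ≤ (N : ℝ)⁻¹ / 2 := by
      rw [abs_le]
      constructor
      · have : -((N : ℝ)⁻¹ / 2) * N ≤ (θ - α) * N := by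
          have h5 : (N : ℝ)⁻¹ * N = 1 := inv_mul_cancel₀ hN1.ne'
          nlinarith
        exact le_of_mul_le_mul_right this hN1
      · have : (θ - α) * N ≤ ((N : ℝ)⁻¹ / 2) * N := by
          have h5 : (N : ℝ)⁻¹ * N = 1 := inv_mul_cancel₀ hN1.ne'
          nlinarith
        exact le_of_mul_le_mul_right this hN1
    have hzn : ‖z‖ ≤ 1 := (norm_ntr_le _).trans (opn_unitary U)
    have hinv : (N : ℝ)⁻¹ < r / 5 := by
      rw [inv_lt_comm₀ hN1 (by positivity), inv_div, div_lt_iff₀ hr]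
      linarith
    refine ⟨?_, ?_⟩
    · -- distance
      have h6 : ((sc N (-α) * U : UN N) : Mt N) - 1 =
          Complex.exp (Complex.I * ((-α : ℝ) : ℂ)) • ((U : Mt N) - 1) +
            (Complex.exp (Complex.I * ((-α : ℝ) : ℂ)) - 1) • (1 : Mt N) := by
        rw [coe_sc_mul, smul_sub, sub_smul, one_smul]
        abel
      have h7 : √(hs2 (((sc N (-α) * U : UN N) : Mt N) - 1)) ≤ r / 4 + |α| := by
        rw [h6]
        refine (sqrt_hs2_add _ _).trans (add_le_add ?_ ?_)
        · rw [hs2_smul, Complex.norm_exp_I_mul_ofReal, one_pow, one_mul]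
          exact Real.sqrt_le_iff.2 ⟨by positivity, hU'⟩
        · rw [hs2_smul]
          have h8 : hs2 (1 : Mt N) ≤ 1 := (hs2_le_opn _).trans
            (pow_le_one₀ (opn_nonneg _) opn_one)
          have h9 : ‖Complex.exp (Complex.I * ((-α : ℝ) : ℂ)) - 1‖ ≤ |α| := by
            have := Real.norm_exp_I_mul_ofReal_sub_one_le (x := -α)
            rwa [Real.norm_eq_abs, abs_neg] at this
          refine Real.sqrt_le_iff.2 ⟨abs_nonneg _, ?_⟩
          calc ‖Complex.exp (Complex.I * ((-α : ℝ) : ℂ)) - 1‖ ^ 2 * hs2 (1 : Mt N)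
              ≤ |α| ^ 2 * 1 := mul_le_mul (pow_le_pow_left₀ (norm_nonneg _) h9 2) h8
                (hs2_nonneg _) (by positivity)
            _ = |α| ^ 2 := mul_one _
      have h10 : |α| ≤ 11 / 20 * r + (N : ℝ)⁻¹ / 2 := by
        have h11 : |α| ≤ |θ| + |θ - α| := by
          have := abs_sub_abs_le_abs_sub α θ
          rw [abs_sub_comm α θ] at this
          linarith
        linarith
      have h12 : √(hs2 (((sc N (-α) * U : UN N) : Mt N) - 1)) ≤ r := by linarith
      exact (Real.sqrt_le_left hr.le).1 h12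
    · -- imaginary part
      rw [coe_sc_mul, ntr_smul, ← hz]
      have h13 : Complex.exp (Complex.I * ((-α : ℝ) : ℂ)) * z =
          ((‖z‖ : ℝ) : ℂ) * Complex.exp (((θ - α : ℝ) : ℂ) * Complex.I) := by
        conv_lhs => rw [← Complex.norm_mul_exp_arg_mul_I z]
        rw [← hθ, mul_left_comm, ← Complex.exp_add]
        congr 2
        push_cast
        ring
      rw [h13, Complex.im_ofReal_mul, Complex.exp_ofReal_mul_I_im, abs_mul, abs_of_nonneg (norm_nonneg z)]
      have h14 : |Real.sin (θ - α)| ≤ |θ - α| := Real.abs_sin_le_abs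
      have h15 : ‖z‖ * |Real.sin (θ - α)| ≤ 1 * ((N : ℝ)⁻¹ / 2) :=
        mul_le_mul hzn (h14.trans hdiff) (abs_nonneg _) zero_le_one
      have h16 : (0 : ℝ) < (N : ℝ)⁻¹ := inv_pos.2 hN1
      linarith
  have hmeas : (mu N).real B ≤ 2 * N * (mu N).real (Qr N r) := by
    have h2 : mu N B ≤ ∑ k ∈ Finset.range (2 * N), mu N (Qr N r) := by
      refine (measure_mono hcov).trans ((measure_biUnion_finset_le _ _).trans ?_)
      refine Finset.sum_le_sum fun k _ => ?_
      rw [measure_preimage_mul]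
    rw [Finset.sum_const, Finset.card_range, nsmul_eq_mul] at h2
    have h3 : (mu N B).toReal ≤ (((2 * N : ℕ) : ENNReal) * mu N (Qr N r)).toReal :=
      ENNReal.toReal_mono (ENNReal.mul_ne_top (ENNReal.natCast_ne_top _) (measure_ne_top _ _)) h2
    rw [ENNReal.toReal_mul, ENNReal.toReal_natCast] at h3
    push_cast at h3
    exact h3
  rw [div_le_iff₀ (by positivity)]
  have h17 : (c0 / 4 * r) ^ N ^ 2 = (c0 * (r / 4)) ^ N ^ 2 := by ring_nf
  rw [h17]
  have h18 : 0 ≤ (mu N).real (Qr N r) := measureReal_nonneg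
  calc (c0 * (r / 4)) ^ N ^ 2 ≤ (mu N).real B := h1
    _ ≤ 2 * N * (mu N).real (Qr N r) := hmeas
    _ ≤ (mu N).real (Qr N r) * (8 * N) := by nlinarith

end Pool.Agent.H710R2.FF
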