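import Mathlib
import Pool.Agent.H710R2.FF.Defs2
import Pool.Agent.H710R2.FF.Basic
import Pool.Agent.H710R2.FF.Err
import Pool.Agent.H710R2.FF.Mi
import Pool.Agent.H710R2.FF.Qr
import Pool.Agent.H710R2.FF.Bu
import Pool.Agent.H710R2.FF.Rc

set_option autoImplicit false
set_option linter.unusedSectionVars false

open MeasureTheory
open scoped ComplexConjugate InnerProductSpace
open Pool.Agent.Helper278 Pool.Agent.Helper436.SN

noncomputable section

namespace Pool.Agent.H710R2.FF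

namespace MainAux

open Filter Topology

theorem limit_ineq (X Y : ℝ) (hX : 0 < X) (hY : 0 < Y) (n : ℕ) (N₁ : ℕ)
    (h : ∀ N : ℕ, N₁ ≤ N → (1 / 2 : ℝ) * (Y ^ (N ^ 2) / (8 * (N : ℝ)) ^ n) ≤ X ^ (N ^ 2 - N)) :
    Y ≤ X := by
  have hlog : ∀ᶠ N : ℕ in atTop, Real.log (1 / 2) / (N : ℝ) ^ 2 + Real.log Y -
      n * (Real.log 8 / (N : ℝ) ^ 2 + Real.log (N : ℝ) / (N : ℝ) ^ 2) ≤
      (1 - 1 / (N : ℝ)) * Real.log X := by
    filter_upwards [eventually_ge_atTop (max N₁ 1)] with N hN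
    have hN1 : N₁ ≤ N := le_trans (le_max_left _ _) hN
    have hN0 : 1 ≤ N := le_trans (le_max_right _ _) hN
    have hNR : (0 : ℝ) < N := by exact_mod_cast hN0
    have h1 := h N hN1
    have h2 := Real.log_le_log (by positivity) h1
    rw [Real.log_mul (by norm_num) (by positivity),
      Real.log_div (x := Y ^ (N ^ 2)) (by positivity) (by positivity),
      Real.log_pow, Real.log_pow, Real.log_pow, Real.log_mul (by norm_num) hNR.ne'] at h2
    have h3 : ((N ^ 2 - N : ℕ) : ℝ) = (N : ℝ) ^ 2 - N := by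
      rw [Nat.cast_sub (by nlinarith)]
      push_cast
      ring
    rw [h3] at h2
    push_cast at h2
    have h4 : Real.log (1 / 2) / (N : ℝ) ^ 2 + Real.log Y -
      n * (Real.log 8 / (N : ℝ) ^ 2 + Real.log (N : ℝ) / (N : ℝ) ^ 2) =
      (Real.log (1 / 2) + ((N : ℝ) ^ 2 * Real.log Y - n * (Real.log 8 + Real.log N))) /
        (N : ℝ) ^ 2 := by
      field_simp
      ring
    have h5 : (1 - 1 / (N : ℝ)) * Real.log X = (((N : ℝ) ^ 2 - N) * Real.log X) / (N : ℝ) ^ 2 := by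
      field_simp
    rw [h4, h5]
    exact div_le_div_of_nonneg_right h2 (by positivity)
  have hT1 : Tendsto (fun N : ℕ => (1 : ℝ) / (N : ℝ)) atTop (𝓝 0) :=
    tendsto_one_div_atTop_nhds_zero_nat
  have hT2 : Tendsto (fun N : ℕ => (1 : ℝ) / (N : ℝ) ^ 2) atTop (𝓝 0) := by
    have := hT1.mul hT1
    simp only [mul_zero] at this
    refine this.congr fun N => ?_
    ring
  have hT3 : Tendsto (fun N : ℕ => Real.log (N : ℝ) / (N : ℝ) ^ 2) atTop (𝓝 0) := by
    have h1 : Tendsto (fun x : ℝ => Real.log x / x ^ 2) atTop (𝓝 0) := by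
      have := (isLittleO_log_rpow_atTop (r := 2) (by norm_num)).tendsto_div_nhds_zero
      refine this.congr fun x => ?_
      norm_num
    exact h1.comp tendsto_natCast_atTop_atTop
  have hL : Tendsto (fun N : ℕ => Real.log (1 / 2) / (N : ℝ) ^ 2 + Real.log Y -
      n * (Real.log 8 / (N : ℝ) ^ 2 + Real.log (N : ℝ) / (N : ℝ) ^ 2)) atTop
      (𝓝 (Real.log (1 / 2) * 0 + Real.log Y - n * (Real.log 8 * 0 + 0))) := by
    refine Tendsto.sub (Tendsto.add ?_ tendsto_const_nhds) (Tendsto.const_mul _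
      (Tendsto.add ?_ hT3))
    · refine (hT2.const_mul (Real.log (1 / 2))).congr fun N => ?_
      ring
    · refine (hT2.const_mul (Real.log 8)).congr fun N => ?_
      ring
  have hR : Tendsto (fun N : ℕ => (1 - 1 / (N : ℝ)) * Real.log X) atTop
      (𝓝 ((1 - 0) * Real.log X)) := (tendsto_const_nhds.sub hT1).mul_const _
  have h6 := le_of_tendsto_of_tendsto hL hR hlog
  have h7 : Real.log Y ≤ Real.log X := by linarith
  exact (Real.log_le_log_iff hY hX).1 h7

theorem finite_norm_lt (n K : ℕ) : {g : FreeGroup (Fin n) | g.norm < K}.Finite := by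
  have h1 : {l : List (Fin n × Bool) | l.length < K}.Finite := List.finite_length_lt _ K
  exact (h1.preimage (FreeGroup.toWord_injective.injOn)).subset fun g hg => hg

variable {n m : ℕ}

theorem En_eq (a : Fin n → EllTwo (FreeGroup (Fin m)) →L[ℂ] EllTwo (FreeGroup (Fin m)))
    (t : ℝ) (ht : 0 < t) : ∃ S : Finset (FreeGroup (Fin n)), ∀ j : Fin m,
      En a j t = 1 - ∑ g ∈ S, (1 - t * (g.norm : ℝ)) * ‖coef a j g‖ ^ 2 := by
  obtain ⟨K, hK⟩ := exists_nat_gt (1 / t)
  have hfin : {g : FreeGroup (Fin n) | t * (g.norm : ℝ) < 1}.Finite := by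
    refine (finite_norm_lt n K).subset fun g hg => ?_
    have hg' : t * (g.norm : ℝ) < 1 := hg
    have h1 : (g.norm : ℝ) < 1 / t := by
      rw [lt_div_iff₀ ht]
      linarith
    exact_mod_cast h1.trans hK
  refine ⟨hfin.toFinset, fun j => ?_⟩
  unfold En
  rw [tsum_eq_sum (s := hfin.toFinset)]
  · congr 1
    refine Finset.sum_congr rfl fun g hg => ?_
    rw [Set.Finite.mem_toFinset] at hg
    have hg' : t * (g.norm : ℝ) < 1 := hg
    rw [max_eq_right (by linarith)]
  · intro g hg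
    rw [Set.Finite.mem_toFinset] at hg
    have hg' : ¬ t * (g.norm : ℝ) < 1 := hg
    rw [max_eq_left (by linarith [not_lt.1 hg']), zero_mul]

theorem one_mem_Qr (N : ℕ) (r : ℝ) : (1 : UN N) ∈ Qr N r := by
  refine ⟨?_, ?_⟩
  · have : ((1 : UN N) : Mt N) - 1 = 0 := by
      rw [Submonoid.coe_one, sub_self]
    rw [this, hs2_zero]
    positivity
  · have : (ntr ((1 : UN N) : Mt N)).im = 0 := by
      rcases Nat.eq_zero_or_pos N with h | h
      · subst h
        simp [ntr]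
      · rw [Submonoid.coe_one, ntr_one h]
        rfl
    rw [this, abs_zero]
    positivity

end MainAux

open MainAux Filter Topology

theorem main (n m : ℕ) (hm : 0 < m) : ∃ c : ℝ, 0 < c ∧
    ∀ a : Fin n → EllTwo (FreeGroup (Fin m)) →L[ℂ] EllTwo (FreeGroup (Fin m)), FreeHaar a →
      ∀ t : ℝ, 0 < t → t ≤ 1 → c * t ^ n ≤ ∏ j, En a j t := by
  obtain ⟨c1, hc1, hQ⟩ := Qr_lower
  obtain ⟨C2, hC2, hU⟩ := ball_upper
  have hmR : (0 : ℝ) < m := by exact_mod_cast hm
  have hC20 : (0 : ℝ) < C2 := by linarith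
  refine ⟨c1 ^ (2 * n) / (2 * m * C2 ^ 2) ^ m, by positivity, fun a ha t ht ht1 => ?_⟩
  obtain ⟨S, hS⟩ := En_eq a t ht
  set r := √t with hr
  have hr0 : 0 < r := Real.sqrt_pos.2 ht
  have hr1 : r ≤ 1 := Real.sqrt_le_one.2 ht1
  have hr2 : r ^ 2 = t := Real.sq_sqrt ht.le
  have herr : ∀ ε : ℝ, 0 < ε → ∃ N₀ : ℕ, ∀ N ≥ N₀,
      ∃ A : (Fin m → UN N) → (Fin n → UN N), Continuous A ∧
      ∃ P : Fin m → (Fin n → UN N) → Mt N, (∀ j, Continuous (P j)) ∧
      ∀ j, ∀ D : Fin n → UN N, (∀ i, D i ∈ Qr N r) →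
      ∫ U : Fin m ⊕ Fin n → UN N, hs2 ((U (Sum.inl j) : Mt N) -
        P j (fun i => A (Vp U) i * (U (Sum.inr i) * D i * (U (Sum.inr i))⁻¹)))
          ∂(PP (Fin m ⊕ Fin n) N) ≤ En a j t + ε := by
    intro ε hε
    obtain ⟨N₀, h⟩ := err_limit a ha S r ε hr0 hr1 hε
    refine ⟨N₀, fun N hN => ?_⟩
    obtain ⟨A, hA, P, hP, h2⟩ := h N hN
    refine ⟨A, hA, P, hP, fun j D hD => ?_⟩
    have h3 := h2 j D hD
    rw [hS j]
    rw [hr2] at h3
    exact h3
  have hEn : ∀ j, 0 ≤ En a j t := by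
    intro j
    refine le_of_forall_pos_le_add fun ε hε => ?_
    obtain ⟨N₀, h⟩ := herr ε hε
    obtain ⟨A, hA, P, hP, h2⟩ := h N₀ le_rfl
    have h3 := h2 j (fun _ => 1) (fun _ => one_mem_Qr _ _)
    exact (integral_nonneg fun U => hs2_nonneg _).trans h3
  have key : ∀ ε : ℝ, 0 < ε →
      c1 ^ (2 * n) / (2 * m * C2 ^ 2) ^ m * t ^ n ≤ ∏ j, (En a j t + ε) := by
    intro ε hε
    have hδ : ∀ j, 0 < En a j t + ε := fun j => by linarith [hEn j]
    obtain ⟨N₀, hN₀⟩ := herr ε hε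
    obtain ⟨N₁, hN₁⟩ := hQ r hr0 hr1
    set X : ℝ := ∏ j, (C2 * √(2 * m * (En a j t + ε))) with hX
    have hX0 : 0 < X := Finset.prod_pos fun j _ => by
      have := hδ j
      positivity
    have hle : (c1 * r) ^ n ≤ X := by
      refine limit_ineq X ((c1 * r) ^ n) hX0 (by positivity) n (max (max N₀ N₁) 2) ?_
      intro N hN
      have hNa : N₀ ≤ N := le_trans (le_trans (le_max_left _ _) (le_max_left _ _)) hN
      have hNb : N₁ ≤ N := le_trans (le_trans (le_max_right _ _) (le_max_left _ _)) hN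
      have hNc : 2 ≤ N := le_trans (le_max_right _ _) hN
      obtain ⟨A, hA, P, hP, h2⟩ := hN₀ N hNa
      have h3 := meas_ineq hm A hA P hP r (fun j => En a j t + ε)
        (fun j => (C2 * √(2 * m * (En a j t + ε))) ^ (N ^ 2 - N)) hδ h2 (by
          intro j X'
          have hpos : 0 < 2 * m * (En a j t + ε) := by
            have := hδ j
            positivity
          have h4 := hU N hNc X' (√(2 * m * (En a j t + ε))) (Real.sqrt_pos.2 hpos)
          rw [Real.sq_sqrt hpos.le] at h4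
          exact h4)
      rw [Finset.prod_pow, ← hX] at h3
      have h5 := hN₁ N hNb
      have hNR : (0 : ℝ) < N := by exact_mod_cast (by omega : 0 < N)
      have h6 : ((c1 * r) ^ (N ^ 2) / (8 * N)) ^ n ≤ (mu N).real (Qr N r) ^ n :=
        pow_le_pow_left₀ (by positivity) h5 n
      have h7 : ((c1 * r) ^ n) ^ (N ^ 2) / (8 * (N : ℝ)) ^ n = ((c1 * r) ^ (N ^ 2) / (8 * N)) ^ n := by
        rw [div_pow, ← pow_mul, ← pow_mul, mul_comm n]
      rw [h7]
      calc (1 / 2 : ℝ) * ((c1 * r) ^ (N ^ 2) / (8 * N)) ^ n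
          ≤ (1 / 2 : ℝ) * (mu N).real (Qr N r) ^ n := by gcongr
        _ ≤ _ := h3
    have hsq : ((c1 * r) ^ n) ^ 2 ≤ X ^ 2 := pow_le_pow_left₀ (by positivity) hle 2
    have hY2 : ((c1 * r) ^ n) ^ 2 = c1 ^ (2 * n) * t ^ n := by
      rw [← hr2]
      ring
    have hX2 : X ^ 2 = (2 * m * C2 ^ 2) ^ m * ∏ j, (En a j t + ε) := by
      rw [hX, ← Finset.prod_pow]
      have : ∀ j : Fin m, (C2 * √(2 * m * (En a j t + ε))) ^ 2 =
          (2 * m * C2 ^ 2) * (En a j t + ε) := by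
        intro j
        have hpos : 0 ≤ 2 * m * (En a j t + ε) := by
          have := hδ j
          positivity
        rw [mul_pow, Real.sq_sqrt hpos]
        ring
      rw [Finset.prod_congr rfl fun j _ => this j, Finset.prod_mul_distrib, Finset.prod_const,
        Finset.card_univ, Fintype.card_fin]
    rw [hY2, hX2] at hsq
    rw [div_mul_eq_mul_div, div_le_iff₀ (by positivity)]
    linarith
  have hcont : Tendsto (fun ε : ℝ => ∏ j, (En a j t + ε)) (𝓝[>] 0) (𝓝 (∏ j, (En a j t + 0))) := by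
    refine tendsto_nhdsWithin_of_tendsto_nhds ?_
    exact (continuous_finsetProd _ fun j _ => continuous_const.add continuous_id).tendsto 0
  simp only [add_zero] at hcont
  refine ge_of_tendsto hcont ?_
  filter_upwards [self_mem_nhdsWithin] with ε hε
  exact key ε hε

end Pool.Agent.H710R2.FF
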