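import Mathlib
import Pool.Agent.H710R2.FF.Defs

set_option autoImplicit false

open MeasureTheory

noncomputable section

namespace Pool.Agent.H710R2.FF

namespace Sob

lemma min_le_rpow (y a : ℝ) (hy : 0 ≤ y) (ha0 : 0 ≤ a) (ha1 : a ≤ 1) : min 1 y ≤ y ^ a := by
  rcases le_or_gt y 1 with h1 | h1
  · refine (min_le_right _ _).trans ?_
    rcases hy.eq_or_lt with h0 | h0
    · rw [← h0]; exact Real.rpow_nonneg le_rfl _
    · calc y = y ^ (1 : ℝ) := (Real.rpow_one y).symm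
        _ ≤ y ^ a := Real.rpow_le_rpow_of_exponent_ge h0 h1 ha1
  · exact (min_le_left _ _).trans (Real.one_le_rpow h1.le ha0)

end Sob

open Sob in
/-- numerical consequence of the product inequality -/
theorem sobolev_of_prod {n m : ℕ} (c : ℝ) (hc : 0 < c) (w : Fin m → FreeGroup (Fin n) → ℝ)
    (hw : ∀ j g, 0 ≤ w j g) (_hs : ∀ j, Summable (w j))
    (h : ∀ t : ℝ, 0 < t → t ≤ 1 → c * t ^ n ≤ ∏ j, ∑' g, min 1 (t * (g.norm : ℝ)) * w j g)
    (s : Fin m → ℝ) (hs0 : ∀ j, 0 ≤ s j) (hs1 : ∀ j, s j ≤ 1 / 2)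
    (hsum : ∀ j, Summable fun g : FreeGroup (Fin n) => (g.norm : ℝ) ^ (2 * s j) * w j g) :
    ∑ j, s j ≤ n / 2 := by
  by_contra hcon
  push Not at hcon
  set K : Fin m → ℝ := fun j => ∑' g : FreeGroup (Fin n), (g.norm : ℝ) ^ (2 * s j) * w j g with hK
  have hK0 : ∀ j, 0 ≤ K j := fun j => tsum_nonneg fun g =>
    mul_nonneg (Real.rpow_nonneg (Nat.cast_nonneg _) _) (hw j g)
  have hstep : ∀ t : ℝ, 0 < t → t ≤ 1 → ∀ j,
      ∑' g, min 1 (t * (g.norm : ℝ)) * w j g ≤ t ^ (2 * s j) * K j := by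
    intro t ht0 ht1 j
    have e : t ^ (2 * s j) * K j =
        ∑' g : FreeGroup (Fin n), t ^ (2 * s j) * ((g.norm : ℝ) ^ (2 * s j) * w j g) := by
      rw [hK, tsum_mul_left]
    rw [e]
    have hpt : ∀ g : FreeGroup (Fin n), min 1 (t * (g.norm : ℝ)) * w j g ≤
        t ^ (2 * s j) * ((g.norm : ℝ) ^ (2 * s j) * w j g) := by
      intro g
      rw [← mul_assoc, ← Real.mul_rpow ht0.le (Nat.cast_nonneg _)]
      apply mul_le_mul_of_nonneg_right _ (hw j g)
      exact min_le_rpow _ _ (mul_nonneg ht0.le (Nat.cast_nonneg _)) (by linarith [hs0 j])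
        (by linarith [hs1 j])
    have hR : Summable fun g : FreeGroup (Fin n) =>
        t ^ (2 * s j) * ((g.norm : ℝ) ^ (2 * s j) * w j g) := (hsum j).mul_left _
    apply Summable.tsum_le_tsum hpt _ hR
    apply Summable.of_nonneg_of_le _ hpt hR
    intro g
    exact mul_nonneg (le_min zero_le_one (mul_nonneg ht0.le (Nat.cast_nonneg _))) (hw j g)
  have hall : ∀ t : ℝ, 0 < t → t ≤ 1 → c * t ^ n ≤ t ^ (2 * ∑ j, s j) * ∏ j, K j := by
    intro t ht0 ht1
    refine (h t ht0 ht1).trans ?_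
    calc ∏ j, ∑' g, min 1 (t * (g.norm : ℝ)) * w j g ≤ ∏ j, (t ^ (2 * s j) * K j) := by
          apply Finset.prod_le_prod
          · intro j _
            apply tsum_nonneg
            intro g
            exact mul_nonneg (le_min zero_le_one (mul_nonneg ht0.le (Nat.cast_nonneg _))) (hw j g)
          · intro j _
            exact hstep t ht0 ht1 j
      _ = t ^ (2 * ∑ j, s j) * ∏ j, K j := by
          rw [Finset.prod_mul_distrib, Finset.mul_sum, Real.rpow_sum_of_pos ht0]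
  set δ : ℝ := 2 * ∑ j, s j - n with hδ
  have hδ0 : 0 < δ := by rw [hδ]; linarith
  set P : ℝ := ∏ j, K j with hP
  have hP0 : 0 ≤ P := Finset.prod_nonneg fun j _ => hK0 j
  have hall2 : ∀ t : ℝ, 0 < t → t ≤ 1 → c ≤ t ^ δ * P := by
    intro t ht0 ht1
    have h1 := hall t ht0 ht1
    have h2 : t ^ (2 * ∑ j, s j) = t ^ δ * t ^ n := by
      rw [← Real.rpow_natCast t n, ← Real.rpow_add ht0]
      congr 1
      rw [hδ]; ring
    rw [h2] at h1
    have h3 : 0 < t ^ n := pow_pos ht0 n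
    have h4 : c * t ^ n ≤ (t ^ δ * P) * t ^ n := by linarith [h1]
    exact le_of_mul_le_mul_right h4 h3
  set x : ℝ := c / (2 * (P + 1)) with hx
  have hx0 : 0 < x := by positivity
  set t : ℝ := min 1 (x ^ (1 / δ)) with ht
  have ht0 : 0 < t := lt_min one_pos (Real.rpow_pos_of_pos hx0 _)
  have ht1 : t ≤ 1 := min_le_left _ _
  have htx : t ^ δ ≤ x := by
    calc t ^ δ ≤ (x ^ (1 / δ)) ^ δ := Real.rpow_le_rpow ht0.le (min_le_right _ _) hδ0.le
      _ = x := by
        rw [← Real.rpow_mul hx0.le, one_div, inv_mul_cancel₀ hδ0.ne', Real.rpow_one]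
  have h5 := hall2 t ht0 ht1
  have h6 : t ^ δ * P ≤ x * P := mul_le_mul_of_nonneg_right htx hP0
  have h7 : x * P ≤ c / 2 := by
    have : x * P ≤ x * (P + 1) := by nlinarith
    have h8 : x * (P + 1) = c / 2 := by
      rw [hx]; field_simp
    linarith
  linarith

end Pool.Agent.H710R2.FF
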